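import Pool.Agent.H80.IR.Stm
set_option autoImplicit false

namespace Pool.Agent.H80.IR.COT

open Pool.Agent.H80.Sig Finset

lemma aux (f f' : ℝ → ℝ) (h0 : f 0 = 0) (hd : ∀ x, HasDerivAt f (f' x) x)
    (hp : ∀ x, 0 < x → x < 3 / 5 → 0 ≤ f' x) (x : ℝ) (hx0 : 0 ≤ x) (hx : x ≤ 3 / 5) : 0 ≤ f x := by
  have hm : MonotoneOn f (Set.Icc 0 (3 / 5)) := by
    refine monotoneOn_of_deriv_nonneg (convex_Icc _ _)
      (fun y _ => (hd y).continuousAt.continuousWithinAt)
      (fun y _ => (hd y).differentiableAt.differentiableWithinAt) ?_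
    intro y hy
    rw [interior_Icc] at hy
    rw [(hd y).deriv]
    exact hp y hy.1 hy.2
  have h1 := hm ⟨le_refl 0, by norm_num⟩ ⟨hx0, hx⟩ hx0
  rw [h0] at h1
  exact h1

lemma xcos_le {x : ℝ} (hx0 : 0 < x) (hx : x < 3 / 5) : x * Real.cos x ≤ Real.sin x := by
  have hpi := Real.pi_gt_three
  have h1 := Real.lt_tan hx0 (by linarith)
  have hc : 0 < Real.cos x := Real.cos_pos_of_mem_Ioo ⟨by linarith, by linarith⟩
  rw [Real.tan_eq_sin_div_cos, lt_div_iff₀ hc] at h1
  exact h1.le

lemma lower1 (x : ℝ) (hx0 : 0 ≤ x) (hx : x ≤ 3 / 5) :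
    0 ≤ x * Real.cos x - Real.sin x + x ^ 3 / 3 := by
  refine aux (fun x => x * Real.cos x - Real.sin x + x ^ 3 / 3)
    (fun x => x * (x - Real.sin x)) (by simp) ?_ ?_ x hx0 hx
  · intro x
    have a1 : HasDerivAt (fun x : ℝ => x * Real.cos x) (1 * Real.cos x + x * (-Real.sin x)) x :=
      (hasDerivAt_id' x).mul (Real.hasDerivAt_cos x)
    have a2 : HasDerivAt (fun x : ℝ => x ^ 3 / 3) ((3 : ℕ) * x ^ (3 - 1) / 3) x :=
      (hasDerivAt_pow 3 x).div_const 3
    refine HasDerivAt.congr_deriv ((a1.sub (Real.hasDerivAt_sin x)).add a2) ?_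
    push_cast
    ring
  · intro x h1 h2
    have := (Real.sin_lt h1).le
    exact mul_nonneg h1.le (by linarith)

theorem main : S_COT := by
  intro x hx0 hx
  have hpi := Real.pi_gt_three
  have hs : 0 < Real.sin x := Real.sin_pos_of_pos_of_lt_pi hx0 (by linarith)
  constructor
  · rw [le_div_iff₀ hs]
    have h : 0 ≤ x * Real.cos x - Real.sin x * (1 - x ^ 2 / 3 - x ^ 4 / 40) := by
      refine aux (fun x => x * Real.cos x - Real.sin x * (1 - x ^ 2 / 3 - x ^ 4 / 40))
        (fun x => x / 3 * (x * Real.cos x - Real.sin x) + x ^ 4 / 40 * Real.cos x +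
          x ^ 3 / 10 * Real.sin x) (by simp) ?_ ?_ x hx0.le hx
      · intro x
        have a1 : HasDerivAt (fun x : ℝ => x * Real.cos x) (1 * Real.cos x + x * (-Real.sin x)) x :=
          (hasDerivAt_id' x).mul (Real.hasDerivAt_cos x)
        have a2 : HasDerivAt (fun x : ℝ => x ^ 2 / 3) ((2 : ℕ) * x ^ (2 - 1) / 3) x :=
          (hasDerivAt_pow 2 x).div_const 3
        have a3 : HasDerivAt (fun x : ℝ => x ^ 4 / 40) ((4 : ℕ) * x ^ (4 - 1) / 40) x :=
          (hasDerivAt_pow 4 x).div_const 40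
        have a4 : HasDerivAt (fun x : ℝ => 1 - x ^ 2 / 3 - x ^ 4 / 40)
            (0 - (2 : ℕ) * x ^ (2 - 1) / 3 - (4 : ℕ) * x ^ (4 - 1) / 40) x :=
          ((hasDerivAt_const x (1 : ℝ)).sub a2).sub a3
        refine HasDerivAt.congr_deriv (a1.sub ((Real.hasDerivAt_sin x).mul a4)) ?_
        push_cast
        ring
      · intro x h1 h2
        have e1 := lower1 x h1.le h2.le
        have e2 := Real.one_sub_sq_div_two_le_cos (x := x)
        have e3 := (Real.sin_gt_sub_cube h1).le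
        have e4 : 0 ≤ x / 3 * (x * Real.cos x - Real.sin x + x ^ 3 / 3) := by positivity
        have e5 : 0 ≤ x ^ 4 / 40 * (Real.cos x - (1 - x ^ 2 / 2)) := by
          apply mul_nonneg (by positivity); linarith
        have e6 : 0 ≤ x ^ 3 / 10 * (Real.sin x - (x - x ^ 3 / 6)) := by
          apply mul_nonneg (by positivity); linarith
        have e7 : 0 ≤ x ^ 4 * (1 / 72 - 7 / 240 * x ^ 2) := by
          apply mul_nonneg (by positivity); nlinarith
        nlinarith
    have h2 : (1 / x - x / 3 - x ^ 3 / 40) * Real.sin x =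
        (Real.sin x * (1 - x ^ 2 / 3 - x ^ 4 / 40)) / x := by
      field_simp
    rw [h2, div_le_iff₀ hx0]
    linarith
  · rw [div_le_iff₀ hs]
    have h : 0 ≤ Real.sin x * (1 - x ^ 2 / 3) - x * Real.cos x := by
      refine aux (fun x => Real.sin x * (1 - x ^ 2 / 3) - x * Real.cos x)
        (fun x => x / 3 * (Real.sin x - x * Real.cos x)) (by simp) ?_ ?_ x hx0.le hx
      · intro x
        have a1 : HasDerivAt (fun x : ℝ => x * Real.cos x) (1 * Real.cos x + x * (-Real.sin x)) x :=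
          (hasDerivAt_id' x).mul (Real.hasDerivAt_cos x)
        have a2 : HasDerivAt (fun x : ℝ => x ^ 2 / 3) ((2 : ℕ) * x ^ (2 - 1) / 3) x :=
          (hasDerivAt_pow 2 x).div_const 3
        have a4 : HasDerivAt (fun x : ℝ => 1 - x ^ 2 / 3) (0 - (2 : ℕ) * x ^ (2 - 1) / 3) x :=
          (hasDerivAt_const x (1 : ℝ)).sub a2
        refine HasDerivAt.congr_deriv (((Real.hasDerivAt_sin x).mul a4).sub a1) ?_
        push_cast
        ring
      · intro x h1 h2
        have := xcos_le h1 h2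
        exact mul_nonneg (by positivity) (by linarith)
    have h2 : (1 / x - x / 3) * Real.sin x = (Real.sin x * (1 - x ^ 2 / 3)) / x := by
      field_simp
    rw [h2, le_div_iff₀ hx0]
    linarith

end Pool.Agent.H80.IR.COT
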