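import Pool.Agent.H80.IR.Stm
set_option autoImplicit false

/-!
# DIF: in a relation between two knots and a scaled knot, the last parameters agree
-/

namespace Pool.Agent.H80.IR.DIF

open Pool.Agent.H80.Sig Finset

lemma ct_sub {f d u : ℕ} (hf : 0 < f) (hd : d ≤ f) : ct f ((f - d) * u) = - ct f (d * u) := by
  have h0 : d * u % f < f := Nat.mod_lt _ hf
  have h1 : ct f (d * u) = ct f (d * u % f) := ct_congr hf (Nat.mod_modEq _ _).symm
  have h2 : ct f ((f - d) * u) = ct f (f - d * u % f) := by
    apply ct_congr hf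
    apply Nat.ModEq.add_right_cancel' (d * u)
    have e1 : (f - d) * u + d * u = f * u := by
      rw [← add_mul, Nat.sub_add_cancel hd]
    have e2 : f - d * u % f + d * u ≡ f - d * u % f + d * u % f [MOD f] :=
      Nat.ModEq.add_left _ (Nat.mod_modEq _ _).symm
    rw [Nat.sub_add_cancel h0.le] at e2
    rw [e1]
    have e3 : f * u ≡ 0 [MOD f] := Nat.modEq_zero_iff_dvd.2 (Dvd.intro _ rfl)
    have e4 : f ≡ 0 [MOD f] := Nat.modEq_zero_iff_dvd.2 dvd_rfl
    exact (e3.trans e4.symm).trans e2.symm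
  rw [h2, ct_neg hf h0.le, h1]

lemma npp {L : List (ℕ × ℕ)} (hV : Valid L) (hne : L ≠ []) :
    ∃ N, NPP N ∧ N ∣ lev L ∧ ∀ u, kap L u = ct N u := by
  rcases L with _ | ⟨⟨p, q⟩, L⟩
  · exact absurd rfl hne
  · have h1 := hV.head
    simp only at h1
    refine ⟨p * q, not_primePow h1.1 h1.2.1 h1.2.2, ?_, fun u => rfl⟩
    unfold lev
    exact Dvd.intro _ rfl

lemma star_case (hS : S_STAR) {d f M : ℕ} {X Z : List (ℕ × ℕ)} (hM : 0 < M) (hf : f ∣ M)
    (hX : Valid X) (hZ : Valid Z) (hX0 : X ≠ []) (hZ0 : Z ≠ []) (lX : lev X ∣ M) (lZ : lev Z ∣ M)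
    (hd : 2 ≤ d) (hc : d.Coprime f) (h7 : 7 ≤ f) (h12 : f ≠ 12) (hdf : d + 1 < f)
    (h : ∀ u : ℕ, u.Coprime M → kap X u = ct f (d * u) + kap Z u) : False := by
  obtain ⟨N₁, hN₁, l₁, k₁⟩ := npp hX hX0
  obtain ⟨N₂, hN₂, l₂, k₂⟩ := npp hZ hZ0
  simp only [k₁, k₂] at h
  rcases lt_trichotomy (2 * d) f with h1 | h1 | h1
  · exact hS f d N₁ N₂ M hM hf (l₁.trans lX) (l₂.trans lZ) h7 h12 hc hd h1 hN₁ hN₂ h
  · have h2 : d ∣ Nat.gcd d f := Nat.dvd_gcd dvd_rfl (h1 ▸ Dvd.intro_left 2 rfl)
    rw [hc] at h2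
    have := Nat.dvd_one.1 h2
    omega
  · refine hS f (f - d) N₂ N₁ M hM hf (l₂.trans lZ) (l₁.trans lX) h7 h12
      ((Nat.coprime_self_sub_left (by omega)).2 hc) (by omega) (by omega) hN₂ hN₁ fun u hu => ?_
    rw [ct_sub (by omega) (by omega), h u hu]
    ring

theorem main : S_STAR → S_FMIN → S_FRD → S_FRK → S_NUM → S_DIF := by
  intro hSTAR hFMIN hFRD hFRK hNUM r s r' s' k X Y Z vX vY vZ hZ hk hrel
  obtain ⟨c1, r2, s2⟩ : r.Coprime s ∧ 2 ≤ r ∧ 2 ≤ s := vX.head
  obtain ⟨c2, r2', s2'⟩ : r'.Coprime s' ∧ 2 ≤ r' ∧ 2 ≤ s' := vY.head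
  obtain ⟨M, hMdef⟩ : ∃ M, M = lev ((r, s) :: X) * lev ((r', s') :: Y) * (k * lev Z) := ⟨_, rfl⟩
  have hM : 0 < M := by
    rw [hMdef]
    have h1 := lev_pos vX
    have h2 := lev_pos vY
    have h3 := lev_pos vZ
    have h4 : 0 < k := by omega
    positivity
  have l1 : lev ((r, s) :: X) ∣ M := by rw [hMdef]; exact (dvd_mul_right _ _).mul_right _
  have l2 : lev ((r', s') :: Y) ∣ M := by rw [hMdef]; exact (dvd_mul_left _ _).mul_right _
  have l3 : k * lev Z ∣ M := by rw [hMdef]; exact dvd_mul_left _ _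
  have lX : lev X ∣ M := by
    refine Dvd.dvd.trans ?_ l1
    conv_rhs => unfold lev
    exact dvd_mul_left _ _
  have lY : lev Y ∣ M := by
    refine Dvd.dvd.trans ?_ l2
    conv_rhs => unfold lev
    exact dvd_mul_left _ _
  have lZ : lev Z ∣ M := (dvd_mul_left _ _).trans l3
  have hrs : r * s ∣ M := by
    refine Dvd.dvd.trans ?_ l1
    unfold lev
    exact dvd_mul_right _ _
  -- the products agree
  have hn : r * s = r' * s' := by
    have h1 := hFMIN 3 ![(r, s) :: X, (r', s') :: Y, Z] ![1, 1, k] ![1, -1, -1] 1 M one_pos hM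
      (by intro i; fin_cases i <;> simp <;> assumption)
      (by intro i; fin_cases i <;> simp <;> omega)
      (by intro i; fin_cases i <;> simp <;> assumption)
      (by
        intro x
        have h2 := hrel x
        rw [Fin.sum_univ_three]
        simp only [Matrix.cons_val_zero, Matrix.cons_val_one, Matrix.cons_val_two,
          Matrix.tail_cons, Matrix.head_cons, Matrix.cons_val, Nat.cast_one, one_mul, h2]
        push_cast
        ring) 1 (Nat.coprime_one_left M)
    rw [Fin.sum_univ_three] at h1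
    have hk1 : k ≠ 1 := by omega
    simp [hk1, kap] at h1
    have h6 := (not_primePow c1 r2 s2).1
    have h6' := (not_primePow c2 r2' s2').1
    rcases lt_trichotomy (r * s) (r' * s') with h | h | h
    · have := ct_lt_gen (N := r' * s') (N' := r * s) (h := 1) (h' := 1) one_pos (by omega) (by omega)
      linarith
    · exact h
    · have := ct_lt_gen (N := r * s) (N' := r' * s') (h := 1) (h' := 1) one_pos (by omega) (by omega)
      linarith
  by_contra hne
  obtain ⟨d, hdr, hds, hdr', hds', hd⟩ : ∃ d, d ≤ r ∧ d ≤ s ∧ d ≤ r' ∧ d ≤ s' ∧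
      ((r = d ∨ s = d) ∨ (r' = d ∨ s' = d)) := by
    refine ⟨min (min r s) (min r' s'), ?_, ?_, ?_, ?_, ?_⟩ <;> omega
  have hd2 : 2 ≤ d := by omega
  obtain ⟨f, hf⟩ : ∃ f, r * s = d * f := by
    rcases hd with (h | h) | (h | h)
    · exact ⟨s, by rw [h]⟩
    · exact ⟨r, by rw [h, mul_comm]⟩
    · exact ⟨s', by rw [hn, h]⟩
    · exact ⟨r', by rw [hn, h, mul_comm]⟩
  have hf' : r' * s' = d * f := hn ▸ hf
  have hkd : d ≤ k := by
    by_contra hlt
    exact hFRK r s r' s' k X Y Z vX vY vZ hZ hn (by omega) (by omega) (by omega) (by omega)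
      (by omega) hrel
  have hfr := hFRD r s r' s' k d f M X Y Z vX vY vZ hd2 hf hf' hdr hds hdr' hds' hkd hM l1 l2 l3
    hrel
  have hfM : f ∣ M := by
    refine Dvd.dvd.trans ?_ hrs
    rw [hf]
    exact dvd_mul_left _ _
  have hd0 : 0 < d := by omega
  by_cases hA : r = d ∨ s = d
  · -- `d` is one of `r`, `s`
    have hB : ¬ (r' = d ∨ s' = d) := by
      intro h
      apply hne
      rcases hA with hA | hA <;> rcases h with h | h
      · left
        refine ⟨by omega, ?_⟩
        rw [hA, h] at hn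
        exact Nat.eq_of_mul_eq_mul_left hd0 hn
      · right
        refine ⟨by omega, ?_⟩
        rw [hA, h, mul_comm r' d] at hn
        exact Nat.eq_of_mul_eq_mul_left hd0 hn
      · right
        refine ⟨?_, by omega⟩
        rw [hA, h, mul_comm r d] at hn
        exact Nat.eq_of_mul_eq_mul_left hd0 hn
      · left
        refine ⟨?_, by omega⟩
        rw [hA, h] at hn
        exact Nat.eq_of_mul_eq_mul_right hd0 hn
    have hB1 : ¬ r' = d := fun h => hB (Or.inl h)
    have hB2 : ¬ s' = d := fun h => hB (Or.inr h)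
    have hdc : d.Coprime f := by
      rcases hA with hA | hA
      · rw [hA] at hf
        rw [← Nat.eq_of_mul_eq_mul_left hd0 hf, ← hA]
        exact c1
      · rw [hA, mul_comm] at hf
        rw [← Nat.eq_of_mul_eq_mul_left hd0 hf, ← hA]
        exact c1.symm
    obtain ⟨h7, h12, hdf⟩ := hNUM d f r' s' hd2 hdc hf' c2 (by omega) (by omega)
    have key : ∀ u : ℕ, u.Coprime M → (if r = d then kap X u else 0) - ct f (d * u) =
        if k = d then kap Z u else 0 := by
      intro u hu
      have := hfr u hu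
      rw [if_pos hA, if_neg hB, if_neg hB1] at this
      linarith
    by_cases hkk : k = d
    · by_cases hr : r = d ∧ X ≠ []
      · apply star_case hSTAR hM hfM vX.tail vZ hr.2 hZ lX lZ hd2 hdc h7 h12 hdf
        intro u hu
        have := key u hu
        rw [if_pos hr.1, if_pos hkk] at this
        linarith
      · refine ss_neg (T := (Finset.univ : Finset (Fin 1))) (b := fun _ => -1) (L := fun _ => Z)
          (A := 1) hM hfM (fun _ _ => vZ) (fun _ _ => lZ) one_pos (fun _ _ => by norm_num)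
          (by omega) hdf hdc ?_
        intro u hu
        have h1 := key u hu
        have h2 : (if r = d then kap X u else 0) = 0 := by
          by_cases h3 : r = d
          · have h4 : X = [] := by
              by_contra h5
              exact hr ⟨h3, h5⟩
            rw [h4]
            simp [kap]
          · rw [if_neg h3]
        rw [h2, if_pos hkk] at h1
        simp
        linarith
    · refine ss_pos (T := (Finset.univ : Finset (Fin 1))) (b := fun _ => if r = d then 1 else 0)
        (L := fun _ => X) (A := 1) hM hfM (fun _ _ => vX.tail) (fun _ _ => lX) one_pos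
        (fun _ _ => by split_ifs <;> norm_num) (by omega) (by omega) hdc ?_
      intro u hu
      have h1 := key u hu
      rw [if_neg hkk] at h1
      simp
      linarith
  · -- `d` is one of `r'`, `s'`
    have hB : r' = d ∨ s' = d := by tauto
    have hA1 : ¬ r = d := fun h => hA (Or.inl h)
    have hA2 : ¬ s = d := fun h => hA (Or.inr h)
    have hdc : d.Coprime f := by
      rcases hB with hB | hB
      · rw [hB] at hf'
        rw [← Nat.eq_of_mul_eq_mul_left hd0 hf', ← hB]
        exact c2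
      · rw [hB, mul_comm] at hf'
        rw [← Nat.eq_of_mul_eq_mul_left hd0 hf', ← hB]
        exact c2.symm
    obtain ⟨h7, h12, hdf⟩ := hNUM d f r s hd2 hdc hf c1 (by omega) (by omega)
    refine ss_pos (T := (Finset.univ : Finset (Fin 2)))
      (b := ![if r' = d then 1 else 0, if k = d then 1 else 0])
      (L := ![Y, Z]) (A := 1) hM hfM
      (by intro i _; fin_cases i; exacts [vY.tail, vZ])
      (by intro i _; fin_cases i; exacts [lY, lZ]) one_pos
      (by intro i _; fin_cases i <;> simp <;> split_ifs <;> norm_num) (by omega) (by omega) hdc ?_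
    intro u hu
    have h1 := hfr u hu
    rw [if_neg hA1, if_neg hA, if_pos hB] at h1
    rw [Fin.sum_univ_two]
    simp
    linarith

end Pool.Agent.H80.IR.DIF
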