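import Pool.Agent.H80.IR.Stm
set_option autoImplicit false

/-!
# E3: the exceptional relation at the frequencies `3 u`
-/

namespace Pool.Agent.H80.IR.E3

open Pool.Agent.H80.Sig Finset

/-- the Fourier coefficient at `l u` (divided by `I`) -/
noncomputable def tm (l p q : ℕ) (L : List (ℕ × ℕ)) (u : ℕ) : ℝ :=
  ct (p * q) (l * u) - (if p = l then (l : ℝ) * ct q (l * u) else 0) -
    (if q = l then (l : ℝ) * ct p (l * u) else 0) + (if p = l then (l : ℝ) * kap L u else 0)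

lemma tm_eq {l p q N u : ℕ} {L : List (ℕ × ℕ)} (hN : p * q = N) (hpq : p ≠ q) (hl : 0 < l) :
    tm l p q L u = ct N (l * u) - (if p = l ∨ q = l then (l : ℝ) * ct (N / l) (l * u) else 0) +
      (if p = l then (l : ℝ) * kap L u else 0) := by
  unfold tm
  subst hN
  by_cases h1 : p = l
  · subst h1
    have h2 : q ≠ p := fun h => hpq h.symm
    rw [if_pos rfl, if_neg h2, if_pos rfl, if_pos (Or.inl rfl), Nat.mul_div_cancel_left _ hl]
    ring
  · by_cases h2 : q = l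
    · subst h2
      rw [if_neg h1, if_pos rfl, if_neg h1, if_pos (Or.inr rfl), Nat.mul_div_cancel _ hl]
      ring
    · rw [if_neg h1, if_neg h2, if_neg h1, if_neg (by tauto)]
      ring

lemma rel (hFL : S_FL) {p q a₁ a₂ b₁ b₂ c₁ c₂ : ℕ} {L A B C : List (ℕ × ℕ)} {M l : ℕ}
    (hl : l.Prime) (hE : Exc p q a₁ a₂ b₁ b₂ c₁ c₂ L A B C)
    (hM : LEV p q a₁ a₂ b₁ b₂ c₁ c₂ L A B C M) {u : ℕ} (hu : u.Coprime M) :
    tm l p q L u = tm l a₁ a₂ A u + tm l b₁ b₂ B u + tm l c₁ c₂ C u := by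
  obtain ⟨v1, v2, v3, v4, -, -, -, -, hx⟩ := hE
  obtain ⟨hM0, -, d1, d2, d3, d4⟩ := hM
  have f1 := hFL p q l M L v1 hl hM0 d1 u hu
  have f2 := hFL a₁ a₂ l M A v2 hl hM0 d2 u hu
  have f3 := hFL b₁ b₂ l M B v3 hl hM0 d3 u hu
  have f4 := hFL c₁ c₂ l M C v4 hl hM0 d4 u hu
  have key : Ft M (JK ((p, q) :: L)) (l * u) = Ft M (JK ((a₁, a₂) :: A)) (l * u) +
      Ft M (JK ((b₁, b₂) :: B)) (l * u) + Ft M (JK ((c₁, c₂) :: C)) (l * u) := by
    unfold Ft
    rw [← sum_add_distrib, ← sum_add_distrib]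
    refine sum_congr rfl fun k _ => ?_
    rw [hx]
    push_cast
    ring
  rw [f1, f2, f3, f4, ← mul_add, ← mul_add] at key
  have h1 := mul_left_cancel₀ Complex.I_ne_zero key
  unfold tm
  exact_mod_cast h1

lemma known (hX : S_EXJ) : Exc 5 6 2 3 2 5 5 3 [] [] [] [(2, 3)] := by
  refine ⟨?_, ?_, ?_, ?_, by norm_num, by norm_num, by norm_num, by norm_num, ?_⟩
  · intro c hc
    simp only [List.mem_singleton] at hc
    subst hc
    exact ⟨by norm_num, by norm_num, by norm_num⟩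
  · intro c hc
    simp only [List.mem_singleton] at hc
    subst hc
    exact ⟨by norm_num, by norm_num, by norm_num⟩
  · intro c hc
    simp only [List.mem_singleton] at hc
    subst hc
    exact ⟨by norm_num, by norm_num, by norm_num⟩
  · intro c hc
    simp only [List.mem_cons, List.not_mem_nil, or_false] at hc
    rcases hc with rfl | rfl
    · exact ⟨by norm_num, by norm_num, by norm_num⟩
    · exact ⟨by norm_num, by norm_num, by norm_num⟩
  · intro x
    have h1 := hX x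
    simp only [JK, Nat.cast_ofNat, add_zero]
    rw [J_swap 5 3, h1]
    ring

lemma known_lev {M : ℕ} (hM : 0 < M) (h : 900 ∣ M) :
    LEV 5 6 2 3 2 5 5 3 [] [] [] [(2, 3)] M :=
  ⟨hM, h, (show lev [(5, 6)] ∣ 900 by norm_num [lev]).trans h,
    (show lev [(2, 3)] ∣ 900 by norm_num [lev]).trans h,
    (show lev [(2, 5)] ∣ 900 by norm_num [lev]).trans h,
    (show lev [(5, 3), (2, 3)] ∣ 900 by norm_num [lev]).trans h⟩

lemma pr6 {a b : ℕ} (h : a * b = 6) (ha : 2 ≤ a) (hb : 2 ≤ b) :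
    (a = 2 ∧ b = 3) ∨ (a = 3 ∧ b = 2) := by
  have h1 : a ≤ 3 := by nlinarith
  interval_cases a <;> omega

lemma pr10 {a b : ℕ} (h : a * b = 10) (ha : 2 ≤ a) (hb : 2 ≤ b) :
    (a = 2 ∧ b = 5) ∨ (a = 5 ∧ b = 2) := by
  have h1 : a ≤ 5 := by nlinarith
  interval_cases a <;> omega

lemma pr15 {a b : ℕ} (h : a * b = 15) (ha : 2 ≤ a) (hb : 2 ≤ b) :
    (a = 3 ∧ b = 5) ∨ (a = 5 ∧ b = 3) := by
  have h1 : a ≤ 7 := by nlinarith
  interval_cases a <;> omega

lemma ne_of {a b : ℕ} {L : List (ℕ × ℕ)} (h : Valid ((a, b) :: L)) : a ≠ b := by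
  rintro rfl
  have h1 := h.head
  simp only [Nat.coprime_self] at h1
  omega

theorem main : S_FL → S_EXJ → S_E3 := by
  intro hFL hX p q a₁ a₂ b₁ b₂ c₁ c₂ L A B C M hE hM u hu
  have r1 := rel hFL (l := 3) Nat.prime_three hE hM hu
  have r2 := rel hFL (l := 3) Nat.prime_three (known hX) (known_lev hM.1 hM.2.1) hu
  obtain ⟨v1, v2, v3, v4, e1, e2, e3, e4, -⟩ := hE
  have g2 := v2.head
  have g3 := v3.head
  have g4 := v4.head
  simp only at g2 g3 g4
  rw [tm_eq e1 (ne_of v1) three_pos, tm_eq e2 (ne_of v2) three_pos, tm_eq e3 (ne_of v3) three_pos,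
    tm_eq e4 (ne_of v4) three_pos] at r1
  rw [tm_eq (N := 30) (by norm_num) (by norm_num) three_pos,
    tm_eq (N := 6) (by norm_num) (by norm_num) three_pos,
    tm_eq (N := 10) (by norm_num) (by norm_num) three_pos,
    tm_eq (N := 15) (by norm_num) (by norm_num) three_pos] at r2
  have k2 : a₁ = 3 ∨ a₂ = 3 := by
    rcases pr6 e2 g2.2.1 g2.2.2 with h | h <;> omega
  have k3 : ¬ (b₁ = 3 ∨ b₂ = 3) := by
    rcases pr10 e3 g3.2.1 g3.2.2 with h | h <;> omega
  have k5 : ¬ b₁ = 3 := fun h => k3 (Or.inl h)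
  have k4 : c₁ = 3 ∨ c₂ = 3 := by
    rcases pr15 e4 g4.2.1 g4.2.2 with h | h <;> omega
  rw [if_pos k2, if_neg k3, if_neg k5, if_pos k4] at r1
  norm_num at r1
  norm_num [kap] at r2
  have w1 : (if p = 3 then 3 * kap L u else 0) = 3 * (if p = 3 then kap L u else 0) := by
    split_ifs <;> ring
  have w2 : (if a₁ = 3 then 3 * kap A u else 0) = 3 * (if a₁ = 3 then kap A u else 0) := by
    split_ifs <;> ring
  have w3 : (if c₁ = 3 then 3 * kap C u else 0) = 3 * (if c₁ = 3 then kap C u else 0) := by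
    split_ifs <;> ring
  have w4 : (if p = 3 ∨ q = 3 then 3 * ct 10 (3 * u) else 0) =
      3 * (if p = 3 ∨ q = 3 then ct 10 (3 * u) else 0) := by
    split_ifs <;> ring
  rw [w1, w2, w3, w4] at r1
  linarith

end Pool.Agent.H80.IR.E3
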