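import Pool.Agent.H80.IR.Stm

set_option autoImplicit false

/-! IR-EXJ (helper63) -/

namespace Pool.Agent.H80.IR.EXJ

open Pool.Agent.H80.Sig Finset

theorem main : S_EXJ := by
  intro x
  have h := jump_relation (Finset.univ : Finset (Fin 4)) ![1, -1, -1, -1]
    ![[(5, 6)], [(2, 3)], [(2, 5)], [(5, 3), (2, 3)]] ?_ ?_ x
  · simp only [Fin.sum_univ_four] at h
    simp [JK] at h
    have h2 : (J 5 6 x : ℝ) = ((J 2 3 x + J 2 5 x + J 5 3 x + J 2 3 (5 * x) : ℤ) : ℝ) := by
      push_cast
      linarith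
    have h3 : J 5 6 x = J 2 3 x + J 2 5 x + J 5 3 x + J 2 3 (5 * x) := by exact_mod_cast h2
    rw [h3, J_swap 5 3]
  · intro s _
    fin_cases s <;> intro c hc <;> simp at hc
    · subst hc; norm_num
    · subst hc; norm_num
    · subst hc; norm_num
    · rcases hc with rfl | rfl <;> norm_num
  · refine exceptional.subset ?_
    rintro y ⟨hy, hne⟩
    refine ⟨hy, fun heq => hne ?_⟩
    simp only [Fin.sum_univ_four]
    simp
    rw [heq]
    push_cast
    ring

end Pool.Agent.H80.IR.EXJ
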