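import Pool.Agent.H80.IR.Stm
set_option autoImplicit false

/-!
# Project IR, stub FL: the Fourier coefficients at `l u`, `l` prime
-/

namespace Pool.Agent.H80.IR.FL

open Pool.Agent.H80.Sig Finset

theorem main : S_FL := by
  intro p q l M L hL hl hM hdM u hu
  have h1 := hL.head
  simp only at h1
  obtain ⟨hc, hp, hq⟩ := h1
  have hl0 : 0 < l := hl.pos
  have hP : p ∣ l → p = l := fun h => by
    rcases (Nat.dvd_prime hl).1 h with h | h
    · omega
    · exact h
  have hQ : q ∣ l → q = l := fun h => by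
    rcases (Nat.dvd_prime hl).1 h with h | h
    · omega
    · exact h
  have hpqM : p * q ∣ M := by
    unfold lev at hdM
    exact (Dvd.intro _ rfl).trans hdM
  have hpM : p ∣ M := (Dvd.intro _ rfl).trans hpqM
  have hqM : q ∣ M := (Dvd.intro_left _ rfl).trans hpqM
  have cp : u.Coprime p := Nat.Coprime.coprime_dvd_right hpM hu
  have cq : u.Coprime q := Nat.Coprime.coprime_dvd_right hqM hu
  have ep : p ∣ l * u ↔ p ∣ l := ⟨fun h => cp.symm.dvd_of_dvd_mul_right h, fun h => h.mul_right u⟩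
  have eq : q ∣ l * u ↔ q ∣ l := ⟨fun h => cq.symm.dvd_of_dvd_mul_right h, fun h => h.mul_right u⟩
  have hnot : ¬ (p ∣ l ∧ q ∣ l) := by
    rintro ⟨h2, h3⟩
    have h4 := hP h2
    have h5 := hQ h3
    rw [h4, h5, Nat.coprime_self] at hc
    omega
  rw [Ft_JK_cons (by omega) (by omega) hM hdM]
  have hcomp : (if p ∣ l * u then (p : ℂ) * Ft (M / p) (JK L) (l * u / p) else 0) =
      Complex.I * (((if p = l then (l : ℝ) * kap L u else 0) : ℝ) : ℂ) := by
    by_cases h2 : p = l
    · subst h2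
      rw [if_pos (Dvd.intro u rfl), if_pos rfl, Nat.mul_div_cancel_left _ hl0]
      have hM' : 0 < M / p := Nat.div_pos (Nat.le_of_dvd hM hpM) hl0
      have h3 : lev L ∣ M / p := by
        obtain ⟨m, rfl⟩ := hpM
        rw [Nat.mul_div_cancel_left _ hl0]
        unfold lev at hdM
        rw [mul_assoc] at hdM
        exact (Dvd.intro_left q rfl).trans ((Nat.mul_dvd_mul_iff_left hl0).1 hdM)
      have h4 : u.Coprime (M / p) := Nat.Coprime.coprime_dvd_right (Nat.div_dvd_of_dvd hpM) hu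
      rw [Ft_JK_unit hL.tail hM' h3 h4]
      push_cast; ring
    · have h3 : ¬ p ∣ l * u := fun h => h2 (hP (ep.1 h))
      rw [if_neg h3, if_neg h2]; simp
  have hG : G p q (l * u) = Complex.I * ((ct (p * q) (l * u) -
      (if p = l then (l : ℝ) * ct q (l * u) else 0) -
      (if q = l then (l : ℝ) * ct p (l * u) else 0) : ℝ) : ℂ) := by
    by_cases h2 : p = l
    · have h3 : ¬ q ∣ l * u := fun h => hnot ⟨h2 ▸ dvd_refl p, eq.1 h⟩
      have h4 : q ≠ l := fun h => hnot ⟨h2 ▸ dvd_refl p, h ▸ dvd_refl q⟩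
      rw [G_ct hc (by omega) (by omega) h3, if_pos (h2 ▸ Dvd.intro u rfl), if_pos h2, if_neg h4, h2,
        sub_zero]
    · by_cases h4 : q = l
      · have h3 : ¬ p ∣ l * u := fun h => hnot ⟨ep.1 h, h4 ▸ dvd_refl q⟩
        rw [G_swap, G_ct hc.symm (by omega) (by omega) h3, if_pos (h4 ▸ Dvd.intro u rfl),
          if_neg h2, if_pos h4, sub_zero, h4, mul_comm l p]
      · have h3 : ¬ p ∣ l * u := fun h => h2 (hP (ep.1 h))
        have h5 : ¬ q ∣ l * u := fun h => h4 (hQ (eq.1 h))
        rw [G_ct hc (by omega) (by omega) h5, if_neg h3, if_neg h2, if_neg h4, sub_zero, sub_zero]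
  rw [hcomp, hG]
  push_cast
  ring

end Pool.Agent.H80.IR.FL
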