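import Pool.Agent.H80.IR.Stm
set_option autoImplicit false

/-!
# Project IR, stub FMIN
-/

namespace Pool.Agent.H80.IR.FMIN

open Pool.Agent.H80.Sig Finset

lemma rel_ft {n : ℕ} {a : Fin n → ℝ} {F : Fin n → ℝ → ℤ}
    (hR : ∀ x : ℝ, ∑ i, a i * (F i x : ℝ) = 0) (M h : ℕ) :
    ∑ i, (a i : ℂ) * Ft M (F i) h = 0 := by
  unfold Ft
  simp_rw [mul_sum]
  rw [sum_comm]
  apply sum_eq_zero
  intro k _
  have h1 := hR ((k : ℝ) / M)
  have h2 : ∑ i, (a i : ℂ) * ((F i ((k : ℝ) / M) : ℤ) : ℂ) = 0 := by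
    have h3 : ((∑ i, a i * (F i ((k : ℝ) / M) : ℝ) : ℝ) : ℂ) = 0 := by
      rw [h1]; simp
    push_cast at h3
    exact h3
  have h4 : ∀ i ∈ (univ : Finset (Fin n)),
      (a i : ℂ) * (((F i ((k : ℝ) / M) : ℤ) : ℂ) * ee ((h : ℝ) * (k / M))) =
      ((a i : ℂ) * ((F i ((k : ℝ) / M) : ℤ) : ℂ)) * ee ((h : ℝ) * (k / M)) := by
    intro i _; ring
  rw [sum_congr rfl h4, ← sum_mul, h2, zero_mul]

lemma ft_one {X : List (ℕ × ℕ)} (hX : Valid X) {s m M u : ℕ} (hm : 0 < m) (hM : 0 < M)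
    (hms : m ≤ s) (hd : s * lev X ∣ M) (hu : u.Coprime M) :
    Ft M (fun x => JK X (s * x)) (m * u) =
      if s = m then (m : ℂ) * (Complex.I * (kap X u : ℂ)) else 0 := by
  have hs : 0 < s := by omega
  have hsM : s ∣ M := (Dvd.intro _ rfl).trans hd
  obtain ⟨N, rfl⟩ := hsM
  have hN : 0 < N := Nat.pos_of_mul_pos_left hM
  have hlev : lev X ∣ N := (Nat.mul_dvd_mul_iff_left hs).1 hd
  rw [mul_comm s N, Ft_comp (fun x k => JK_add_int X x k) hs hN]
  have hus : Nat.Coprime s u := (Nat.Coprime.coprime_dvd_right (Dvd.intro _ rfl) hu).symm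
  have huN : u.Coprime N := Nat.Coprime.coprime_dvd_right (Dvd.intro_left _ rfl) hu
  by_cases h : s = m
  · subst h
    rw [if_pos (Dvd.intro _ rfl), if_pos rfl, Nat.mul_div_cancel_left _ hs,
      Ft_JK_unit hX hN hlev huN]
  · rw [if_neg h, if_neg]
    intro hdiv
    have h1 : s ∣ m := hus.dvd_of_dvd_mul_right hdiv
    have h2 := Nat.le_of_dvd hm h1
    omega

theorem main : S_FMIN := by
  intro n X s a m M hm hM hX hms hd hR u hu
  have h1 := rel_ft (F := fun i x => JK (X i) (s i * x)) hR M (m * u)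
  have h2 : ∀ i ∈ (univ : Finset (Fin n)), (a i : ℂ) * Ft M (fun x => JK (X i) (s i * x)) (m * u) =
      ((m : ℂ) * Complex.I) * (((if s i = m then a i * kap (X i) u else 0 : ℝ)) : ℂ) := by
    intro i _
    rw [ft_one (hX i) hm hM (hms i) (hd i) hu]
    split_ifs
    · push_cast; ring
    · simp
  rw [sum_congr rfl h2, ← mul_sum] at h1
  have hm' : (m : ℂ) * Complex.I ≠ 0 :=
    mul_ne_zero (by exact_mod_cast hm.ne') Complex.I_ne_zero
  have h3 := (mul_eq_zero.1 h1).resolve_left hm'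
  exact_mod_cast h3

end Pool.Agent.H80.IR.FMIN
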