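import Pool.Agent.H80.IR.Stm
set_option autoImplicit false

/-! # Project IR: the Fourier coefficients at `d u` -/

namespace Pool.Agent.H80.IR.FRD

open Pool.Agent.H80.Sig Finset

theorem Ft_rel {M h : ℕ} {f g e : ℝ → ℤ} (hr : ∀ x, f x = g x + e x) : Ft M f h = Ft M g h + Ft M e h := by
  unfold Ft
  rw [← sum_add_distrib]
  refine sum_congr rfl fun k _ => ?_
  rw [hr]
  push_cast
  ring

/-- the coefficient of the composed function at `d u`, `d ≤ k` -/
theorem Ft_third {k d u M : ℕ} {Z : List (ℕ × ℕ)} (hZ : Valid Z) (hd : 0 < d) (hdk : d ≤ k) (hM : 0 < M)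
    (hk : k * lev Z ∣ M) (hu : u.Coprime M) :
    Ft M (fun x => JK Z (k * x)) (d * u) = Complex.I * (((if k = d then (d : ℝ) * kap Z u else 0) : ℝ) : ℂ) := by
  have hk0 : 0 < k := by omega
  obtain ⟨m, rfl⟩ := hk
  have hm0 : 0 < lev Z * m := by
    rw [mul_assoc] at hM
    exact Nat.pos_of_mul_pos_left hM
  have e : k * lev Z * m = (lev Z * m) * k := by ring
  rw [e] at hu ⊢
  rw [Ft_comp (f := JK Z) (fun x j => JK_add_int Z x j) hk0 hm0]
  have cu : u.Coprime (lev Z * m) := Nat.Coprime.coprime_dvd_right (Dvd.intro _ rfl) hu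
  have ck : u.Coprime k := Nat.Coprime.coprime_dvd_right (Dvd.intro_left _ rfl) hu
  by_cases h : k = d
  · subst h
    rw [if_pos (Dvd.intro u rfl), if_pos rfl, Nat.mul_div_cancel_left _ hk0,
      Ft_JK_unit hZ hm0 (Dvd.intro _ rfl) cu]
    push_cast; ring
  · have h2 : ¬ k ∣ d * u := by
      intro h3
      have h4 : k ∣ d := ck.symm.dvd_of_dvd_mul_right h3
      have h5 := Nat.le_of_dvd hd h4
      omega
    rw [if_neg h2, if_neg h]
    simp

theorem main : S_FRD := by
  intro r s r' s' k d f M X Y Z hX hY hZ hd hN hN' hr hs hr' hs' hk hM hl1 hl2 hl3 hrel u hu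
  have hd0 : 0 < d := by omega
  have hdiv : ∀ a : ℕ, d ≤ a → a ∣ d → a = d := fun a h1 h2 => le_antisymm (Nat.le_of_dvd hd0 h2) h1
  have h1 := Ft_du hX hM hl1 hd hN (hdiv r hr) (hdiv s hs) hu
  have h2 := Ft_du hY hM hl2 hd hN' (hdiv r' hr') (hdiv s' hs') hu
  have h3 := Ft_third (d := d) hZ hd0 hk hM hl3 hu
  have h4 := Ft_rel (M := M) (h := d * u) hrel
  rw [h1, h2, h3, ← mul_add] at h4
  have h5 := mul_left_cancel₀ Complex.I_ne_zero h4
  rw [← Complex.ofReal_add] at h5
  have h6 := Complex.ofReal_injective h5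
  rw [hN, hN'] at h6
  have hdr : (d : ℝ) ≠ 0 := by exact_mod_cast hd0.ne'
  have h7 : (d : ℝ) * ((if r = d then kap X u else 0) - (if r = d ∨ s = d then ct f (d * u) else 0)) =
      d * ((if r' = d then kap Y u else 0) - (if r' = d ∨ s' = d then ct f (d * u) else 0) +
        (if k = d then kap Z u else 0)) := by
    have e : ∀ (P : Prop) [Decidable P] (a : ℝ), (if P then (d : ℝ) * a else 0) = d * (if P then a else 0) := by
      intro P _ a
      split_ifs <;> ring
    simp only [e] at h6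
    linarith
  exact mul_left_cancel₀ hdr h7

end Pool.Agent.H80.IR.FRD
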