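import Pool.Agent.H80.IR.Stm
set_option autoImplicit false

/-! # Project IR: the Fourier coefficients at `k` -/

namespace Pool.Agent.H80.IR.FRK

open Pool.Agent.H80.Sig Finset

theorem Ft_rel {M h : ℕ} {f g e : ℝ → ℤ} (hr : ∀ x, f x = g x + e x) : Ft M f h = Ft M g h + Ft M e h := by
  unfold Ft
  rw [← sum_add_distrib]
  refine sum_congr rfl fun k _ => ?_
  rw [hr]
  push_cast
  ring

theorem Ft_first {r s k M : ℕ} {X : List (ℕ × ℕ)} (hX : Valid ((r, s) :: X)) (hM : 0 < M)
    (hd : lev ((r, s) :: X) ∣ M) (hk : 1 ≤ k) (hr : k < r) (hs : k < s) :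
    Ft M (JK ((r, s) :: X)) k = Complex.I * (ct (r * s) k : ℂ) := by
  have h1 := hX.head
  simp only at h1
  have hnr : ¬ r ∣ k := fun h => by have := Nat.le_of_dvd hk h; omega
  have hns : ¬ s ∣ k := fun h => by have := Nat.le_of_dvd hk h; omega
  rw [Ft_JK_cons (by omega) (by omega) hM hd, if_neg hnr, add_zero,
    G_ct h1.1 (by omega) (by omega) hns, if_neg hnr, sub_zero]

theorem main : S_FRK := by
  intro r s r' s' k X Y Z hX hY hZ hZne hN hk hr hs hr' hs' hrel
  have l1 := lev_pos hX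
  have l2 := lev_pos hY
  have l3 := lev_pos hZ
  set M₀ := lev ((r, s) :: X) * lev ((r', s') :: Y) * lev Z with hM₀
  have hM₀0 : 0 < M₀ := by positivity
  have hM : 0 < M₀ * k := Nat.mul_pos hM₀0 (by omega)
  have h1 := Ft_first hX hM (by
    rw [hM₀, mul_assoc, mul_assoc]; exact Dvd.intro _ rfl) hk hr hs
  have h2 := Ft_first hY hM (by
    rw [hM₀]
    refine Dvd.dvd.mul_right (Dvd.dvd.mul_right (Dvd.intro_left _ rfl) _) _) hk hr' hs'
  have h3 := Ft_comp (f := JK Z) (p := k) (N := M₀) (fun x j => JK_add_int Z x j) (by omega) hM₀0 k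
  rw [if_pos dvd_rfl, Nat.div_self (by omega), Ft_JK_unit hZ hM₀0 (Dvd.intro_left _ rfl)
    (Nat.coprime_one_left M₀)] at h3
  have h4 := Ft_rel (M := M₀ * k) (h := k) hrel
  rw [h1, h2, h3, hN] at h4
  have h5 : (k : ℂ) * (Complex.I * (kap Z 1 : ℂ)) = 0 := by
    have := h4
    linear_combination -this
  have h6 := kap_pos hZ hZne
  rcases mul_eq_zero.1 h5 with h | h
  · have : k = 0 := by exact_mod_cast h
    omega
  · rcases mul_eq_zero.1 h with h | h
    · exact Complex.I_ne_zero h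
    · have : kap Z 1 = 0 := by exact_mod_cast h
      linarith

end Pool.Agent.H80.IR.FRK
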