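import Pool.Agent.H80.IR.Stm
set_option autoImplicit false

/-! # Project IR: the relation of `T(2,3)` and three knots -/

namespace Pool.Agent.H80.IR.G5

open Pool.Agent.H80.Sig Finset

theorem tre : Valid [(2, 3)] := by
  intro c hc
  simp only [List.mem_singleton] at hc
  subst hc
  exact ⟨by norm_num, by norm_num, by norm_num⟩

theorem JK_tre (y : ℝ) : JK [(2, 3)] y = J 2 3 y := by
  simp [JK]

theorem gen_tre : gen2 [(2, 3)] = 2 := by
  simp [gen2]

theorem arith (a b c : ℕ) (t : ℝ) (hg : ∀ N : ℕ, N ≠ 0 → (if 6 = N then (1 : ℝ) else 0) + (if a = N then 1 else 0) -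
        (if b = N then 1 else 0) - (if c = N then 1 else 0) =
        if N = 30 then t else if N = 6 ∨ N = 10 ∨ N = 15 then -t else 0) : b = 6 ∨ c = 6 := by
  by_contra hcon
  push Not at hcon
  obtain ⟨n1, n2⟩ := hcon
  have e30 := hg 30 (by norm_num)
  have e6 := hg 6 (by norm_num)
  have e10 := hg 10 (by norm_num)
  have e15 := hg 15 (by norm_num)
  have r30 : (if (30 : ℕ) = 30 then t else if (30 : ℕ) = 6 ∨ (30 : ℕ) = 10 ∨ (30 : ℕ) = 15 then -t else 0) = t := by norm_num
  have r6 : (if (6 : ℕ) = 30 then t else if (6 : ℕ) = 6 ∨ (6 : ℕ) = 10 ∨ (6 : ℕ) = 15 then -t else 0) = -t := by norm_num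
  have r10 : (if (10 : ℕ) = 30 then t else if (10 : ℕ) = 6 ∨ (10 : ℕ) = 10 ∨ (10 : ℕ) = 15 then -t else 0) = -t := by norm_num
  have r15 : (if (15 : ℕ) = 30 then t else if (15 : ℕ) = 6 ∨ (15 : ℕ) = 10 ∨ (15 : ℕ) = 15 then -t else 0) = -t := by norm_num
  have l30 : (if (6 : ℕ) = 30 then (1 : ℝ) else 0) = 0 := by norm_num
  have l6 : (if (6 : ℕ) = 6 then (1 : ℝ) else 0) = 1 := by norm_num
  have l10 : (if (6 : ℕ) = 10 then (1 : ℝ) else 0) = 0 := by norm_num
  have l15 : (if (6 : ℕ) = 15 then (1 : ℝ) else 0) = 0 := by norm_num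
  rw [r30, l30] at e30
  rw [r6, l6, if_neg n1, if_neg n2] at e6
  rw [r10, l10] at e10
  rw [r15, l15] at e15
  have hb0 : ∀ (x N : ℕ), (0 : ℝ) ≤ (if x = N then 1 else 0) := by intro x N; split_ifs <;> norm_num
  have hb1 : ∀ (x N : ℕ), (if x = N then (1 : ℝ) else 0) ≤ 1 := by intro x N; split_ifs <;> norm_num
  have h2 : ∀ (x : ℕ), (if x = 10 then (1 : ℝ) else 0) + (if x = 15 then 1 else 0) ≤ 1 := by
    intro x
    by_cases h : x = 10
    · rw [if_pos h, if_neg (by omega)]; norm_num
    · rw [if_neg h]; split_ifs <;> norm_num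
  have h3 : (0 : ℝ) ≤ (if a = 6 then 1 else 0) := hb0 a 6
  have := hb0 b 10; have := hb0 b 15; have := hb0 c 10; have := hb0 c 15
  have := h2 a
  -- `t ≤ -1`, and `-2 t ≤ 1`
  linarith

/-- the case in which `B` has the last product `6` -/
theorem six (hT : S_T3) (L B C : List (ℕ × ℕ)) (hL : Valid L) (hB : Valid B) (hC : Valid C)
    (hrel : ∀ y : ℝ, J 2 3 y + JK L y = JK B y + JK C y) (h6 : lastProd B = 6) :
    gen2 B + gen2 C = 2 + gen2 L := by
  rcases B with _ | ⟨⟨w, w'⟩, B⟩
  · simp [lastProd] at h6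
  · have h1 := hB.head
    simp only at h1
    simp only [lastProd] at h6
    have hw : (w = 2 ∧ w' = 3) ∨ (w = 3 ∧ w' = 2) := by
      obtain ⟨h2, h3, h4⟩ := h1
      have h5 : w ≤ 3 := by
        by_contra hc
        have : 4 * 2 ≤ w * w' := Nat.mul_le_mul (by omega) h4
        omega
      interval_cases w
      · left; omega
      · right; omega
    have hJ : ∀ y : ℝ, J w w' y = J 2 3 y := by
      intro y
      rcases hw with ⟨rfl, rfl⟩ | ⟨rfl, rfl⟩
      · rfl
      · exact J_swap 3 2 y
    have h2 : ∀ x : ℝ, JK L ((1 : ℕ) * x) = JK C ((1 : ℕ) * x) + JK B (w * x) := by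
      intro x
      have h3 := hrel x
      simp only [JK] at h3
      rw [hJ] at h3
      rw [Nat.cast_one, one_mul]
      omega
    have h3 := hT L C B 1 1 w one_pos one_pos (by omega) hL hC hB.tail h2
    simp only [gen2]
    have h4 : (w - 1) * (w' - 1) = 2 := by
      rcases hw with ⟨rfl, rfl⟩ | ⟨rfl, rfl⟩ <;> rfl
    rw [h4]
    omega

theorem main : S_T3 → S_SUM → S_POS → S_FMIN → S_G5 := by
  intro hT hS hP _ L B C hL hB hC hrel
  by_cases hL0 : L = []
  · subst hL0
    have h1 : ∀ x : ℝ, JK [(2, 3)] ((1 : ℕ) * x) = JK B ((1 : ℕ) * x) + JK C ((1 : ℕ) * x) := by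
      intro x
      have h3 := hrel x
      rw [Nat.cast_one, one_mul, JK_tre]
      simp only [JK] at h3
      omega
    have h2 := hT [(2, 3)] B C 1 1 1 one_pos one_pos one_pos tre hB hC h1
    rw [gen_tre] at h2
    simp only [gen2]
    omega
  by_cases hB0 : B = []
  · exfalso
    subst hB0
    by_cases hC0 : C = []
    · subst hC0
      have h1 := hP [(2, 3)] L 1 1 one_pos one_pos tre hL (by
        intro x
        have h3 := hrel x
        rw [Nat.cast_one, one_mul, JK_tre]
        simp only [JK] at h3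
        omega)
      exact hL0 h1.2
    · refine hS C [(2, 3)] L hC tre hL hC0 (by simp) hL0 fun x => ?_
      have h3 := hrel x
      rw [JK_tre]
      simp only [JK] at h3
      omega
  by_cases hC0 : C = []
  · exfalso
    subst hC0
    refine hS B [(2, 3)] L hB tre hL hB0 (by simp) hL0 fun x => ?_
    have h3 := hrel x
    rw [JK_tre]
    simp only [JK] at h3
    omega
  have key : lastProd B = 6 ∨ lastProd C = 6 := by
    obtain ⟨t, ht⟩ := last_products_J (ι := Fin 4) univ ![1, 1, -1, -1] ![[(2, 3)], L, B, C]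
      (by
        intro k _
        fin_cases k
        · exact tre
        · exact hL
        · exact hB
        · exact hC)
      (by
        intro x
        have h3 := hrel x
        rw [← JK_tre] at h3
        have h4 : (JK [(2, 3)] x : ℝ) + JK L x = JK B x + JK C x := by exact_mod_cast h3
        simp only [Fin.sum_univ_four, Matrix.cons_val_zero, Matrix.cons_val_one, Matrix.cons_val]
        linarith)
    have hg : ∀ N : ℕ, N ≠ 0 → (if 6 = N then (1 : ℝ) else 0) + (if lastProd L = N then 1 else 0) -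
        (if lastProd B = N then 1 else 0) - (if lastProd C = N then 1 else 0) =
        if N = 30 then t else if N = 6 ∨ N = 10 ∨ N = 15 then -t else 0 := by
      intro N hN
      rw [← ht N hN]
      simp only [sum_filter, Fin.sum_univ_four, Matrix.cons_val_zero, Matrix.cons_val_one, Matrix.cons_val]
      have e : lastProd [(2, 3)] = 6 := rfl
      rw [e]
      split_ifs <;> ring
    exact arith _ _ _ t hg
  rcases key with h | h
  · exact six hT L B C hL hB hC hrel h
  · have := six hT L C B hL hC hB (fun y => by rw [hrel y, add_comm]) h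
    omega

end Pool.Agent.H80.IR.G5
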