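import Pool.Agent.H80.IR.Stm
set_option autoImplicit false

/-! # IR-G6 -/

namespace Pool.Agent.H80.IR.G6

open Pool.Agent.H80.Sig Finset

theorem main : S_G6 := by
  intro L B C hL h
  by_contra hne
  -- invariance under `1/5`
  have h1 : ∀ t : ℝ, JK L (t + 1 / 5) = JK L t := by
    intro t
    have e1 := h (t / 6)
    have e2 := h (t / 6 + 1 / 5)
    have a1 : (5 : ℝ) * (t / 6 + 1 / 5) = 5 * (t / 6) + ((1 : ℤ) : ℝ) := by push_cast; ring
    have a2 : (6 : ℝ) * (t / 6 + 1 / 5) = (t + 1 / 5) + ((1 : ℤ) : ℝ) := by push_cast; ring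
    have a3 : (6 : ℝ) * (t / 6) = t := by ring
    rw [a1, a2, JK_add_int, JK_add_int, JK_add_int, J_add_int] at e2
    rw [a3] at e1
    linarith
  have h2 : ∀ (t : ℝ) (n : ℕ), JK L (t + n * (1 / 5)) = JK L t := by
    intro t n
    induction n with
    | zero => simp
    | succ n ih =>
      rw [← ih, ← h1 (t + n * (1 / 5))]
      congr 1
      push_cast; ring
  have h3 : ∀ (t : ℝ) (k : ℤ), JK L ((t + k) / 5) = JK L (t / 5) := by
    intro t k
    rcases Int.eq_nat_or_neg k with ⟨n, rfl | rfl⟩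
    · rw [← h2 (t / 5) n]
      congr 1
      push_cast; ring
    · rw [← h2 ((t + ((-(n : ℤ) : ℤ) : ℝ)) / 5) n]
      congr 1
      push_cast; ring
  have hl := lev_pos hL
  have h4 := Ft_comp (f := fun x => JK L (x / 5)) (p := 5) (N := lev L) h3 (by norm_num) hl 1
  have h5 : (fun x : ℝ => (fun x : ℝ => JK L (x / 5)) (((5 : ℕ) : ℝ) * x)) = JK L := by
    funext x
    simp only
    congr 1
    push_cast; ring
  rw [h5, if_neg (by norm_num)] at h4
  rw [Ft_JK_unit hL (by positivity) (Dvd.intro _ rfl) (Nat.coprime_one_left _)] at h4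
  have h6 := (mul_eq_zero.1 h4).resolve_left Complex.I_ne_zero
  have h7 := kap_pos hL hne
  have h8 : kap L 1 = 0 := by exact_mod_cast h6
  linarith

end Pool.Agent.H80.IR.G6
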