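import Pool.Agent.H80.IR.Stm
set_option autoImplicit false

/-!
# Project IR, stub GCD
-/

namespace Pool.Agent.H80.IR.GCD

open Pool.Agent.H80.Sig Finset

/-- a jump function of a nontrivial iterated torus knot has no period `1 / n`, `n ≥ 2` -/
lemma no_period {Z : List (ℕ × ℕ)} (hZ : Valid Z) (hne : Z ≠ []) {n : ℕ} (hn : 0 < n)
    (hp : ∀ (k : ℤ) (t : ℝ), JK Z (t + k / n) = JK Z t) : n = 1 := by
  by_contra hn1
  have hl := lev_pos hZ
  have hn' : (n : ℝ) ≠ 0 := by exact_mod_cast hn.ne'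
  have h1 := Ft_comp (f := fun x => JK Z (x / n)) (fun x k => by
    rw [add_div]; exact hp k (x / n)) hn hl 1
  rw [if_neg (fun h => hn1 (Nat.dvd_one.1 h))] at h1
  have h2 : (fun x : ℝ => JK Z (n * x / n)) = JK Z := by
    funext x
    rw [mul_div_cancel_left₀ x hn']
  rw [h2] at h1
  have h3 := Ft_JK_unit (u := 1) hZ (M := lev Z * n) (Nat.mul_pos hl hn) (Dvd.intro _ rfl)
    (Nat.coprime_one_left _)
  rw [h1] at h3
  have h4 := (mul_eq_zero.1 h3.symm).resolve_left Complex.I_ne_zero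
  have h5 : kap Z 1 = 0 := by exact_mod_cast h4
  exact (kap_pos hZ hne).ne' h5

theorem main : S_GCD := by
  intro X Y Z a c ha hc hZ hne h
  have ha' : (a : ℝ) ≠ 0 := by exact_mod_cast ha.ne'
  have hc' : (c : ℝ) ≠ 0 := by exact_mod_cast hc.ne'
  have p1 : Function.Periodic (JK Z) (1 : ℝ) := by
    intro t
    have := JK_add_int Z t 1
    rwa [Int.cast_one] at this
  have p2 : Function.Periodic (JK Z) ((c : ℝ) / a) := by
    intro t
    have e1 := h (t / c + 1 / a)
    have e2 := h (t / c)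
    have e3 : (a : ℝ) * (t / c + 1 / a) = a * (t / c) + ((1 : ℤ) : ℝ) := by
      push_cast; field_simp
    have e4 : (c : ℝ) * (t / c + 1 / a) = t + c / a := by field_simp
    have e5 : (c : ℝ) * (t / c) = t := by field_simp
    rw [e3, e4, JK_add_int, JK_add_int] at e1
    rw [e5] at e2
    omega
  obtain ⟨n, hn⟩ : Nat.gcd a c ∣ a := Nat.gcd_dvd_left a c
  have hg : 0 < Nat.gcd a c := Nat.gcd_pos_of_pos_left _ ha
  have hnpos : 0 < n := by
    rcases Nat.eq_zero_or_pos n with h0 | h0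
    · rw [h0, mul_zero] at hn; omega
    · exact h0
  have hg' : (Nat.gcd a c : ℝ) ≠ 0 := by exact_mod_cast hg.ne'
  have hn' : (n : ℝ) ≠ 0 := by exact_mod_cast hnpos.ne'
  have hnR : (a : ℝ) = (Nat.gcd a c : ℝ) * n := by exact_mod_cast hn
  have hbez : ((Nat.gcd a c : ℕ) : ℝ) = a * (Nat.gcdA a c : ℝ) + c * (Nat.gcdB a c : ℝ) := by
    have := Nat.gcd_eq_gcd_ab a c
    exact_mod_cast this
  have hn1 : n = 1 := by
    refine no_period hZ hne hnpos fun k t => ?_
    have p3 := (p1.int_mul (k * Nat.gcdA a c)).add_period (p2.int_mul (k * Nat.gcdB a c))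
    have e : ((k * Nat.gcdA a c : ℤ) : ℝ) * 1 + ((k * Nat.gcdB a c : ℤ) : ℝ) * ((c : ℝ) / a) =
        (k : ℝ) / n := by
      push_cast
      have e1 : (k : ℝ) / n = k * (Nat.gcd a c : ℝ) / a := by
        rw [hnR]; field_simp
      rw [e1, hbez]
      field_simp
    rw [e] at p3
    exact p3 t
  rw [hn1, mul_one] at hn
  rw [hn]
  exact Nat.gcd_dvd_right a c

end Pool.Agent.H80.IR.GCD
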