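import Pool.Agent.H80.IR.Stm

set_option autoImplicit false

/-! IR-NUM (helper63) -/

namespace Pool.Agent.H80.IR.NUM

theorem small : ∀ f ∈ Finset.range 7, ∀ d ∈ Finset.range f, ∀ r ∈ Finset.range f,
    ∀ s ∈ Finset.range f, ¬ (2 ≤ d ∧ Nat.gcd d f = 1 ∧ r * s = d * f ∧
    Nat.gcd r s = 1 ∧ d < r ∧ d < s) := by decide +kernel

theorem twelve : ∀ d ∈ Finset.range 12, ∀ r ∈ Finset.range 12, ∀ s ∈ Finset.range 12,
    ¬ (2 ≤ d ∧ Nat.gcd d 12 = 1 ∧ r * s = d * 12 ∧
    Nat.gcd r s = 1 ∧ d < r ∧ d < s) := by decide +kernel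

theorem main : S_NUM := by
  intro d f r s hd hdf hrs hc hr hs
  have hrf : r < f := by
    by_contra h
    push Not at h
    have h1 : f * (d + 1) ≤ r * s := Nat.mul_le_mul h hs
    rw [hrs] at h1
    have hf : 0 < f := by
      rcases Nat.eq_zero_or_pos f with rfl | hf
      · rw [mul_zero] at hrs
        rcases Nat.mul_eq_zero.1 hrs with h | h <;> omega
      · exact hf
    nlinarith
  have hsf : s < f := by
    by_contra h
    push Not at h
    have h1 : (d + 1) * f ≤ r * s := Nat.mul_le_mul hr h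
    rw [hrs] at h1
    have hf : 0 < f := by omega
    nlinarith
  refine ⟨?_, ?_, ?_⟩
  · by_contra h
    push Not at h
    exact small f (Finset.mem_range.2 h) d (Finset.mem_range.2 (by omega)) r
      (Finset.mem_range.2 hrf) s (Finset.mem_range.2 hsf) ⟨hd, hdf, hrs, hc, hr, hs⟩
  · rintro rfl
    exact twelve d (Finset.mem_range.2 (by omega)) r
      (Finset.mem_range.2 hrf) s (Finset.mem_range.2 hsf) ⟨hd, hdf, hrs, hc, hr, hs⟩
  · omega

end Pool.Agent.H80.IR.NUM
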