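import Pool.Agent.H80.IR.Stm
set_option autoImplicit false

/-!
# Project IR, statement P1
-/

namespace Pool.Agent.H80.IR.P1

open Pool.Agent.H80.Sig Finset

/-- the twisted relation -/
lemma twisted {n : ℕ} {N a : Fin n → ℕ} {A : Fin n → ℝ} {L : ℕ} [NeZero L]
    (hN : ∀ i, N i ∣ L ∧ (a i).Coprime (N i))
    (hrel : ∀ u : ℕ, u.Coprime L → ∑ i, A i * ct (N i) (a i * u) = 0)
    {g : ℕ} (χ : DC g) (hg : g ∣ L) :
    ∃ c : Fin n → ℂ, (∀ i, c i ≠ 0) ∧ ∑ i, (A i : ℂ) * (c i * T L χ (N i)) = 0 := by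
  have hL : 0 < L := NeZero.pos L
  have hw : ∀ i, ∃ w : (ZMod L)ˣ, vl w ≡ a i [MOD N i] := fun i => lift_unit (hN i).1 (hN i).2
  choose w hw using hw
  have hu : ∀ i, χ ((vl (w i) : ℕ) : ZMod g) ≠ 0 := by
    intro i
    have h1 : (vl (w i)).Coprime g := Nat.Coprime.coprime_dvd_right hg (vl_coprime (w i))
    have h2 : IsUnit ((vl (w i) : ℕ) : ZMod g) := by
      rw [ZMod.isUnit_iff_coprime]; exact h1
    exact (h2.map χ).ne_zero
  refine ⟨fun i => (χ ((vl (w i) : ℕ) : ZMod g))⁻¹, fun i => inv_ne_zero (hu i), ?_⟩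
  have h1 : ∀ v : (ZMod L)ˣ, ∑ i, (A i : ℂ) * K (N i) (a i * vl v) = 0 := by
    intro v
    have h2 := hrel (vl v) (vl_coprime v)
    have h3 : ∑ i, (A i : ℂ) * K (N i) (a i * vl v) =
        Complex.I * ((∑ i, A i * ct (N i) (a i * vl v) : ℝ) : ℂ) := by
      rw [Complex.ofReal_sum, mul_sum]
      refine sum_congr rfl fun i _ => ?_
      rw [K_eq_ct]; push_cast; ring
    rw [h3, h2]; simp
  have h4 : ∑ v : (ZMod L)ˣ, χ ((vl v : ℕ) : ZMod g) *
      ∑ i, (A i : ℂ) * K (N i) (a i * vl v) = 0 :=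
    sum_eq_zero fun v _ => by rw [h1, mul_zero]
  rw [← h4]
  simp_rw [mul_sum]
  rw [sum_comm]
  refine sum_congr rfl fun i _ => ?_
  rw [T_shift χ hg (hN i).1 (w i), ← mul_assoc (χ ((vl (w i) : ℕ) : ZMod g))⁻¹,
    inv_mul_cancel₀ (hu i), one_mul, mul_sum]
  refine sum_congr rfl fun v _ => ?_
  have hN0 : 0 < N i := Nat.pos_of_dvd_of_pos (hN i).1 hL
  rw [K_congr hN0 (h' := a i * vl v) ((hw i).mul_right (vl v))]
  ring

/-- the conclusion for one index -/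
lemma kill {n : ℕ} {N a : Fin n → ℕ} {A : Fin n → ℝ} {L : ℕ} [NeZero L]
    (hN : ∀ i, N i ∣ L ∧ (a i).Coprime (N i))
    (hrel : ∀ u : ℕ, u.Coprime L → ∑ i, A i * ct (N i) (a i * u) = 0)
    {g : ℕ} (χ : DC g) (hg : g ∣ L) (hχ : Prim χ) (i₀ : Fin n)
    (hT : T L χ (N i₀) ≠ 0) (hi : ∀ i, i ≠ i₀ → ¬ g ∣ N i) : A i₀ = 0 := by
  obtain ⟨c, hc, h⟩ := twisted hN hrel χ hg
  rw [Finset.sum_eq_single i₀] at h
  · rcases mul_eq_zero.1 h with h1 | h1
    · exact_mod_cast h1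
    · exact absurd h1 (mul_ne_zero (hc i₀) hT)
  · intro i _ hne
    rw [T_kill χ hχ hg (hN i).1 (hi i hne), mul_zero, mul_zero]
  · intro h; exact absurd (mem_univ _) h

theorem main : S_P1 := by
  intro n N a A L hL hN hrel i₀ h3 h12 hi
  have : NeZero L := ⟨hL.ne'⟩
  have hg : Sig.cond (N i₀) ∣ N i₀ := by
    unfold Sig.cond
    split_ifs with h
    · exact Nat.div_dvd_of_dvd (by omega)
    · exact dvd_refl _
  have hgL := hg.trans (hN i₀).1
  have hg4 : ¬ Sig.cond (N i₀) % 4 = 2 := by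
    unfold Sig.cond
    split_ifs with h
    · omega
    · exact h
  have hg3 : 3 ≤ Sig.cond (N i₀) := by
    unfold Sig.cond
    split_ifs with h
    · omega
    · exact h3
  have hg12 : Sig.cond (N i₀) ≠ 12 := by
    unfold Sig.cond
    split_ifs with h
    · omega
    · exact h12
  obtain ⟨χ, hχo, hχ⟩ := exists_odd_prim (Sig.cond (N i₀)) hg3 hg4 hg12
  apply kill hN hrel χ hgL hχ i₀ _ hi
  have hne := T_self_ne (L := L) χ hgL hχo
  by_cases h : N i₀ % 4 = 2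
  · have h2 : 2 * Sig.cond (N i₀) = N i₀ := by
      unfold Sig.cond
      rw [if_pos h]; omega
    have hodd : Odd (Sig.cond (N i₀)) := by
      rw [Nat.odd_iff]; unfold Sig.cond
      rw [if_pos h]; omega
    have h4 := T_two (L := L) χ (by rw [h2]; exact (hN i₀).1) hodd (by omega)
    rw [h2] at h4
    rw [h4]
    exact mul_ne_zero (two_sub_ne χ _) hne
  · have h2 : Sig.cond (N i₀) = N i₀ := by
      unfold Sig.cond
      rw [if_neg h]
    have h4 : ∀ (m : ℕ) (ψ : DC m), m = N i₀ → T L ψ m ≠ 0 → T L ψ (N i₀) ≠ 0 := by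
      intro m ψ hm h; rw [← hm]; exact h
    exact h4 _ χ h2 hne

end Pool.Agent.H80.IR.P1
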