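import Pool.Agent.H80.IR.T.P1
set_option autoImplicit false

/-!
# Project IR, statement P2
-/

namespace Pool.Agent.H80.IR.P2

open Pool.Agent.H80.Sig Finset

/-- twisted sums of odd characters whose modulus divides the level do not vanish -/
lemma T_ne {g N L : ℕ} [NeZero L] (ψ : DC g) (hg : g ∣ N) (hN : N ∣ L) (ho : ψ (-1) = -1) :
    T L ψ N ≠ 0 := by
  set χ : DC N := DirichletCharacter.changeLevel hg ψ with hχ
  have hL : 0 < L := NeZero.pos L
  have hN0 : 0 < N := Nat.pos_of_dvd_of_pos hN hL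
  have : NeZero N := ⟨hN0.ne'⟩
  have hχo : χ (-1) = -1 := by
    have hu : ((-1 : (ZMod N)ˣ) : ZMod N) = -1 := by simp
    rw [hχ, ← hu, DirichletCharacter.changeLevel_eq_cast_of_dvd, hu,
      ZMod.cast_neg hg, ZMod.cast_one hg, ho]
  intro h2
  apply T_self_ne (L := L) χ hN hχo
  rw [← h2]
  unfold T
  refine sum_congr rfl fun v _ => ?_
  congr 1
  have hcop : (vl v).Coprime N := Nat.Coprime.coprime_dvd_right hN (vl_coprime v)
  have hu : ((ZMod.unitOfCoprime (vl v) hcop : (ZMod N)ˣ) : ZMod N) =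
      ((vl v : ℕ) : ZMod N) := by simp
  rw [hχ, ← hu, DirichletCharacter.changeLevel_eq_cast_of_dvd, hu,
    ZMod.cast_natCast hg]

theorem main : S_P2 := by
  intro n N a A L hL hN hrel i₀ h12 g hg hi
  have : NeZero L := ⟨hL.ne'⟩
  have hg12 : g ∣ N i₀ := by
    rw [h12]
    rcases hg with rfl | rfl <;> norm_num
  have h4 : ¬ g % 4 = 2 := by
    rcases hg with rfl | rfl <;> norm_num
  obtain ⟨χ, hχo, hχ⟩ := exists_odd_prim g (by omega) h4 (by omega)
  exact P1.kill hN hrel χ (hg12.trans (hN i₀).1) hχ i₀ (T_ne χ hg12 (hN i₀).1 hχo) hi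

end Pool.Agent.H80.IR.P2
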