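import Pool.Agent.H80.IR.T.QA15
set_option autoImplicit false

/-! # IR-QA10 -/

namespace Pool.Agent.H80.IR.QA10

open Pool.Agent.H80.Sig Finset

lemma cond_ten {N : ℕ} (hN : 6 ≤ N) (h : Sig.cond N ∣ 10) : N = 10 := by
  have hle := Nat.le_of_dvd (by norm_num) h
  rcases QA15.cond_cases N with ⟨_, h1, h2⟩ | ⟨_, h1, h2⟩
  · obtain ⟨q, hq⟩ : ∃ q, q = Sig.cond N := ⟨_, rfl⟩
    rw [← hq] at h h1 h2 hle
    have : q = 5 := by
      rw [Nat.odd_iff] at h1
      interval_cases q <;> omega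
    omega
  · rw [h1] at h hle
    rw [Nat.odd_iff] at h2
    interval_cases N <;> omega

theorem main : S_P1 → S_P2 → S_QA10 := by
  intro hP1 hP2 N₁ N₂ N₃ L hL hfL h1L h2L h3L h1 h2 h3 hrel
  rcases QA15.qa hP1 hP2 (f := 10) (e := 3) (by norm_num) (by norm_num) (by norm_num)
    (by norm_num) hL hfL h1L h2L h3L h1 h2 h3 hrel with ⟨a1, a2, a3⟩ | ⟨m, N, a1, a2, a3, a4, a5⟩
  · left
    have h4 := cond_ten h1.1 a3
    have h5 := QA15.npp_lt12 h2 (by omega)
    have h6 := QA15.npp_lt12 h3 (by omega)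
    omega
  · right
    refine ⟨m, N, a1, a3, a4, ?_⟩
    have hN6 : 6 ≤ N := by
      rcases a4 with ⟨_, h⟩ | ⟨h, _⟩
      · rw [← h]; exact h3.1
      · rw [← h]; exact h2.1
    rcases a5 with a5 | a5 | a5
    · exact Or.inl (cond_ten hN6 a5)
    · exact Or.inr (Or.inl a5)
    · exact Or.inr (Or.inr a5)

end Pool.Agent.H80.IR.QA10
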