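import Pool.Agent.H80.IR.Stm
set_option autoImplicit false

/-! # IR-QA15 -/

namespace Pool.Agent.H80.IR.QA15

open Pool.Agent.H80.Sig Finset

lemma lt_of_ct {N N' : ℕ} (h2 : 2 ≤ N) (h : ct N 1 < ct N' 1) : N < N' := by
  by_contra hcon
  push Not at hcon
  rcases hcon.lt_or_eq with h1 | h1
  · have := ct_lt_gen (N := N) (N' := N') (h := 1) (h' := 1) one_pos (by omega)
      (by
        by_contra h3
        have h4 : N' = 0 ∨ N' = 1 := by omega
        have hz : ct N' 1 = 0 ∨ ct N' 1 = 0 := by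
          rcases h4 with rfl | rfl
          · left; unfold ct; simp
          · left; unfold ct; simp
        have hp : 0 ≤ ct N 1 := by
          rcases Nat.lt_or_ge 2 N with h5 | h5
          · exact (ct_pos one_pos (by omega)).le
          · have : N = 2 := by omega
            subst this
            unfold ct
            have e : Real.pi * (((1 : ℕ) : ℝ) / ((2 : ℕ) : ℝ)) = Real.pi / 2 := by
              push_cast; ring
            rw [e, Real.cos_pi_div_two, zero_div]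
        rcases hz with hz | hz <;> linarith)
    linarith
  · rw [h1] at h
    exact lt_irrefl _ h

lemma npp_lt12 {N : ℕ} (h : NPP N) (h1 : N < 12) : N = 6 ∨ N = 10 := by
  obtain ⟨h6, hp⟩ := h
  have h7 : N ≠ 7 := by
    rintro rfl; exact hp (Nat.Prime.isPrimePow (by norm_num))
  have h8 : N ≠ 8 := by
    rintro rfl; exact hp (by
      rw [isPrimePow_nat_iff]; exact ⟨2, 3, Nat.prime_two, by norm_num, by norm_num⟩)
  have h9 : N ≠ 9 := by
    rintro rfl; exact hp (by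
      rw [isPrimePow_nat_iff]; exact ⟨3, 2, Nat.prime_three, by norm_num, by norm_num⟩)
  have h11 : N ≠ 11 := by
    rintro rfl; exact hp (Nat.Prime.isPrimePow (by norm_num))
  omega

lemma cond_cases (N : ℕ) : (N % 4 = 2 ∧ Odd (Sig.cond N) ∧ N = 2 * Sig.cond N) ∨
    (N % 4 ≠ 2 ∧ Sig.cond N = N ∧ (Odd N ∨ 4 ∣ N)) := by
  unfold Sig.cond
  by_cases h : N % 4 = 2
  · left
    rw [if_pos h]
    refine ⟨h, ?_, by omega⟩
    rw [Nat.odd_iff]; omega
  · right
    rw [if_neg h]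
    refine ⟨h, rfl, ?_⟩
    rw [Nat.odd_iff]
    omega

/-- the final case analysis -/
lemma last_case {m N f : ℕ} (hm : Odd m) (hN0 : 0 < N) (hlt : N < 2 * m)
    (h : Sig.cond N ∣ 2 * m ∨ Sig.cond N ∣ f ∨ Sig.cond N ∣ m) :
    Sig.cond N ∣ f ∨ N = m ∨ 3 * N ≤ 2 * m := by
  by_cases hf : Sig.cond N ∣ f
  · exact Or.inl hf
  right
  have h1 : Sig.cond N ∣ 2 * m := by
    rcases h with h | h | h
    · exact h
    · exact absurd h hf
    · exact h.mul_left 2
  have hm4 : ¬ 4 ∣ 2 * m := by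
    rw [Nat.odd_iff] at hm
    omega
  obtain ⟨q, hq⟩ : ∃ q, q = Sig.cond N := ⟨_, rfl⟩
  rw [← hq] at h1
  have hqo : Odd q ∧ (N = q ∨ N = 2 * q) := by
    rcases cond_cases N with ⟨_, h2, h3⟩ | ⟨_, h2, h3⟩
    · rw [← hq] at h2 h3; exact ⟨h2, Or.inr h3⟩
    · rw [← hq] at h2
      rcases h3 with h3 | h3
      · rw [h2]; exact ⟨h3, Or.inl rfl⟩
      · exfalso
        apply hm4
        rw [← h2] at h3
        exact h3.trans h1
  have h2 : q ∣ m := (Nat.Coprime.symm (Nat.coprime_two_left.2 hqo.1)).dvd_of_dvd_mul_left h1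
  obtain ⟨k, hk⟩ := h2
  have hk0 : 0 < k := by
    rcases Nat.eq_zero_or_pos k with h3 | h3
    · rw [h3, mul_zero] at hk
      rw [hk] at hm
      simp at hm
    · exact h3
  have hko : k % 2 = 1 := by
    rw [← Nat.odd_iff]
    rw [hk] at hm
    exact (Nat.odd_mul.1 hm).2
  rcases Nat.lt_or_ge k 3 with h3 | h3
  · have : k = 1 := by omega
    rw [this, mul_one] at hk
    left
    omega
  · right
    have h4 : q * 3 ≤ q * k := Nat.mul_le_mul_left q h3
    rw [← hk] at h4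
    omega

/-- the case analysis for the relation -/
lemma qa (hP1 : S_P1) (hP2 : S_P2) {f e : ℕ} (hf4 : ¬ 4 ∣ f) (he0 : 0 < e) (he : 2 * e < f)
    (hef : e.Coprime f) {N₁ N₂ N₃ L : ℕ} (hL : 0 < L) (hfL : f ∣ L) (h1L : N₁ ∣ L)
    (h2L : N₂ ∣ L) (h3L : N₃ ∣ L) (h1 : NPP N₁) (h2 : NPP N₂) (h3 : NPP N₃)
    (hrel : ∀ u : ℕ, u.Coprime L → ct N₁ u = ct f (e * u) + ct N₂ u + ct N₃ u) :
    (N₂ < N₁ ∧ N₃ < N₁ ∧ Sig.cond N₁ ∣ f) ∨ (∃ m N : ℕ, Odd m ∧ ¬ m ∣ f ∧ N₁ = 2 * m ∧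
    ((N₂ = m ∧ N₃ = N) ∨ (N₂ = N ∧ N₃ = m)) ∧ (Sig.cond N ∣ f ∨ N = m ∨ 3 * N ≤ 2 * m)) := by
  have r1 := hrel 1 (Nat.coprime_one_left L)
  rw [mul_one] at r1
  have pf : 0 < ct f e := ct_pos he0 he
  have p2 : 0 < ct N₂ 1 := ct_pos one_pos (by have := h2.1; omega)
  have p3 : 0 < ct N₃ 1 := ct_pos one_pos (by have := h3.1; omega)
  have hlt2 : N₂ < N₁ := lt_of_ct (by have := h2.1; omega) (by linarith)
  have hlt3 : N₃ < N₁ := lt_of_ct (by have := h3.1; omega) (by linarith)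
  -- the family
  have hdiv : ∀ i : Fin 4, ![N₁, f, N₂, N₃] i ∣ L ∧
      (![1, e, 1, 1] i).Coprime (![N₁, f, N₂, N₃] i) := by
    intro i
    fin_cases i
    · exact ⟨h1L, Nat.coprime_one_left _⟩
    · exact ⟨hfL, hef⟩
    · exact ⟨h2L, Nat.coprime_one_left _⟩
    · exact ⟨h3L, Nat.coprime_one_left _⟩
  have hsum : ∀ u : ℕ, u.Coprime L → ∑ i : Fin 4, (![1, -1, -1, -1] : Fin 4 → ℝ) i *
      ct (![N₁, f, N₂, N₃] i) (![1, e, 1, 1] i * u) = 0 := by
    intro u hu
    rw [Fin.sum_univ_four]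
    change (1 : ℝ) * ct N₁ (1 * u) + (-1 : ℝ) * ct f (e * u) + (-1 : ℝ) * ct N₂ (1 * u) +
      (-1 : ℝ) * ct N₃ (1 * u) = 0
    rw [one_mul u, hrel u hu]
    ring
  -- the consequences of P1
  have c1 : N₁ ≠ 12 → Sig.cond N₁ ∣ f ∨ Sig.cond N₁ ∣ N₂ ∨ Sig.cond N₁ ∣ N₃ := by
    intro hne
    by_contra hcon
    push Not at hcon
    have := hP1 4 ![N₁, f, N₂, N₃] ![1, e, 1, 1] ![1, -1, -1, -1] L hL hdiv hsum 0
      (by change 3 ≤ N₁; have := h1.1; omega) hne
      (by
        intro i hi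
        fin_cases i
        · exact absurd rfl hi
        · exact hcon.1
        · exact hcon.2.1
        · exact hcon.2.2)
    change (1 : ℝ) = 0 at this
    exact one_ne_zero this
  have c2 : N₂ ≠ 12 → Sig.cond N₂ ∣ N₁ ∨ Sig.cond N₂ ∣ f ∨ Sig.cond N₂ ∣ N₃ := by
    intro hne
    by_contra hcon
    push Not at hcon
    have := hP1 4 ![N₁, f, N₂, N₃] ![1, e, 1, 1] ![1, -1, -1, -1] L hL hdiv hsum 2
      (by change 3 ≤ N₂; have := h2.1; omega) hne
      (by
        intro i hi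
        fin_cases i
        · exact hcon.1
        · exact hcon.2.1
        · exact absurd rfl hi
        · exact hcon.2.2)
    change (-1 : ℝ) = 0 at this
    norm_num at this
  have c3 : N₃ ≠ 12 → Sig.cond N₃ ∣ N₁ ∨ Sig.cond N₃ ∣ f ∨ Sig.cond N₃ ∣ N₂ := by
    intro hne
    by_contra hcon
    push Not at hcon
    have := hP1 4 ![N₁, f, N₂, N₃] ![1, e, 1, 1] ![1, -1, -1, -1] L hL hdiv hsum 3
      (by change 3 ≤ N₃; have := h3.1; omega) hne
      (by
        intro i hi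
        fin_cases i
        · exact hcon.1
        · exact hcon.2.1
        · exact hcon.2.2
        · exact absurd rfl hi)
    change (-1 : ℝ) = 0 at this
    norm_num at this
  -- the consequences of P2
  have d1 : N₁ = 12 → 4 ∣ N₂ ∨ 4 ∣ N₃ := by
    intro heq
    by_contra hcon
    push Not at hcon
    have := hP2 4 ![N₁, f, N₂, N₃] ![1, e, 1, 1] ![1, -1, -1, -1] L hL hdiv hsum 0
      heq 4 (Or.inr rfl)
      (by
        intro i hi
        fin_cases i
        · exact absurd rfl hi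
        · exact hf4
        · exact hcon.1
        · exact hcon.2)
    change (1 : ℝ) = 0 at this
    exact one_ne_zero this
  have d2 : N₂ = 12 → 4 ∣ N₁ ∨ 4 ∣ N₃ := by
    intro heq
    by_contra hcon
    push Not at hcon
    have := hP2 4 ![N₁, f, N₂, N₃] ![1, e, 1, 1] ![1, -1, -1, -1] L hL hdiv hsum 2
      heq 4 (Or.inr rfl)
      (by
        intro i hi
        fin_cases i
        · exact hcon.1
        · exact hf4
        · exact absurd rfl hi
        · exact hcon.2)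
    change (-1 : ℝ) = 0 at this
    norm_num at this
  have d3 : N₃ = 12 → 4 ∣ N₁ ∨ 4 ∣ N₂ := by
    intro heq
    by_contra hcon
    push Not at hcon
    have := hP2 4 ![N₁, f, N₂, N₃] ![1, e, 1, 1] ![1, -1, -1, -1] L hL hdiv hsum 3
      heq 4 (Or.inr rfl)
      (by
        intro i hi
        fin_cases i
        · exact hcon.1
        · exact hf4
        · exact hcon.2
        · exact absurd rfl hi)
    change (-1 : ℝ) = 0 at this
    norm_num at this
  have hne1 : N₁ ≠ 12 := by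
    intro heq
    have e2 := npp_lt12 h2 (by omega)
    have e3 := npp_lt12 h3 (by omega)
    have := d1 heq
    omega
  by_cases hmf : Sig.cond N₁ ∣ f
  · exact Or.inl ⟨hlt2, hlt3, hmf⟩
  right
  obtain ⟨m, hm⟩ : ∃ m, m = Sig.cond N₁ := ⟨_, rfl⟩
  have hc1 := c1 hne1
  rw [← hm] at hc1 hmf
  have h10 := h1.1
  have h20 := h2.1
  have h30 := h3.1
  have hm' : Odd m ∧ N₁ = 2 * m := by
    rcases cond_cases N₁ with ⟨_, h4, h5⟩ | ⟨_, h4, _⟩
    · rw [← hm] at h4 h5; exact ⟨h4, h5⟩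
    · exfalso
      rw [← hm] at h4
      rcases hc1 with h6 | h6 | h6
      · exact hmf h6
      · rw [h4] at h6
        have := Nat.le_of_dvd (by omega) h6
        omega
      · rw [h4] at h6
        have := Nat.le_of_dvd (by omega) h6
        omega
  obtain ⟨hmo, hN1⟩ := hm'
  have hm4 : ¬ 4 ∣ m := by
    rw [Nat.odd_iff] at hmo
    omega
  have hm42 : ¬ 4 ∣ 2 * m := by
    rw [Nat.odd_iff] at hmo
    omega
  have heq : ∀ N : ℕ, 6 ≤ N → N < N₁ → m ∣ N → N = m := by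
    intro N hN6 hNlt hdvd
    obtain ⟨k, hk⟩ := hdvd
    have hk0 : k ≠ 0 := by rintro rfl; omega
    have hk2 : k < 2 := by
      by_contra h7
      push Not at h7
      have := Nat.mul_le_mul_left m h7
      omega
    have : k = 1 := by omega
    rw [hk, this, mul_one]
  rcases hc1 with h6 | h6 | h6
  · exact absurd h6 hmf
  · have hN2 : N₂ = m := heq N₂ h20 hlt2 h6
    refine ⟨m, N₃, hmo, hmf, hN1, Or.inl ⟨hN2, rfl⟩, ?_⟩
    by_cases h12 : N₃ = 12
    · exfalso
      rcases d3 h12 with h | h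
      · rw [hN1] at h; exact hm42 h
      · rw [hN2] at h; exact hm4 h
    · have h7 := c3 h12
      rw [hN1, hN2] at h7
      exact last_case hmo (by omega) (by omega) h7
  · have hN3 : N₃ = m := heq N₃ h30 hlt3 h6
    refine ⟨m, N₂, hmo, hmf, hN1, Or.inr ⟨rfl, hN3⟩, ?_⟩
    by_cases h12 : N₂ = 12
    · exfalso
      rcases d2 h12 with h | h
      · rw [hN1] at h; exact hm42 h
      · rw [hN3] at h; exact hm4 h
    · have h7 := c2 h12
      rw [hN1, hN3] at h7
      exact last_case hmo (by omega) (by omega) h7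

lemma cond_dvd_two_mul {N f : ℕ} (h : Sig.cond N ∣ f) : N ∣ 2 * f := by
  rcases cond_cases N with ⟨_, _, h2⟩ | ⟨_, h2, _⟩
  · rw [h2]; exact Nat.mul_dvd_mul_left 2 h
  · rw [h2] at h; exact h.mul_left 2

theorem main : S_P1 → S_P2 → S_QA15 := by
  intro hP1 hP2 N₁ N₂ N₃ L hL hfL h1L h2L h3L h1 h2 h3 hrel
  rcases qa hP1 hP2 (f := 15) (e := 2) (by norm_num) (by norm_num) (by norm_num) (by norm_num)
    hL hfL h1L h2L h3L h1 h2 h3 hrel with ⟨a1, a2, a3⟩ | ⟨m, N, a1, a2, a3, a4, a5⟩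
  · exact Or.inl ⟨a1, a2, cond_dvd_two_mul a3⟩
  · right
    refine ⟨m, N, a1, a2, a3, a4, ?_⟩
    rcases a5 with a5 | a5 | a5
    · exact Or.inl (cond_dvd_two_mul a5)
    · exact Or.inr (Or.inl a5)
    · exact Or.inr (Or.inr a5)

end Pool.Agent.H80.IR.QA15
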