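import Pool.Agent.H80.IR.T.CotB
set_option autoImplicit false

/-!
# S_QB10
-/

namespace Pool.Agent.H80.IR.QB10

open Pool.Agent.H80.Sig Pool.Agent.H80.IR.CotB

lemma c103_lo : (1 / 2 : ℝ) ≤ ct 10 3 := by
  have h : ct 3 1 < ct 10 3 := ct_lt_gen (by norm_num) (by norm_num) (by norm_num)
  have e : Real.pi * (((1 : ℕ) : ℝ) / ((3 : ℕ) : ℝ)) = Real.pi / 3 := by push_cast; ring
  have h2 : (1 / 2 : ℝ) ≤ ct 3 1 := by
    unfold ct
    rw [e, Real.cos_pi_div_three]
    have h3 : 0 < Real.sin (Real.pi / 3) :=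
      Real.sin_pos_of_pos_of_lt_pi (by linarith [Real.pi_pos]) (by linarith [Real.pi_pos])
    rw [le_div_iff₀ h3]
    have := Real.sin_le_one (Real.pi / 3)
    linarith
  linarith

lemma c103_hi : ct 10 3 < 1 := by
  have h : ct 10 3 < ct 4 1 := ct_lt_gen (by norm_num) (by norm_num) (by norm_num)
  have e : Real.pi * (((1 : ℕ) : ℝ) / ((4 : ℕ) : ℝ)) = Real.pi / 4 := by push_cast; ring
  have h2 : ct 4 1 = 1 := by
    unfold ct
    rw [e, Real.cos_pi_div_four, Real.sin_pi_div_four]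
    exact div_self (by positivity)
  linarith

lemma c6 (hc : S_COT) : (1.73 : ℝ) < ct 6 1 ∧ ct 6 1 < 1.74 := by
  obtain ⟨h1, h2⟩ := ct_bd hc 6 1 (by norm_num) (a := 0.52359) (b := 0.5236) (by norm_num)
    (by norm_num) (by norm_num) (by norm_num)
  norm_num at h1 h2 ⊢
  constructor <;> linarith

lemma c10 (hc : S_COT) : (3.07 : ℝ) < ct 10 1 ∧ ct 10 1 < 3.08 := by
  obtain ⟨h1, h2⟩ := ct_bd hc 10 1 (by norm_num) (a := 0.314159) (b := 0.31416) (by norm_num)
    (by norm_num) (by norm_num) (by norm_num)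
  norm_num at h1 h2 ⊢
  constructor <;> linarith

lemma odd_npp {m : ℕ} (hm : Odd m) (h : NPP m) : 15 ≤ m := by
  obtain ⟨h1, h2⟩ := h
  by_contra h3
  have h4 : m < 15 := by omega
  obtain ⟨k, hk⟩ := hm
  have h5 : m = 7 ∨ m = 9 ∨ m = 11 ∨ m = 13 := by omega
  rcases h5 with rfl | rfl | rfl | rfl
  · exact h2 (Nat.Prime.isPrimePow (by norm_num))
  · exact h2 ⟨3, 2, Nat.prime_iff.1 (by norm_num), by norm_num, by norm_num⟩
  · exact h2 (Nat.Prime.isPrimePow (by norm_num))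
  · exact h2 (Nat.Prime.isPrimePow (by norm_num))

theorem main (hc : S_COT) : S_QB10 := by
  have a1 := c103_lo
  have a2 := c103_hi
  obtain ⟨a3, a4⟩ := c6 hc
  obtain ⟨a5, a6⟩ := c10 hc
  refine ⟨fun h => by linarith, ?_⟩
  intro m N hm h1 h2 h3 h4
  have hm15 := odd_npp hm h1
  have hmR : (15 : ℝ) ≤ m := by exact_mod_cast hm15
  have h5 := ct_sub_ge (m := m) (by omega)
  have hp1 : (3.14159 : ℝ) < Real.pi := by
    have := Real.pi_gt_d6
    linarith
  have hp2 : Real.pi < (3.1416 : ℝ) := by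
    have := Real.pi_lt_d6
    linarith
  have h6 : (4.77 : ℝ) ≤ (m : ℝ) / Real.pi := by
    rw [le_div_iff₀ Real.pi_pos]; nlinarith
  rcases h3 with rfl | rfl | h3
  · linarith
  · -- `N = m`
    have hN0 : (0 : ℝ) < N := by linarith
    obtain ⟨hy1, hy2⟩ := cot_bd hc (y := Real.pi * (((1 : ℕ) : ℝ) / ((2 * N : ℕ) : ℝ)))
      (a := Real.pi * (((1 : ℕ) : ℝ) / ((2 * N : ℕ) : ℝ)))
      (b := Real.pi * (((1 : ℕ) : ℝ) / ((2 * N : ℕ) : ℝ))) (by positivity) le_rfl le_rfl (by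
        push_cast
        rw [mul_one_div, div_le_iff₀ (by positivity)]
        nlinarith)
    obtain ⟨hz1, hz2⟩ := cot_bd hc (y := Real.pi * (((1 : ℕ) : ℝ) / (N : ℝ)))
      (a := Real.pi * (((1 : ℕ) : ℝ) / (N : ℝ)))
      (b := Real.pi * (((1 : ℕ) : ℝ) / (N : ℝ))) (by positivity) le_rfl le_rfl (by
        push_cast
        rw [mul_one_div, div_le_iff₀ (by positivity)]
        nlinarith)
    change ct (2 * N) 1 ≤ _ at hy2
    change _ ≤ ct N 1 at hz1
    have e : Real.pi * (((1 : ℕ) : ℝ) / (N : ℝ)) = 2 * (Real.pi * (((1 : ℕ) : ℝ) / ((2 * N : ℕ) : ℝ))) := by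
      push_cast; field_simp
    rw [e] at hz1
    set y : ℝ := Real.pi * (((1 : ℕ) : ℝ) / ((2 * N : ℕ) : ℝ)) with hy
    have hy0 : 0 < y := by rw [hy]; positivity
    have hy3 : y ≤ 0.11 := by
      rw [hy]
      push_cast
      rw [mul_one_div, div_le_iff₀ (by positivity)]
      nlinarith
    have e2 : 1 / (2 * y) = (1 / y) / 2 := by field_simp
    rw [e2] at hz1
    have hy4 : y ^ 3 ≤ y := by
      have : y ^ 2 ≤ 1 := by nlinarith
      nlinarith
    nlinarith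
  · -- `3 N ≤ 2 m`
    have hN6 := h2.1
    have h7 := ct_le_div (N := N) (by omega)
    have h8 : (3 : ℝ) * N ≤ 2 * m := by exact_mod_cast h3
    have h9 : (N : ℝ) / Real.pi ≤ 2 / 3 * ((m : ℝ) / Real.pi) := by
      rw [mul_div_assoc', div_le_div_iff_of_pos_right Real.pi_pos]
      linarith
    linarith

end Pool.Agent.H80.IR.QB10
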