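import Pool.Agent.H80.IR.T.CotB
set_option autoImplicit false

/-!
# S_QB15
-/

namespace Pool.Agent.H80.IR.QB15

open Pool.Agent.H80.Sig Pool.Agent.H80.IR.CotB

lemma c152 (hc : S_COT) : (2.2458 : ℝ) < ct 15 2 ∧ ct 15 2 < 2.2478 := by
  obtain ⟨h1, h2⟩ := ct_bd hc 15 2 (by norm_num) (a := 0.418878) (b := 0.41888) (by norm_num)
    (by norm_num) (by norm_num) (by norm_num)
  norm_num at h1 h2 ⊢
  constructor <;> linarith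

lemma c6 (hc : S_COT) : (1.7315 : ℝ) < ct 6 1 ∧ ct 6 1 < 1.7355 := by
  obtain ⟨h1, h2⟩ := ct_bd hc 6 1 (by norm_num) (a := 0.523598) (b := 0.5236) (by norm_num)
    (by norm_num) (by norm_num) (by norm_num)
  norm_num at h1 h2 ⊢
  constructor <;> linarith

lemma c10 (hc : S_COT) : (3.077 : ℝ) < ct 10 1 ∧ ct 10 1 < 3.079 := by
  obtain ⟨h1, h2⟩ := ct_bd hc 10 1 (by norm_num) (a := 0.314159) (b := 0.31416) (by norm_num)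
    (by norm_num) (by norm_num) (by norm_num)
  norm_num at h1 h2 ⊢
  constructor <;> linarith

lemma c12 (hc : S_COT) : (3.73 : ℝ) < ct 12 1 ∧ ct 12 1 < 3.733 := by
  obtain ⟨h1, h2⟩ := ct_bd hc 12 1 (by norm_num) (a := 0.261799) (b := 0.2618) (by norm_num)
    (by norm_num) (by norm_num) (by norm_num)
  norm_num at h1 h2 ⊢
  constructor <;> linarith

lemma c14 (hc : S_COT) : (4.38 : ℝ) < ct 14 1 ∧ ct 14 1 < 4.382 := by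
  obtain ⟨h1, h2⟩ := ct_bd hc 14 1 (by norm_num) (a := 0.224399) (b := 0.2244) (by norm_num)
    (by norm_num) (by norm_num) (by norm_num)
  norm_num at h1 h2 ⊢
  constructor <;> linarith

lemma c15 (hc : S_COT) : (4.704 : ℝ) < ct 15 1 ∧ ct 15 1 < 4.705 := by
  obtain ⟨h1, h2⟩ := ct_bd hc 15 1 (by norm_num) (a := 0.209439) (b := 0.20944) (by norm_num)
    (by norm_num) (by norm_num) (by norm_num)
  norm_num at h1 h2 ⊢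
  constructor <;> linarith

lemma c18 (hc : S_COT) : (5.671 : ℝ) < ct 18 1 := by
  obtain ⟨h1, h2⟩ := ct_bd hc 18 1 (by norm_num) (a := 0.174532) (b := 0.174534) (by norm_num)
    (by norm_num) (by norm_num) (by norm_num)
  norm_num at h1 h2 ⊢
  linarith

lemma c30 (hc : S_COT) : (9.514 : ℝ) < ct 30 1 ∧ ct 30 1 < 9.515 := by
  obtain ⟨h1, h2⟩ := ct_bd hc 30 1 (by norm_num) (a := 0.104719) (b := 0.10472) (by norm_num)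
    (by norm_num) (by norm_num) (by norm_num)
  norm_num at h1 h2 ⊢
  constructor <;> linarith

lemma ipp {n : ℕ} (p k : ℕ) (hp : p.Prime) (hk : 0 < k) (h : p ^ k = n) : IsPrimePow n :=
  ⟨p, k, Nat.prime_iff.1 hp, hk, h⟩

lemma npp_cases {N : ℕ} (h : NPP N) :
    N = 6 ∨ N = 10 ∨ N = 12 ∨ N = 14 ∨ N = 15 ∨ 18 ≤ N := by
  obtain ⟨h1, h2⟩ := h
  by_contra h3
  have h5 : N = 7 ∨ N = 8 ∨ N = 9 ∨ N = 11 ∨ N = 13 ∨ N = 16 ∨ N = 17 := by omega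
  rcases h5 with rfl | rfl | rfl | rfl | rfl | rfl | rfl
  · exact h2 (ipp 7 1 (by norm_num) (by norm_num) (by norm_num))
  · exact h2 (ipp 2 3 (by norm_num) (by norm_num) (by norm_num))
  · exact h2 (ipp 3 2 (by norm_num) (by norm_num) (by norm_num))
  · exact h2 (ipp 11 1 (by norm_num) (by norm_num) (by norm_num))
  · exact h2 (ipp 13 1 (by norm_num) (by norm_num) (by norm_num))
  · exact h2 (ipp 2 4 (by norm_num) (by norm_num) (by norm_num))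
  · exact h2 (ipp 17 1 (by norm_num) (by norm_num) (by norm_num))

lemma dvd30 {N : ℕ} (h : NPP N) (hd : N ∣ 30) : N = 6 ∨ N = 10 ∨ N = 15 ∨ N = 30 := by
  have h1 : N ≤ 30 := Nat.le_of_dvd (by norm_num) hd
  have h2 := h.1
  clear h
  interval_cases N <;> omega

/-- the value of `cot (π / N)` -/
lemma val (hc : S_COT) {N : ℕ} (h : NPP N) :
    (N = 6 ∧ (1.7315 : ℝ) < ct N 1 ∧ ct N 1 < 1.7355) ∨
    (N = 10 ∧ (3.077 : ℝ) < ct N 1 ∧ ct N 1 < 3.079) ∨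
    (N = 12 ∧ (3.73 : ℝ) < ct N 1 ∧ ct N 1 < 3.733) ∨
    ((N = 14 ∨ N = 15) ∧ (4.38 : ℝ) < ct N 1 ∧ ct N 1 < 4.705) ∨
    (18 ≤ N ∧ (5.671 : ℝ) < ct N 1) := by
  rcases npp_cases h with rfl | rfl | rfl | rfl | rfl | h1
  · exact Or.inl ⟨rfl, c6 hc⟩
  · exact Or.inr (Or.inl ⟨rfl, c10 hc⟩)
  · exact Or.inr (Or.inr (Or.inl ⟨rfl, c12 hc⟩))
  · obtain ⟨a, b⟩ := c14 hc
    exact Or.inr (Or.inr (Or.inr (Or.inl ⟨Or.inl rfl, a, by linarith⟩)))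
  · obtain ⟨a, b⟩ := c15 hc
    exact Or.inr (Or.inr (Or.inr (Or.inl ⟨Or.inr rfl, by linarith, b⟩)))
  · exact Or.inr (Or.inr (Or.inr (Or.inr ⟨h1, lt_of_lt_of_le (c18 hc) (ct_mono h1 (by norm_num))⟩)))

theorem main (hc : S_COT) : S_QB15 := by
  intro N₁ N₂ N₃ h1 h2 h3 h21 h31 hd h
  obtain ⟨a1, a2⟩ := c152 hc
  have v2 := val hc h2
  have v3 := val hc h3
  rcases dvd30 h1 hd with rfl | rfl | rfl | rfl
  · have := h2.1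
    omega
  · obtain ⟨b1, b2⟩ := c10 hc
    rcases v2 with ⟨e, v2, v2'⟩ | ⟨e, v2, v2'⟩ | ⟨e, v2, v2'⟩ | ⟨e, v2, v2'⟩ | ⟨e, v2⟩ <;>
    rcases v3 with ⟨e', v3, v3'⟩ | ⟨e', v3, v3'⟩ | ⟨e', v3, v3'⟩ | ⟨e', v3, v3'⟩ | ⟨e', v3⟩ <;>
    linarith
  · obtain ⟨b1, b2⟩ := c15 hc
    rcases v2 with ⟨e, v2, v2'⟩ | ⟨e, v2, v2'⟩ | ⟨e, v2, v2'⟩ | ⟨e, v2, v2'⟩ | ⟨e, v2⟩ <;>
    rcases v3 with ⟨e', v3, v3'⟩ | ⟨e', v3, v3'⟩ | ⟨e', v3, v3'⟩ | ⟨e', v3, v3'⟩ | ⟨e', v3⟩ <;>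
    linarith
  · obtain ⟨b1, b2⟩ := c30 hc
    rcases v2 with ⟨e, v2, v2'⟩ | ⟨e, v2, v2'⟩ | ⟨e, v2, v2'⟩ | ⟨e, v2, v2'⟩ | ⟨e, v2⟩ <;>
    rcases v3 with ⟨e', v3, v3'⟩ | ⟨e', v3, v3'⟩ | ⟨e', v3, v3'⟩ | ⟨e', v3, v3'⟩ | ⟨e', v3⟩ <;>
    linarith

end Pool.Agent.H80.IR.QB15
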