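import Pool.Agent.H80.IR.T.QB15
set_option autoImplicit false

/-!
# S_QC15
-/

namespace Pool.Agent.H80.IR.QC15

open Pool.Agent.H80.Sig Pool.Agent.H80.IR.CotB Pool.Agent.H80.IR.QB15

lemma m_cases {m : ℕ} (hm : Odd m) (h15 : ¬ m ∣ 15) (h : NPP m) :
    m = 21 ∨ (23 ≤ m ∧ m ≤ 35) ∨ 39 ≤ m := by
  obtain ⟨k, hk⟩ := hm
  rcases npp_cases h with e | e | e | e | e | h1
  · omega
  · omega
  · omega
  · omega
  · exact absurd (by rw [e]) h15
  · by_contra h3
    have h5 : m = 19 ∨ m = 37 := by omega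
    rcases h5 with rfl | rfl
    · exact h.2 (ipp 19 1 (by norm_num) (by norm_num) (by norm_num))
    · exact h.2 (ipp 37 1 (by norm_num) (by norm_num) (by norm_num))

theorem main (hc : S_COT) : S_QC15 := by
  intro m N hm h15 h1 h2 h3 h4
  obtain ⟨a1, a2⟩ := c152 hc
  have hp1 : (3.14159 : ℝ) < Real.pi := by
    have := Real.pi_gt_d6
    linarith
  have hp2 : Real.pi < (3.1416 : ℝ) := by
    have := Real.pi_lt_d6
    linarith
  have hm21 : 21 ≤ m := by
    rcases m_cases hm h15 h1 with h | h | h <;> omega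
  have hmR : (21 : ℝ) ≤ m := by exact_mod_cast hm21
  have h5 := ct_sub_ge (m := m) (by omega)
  have g1 : (m : ℝ) / 3.1416 ≤ (m : ℝ) / Real.pi := by
    apply div_le_div_of_nonneg_left (by linarith) Real.pi_pos hp2.le
  have g2 : (m : ℝ) / 3.1416 ≤ ct (2 * m) 1 - ct m 1 := g1.trans h5
  rcases h3 with h3 | rfl | h3
  · -- `N ∣ 30`
    rcases m_cases hm h15 h1 with rfl | ⟨h6, h7⟩ | h6
    · have g3 := ct_sub_le (m := 21) (by norm_num) (a := 0.149599) (by norm_num) (by norm_num)
        (by norm_num)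
      norm_num at g2 g3
      rcases dvd30 h2 h3 with rfl | rfl | rfl | rfl
      · obtain ⟨b1, b2⟩ := c6 hc
        norm_num at h4
        linarith
      · obtain ⟨b1, b2⟩ := c10 hc
        norm_num at h4
        linarith
      · obtain ⟨b1, b2⟩ := c15 hc
        norm_num at h4
        linarith
      · obtain ⟨b1, b2⟩ := c30 hc
        norm_num at h4
        linarith
    · have h7R : (m : ℝ) ≤ 35 := by exact_mod_cast h7
      have h6R : (23 : ℝ) ≤ m := by exact_mod_cast h6
      have g3 := ct_sub_le (m := m) (by omega) (a := 0.089759) (by norm_num)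
        (by norm_num; linarith) (by norm_num)
      norm_num at g2 g3
      have g4 : (7.32 : ℝ) ≤ (m : ℝ) / (3927 / 1250) := by
        rw [le_div_iff₀ (by norm_num)]
        norm_num
        linarith
      rcases dvd30 h2 h3 with rfl | rfl | rfl | rfl
      · obtain ⟨b1, b2⟩ := c6 hc
        linarith
      · obtain ⟨b1, b2⟩ := c10 hc
        linarith
      · obtain ⟨b1, b2⟩ := c15 hc
        linarith
      · obtain ⟨b1, b2⟩ := c30 hc
        linarith
    · have h6R : (39 : ℝ) ≤ m := by exact_mod_cast h6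
      have g4 : (12.4 : ℝ) ≤ (m : ℝ) / 3.1416 := by
        rw [le_div_iff₀ (by norm_num)]
        norm_num
        linarith
      have g5 : ct N 1 ≤ ct 30 1 := ct_mono (Nat.le_of_dvd (by norm_num) h3) (by have := h2.1; omega)
      obtain ⟨b1, b2⟩ := c30 hc
      linarith
  · -- `N = m`
    have hN0 : (0 : ℝ) < N := by linarith
    obtain ⟨hy1, hy2⟩ := cot_bd hc (y := Real.pi * (((1 : ℕ) : ℝ) / ((2 * N : ℕ) : ℝ)))
      (a := Real.pi * (((1 : ℕ) : ℝ) / ((2 * N : ℕ) : ℝ)))
      (b := Real.pi * (((1 : ℕ) : ℝ) / ((2 * N : ℕ) : ℝ))) (by positivity) le_rfl le_rfl (by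
        push_cast
        rw [mul_one_div, div_le_iff₀ (by positivity)]
        nlinarith)
    obtain ⟨hz1, hz2⟩ := cot_bd hc (y := Real.pi * (((1 : ℕ) : ℝ) / (N : ℝ)))
      (a := Real.pi * (((1 : ℕ) : ℝ) / (N : ℝ)))
      (b := Real.pi * (((1 : ℕ) : ℝ) / (N : ℝ))) (by positivity) le_rfl le_rfl (by
        push_cast
        rw [mul_one_div, div_le_iff₀ (by positivity)]
        nlinarith)
    change ct (2 * N) 1 ≤ _ at hy2
    change _ ≤ ct N 1 at hz1
    have e : Real.pi * (((1 : ℕ) : ℝ) / (N : ℝ)) = 2 * (Real.pi * (((1 : ℕ) : ℝ) / ((2 * N : ℕ) : ℝ))) := by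
      push_cast; field_simp
    rw [e] at hz1
    set y : ℝ := Real.pi * (((1 : ℕ) : ℝ) / ((2 * N : ℕ) : ℝ)) with hy
    have hy0 : 0 < y := by rw [hy]; positivity
    have hy3 : y ≤ 0.11 := by
      rw [hy]
      push_cast
      rw [mul_one_div, div_le_iff₀ (by positivity)]
      nlinarith
    have e2 : 1 / (2 * y) = (1 / y) / 2 := by field_simp
    rw [e2] at hz1
    have hy4 : y ^ 3 ≤ y := by
      have : y ^ 2 ≤ 1 := by nlinarith
      nlinarith
    nlinarith
  · -- `3 N ≤ 2 m`
    have hN6 := h2.1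
    rcases m_cases hm h15 h1 with rfl | ⟨h6, h7⟩ | h6
    · have g5 : ct N 1 ≤ ct 14 1 := ct_mono (by omega) (by omega)
      obtain ⟨b1, b2⟩ := c14 hc
      norm_num at g2 h4
      linarith
    all_goals
      have h6R : (23 : ℝ) ≤ m := by exact_mod_cast (by omega : 23 ≤ m)
      have h7 := ct_le_div (N := N) (by omega)
      have h8 : (3 : ℝ) * N ≤ 2 * m := by exact_mod_cast h3
      have h9 : (N : ℝ) / Real.pi ≤ 2 / 3 * ((m : ℝ) / Real.pi) := by
        rw [mul_div_assoc', div_le_div_iff_of_pos_right Real.pi_pos]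
        linarith
      have g4 : (7.32 : ℝ) ≤ (m : ℝ) / 3.1416 := by
        rw [le_div_iff₀ (by norm_num)]
        norm_num
        linarith
      linarith

end Pool.Agent.H80.IR.QC15
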