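import Pool.Agent.H80.IR.Stm

/-! # Project IR, stub SG (helper44) -/

set_option autoImplicit false

namespace Pool.Agent.H80.IR.SG

open Pool.Agent.H80.Sig Finset Pool.Agent.H80.IR

theorem aux (M : List (ℕ × ℕ)) (p q : ℕ) : gen2 (M ++ [(p, q)]) = gen2 (M ++ [(q, p)]) := by
  induction M with
  | nil =>
    show (p - 1) * (q - 1) + p * 0 = (q - 1) * (p - 1) + q * 0
    rw [mul_comm (p - 1)]
    simp
  | cons c M ih =>
    show (c.1 - 1) * (c.2 - 1) + c.1 * gen2 (M ++ [(p, q)]) =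
      (c.1 - 1) * (c.2 - 1) + c.1 * gen2 (M ++ [(q, p)])
    rw [ih]

theorem main : S_SG := by
  rintro X Y (rfl | ⟨M, p, q, rfl, rfl⟩)
  · rfl
  · exact aux M p q

end Pool.Agent.H80.IR.SG
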