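import Pool.Agent.H80.IR.Stm
set_option autoImplicit false

namespace Pool.Agent.H80.IR.STA

open Pool.Agent.H80.Sig Finset

lemma cond_cases {N : ℕ} (h : 0 < N) :
    (N = Sig.cond N ∧ (Sig.cond N % 2 = 1 ∨ Sig.cond N % 4 = 0)) ∨
      (N = 2 * Sig.cond N ∧ Sig.cond N % 2 = 1) := by
  unfold Sig.cond
  split_ifs with h1 <;> omega

lemma cond_pos {N : ℕ} (h : 0 < N) : 0 < Sig.cond N := by
  rcases cond_cases h with h1 | h1 <;> omega

lemma cond_dvd {N : ℕ} (h : 0 < N) : Sig.cond N ∣ N := by
  rcases cond_cases h with h1 | h1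
  · exact dvd_of_eq h1.1.symm
  · exact ⟨2, by omega⟩

lemma dvd_cond {a N : ℕ} (h : 0 < N) (ha : a % 2 = 1 ∨ a % 4 = 0) (hd : a ∣ N) :
    a ∣ Sig.cond N := by
  rcases cond_cases h with ⟨h1, _⟩ | ⟨h1, h2⟩
  · rw [← h1]; exact hd
  · rw [h1] at hd
    rcases ha with ha | ha
    · exact Nat.Coprime.dvd_of_dvd_mul_left
        ((Nat.coprime_comm.1 (Nat.coprime_two_left.2 (Nat.odd_iff.2 ha)))) hd
    · exfalso
      obtain ⟨c, hc⟩ := hd
      have h4 : 4 ∣ a := Nat.dvd_of_mod_eq_zero ha
      obtain ⟨b, hb⟩ := h4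
      rw [hb] at hc
      have : Sig.cond N = 2 * (b * c) := by
        have : 2 * Sig.cond N = 2 * (2 * (b * c)) := by rw [hc]; ring
        omega
      omega

lemma cond_parity {N : ℕ} (h : 0 < N) : Sig.cond N % 2 = 1 ∨ Sig.cond N % 4 = 0 := by
  rcases cond_cases h with ⟨_, h2⟩ | ⟨_, h2⟩
  · exact h2
  · exact Or.inl h2

theorem main : S_P1 → S_P2 → S_STA := by
  intro hP1 hP2 f e N₁ N₂ L hL hfL h1L h2L hf hf12 hef he hef2 hN₁ hN₂ hrel
  obtain ⟨h61, hpp1⟩ := hN₁
  obtain ⟨h62, hpp2⟩ := hN₂
  have hdiv : ∀ i : Fin 3, (![N₁, f, N₂] : Fin 3 → ℕ) i ∣ L ∧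
      ((![1, e, 1] : Fin 3 → ℕ) i).Coprime ((![N₁, f, N₂] : Fin 3 → ℕ) i) := by
    intro i
    fin_cases i
    · exact ⟨h1L, Nat.coprime_one_left _⟩
    · exact ⟨hfL, hef⟩
    · exact ⟨h2L, Nat.coprime_one_left _⟩
  have hsum : ∀ u : ℕ, u.Coprime L → ∑ i : Fin 3, (![1, -1, -1] : Fin 3 → ℝ) i *
      ct ((![N₁, f, N₂] : Fin 3 → ℕ) i) ((![1, e, 1] : Fin 3 → ℕ) i * u) = 0 := by
    intro u hu
    rw [Fin.sum_univ_three]
    show (1 : ℝ) * ct N₁ (1 * u) + (-1) * ct f (e * u) + (-1) * ct N₂ (1 * u) = 0
    rw [one_mul u, hrel u hu]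
    ring
  -- consequences of the characters
  have Pf : Sig.cond f ∣ N₁ ∨ Sig.cond f ∣ N₂ := by
    by_contra hc
    push Not at hc
    have := hP1 3 ![N₁, f, N₂] ![1, e, 1] ![1, -1, -1] L hL hdiv hsum 1
      (by show 3 ≤ f; omega) (by show f ≠ 12; exact hf12) (by
        intro i hi
        fin_cases i
        · exact hc.1
        · exact absurd rfl hi
        · exact hc.2)
    have h0 : (-1 : ℝ) = 0 := this
    norm_num at h0
  have Pone : N₁ ≠ 12 → Sig.cond N₁ ∣ f ∨ Sig.cond N₁ ∣ N₂ := by
    intro h12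
    by_contra hc
    push Not at hc
    have := hP1 3 ![N₁, f, N₂] ![1, e, 1] ![1, -1, -1] L hL hdiv hsum 0
      (by show 3 ≤ N₁; omega) (by show N₁ ≠ 12; exact h12) (by
        intro i hi
        fin_cases i
        · exact absurd rfl hi
        · exact hc.1
        · exact hc.2)
    have h0 : (1 : ℝ) = 0 := this
    norm_num at h0
  have Ptwo : N₂ ≠ 12 → Sig.cond N₂ ∣ N₁ ∨ Sig.cond N₂ ∣ f := by
    intro h12
    by_contra hc
    push Not at hc
    have := hP1 3 ![N₁, f, N₂] ![1, e, 1] ![1, -1, -1] L hL hdiv hsum 2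
      (by show 3 ≤ N₂; omega) (by show N₂ ≠ 12; exact h12) (by
        intro i hi
        fin_cases i
        · exact hc.1
        · exact hc.2
        · exact absurd rfl hi)
    have h0 : (-1 : ℝ) = 0 := this
    norm_num at h0
  have Qone : N₁ = 12 → ∀ g : ℕ, (g = 3 ∨ g = 4) → g ∣ f ∨ g ∣ N₂ := by
    intro h12 g hg
    by_contra hc
    push Not at hc
    have := hP2 3 ![N₁, f, N₂] ![1, e, 1] ![1, -1, -1] L hL hdiv hsum 0
      (by show N₁ = 12; exact h12) g hg (by
        intro i hi
        fin_cases i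
        · exact absurd rfl hi
        · exact hc.1
        · exact hc.2)
    have h0 : (1 : ℝ) = 0 := this
    norm_num at h0
  have Qtwo : N₂ = 12 → ∀ g : ℕ, (g = 3 ∨ g = 4) → g ∣ N₁ ∨ g ∣ f := by
    intro h12 g hg
    by_contra hc
    push Not at hc
    have := hP2 3 ![N₁, f, N₂] ![1, e, 1] ![1, -1, -1] L hL hdiv hsum 2
      (by show N₂ = 12; exact h12) g hg (by
        intro i hi
        fin_cases i
        · exact hc.1
        · exact hc.2
        · exact absurd rfl hi)
    have h0 : (-1 : ℝ) = 0 := this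
    norm_num at h0
  -- size
  have hlt : N₂ < N₁ := by
    by_contra hc
    push Not at hc
    have h1 := hrel 1 (Nat.coprime_one_left _)
    rw [mul_one] at h1
    have h2 : 0 < ct f e := ct_pos (by omega) hef2
    have h3 : ct N₁ 1 ≤ ct N₂ 1 := by
      rcases Nat.eq_or_lt_of_le hc with h | h
      · rw [h]
      · exact (ct_lt_gen (by omega) (by omega) (by omega)).le
    linarith
  have hf0 : 0 < f := by omega
  have h10 : 0 < N₁ := by omega
  have h20 : 0 < N₂ := by omega
  by_cases h12 : N₁ = 12
  · -- N₁ = 12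
    exfalso
    have hN2 : N₂ = 6 ∨ N₂ = 10 := by
      have hp7 : IsPrimePow 7 := (by norm_num : Nat.Prime 7).isPrimePow
      have hp11 : IsPrimePow 11 := (by norm_num : Nat.Prime 11).isPrimePow
      have hp8 : IsPrimePow 8 := by
        rw [isPrimePow_nat_iff]; exact ⟨2, 3, by norm_num, by norm_num, by norm_num⟩
      have hp9 : IsPrimePow 9 := by
        rw [isPrimePow_nat_iff]; exact ⟨3, 2, by norm_num, by norm_num, by norm_num⟩
      have h1 : N₂ ≠ 7 := fun h => hpp2 (h ▸ hp7)
      have h2 : N₂ ≠ 8 := fun h => hpp2 (h ▸ hp8)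
      have h3 : N₂ ≠ 9 := fun h => hpp2 (h ▸ hp9)
      have h4 : N₂ ≠ 11 := fun h => hpp2 (h ▸ hp11)
      omega
    have h4f : 4 ∣ f := by
      rcases Qone h12 4 (Or.inr rfl) with h | h
      · exact h
      · rcases hN2 with h' | h' <;> rw [h'] at h <;> norm_num at h
    have hcf : Sig.cond f = f := by
      unfold Sig.cond
      rw [if_neg]
      omega
    rw [hcf] at Pf
    rcases Pf with h | h
    · rw [h12] at h
      have := Nat.le_of_dvd (by norm_num) h
      have h8 : f = 8 ∨ f = 12 := by omega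
      rcases h8 with h8 | h8
      · rw [h8] at h; norm_num at h
      · exact hf12 h8
    · rcases hN2 with h' | h'
      · rw [h'] at h
        have := Nat.le_of_dvd (by norm_num) h
        omega
      · rw [h'] at h
        have := Nat.le_of_dvd (by norm_num) h
        have : f = 8 := by omega
        rw [this] at h
        norm_num at h
  · by_cases hB1 : Sig.cond N₁ ∣ N₂
    · -- first configuration
      left
      have hle : Sig.cond N₁ ≤ N₂ := Nat.le_of_dvd h20 hB1
      rcases cond_cases h10 with ⟨h1, _⟩ | ⟨h1, h2⟩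
      · omega
      · obtain ⟨c, hc⟩ := hB1
        have hc1 : c = 1 := by
          rcases Nat.lt_or_ge c 2 with h | h
          · rcases Nat.eq_zero_or_pos c with h' | h'
            · subst h'; omega
            · omega
          · exfalso
            have : Sig.cond N₁ * 2 ≤ Sig.cond N₁ * c := Nat.mul_le_mul_left _ h
            omega
        rw [hc1, mul_one] at hc
        refine ⟨Nat.odd_iff.2 (by omega), by omega, ?_⟩
        have hm : Sig.cond f ∣ N₂ := by
          rcases Pf with h | h
          · have := dvd_cond h10 (cond_parity hf0) h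
            rw [hc]; exact this
          · exact h
        have h3 := Nat.le_of_dvd h20 hm
        rcases cond_cases hf0 with ⟨h4, _⟩ | ⟨h4, _⟩ <;> omega
    · have h1f : Sig.cond N₁ ∣ f := (Pone h12).resolve_right hB1
      have h1m : Sig.cond N₁ ∣ Sig.cond f := dvd_cond hf0 (cond_parity h10) h1f
      have hfN2 : ¬ Sig.cond f ∣ N₂ := fun h => hB1 (h1m.trans h)
      have hfN1 : Sig.cond f ∣ N₁ := Pf.resolve_right hfN2
      have hm1 : Sig.cond f ∣ Sig.cond N₁ := dvd_cond h10 (cond_parity hf0) hfN1
      have hmm : Sig.cond N₁ = Sig.cond f := Nat.dvd_antisymm h1m hm1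
      set m := Sig.cond f with hm
      have hm0 : 0 < m := cond_pos hf0
      have h2m : Sig.cond N₂ ∣ m := by
        by_cases h212 : N₂ = 12
        · have h3 : 3 ∣ m := by
            rcases Qtwo h212 3 (Or.inl rfl) with h | h
            · rw [← hmm]; exact dvd_cond h10 (by norm_num) h
            · exact dvd_cond hf0 (by norm_num) h
          have h4 : 4 ∣ m := by
            rcases Qtwo h212 4 (Or.inr rfl) with h | h
            · rw [← hmm]; exact dvd_cond h10 (by norm_num) h
            · exact dvd_cond hf0 (by norm_num) h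
          have h5 : 3 * 4 ∣ m := Nat.Coprime.mul_dvd_of_dvd_of_dvd (by norm_num) h3 h4
          have h6 : Sig.cond N₂ = 12 := by rw [h212]; rfl
          rw [h6]; exact h5
        · rcases Ptwo h212 with h | h
          · rw [← hmm]; exact dvd_cond h10 (cond_parity h20) h
          · exact dvd_cond hf0 (cond_parity h20) h
      have h2ne : Sig.cond N₂ ≠ m := by
        intro h
        apply hfN2
        rw [← h]
        exact cond_dvd h20
      have h2pos : 0 < Sig.cond N₂ := cond_pos h20
      obtain ⟨k, hk⟩ := h2m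
      have hk1 : k ≠ 1 := by
        rintro rfl
        omega
      have hk0 : k ≠ 0 := by
        rintro rfl
        omega
      rcases cond_parity hf0 with hodd | h4
      · -- third configuration
        right; right
        have hkodd : Odd k := by
          have : Odd (Sig.cond N₂ * k) := by rw [← hk]; exact Nat.odd_iff.2 hodd
          exact (Nat.odd_mul.1 this).2
        refine ⟨m, k, Sig.cond N₂, Nat.odd_iff.2 hodd, ?_, hkodd, by rw [hk]; ring, ?_, ?_, ?_⟩
        · have := Nat.odd_iff.1 hkodd
          omega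
        · rcases cond_cases h10 with ⟨h, _⟩ | ⟨h, _⟩
          · left; rw [← hmm]; exact h
          · right; rw [← hmm]; exact h
        · rcases cond_cases hf0 with ⟨h, _⟩ | ⟨h, _⟩
          · left; exact h
          · right; exact h
        · rcases cond_cases h20 with ⟨h, _⟩ | ⟨h, _⟩
          · left; exact h
          · right; exact h
      · -- second configuration
        right; left
        have hfm : f = m := by
          rcases cond_cases hf0 with ⟨h, _⟩ | ⟨h, h'⟩
          · exact h
          · omega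
        have h1m' : N₁ = m := by
          rcases cond_cases h10 with ⟨h, _⟩ | ⟨h, h'⟩
          · rw [← hmm]; exact h
          · rw [hmm] at h'; omega
        refine ⟨by rw [hfm]; exact Nat.dvd_of_mod_eq_zero h4, by rw [h1m', hfm], ?_⟩
        rw [hfm]
        rcases cond_cases h20 with ⟨h, _⟩ | ⟨h, h'⟩
        · have : Sig.cond N₂ * 2 ≤ Sig.cond N₂ * k := Nat.mul_le_mul_left _ (by omega)
          omega
        · have hcop : Nat.Coprime 4 (Sig.cond N₂) := by
            have : Nat.Coprime 2 (Sig.cond N₂) := Nat.coprime_two_left.2 (Nat.odd_iff.2 h')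
            exact Nat.Coprime.pow_left 2 this
          have h4k : 4 ∣ k := by
            apply hcop.dvd_of_dvd_mul_left
            rw [← hk]
            exact Nat.dvd_of_mod_eq_zero h4
          have hk4 := Nat.le_of_dvd (by omega) h4k
          have : Sig.cond N₂ * 4 ≤ Sig.cond N₂ * k := Nat.mul_le_mul_left _ hk4
          omega

end Pool.Agent.H80.IR.STA
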