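import Pool.Agent.H80.IR.Stm
set_option autoImplicit false

namespace Pool.Agent.H80.IR.STB

open Pool.Agent.H80.Sig Finset

/-- comparison of cotangents, weak form -/
lemma ct_le_gen {N N' h h' : ℕ} (h0 : 0 < h) (h1 : h * N' ≤ h' * N) (h2 : h' < N') (hN : 0 < N) :
    ct N' h' ≤ ct N h := by
  rcases Nat.eq_or_lt_of_le h1 with h3 | h3
  · have a : (0 : ℝ) < N := by exact_mod_cast hN
    have a' : (0 : ℝ) < N' := by exact_mod_cast (by omega : 0 < N')
    have e : (h' : ℝ) / N' = (h : ℝ) / N := by
      rw [div_eq_div_iff a'.ne' a.ne']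
      exact_mod_cast h3.symm
    unfold ct
    rw [e]
  · exact (ct_lt_gen h0 h3 h2).le

/-- scaling -/
lemma ct_scale {k N h : ℕ} (hk : 0 < k) : ct (k * N) (k * h) = ct N h := by
  have a : (k : ℝ) ≠ 0 := by exact_mod_cast hk.ne'
  unfold ct
  have e : (((k * h : ℕ) : ℝ) / ((k * N : ℕ) : ℝ)) = (h : ℝ) / N := by
    push_cast
    rw [mul_div_mul_left _ _ a]
  rw [e]

/-- doubling -/
lemma ct_double {N : ℕ} (hN : 2 ≤ N) : 2 * ct N 1 < ct (2 * N) 1 := by
  have a : (0 : ℝ) < N := by exact_mod_cast (by omega : 0 < N)
  have b : (2 : ℝ) ≤ N := by exact_mod_cast hN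
  have hpi := Real.pi_pos
  set x : ℝ := Real.pi * (((1 : ℕ) : ℝ) / ((2 * N : ℕ) : ℝ)) with hx
  have hx2 : Real.pi * (((1 : ℕ) : ℝ) / (N : ℝ)) = 2 * x := by
    rw [hx]
    push_cast
    field_simp
  have hx0 : 0 < x := by rw [hx]; positivity
  have hx1 : x < Real.pi / 2 := by
    have : 2 * x ≤ Real.pi / 2 := by
      rw [← hx2]
      push_cast
      rw [mul_one_div]
      exact div_le_div_of_nonneg_left hpi.le (by norm_num) b
    linarith
  have hs : 0 < Real.sin x := Real.sin_pos_of_pos_of_lt_pi hx0 (by linarith)
  have hc : 0 < Real.cos x := Real.cos_pos_of_mem_Ioo ⟨by linarith, hx1⟩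
  unfold ct
  rw [hx2, ← hx, Real.cos_two_mul', Real.sin_two_mul]
  have h1 : 2 * ((Real.cos x ^ 2 - Real.sin x ^ 2) / (2 * Real.sin x * Real.cos x)) =
      Real.cos x / Real.sin x - Real.sin x / Real.cos x := by
    field_simp
  rw [h1]
  have : 0 < Real.sin x / Real.cos x := div_pos hs hc
  linarith

lemma odd_npp {m : ℕ} (hm : Odd m) (h : NPP m) : 15 ≤ m := by
  obtain ⟨h6, hp⟩ := h
  by_contra hc
  push Not at hc
  have h2 := Nat.odd_iff.1 hm
  have h3 : m = 7 ∨ m = 9 ∨ m = 11 ∨ m = 13 := by omega
  have hp7 : IsPrimePow 7 := (by norm_num : Nat.Prime 7).isPrimePow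
  have hp11 : IsPrimePow 11 := (by norm_num : Nat.Prime 11).isPrimePow
  have hp13 : IsPrimePow 13 := (by norm_num : Nat.Prime 13).isPrimePow
  have hp9 : IsPrimePow 9 := by
    rw [isPrimePow_nat_iff]; exact ⟨3, 2, by norm_num, by norm_num, by norm_num⟩
  rcases h3 with h3 | h3 | h3 | h3
  · exact hp (h3 ▸ hp7)
  · exact hp (h3 ▸ hp9)
  · exact hp (h3 ▸ hp11)
  · exact hp (h3 ▸ hp13)

theorem main : S_TR1 → S_TR2 → S_TR3 → S_STB := by
  intro hT1 hT2 hT3 f e N₁ N₂ hf hef he hef2 hN₁ hN₂ hcfg heq
  rcases hcfg with ⟨ho, h1, h2⟩ | ⟨h4, h1, h2⟩ | ⟨m, k, n, hm, hk3, hko, hmk, hN1, hfm, hN2⟩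
  · -- first configuration
    have hN2 : 6 ≤ N₂ := hN₂.1
    have e1 := ct_double (N := N₂) (by omega)
    have e2 : ct f e ≤ ct N₂ 1 := by
      apply ct_le_gen one_pos _ (by omega) (by omega)
      nlinarith
    rw [h1] at heq
    linarith
  · -- second configuration
    have he3 : 3 ≤ e := by
      rcases Nat.lt_or_ge e 3 with h | h
      · exfalso
        have he2 : e = 2 := by omega
        rw [he2] at hef
        have := Nat.coprime_two_left.1 hef
        rw [Nat.odd_iff] at this
        omega
      · exact h
    have hN2 : 6 ≤ N₂ := hN₂.1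
    have e1 := hT1 f (by omega)
    have e2 : ct f e ≤ ct f 3 := ct_le_gen (by omega) (Nat.mul_le_mul_right f he3) (by omega)
      (by omega)
    have e3 : ct N₂ 1 ≤ ct f 2 := ct_le_gen (by omega) (by omega) (by omega) (by omega)
    rw [h1] at heq
    linarith
  · -- third configuration
    have hN26 : 6 ≤ N₂ := hN₂.1
    have hn3 : 3 ≤ n := by rcases hN2 with h | h <;> omega
    have hk1 : 0 < k := by omega
    have hkn : k * 3 ≤ k * n := Nat.mul_le_mul_left _ hn3
    have hm9 : 9 ≤ m := by omega
    have hkm : 3 * k ≤ m := by omega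
    -- the function c
    set c : ℕ → ℝ := fun j => ct (2 * m) j with hc
    have cmono : ∀ i j : ℕ, 0 < i → i ≤ j → j < 2 * m → c j ≤ c i := by
      intro i j h0 hij hj
      exact ct_le_gen h0 (Nat.mul_le_mul_right _ hij) hj (by omega)
    -- N₂
    have hZ : (N₂ = 2 * n ∧ ct N₂ 1 = c k) ∨ (N₂ = n ∧ ct N₂ 1 = c (2 * k)) := by
      rcases hN2 with h | h
      · right
        refine ⟨h, ?_⟩
        rw [h]
        show ct n 1 = ct (2 * m) (2 * k)
        have : ct (2 * m) (2 * k) = ct ((2 * k) * n) ((2 * k) * 1) := by
          rw [hmk, mul_one, mul_assoc]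
        rw [this, ct_scale (by omega)]
      · left
        refine ⟨h, ?_⟩
        rw [h]
        show ct (2 * n) 1 = ct (2 * m) k
        have : ct (2 * m) k = ct (k * (2 * n)) (k * 1) := by
          rw [hmk, mul_one]
          congr 1
          ring
        rw [this, ct_scale hk1]
    have hZ3 : ct N₂ 1 ≤ c 3 := by
      rcases hZ with ⟨_, h⟩ | ⟨_, h⟩
      · rw [h]; exact cmono 3 k (by omega) hk3 (by omega)
      · rw [h]; exact cmono 3 (2 * k) (by omega) (by omega) (by omega)
    have hcm : ∀ j, ct m j = c (2 * j) := fun j => (ct_scale (by omega)).symm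
    rcases hfm with hfm | hfm
    · -- f = m
      have hfe : ct f e = c (2 * e) := by rw [hfm]; exact hcm e
      rcases hN1 with hN1 | hN1
      · -- N₁ = m
        have h15 : 15 ≤ m := odd_npp hm (hN1 ▸ hN₁)
        obtain ⟨t1, t2, t3, t4, t5, t6⟩ := hT3 m h15
        have hA : ct N₁ 1 = c 2 := by rw [hN1]; exact hcm 1
        rw [hA, hfe] at heq
        rcases Nat.lt_or_ge e 3 with h | h
        · have he2 : e = 2 := by omega
          rw [he2] at heq
          norm_num at heq
          have hsplit : ct N₂ 1 = c 3 ∨ ct N₂ 1 ≤ c 5 := by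
            rcases hZ with ⟨_, h'⟩ | ⟨_, h'⟩
            · rcases Nat.eq_or_lt_of_le hk3 with h3 | h3
              · left; rw [h', ← h3]
              · right
                rw [h']
                have : 5 ≤ k := by
                  have := Nat.odd_iff.1 hko
                  omega
                exact cmono 5 k (by omega) this (by omega)
            · right
              rw [h']
              exact cmono 5 (2 * k) (by omega) (by omega) (by omega)
          rcases hsplit with h' | h'
          · rw [h'] at heq
            have : c 2 < c 4 + c 3 := t3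
            linarith
          · have : c 4 + c 5 < c 2 := t2
            linarith
        · have h1 : c (2 * e) ≤ c 6 := cmono 6 (2 * e) (by omega) (by omega) (by omega)
          have : c 6 + c 3 < c 2 := t1
          linarith
      · -- N₁ = 2m
        obtain ⟨t1, t2⟩ := hT2 m hm9
        have hA : ct N₁ 1 = c 1 := by rw [hN1]
        rw [hA, hfe] at heq
        have h1 : c (2 * e) ≤ c 4 := cmono 4 (2 * e) (by omega) (by omega) (by omega)
        have : c 4 + c 3 < c 1 := t1
        linarith
    · -- f = 2m
      have hfe : ct f e = c e := by rw [hfm]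
      have heodd : e % 2 = 1 := by
        rw [hfm] at hef
        have h1 : Nat.Coprime e 2 := Nat.Coprime.coprime_mul_right_right hef
        have h2 := Nat.coprime_two_right.1 h1
        exact Nat.odd_iff.1 h2
      have hem : Nat.Coprime e m := by
        rw [hfm] at hef
        exact Nat.Coprime.coprime_mul_left_right hef
      have hek : Nat.Coprime e k := by
        rw [hmk] at hem
        exact Nat.Coprime.coprime_mul_right_right hem
      have he3 : 3 ≤ e := by omega
      rcases hN1 with hN1 | hN1
      · -- N₁ = m
        have h15 : 15 ≤ m := odd_npp hm (hN1 ▸ hN₁)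
        obtain ⟨t1, t2, t3, t4, t5, t6⟩ := hT3 m h15
        have hA : ct N₁ 1 = c 2 := by rw [hN1]; exact hcm 1
        rw [hA, hfe] at heq
        have t4' : c 3 + c 7 < c 2 := t4
        have t5' : c 2 < c 3 + c 5 := t5
        have t6' : c 5 + c 6 < c 2 := t6
        have hk2 := Nat.odd_iff.1 hko
        rcases Nat.lt_or_ge e 7 with h | h
        · have h35 : e = 3 ∨ e = 5 := by omega
          rcases h35 with h35 | h35
          · rw [h35] at heq hek
            have hk5 : 5 ≤ k := by
              have : k ≠ 3 := by
                rintro rfl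
                norm_num at hek
              omega
            have hsplit : ct N₂ 1 = c 5 ∨ ct N₂ 1 ≤ c 7 := by
              rcases hZ with ⟨_, h'⟩ | ⟨_, h'⟩
              · rcases Nat.eq_or_lt_of_le hk5 with h3 | h3
                · left; rw [h', ← h3]
                · right
                  rw [h']
                  exact cmono 7 k (by omega) (by omega) (by omega)
              · right
                rw [h']
                exact cmono 7 (2 * k) (by omega) (by omega) (by omega)
            rcases hsplit with h' | h'
            · rw [h'] at heq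
              linarith
            · linarith
          · rw [h35] at heq hek
            have hk5 : k ≠ 5 := by
              rintro rfl
              norm_num at hek
            have hsplit : ct N₂ 1 = c 3 ∨ ct N₂ 1 ≤ c 6 := by
              rcases hZ with ⟨_, h'⟩ | ⟨_, h'⟩
              · rcases Nat.eq_or_lt_of_le hk3 with h3 | h3
                · left; rw [h', ← h3]
                · right
                  rw [h']
                  exact cmono 6 k (by omega) (by omega) (by omega)
              · right
                rw [h']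
                exact cmono 6 (2 * k) (by omega) (by omega) (by omega)
            rcases hsplit with h' | h'
            · rw [h'] at heq
              linarith
            · linarith
        · have h1 : c e ≤ c 7 := cmono 7 e (by omega) h (by omega)
          linarith
      · -- N₁ = 2m
        obtain ⟨t1, t2⟩ := hT2 m hm9
        have hA : ct N₁ 1 = c 1 := by rw [hN1]
        rw [hA, hfe] at heq
        have h1 : c e ≤ c 3 := cmono 3 e (by omega) he3 (by omega)
        have : 2 * c 3 < c 1 := t2
        linarith

end Pool.Agent.H80.IR.STB
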