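import Pool.Agent.H80.IR.Stm
set_option autoImplicit false

/-!
# Project IR, stub SUM
-/

namespace Pool.Agent.H80.IR.SUM

open Pool.Agent.H80.Sig Finset

theorem main : S_SUM := by
  intro X Y Z hX hY hZ hXe hYe hZe h
  obtain ⟨N, _, h2⟩ := same_product (ι := Fin 3) (S := univ) (a := ![1, -1, -1]) (K := ![X, Y, Z])
    (by
      intro x
      have h1 : (JK X x : ℝ) = (JK Y x : ℝ) + (JK Z x : ℝ) := by exact_mod_cast h x
      simp [Fin.sum_univ_three, h1])
    (by simp)
    (by intro i _; fin_cases i <;> simp [hX, hY, hZ, hXe, hYe, hZe])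
    (by intro i _; fin_cases i <;> simp)
    ⟨0, mem_univ _⟩
  rw [Fin.sum_univ_three] at h2
  simp at h2

end Pool.Agent.H80.IR.SUM
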