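import Pool.Agent.H80.IR.Stm
set_option autoImplicit false

/-! # IR-T3 -/

namespace Pool.Agent.H80.IR.T3

open Pool.Agent.H80.Sig Finset

/-- the statement for knots of total length at most `n` -/
def P (n : ℕ) : Prop := ∀ (X Y Z : List (ℕ × ℕ)) (a b c : ℕ), X.length + Y.length + Z.length ≤ n →
  0 < a → 0 < b → 0 < c → Valid X → Valid Y → Valid Z →
  (∀ x : ℝ, JK X (a * x) = JK Y (b * x) + JK Z (c * x)) →
  a * gen2 X = b * gen2 Y + c * gen2 Z

lemma core (hGCD : S_GCD) (hSUM : S_SUM) (hDIF : S_DIF) {n : ℕ} (IH : P n)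
    (X Y Z : List (ℕ × ℕ)) (a c : ℕ) (hlen : X.length + Y.length + Z.length ≤ n + 1)
    (ha : 0 < a) (hc : 0 < c) (hX : Valid X) (hY : Valid Y) (hZ : Valid Z)
    (hXn : X ≠ []) (hYn : Y ≠ []) (hZn : Z ≠ [])
    (h : ∀ x : ℝ, JK X (a * x) = JK Y (a * x) + JK Z (c * x)) :
    a * gen2 X = a * gen2 Y + c * gen2 Z := by
  obtain ⟨k, rfl⟩ := hGCD X Y Z a c ha hc hZ hZn h
  have hk : 0 < k := by
    rcases Nat.eq_zero_or_pos k with h0 | h0
    · subst h0; simp at hc
    · exact h0
  have ha' : (a : ℝ) ≠ 0 := by exact_mod_cast ha.ne'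
  have h1 : ∀ y : ℝ, JK X y = JK Y y + JK Z (k * y) := by
    intro y
    have h2 := h (y / a)
    have e1 : (a : ℝ) * (y / a) = y := by field_simp
    have e2 : ((a * k : ℕ) : ℝ) * (y / a) = k * y := by push_cast; field_simp
    rw [e1, e2] at h2
    exact h2
  rcases Nat.lt_or_ge k 2 with hk2 | hk2
  · exfalso
    have hk1 : k = 1 := by omega
    subst hk1
    apply hSUM X Y Z hX hY hZ hXn hYn hZn
    intro x
    have := h1 x
    simpa using this
  · rcases X with _ | ⟨⟨r, s⟩, X'⟩
    · exact absurd rfl hXn
    rcases Y with _ | ⟨⟨r', s'⟩, Y'⟩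
    · exact absurd rfl hYn
    have hrs := hX.head
    have hrs' := hY.head
    simp only at hrs hrs'
    have h2 := hDIF r s r' s' k X' Y' Z hX hY hZ hZn hk2 h1
    have hJ : ∀ x : ℝ, J r s x = J r' s' x := by
      intro x
      rcases h2 with ⟨e1, e2⟩ | ⟨e1, e2⟩
      · rw [e1, e2]
      · rw [e1, e2, J_swap]
    have h3 : ∀ x : ℝ, JK X' (r * x) = JK Y' (r' * x) + JK Z (k * x) := by
      intro x
      have h4 := h1 x
      simp only [JK] at h4
      rw [hJ x] at h4
      linarith
    have h5 := IH X' Y' Z r r' k (by simp only [List.length_cons] at hlen; omega) (by omega)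
      (by omega) hk hX.tail hY.tail hZ h3
    have h6 : (r - 1) * (s - 1) = (r' - 1) * (s' - 1) := by
      rcases h2 with ⟨e1, e2⟩ | ⟨e1, e2⟩
      · rw [e1, e2]
      · rw [e1, e2, mul_comm]
    simp only [gen2]
    rw [h5, h6]
    ring

lemma easy (hPOS : S_POS) (hTWO : S_TWO) (hSG : S_SG) (X Y Z : List (ℕ × ℕ)) (a b c : ℕ)
    (ha : 0 < a) (hb : 0 < b) (hc : 0 < c) (hX : Valid X) (hY : Valid Y) (hZ : Valid Z)
    (h : ∀ x : ℝ, JK X (a * x) = JK Y (b * x) + JK Z (c * x)) (he : X = [] ∨ Y = [] ∨ Z = []) :
    a * gen2 X = b * gen2 Y + c * gen2 Z := by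
  have hnil : Valid [] := fun c hc => by simp at hc
  by_cases hX0 : X = []
  · subst hX0
    have h1 := hPOS Y Z b c hb hc hY hZ (fun x => by
      have := h x
      simp only [JK] at this
      exact this.symm)
    rw [h1.1, h1.2]
    simp [gen2]
  · by_cases hY0 : Y = []
    · by_cases hZ0 : Z = []
      · exfalso
        subst hY0 hZ0
        apply hX0
        refine (hPOS X [] a 1 ha one_pos hX hnil (fun x => ?_)).1
        have := h x
        simp only [JK, add_zero] at this
        simp [JK, this]
      · subst hY0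
        have h1 := hTWO X Z a c ha hc hX hZ hX0 (fun x => by
          have := h x
          simp only [JK, zero_add] at this
          exact this)
        rw [h1.1, hSG X Z h1.2]
        simp [gen2]
    · have hZ0 : Z = [] := by tauto
      subst hZ0
      have h1 := hTWO X Y a b ha hb hX hY hX0 (fun x => by
        have := h x
        simp only [JK, add_zero] at this
        exact this)
      rw [h1.1, hSG X Y h1.2]
      simp [gen2]

lemma all (hFMIN : S_FMIN) (hPOS : S_POS) (hTWO : S_TWO) (hGCD : S_GCD) (hSUM : S_SUM)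
    (hDIF : S_DIF) (hSG : S_SG) : ∀ n : ℕ, P n := by
  intro n
  induction n with
  | zero =>
    intro X Y Z a b c hlen ha hb hc hX hY hZ h
    refine easy hPOS hTWO hSG X Y Z a b c ha hb hc hX hY hZ h (Or.inl ?_)
    rw [← List.length_eq_zero_iff]
    omega
  | succ n IH =>
    intro X Y Z a b c hlen ha hb hc hX hY hZ h
    by_cases he : X = [] ∨ Y = [] ∨ Z = []
    · exact easy hPOS hTWO hSG X Y Z a b c ha hb hc hX hY hZ h he
    push Not at he
    obtain ⟨hXn, hYn, hZn⟩ := he
    obtain ⟨m, hm⟩ : ∃ m, m = min a (min b c) := ⟨_, rfl⟩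
    have hm0 : 0 < m := by rw [hm]; exact lt_min ha (lt_min hb hc)
    have hma : m ≤ a := by rw [hm]; exact min_le_left _ _
    have hmb : m ≤ b := by rw [hm]; exact (min_le_right _ _).trans (min_le_left _ _)
    have hmc : m ≤ c := by rw [hm]; exact (min_le_right _ _).trans (min_le_right _ _)
    have hlX := lev_pos hX
    have hlY := lev_pos hY
    have hlZ := lev_pos hZ
    have h7 := hFMIN 3 ![X, Y, Z] ![a, b, c] ![1, -1, -1] m
      ((a * lev X) * ((b * lev Y) * (c * lev Z))) hm0 (by positivity)
      (by
        intro i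
        fin_cases i
        · exact hX
        · exact hY
        · exact hZ)
      (by
        intro i
        fin_cases i
        · exact hma
        · exact hmb
        · exact hmc)
      (by
        intro i
        fin_cases i
        · exact Dvd.intro _ rfl
        · exact (Dvd.intro _ rfl).trans (Dvd.intro_left _ rfl)
        · exact (Dvd.intro_left (b * lev Y) rfl).trans (Dvd.intro_left _ rfl))
      (by
        intro x
        rw [Fin.sum_univ_three]
        have h8 := h x
        have h9 : ((JK X (a * x) : ℤ) : ℝ) = (JK Y (b * x) : ℝ) + (JK Z (c * x) : ℝ) := by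
          exact_mod_cast h8
        simp only [Matrix.cons_val_zero, Matrix.cons_val_one, Matrix.cons_val]
        rw [h9]
        ring)
      1 (Nat.coprime_one_left _)
    rw [Fin.sum_univ_three] at h7
    change (if a = m then (1 : ℝ) * kap X 1 else 0) + (if b = m then (-1 : ℝ) * kap Y 1 else 0) +
      (if c = m then (-1 : ℝ) * kap Z 1 else 0) = 0 at h7
    have kX := kap_pos hX hXn
    have kY := kap_pos hY hYn
    have kZ := kap_pos hZ hZn
    have ha1 : a = m := by
      by_contra hne
      rw [if_neg hne] at h7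
      have h8 : b = m ∨ c = m := by
        rcases le_total b c with h9 | h9
        · rcases le_total a b with h10 | h10
          · exact absurd (by rw [hm, min_eq_left h9, min_eq_left h10]) hne
          · left; rw [hm, min_eq_left h9, min_eq_right h10]
        · rcases le_total a c with h10 | h10
          · exact absurd (by rw [hm, min_eq_right h9, min_eq_left h10]) hne
          · right; rw [hm, min_eq_right h9, min_eq_right h10]
      by_cases h9 : b = m <;> by_cases h10 : c = m
      · rw [if_pos h9, if_pos h10] at h7; linarith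
      · rw [if_pos h9, if_neg h10] at h7; linarith
      · rw [if_neg h9, if_pos h10] at h7; linarith
      · tauto
    rw [if_pos ha1] at h7
    have hbc : b = m ∨ c = m := by
      by_contra hcon
      push Not at hcon
      rw [if_neg hcon.1, if_neg hcon.2] at h7
      linarith
    rcases hbc with hb1 | hc1
    · have hba : b = a := hb1.trans ha1.symm
      subst hba
      exact core hGCD hSUM hDIF IH X Y Z b c hlen ha hc hX hY hZ hXn hYn hZn h
    · have hca : c = a := hc1.trans ha1.symm
      subst hca
      have := core hGCD hSUM hDIF IH X Z Y c b (by omega) ha hb hX hZ hY hXn hZn hYn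
        (fun x => by rw [h x, add_comm])
      rw [this, add_comm]

theorem main : S_FMIN → S_POS → S_TWO → S_GCD → S_SUM → S_DIF → S_SG → S_T3 :=
  fun hFMIN hPOS hTWO hGCD hSUM hDIF hSG X Y Z a b c ha hb hc hX hY hZ h =>
    all hFMIN hPOS hTWO hGCD hSUM hDIF hSG (X.length + Y.length + Z.length) X Y Z a b c le_rfl
      ha hb hc hX hY hZ h

end Pool.Agent.H80.IR.T3
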