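import Pool.Agent.H80.IR.Stm
set_option autoImplicit false

/-!
# Project IR, statement TOP
-/

namespace Pool.Agent.H80.IR.TOP

open Pool.Agent.H80.Sig Finset

lemma lastProd_pos {K : List (ℕ × ℕ)} (h : K ≠ []) (hV : Valid K) : lastProd K ≠ 0 := by
  rcases K with _ | ⟨⟨p, q⟩, L⟩
  · exact absurd rfl h
  · obtain ⟨_, h1, h2⟩ := hV (p, q) (by simp)
    simp only at h1 h2
    simp only [lastProd]
    positivity

theorem main : S_TOP := by
  classical
  intro K n K' hK hV hK' hrel
  set a : Option (Fin n) → ℝ := fun o => o.elim 1 (fun _ => -1) with ha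
  set F : Option (Fin n) → List (ℕ × ℕ) := fun o => o.elim K K' with hF
  have hVF : ∀ k ∈ (univ : Finset (Option (Fin n))), Valid (F k) := by
    intro k _
    rcases k with _ | i
    · exact hV
    · exact (hK' i).2
  have hJ : JRel univ a F := by
    intro x
    rw [Fintype.sum_option]
    simp only [ha, hF, Option.elim]
    have h1 := hrel x
    have h2 : (JK K x : ℝ) = ∑ i, (JK (K' i) x : ℝ) := by
      rw [h1]; push_cast; rfl
    rw [h2]; simp
  obtain ⟨t, ht⟩ := last_products_J univ a F hVF hJ
  set P := lastProd K with hP
  set c : ℕ → ℕ := fun N => (univ.filter (fun i : Fin n => lastProd (K' i) = N)).card with hc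
  have key : ∀ N : ℕ, N ≠ 0 → (if P = N then (1 : ℝ) else 0) - (c N : ℝ) =
      if N = 30 then t else if N = 6 ∨ N = 10 ∨ N = 15 then -t else 0 := by
    intro N hN
    rw [← ht N hN, sum_filter, Fintype.sum_option]
    simp only [ha, hF, Option.elim, hc]
    rw [Finset.card_eq_sum_ones, sum_filter]
    push_cast
    rw [sub_eq_add_neg, ← sum_neg_distrib]
    congr 1
    refine sum_congr rfl fun i _ => ?_
    split_ifs <;> simp
  have hi0 : ∀ i, lastProd (K' i) ≠ 0 := fun i => lastProd_pos (hK' i).1 (hK' i).2
  have hP0 : P ≠ 0 := lastProd_pos hK hV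
  have hcpos : ∀ i, c (lastProd (K' i)) ≠ 0 := by
    intro i
    apply Finset.card_ne_zero_of_mem (a := i)
    simp
  have hc0 : ∀ N, (0 : ℝ) ≤ (c N : ℝ) := fun N => Nat.cast_nonneg _
  have e30 := key 30 (by norm_num)
  have e6 := key 6 (by norm_num)
  have e10 := key 10 (by norm_num)
  have e15 := key 15 (by norm_num)
  norm_num at e30 e6 e10 e15
  by_cases ht0 : t = 0
  · left
    have h1 : ∀ i, lastProd (K' i) = P := by
      intro i
      by_contra hne
      have h2 := key _ (hi0 i)
      rw [if_neg (Ne.symm hne), ht0] at h2
      simp only [neg_zero, ite_self, zero_sub, neg_eq_zero, Nat.cast_eq_zero] at h2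
      exact hcpos i h2
    have h2 := key P hP0
    rw [if_pos rfl, ht0] at h2
    simp only [neg_zero, ite_self] at h2
    have h3 : c P = n := by
      simp only [hc]
      rw [Finset.filter_true_of_mem (fun i _ => h1 i)]
      simp
    have h4 : (c P : ℝ) = 1 := by linarith
    rw [h3] at h4
    exact_mod_cast h4
  · right
    have hP30 : P = 30 := by
      by_contra hne
      rw [if_neg hne] at e30
      have a30 := hc0 30
      have a6 := hc0 6
      have a10 := hc0 10
      by_cases h6 : P = 6
      · rw [if_neg (by omega)] at e10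
        exact ht0 (by linarith)
      · rw [if_neg h6] at e6
        exact ht0 (by linarith)
    rw [if_pos hP30] at e30
    rw [if_neg (by omega)] at e6 e10 e15
    have h1 : c 6 = 1 := by
      have h2 : (c 6 : ℝ) + c 30 = 1 := by linarith
      have h3 : c 6 + c 30 = 1 := by exact_mod_cast h2
      have h4 : c 6 ≠ 0 := by
        intro h
        rw [h] at e6
        apply ht0
        push_cast at e6
        linarith
      omega
    have h6r : (c 6 : ℝ) = 1 := by exact_mod_cast h1
    have h10 : c 10 = 1 := by
      have : (c 10 : ℝ) = 1 := by linarith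
      exact_mod_cast this
    have h15 : c 15 = 1 := by
      have : (c 15 : ℝ) = 1 := by linarith
      exact_mod_cast this
    have h30 : c 30 = 0 := by
      have : (c 30 : ℝ) = 0 := by linarith
      exact_mod_cast this
    have hmem : ∀ i, lastProd (K' i) = 6 ∨ lastProd (K' i) = 10 ∨ lastProd (K' i) = 15 := by
      intro i
      by_contra hcon
      push Not at hcon
      have h2 := hcpos i
      by_cases h3 : lastProd (K' i) = 30
      · rw [h3] at h2; exact h2 h30
      · have h4 := key _ (hi0 i)
        rw [if_neg (by rw [hP30]; exact Ne.symm h3), if_neg h3, if_neg (by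
          rintro (h | h | h)
          · exact hcon.1 h
          · exact hcon.2.1 h
          · exact hcon.2.2 h)] at h4
        have h5 : (c (lastProd (K' i)) : ℝ) = 0 := by linarith
        exact h2 (by exact_mod_cast h5)
    refine ⟨?_, hP30, ?_⟩
    · have h2 := Finset.card_eq_sum_card_fiberwise (s := (univ : Finset (Fin n)))
        (f := fun i => lastProd (K' i)) (t := ({6, 10, 15} : Finset ℕ)) (by
          intro i _
          simpa using hmem i)
      rw [Finset.card_univ, Fintype.card_fin] at h2
      rw [h2, sum_insert (by decide), sum_insert (by decide), sum_singleton]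
      have e1 : (univ.filter (fun i : Fin n => lastProd (K' i) = 6)).card = 1 := h1
      have e2 : (univ.filter (fun i : Fin n => lastProd (K' i) = 10)).card = 1 := h10
      have e3 : (univ.filter (fun i : Fin n => lastProd (K' i) = 15)).card = 1 := h15
      rw [e1, e2, e3]
      rfl
    · obtain ⟨i, hi⟩ := Finset.card_eq_one.1 h1
      obtain ⟨j, hj⟩ := Finset.card_eq_one.1 h10
      obtain ⟨k, hk⟩ := Finset.card_eq_one.1 h15
      have hi' : lastProd (K' i) = 6 := by
        have : i ∈ univ.filter (fun i : Fin n => lastProd (K' i) = 6) := by rw [hi]; simp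
        exact (mem_filter.1 this).2
      have hj' : lastProd (K' j) = 10 := by
        have : j ∈ univ.filter (fun i : Fin n => lastProd (K' i) = 10) := by rw [hj]; simp
        exact (mem_filter.1 this).2
      have hk' : lastProd (K' k) = 15 := by
        have : k ∈ univ.filter (fun i : Fin n => lastProd (K' i) = 15) := by rw [hk]; simp
        exact (mem_filter.1 this).2
      refine ⟨i, j, k, ?_, ?_, ?_, hi', hj', hk'⟩
      · rintro rfl; omega
      · rintro rfl; omega
      · rintro rfl; omega

end Pool.Agent.H80.IR.TOP
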