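import Pool.Agent.H80.IR.Stm
set_option autoImplicit false

/-!
# S_TR1
-/

namespace Pool.Agent.H80.IR.TR1

open Pool.Agent.H80.Sig

theorem main : S_TR1 := by
  intro m hm
  have hmR : (8 : ℝ) ≤ m := by exact_mod_cast hm
  have hm0 : (0 : ℝ) < m := by linarith
  set x : ℝ := Real.pi * (((1 : ℕ) : ℝ) / m) with hx
  have hx0 : 0 < x := by
    rw [hx]; push_cast; positivity
  have hx1 : 4 * x < Real.pi := by
    rw [hx]; push_cast
    rw [mul_one_div, mul_div_assoc', div_lt_iff₀ hm0]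
    nlinarith [Real.pi_pos]
  have e2 : Real.pi * (((2 : ℕ) : ℝ) / m) = 2 * x := by rw [hx]; push_cast; ring
  have h23 : ct m 3 < ct m 2 := ct_lt (by norm_num) (by norm_num) (by omega)
  have hs2 : 0 < Real.sin (2 * x) := Real.sin_pos_of_pos_of_lt_pi (by linarith) (by linarith)
  have hs1 : 0 < Real.sin x := Real.sin_pos_of_pos_of_lt_pi (by linarith) (by linarith)
  have hc1 : 0 < Real.cos x := Real.cos_pos_of_mem_Ioo ⟨by linarith, by linarith⟩
  have key : 2 * ct m 2 ≤ ct m 1 := by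
    unfold ct
    rw [← hx, e2]
    rw [mul_div_assoc', div_le_div_iff₀ hs2 hs1, Real.cos_two_mul, Real.sin_two_mul]
    have h3 : Real.cos x ^ 2 ≤ 1 := Real.cos_sq_le_one x
    have h4 := Real.sin_sq_add_cos_sq x
    nlinarith [mul_pos hs1 hc1]
  linarith

end Pool.Agent.H80.IR.TR1
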