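import Pool.Agent.H80.IR.T.CotB
set_option autoImplicit false

/-!
# S_TR2
-/

namespace Pool.Agent.H80.IR.TR2

open Pool.Agent.H80.Sig Pool.Agent.H80.IR.CotB

/-- `ct (2 m) h` lies between bounds in terms of `x = π / (2 m)` -/
lemma up {m h : ℕ} (hm : 0 < m) (hh : 0 < h) (h2 : h < m) :
    ct (2 * m) h < 1 / (h * (Real.pi / (2 * m))) := by
  have hm0 : (0 : ℝ) < m := by exact_mod_cast hm
  have hh0 : (0 : ℝ) < h := by exact_mod_cast hh
  have h3 : (h : ℝ) < m := by exact_mod_cast h2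
  have e : Real.pi * ((h : ℝ) / ((2 * m : ℕ) : ℝ)) = h * (Real.pi / (2 * m)) := by
    push_cast; ring
  unfold ct
  rw [e]
  apply cot_lt_inv (by positivity)
  rw [mul_div_assoc', div_lt_div_iff₀ (by positivity) (by norm_num)]
  nlinarith [Real.pi_pos]

lemma bd (hc : S_COT) {m h : ℕ} (hm : 0 < m) (hh : 0 < h)
    (h2 : h * (Real.pi / (2 * m)) ≤ 3 / 5) :
    1 / (h * (Real.pi / (2 * m))) - (h * (Real.pi / (2 * m))) / 3 - (h * (Real.pi / (2 * m))) ^ 3 / 40
      ≤ ct (2 * m) h ∧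
    ct (2 * m) h ≤ 1 / (h * (Real.pi / (2 * m))) - (h * (Real.pi / (2 * m))) / 3 := by
  have hm0 : (0 : ℝ) < m := by exact_mod_cast hm
  have hh0 : (0 : ℝ) < h := by exact_mod_cast hh
  have e : Real.pi * ((h : ℝ) / ((2 * m : ℕ) : ℝ)) = h * (Real.pi / (2 * m)) := by
    push_cast; ring
  unfold ct
  rw [e]
  exact hc _ (by positivity) h2

theorem main (hc : S_COT) : S_TR2 := by
  intro m hm
  have hmR : (9 : ℝ) ≤ m := by exact_mod_cast hm
  have hm0 : (0 : ℝ) < m := by linarith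
  have hp2 : Real.pi < (3.1416 : ℝ) := by
    have := Real.pi_lt_d6
    linarith
  have h4 := up (m := m) (h := 4) (by omega) (by norm_num) (by omega)
  have h3 := up (m := m) (h := 3) (by omega) (by norm_num) (by omega)
  have hx0 : 0 < Real.pi / (2 * m) := by positivity
  have hx1 : Real.pi / (2 * m) ≤ 0.175 := by
    rw [div_le_iff₀ (by positivity)]; nlinarith
  have h1 := (bd hc (m := m) (h := 1) (by omega) (by norm_num) (by push_cast; linarith)).1
  set x : ℝ := Real.pi / (2 * m) with hx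
  push_cast at h1 h3 h4
  rw [one_mul] at h1
  have e3 : 1 / (3 * x) = 1 / x / 3 := by field_simp
  have e4 : 1 / (4 * x) = 1 / x / 4 := by field_simp
  rw [e3] at h3
  rw [e4] at h4
  have h5 : 5 ≤ 1 / x := by
    rw [le_div_iff₀ hx0]; linarith
  have h6 : x ^ 3 ≤ 0.01 := by
    have := pow_le_pow_left₀ hx0.le hx1 3
    norm_num at this ⊢
    linarith
  norm_num at hx1 h6
  constructor <;> linarith

end Pool.Agent.H80.IR.TR2
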