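import Pool.Agent.H80.IR.T.TR2
set_option autoImplicit false

/-!
# S_TR3
-/

namespace Pool.Agent.H80.IR.TR3

open Pool.Agent.H80.Sig Pool.Agent.H80.IR.CotB Pool.Agent.H80.IR.TR2

theorem main (hc : S_COT) : S_TR3 := by
  intro m hm
  have hmR : (15 : ℝ) ≤ m := by exact_mod_cast hm
  have hm0 : (0 : ℝ) < m := by linarith
  have hp2 : Real.pi < (3.1416 : ℝ) := by
    have := Real.pi_lt_d6
    linarith
  have hx0 : 0 < Real.pi / (2 * m) := by positivity
  have hx1 : Real.pi / (2 * m) ≤ 0.10472 := by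
    rw [div_le_iff₀ (by positivity)]; nlinarith
  have u6 := up (m := m) (h := 6) (by omega) (by norm_num) (by omega)
  have u7 := up (m := m) (h := 7) (by omega) (by norm_num) (by omega)
  obtain ⟨l2, u2⟩ := bd hc (m := m) (h := 2) (by omega) (by norm_num) (by push_cast; linarith)
  obtain ⟨l3, u3⟩ := bd hc (m := m) (h := 3) (by omega) (by norm_num) (by push_cast; linarith)
  obtain ⟨l4, u4⟩ := bd hc (m := m) (h := 4) (by omega) (by norm_num) (by push_cast; linarith)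
  obtain ⟨l5, u5⟩ := bd hc (m := m) (h := 5) (by omega) (by norm_num) (by push_cast; linarith)
  set x : ℝ := Real.pi / (2 * m) with hx
  push_cast at l2 l3 l4 l5 u2 u3 u4 u5 u6 u7
  have e2 : 1 / (2 * x) = 1 / x / 2 := by field_simp
  have e3 : 1 / (3 * x) = 1 / x / 3 := by field_simp
  have e4 : 1 / (4 * x) = 1 / x / 4 := by field_simp
  have e5 : 1 / (5 * x) = 1 / x / 5 := by field_simp
  have e6 : 1 / (6 * x) = 1 / x / 6 := by field_simp
  have e7 : 1 / (7 * x) = 1 / x / 7 := by field_simp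
  rw [e2] at l2 u2
  rw [e3] at l3 u3
  rw [e4] at l4 u4
  rw [e5] at l5 u5
  rw [e6] at u6
  rw [e7] at u7
  -- `1 / x ≥ 91 x`, `x ^ 3 ≤ 0.011 x`
  have hx2 : x ^ 2 ≤ 0.010967 := by
    have := pow_le_pow_left₀ hx0.le hx1 2
    norm_num at this ⊢
    linarith
  have h5 : 91 * x ≤ 1 / x := by
    rw [le_div_iff₀ hx0]; nlinarith
  have h6 : x ^ 3 ≤ 0.011 * x := by
    have : x ^ 3 = x ^ 2 * x := by ring
    rw [this]
    nlinarith
  have h7 : 0 ≤ x ^ 3 := by positivity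
  have p2 : (2 * x) ^ 3 = 8 * x ^ 3 := by ring
  have p3 : (3 * x) ^ 3 = 27 * x ^ 3 := by ring
  have p4 : (4 * x) ^ 3 = 64 * x ^ 3 := by ring
  have p5 : (5 * x) ^ 3 = 125 * x ^ 3 := by ring
  rw [p2] at l2
  rw [p3] at l3
  rw [p4] at l4
  rw [p5] at l5
  norm_num at h6
  refine ⟨?_, ?_, ?_, ?_, ?_, ?_⟩ <;> linarith

end Pool.Agent.H80.IR.TR3
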