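import Pool.Agent.H80.IR.Stm
set_option autoImplicit false

/-!
# Project IR, stub TWO
-/

namespace Pool.Agent.H80.IR.TWO

open Pool.Agent.H80.Sig Finset

lemma one (hF : S_FMIN) {Z : List (ℕ × ℕ)} {c : ℕ} (hc : 0 < c) (hZ : Valid Z)
    (h : ∀ x : ℝ, JK Z (c * x) = 0) : Z = [] := by
  by_contra hne
  have hl := lev_pos hZ
  have h1 := hF 1 (fun _ => Z) (fun _ => c) (fun _ => 1) c (c * lev Z) hc (Nat.mul_pos hc hl)
    (fun _ => hZ) (fun _ => le_rfl) (fun _ => dvd_rfl) (fun x => by simp [h x]) 1
    (Nat.coprime_one_left _)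
  simp at h1
  exact (kap_pos hZ hne).ne' h1

theorem main (hF : S_FMIN) : S_TWO := by
  intro X Y a b ha hb hX hY hXe h
  have hYe : Y ≠ [] := by
    rintro rfl
    refine hXe (one hF ha hX fun x => ?_)
    rw [h x]; rfl
  have hl1 := lev_pos hX
  have hl2 := lev_pos hY
  have h1 := hF 2 ![X, Y] ![a, b] ![1, -1] (min a b) ((a * lev X) * (b * lev Y))
    (lt_min ha hb) (by positivity)
    (by intro i; fin_cases i <;> simp [hX, hY])
    (by intro i; fin_cases i <;> simp)
    (by
      intro i
      fin_cases i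
      · exact Dvd.intro _ rfl
      · exact Dvd.intro_left _ rfl)
    (fun x => by
      have h2 := h x
      simp [Fin.sum_univ_two, h2]) 1 (Nat.coprime_one_left _)
  have k1 := kap_pos hX hXe
  have k2 := kap_pos hY hYe
  have h1' : (if a = min a b then kap X 1 else 0) + (if b = min a b then -kap Y 1 else 0) = 0 := by
    rw [Fin.sum_univ_two] at h1
    have e0 : (if (![a, b] : Fin 2 → ℕ) 0 = min a b then
        (![1, -1] : Fin 2 → ℝ) 0 * kap ((![X, Y] : Fin 2 → List (ℕ × ℕ)) 0) 1 else 0) =
        if a = min a b then kap X 1 else 0 := by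
      by_cases h : a = min a b
      · rw [if_pos (show (![a, b] : Fin 2 → ℕ) 0 = min a b from h), if_pos h]; simp
      · rw [if_neg (show ¬ (![a, b] : Fin 2 → ℕ) 0 = min a b from h), if_neg h]
    have e1 : (if (![a, b] : Fin 2 → ℕ) 1 = min a b then
        (![1, -1] : Fin 2 → ℝ) 1 * kap ((![X, Y] : Fin 2 → List (ℕ × ℕ)) 1) 1 else 0) =
        if b = min a b then -kap Y 1 else 0 := by
      by_cases h : b = min a b
      · rw [if_pos (show (![a, b] : Fin 2 → ℕ) 1 = min a b from h), if_pos h]; simp
      · rw [if_neg (show ¬ (![a, b] : Fin 2 → ℕ) 1 = min a b from h), if_neg h]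
    rw [e0, e1] at h1
    exact h1
  have hab : a = b := by
    rcases lt_trichotomy a b with hlt | heq | hlt
    · rw [min_eq_left hlt.le, if_pos rfl, if_neg hlt.ne'] at h1'
      linarith
    · exact heq
    · rw [min_eq_right hlt.le, if_neg hlt.ne', if_pos rfl] at h1'
      linarith
  refine ⟨hab, ?_⟩
  subst hab
  have ha' : (a : ℝ) ≠ 0 := by exact_mod_cast ha.ne'
  have hJ : ∀ y : ℝ, JK X y = JK Y y := by
    intro y
    have := h (y / a)
    rwa [mul_div_cancel₀ y ha'] at this
  by_contra hns
  have h2 := hyp_all (Fin 2) _ univ ![X, Y] ![1, -1] le_rfl (by simp)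
    (by intro i _; fin_cases i <;> simp [hX, hY, hXe, hYe])
    (by
      intro i _ j _ hij
      fin_cases i <;> fin_cases j
      · exact absurd rfl hij
      · exact hns
      · exact fun hs => hns hs.symm
      · exact absurd rfl hij)
    (by intro i _; fin_cases i <;> simp)
    (by
      intro x
      simp [Fin.sum_univ_two, hJ x])
  exact (univ_nonempty (α := Fin 2)).ne_empty h2

end Pool.Agent.H80.IR.TWO
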