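import Pool.Agent.H80.IR.T.XC
set_option autoImplicit false

/-! # IR-X15 -/

namespace Pool.Agent.H80.IR.X15

open Pool.Agent.H80.Sig Finset Pool.Agent.H80.IR.XC

theorem main : S_E2 → S_E3 → S_E5 → S_STAR → S_QA15 → S_QB15 → S_QC15 → S_X15 := by
  intro hE2 hE3 hE5 hSTAR hQA hQB hQC p q a₁ a₂ b₁ b₂ c₁ c₂ L A B C hX hpq
  obtain ⟨M, hM⟩ := exists_LEV hX
  have e2 := hE2 p q a₁ a₂ b₁ b₂ c₁ c₂ L A B C M hX hM
  have e3 := hE3 p q a₁ a₂ b₁ b₂ c₁ c₂ L A B C M hX hM 1 (Nat.coprime_one_left M)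
  have e5 := hE5 p q a₁ a₂ b₁ b₂ c₁ c₂ L A B C M hX hM 1 (Nat.coprime_one_left M)
  obtain ⟨vL, vA, vB, vC, hN, hNa, hNb, hNc, hrel⟩ := hX
  obtain ⟨hM0, hM900, lL, lA, lB, lC⟩ := hM
  have ha := six hNa vA.head.2.1 vA.head.2.2
  have hb := ten hNb vB.head.2.1 vB.head.2.2
  have hc := fifteen hNc vC.head.2.1 vC.head.2.2
  have kA := kap_nonneg vA.tail
  have kB := kap_nonneg vB.tail
  have kC := kap_nonneg vC.tail
  -- E3 and E5 at `u = 1`
  rw [if_neg (by omega : ¬ p = 3), if_neg (by omega : ¬ (p = 3 ∨ q = 3)), zero_add] at e3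
  rw [if_neg (by omega : ¬ (p = 5 ∨ q = 5)), if_neg (by omega : ¬ p = 5), add_zero] at e5
  have hA3 : a₁ = 3 → A = [] := by
    intro h
    rw [if_pos h] at e3
    apply nil_of_kap vA.tail
    split_ifs at e3 <;> linarith
  have hB5 : b₁ = 5 → B = [] := by
    intro h
    rw [if_pos h] at e5
    apply nil_of_kap vB.tail
    split_ifs at e5 <;> linarith
  -- E2
  have e2' : ∀ u : ℕ, u.Coprime M → (if p = 2 then kap L u else 0) =
      ct 15 (2 * u) + kap A u + kap B u := by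
    intro u hu
    rw [e2 u hu, if_pos (by omega : p = 2 ∨ q = 2)]
    congr 1
    · congr 1
      rcases ha with h | h
      · rw [if_pos h.1]
      · rw [if_neg (by omega), hA3 h.1, kap_nil]
    · rcases hb with h | h
      · rw [if_pos h.1]
      · rw [if_neg (by omega), hB5 h.1, kap_nil]
  have hp : p = 2 := by
    by_contra hne
    have h1 := e2' 1 (Nat.coprime_one_left M)
    rw [if_neg hne, mul_one] at h1
    have h2 : 0 < ct 15 2 := ct_pos (by norm_num) (by norm_num)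
    linarith
  simp only [if_pos hp] at e2'
  have h15M : 15 ∣ M := (by norm_num : 15 ∣ 900).trans hM900
  refine final hSTAR (f := 15) (e := 2) (M := M) hM0 h15M (tail_lev lL) (tail_lev lA)
    (tail_lev lB) vL.tail vA.tail vB.tail (by norm_num) (by norm_num) (by norm_num) (by norm_num)
    (by norm_num) ?_ e2'
  intro N₁ N₂ N₃ h1 h2 h3 n1 n2 n3 hr
  have r1 := hr 1 (Nat.coprime_one_left M)
  rw [mul_one] at r1
  rcases hQA N₁ N₂ N₃ M hM0 h15M h1 h2 h3 n1 n2 n3 hr with ⟨x1, x2, x3⟩ |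
    ⟨m, N, x1, x2, x3, x4, x5⟩
  · exact hQB N₁ N₂ N₃ n1 n2 n3 x1 x2 x3 r1
  · rcases x4 with ⟨y1, y2⟩ | ⟨y1, y2⟩
    · rw [y1] at n2
      rw [y2] at n3
      apply hQC m N x1 x2 n2 n3 x5
      rw [x3, y1, y2] at r1
      exact r1
    · rw [y1] at n2
      rw [y2] at n3
      apply hQC m N x1 x2 n3 n2 x5
      rw [x3, y1, y2] at r1
      linarith

end Pool.Agent.H80.IR.X15
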