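import Pool.Agent.H80.IR.Stm
set_option autoImplicit false

/-!
# Project IR, stub X6: the exceptional relation for `T(5, 6)`
-/

namespace Pool.Agent.H80.IR.X6

open Pool.Agent.H80.Sig Finset

lemma nil_of_kap {L : List (ℕ × ℕ)} (hL : Valid L) (h : kap L 1 ≤ 0) : L = [] := by
  by_contra h1
  exact absurd (kap_pos hL h1) (not_lt.2 h)

lemma kap_nonneg {L : List (ℕ × ℕ)} (hL : Valid L) : 0 ≤ kap L 1 := by
  by_cases h : L = []
  · rw [h]; simp [kap]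
  · exact (kap_pos hL h).le

theorem main (hE2 : S_E2) (hE3 : S_E3) (hEX : S_EXJ) : S_X6 := by
  intro p q a₁ a₂ b₁ b₂ c₁ c₂ L A B C hx hpq
  obtain ⟨hL, hA, hB, hC, h30, h6, h10, h15, hrel⟩ := id hx
  have lp : ∀ {X : List (ℕ × ℕ)}, Valid X → 0 < lev X := fun h => lev_pos h
  set M : ℕ := 900 * (lev ((p, q) :: L) * (lev ((a₁, a₂) :: A) * (lev ((b₁, b₂) :: B) *
    lev ((c₁, c₂) :: C)))) with hM
  have hlev : LEV p q a₁ a₂ b₁ b₂ c₁ c₂ L A B C M := by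
    have e1 := lev_pos hL
    have e2 := lev_pos hA
    have e3 := lev_pos hB
    have e4 := lev_pos hC
    refine ⟨by positivity, Dvd.intro _ rfl, ?_, ?_, ?_, ?_⟩
    · exact Dvd.dvd.mul_left (Dvd.intro _ rfl) _
    · exact Dvd.dvd.mul_left (Dvd.dvd.mul_left (Dvd.intro _ rfl) _) _
    · exact Dvd.dvd.mul_left (Dvd.dvd.mul_left (Dvd.dvd.mul_left (Dvd.intro _ rfl) _) _) _
    · exact Dvd.dvd.mul_left (Dvd.dvd.mul_left (Dvd.dvd.mul_left (Dvd.intro_left _ rfl) _) _) _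
  have g2 := hE2 p q a₁ a₂ b₁ b₂ c₁ c₂ L A B C M hx hlev 1 (Nat.coprime_one_left M)
  have g3 := hE3 p q a₁ a₂ b₁ b₂ c₁ c₂ L A B C M hx hlev 1 (Nat.coprime_one_left M)
  have kA := kap_nonneg hA.tail
  have kB := kap_nonneg hB.tail
  have kC := kap_nonneg hC.tail
  have ha := hA.head
  have hb := hB.head
  have hc := hC.head
  simp only at ha hb hc
  -- the possible values
  have ha1 : (a₁ = 2 ∧ a₂ = 3) ∨ (a₁ = 3 ∧ a₂ = 2) := by
    have h1 : a₁ ≤ 3 := by nlinarith [ha.2.1, ha.2.2]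
    have h2 : 2 ≤ a₁ := ha.2.1
    interval_cases a₁ <;> omega
  have hb1 : (b₁ = 2 ∧ b₂ = 5) ∨ (b₁ = 5 ∧ b₂ = 2) := by
    have h1 : b₁ ≤ 5 := by nlinarith [hb.2.1, hb.2.2]
    have h2 : 2 ≤ b₁ := hb.2.1
    interval_cases b₁ <;> omega
  have hc1 : (c₁ = 3 ∧ c₂ = 5) ∨ (c₁ = 5 ∧ c₂ = 3) := by
    have h1 : c₁ ≤ 7 := by nlinarith [hc.2.1, hc.2.2]
    have h2 : 2 ≤ c₁ := hc.2.1
    interval_cases c₁ <;> omega
  have p2 : ¬ p = 2 := by omega
  have q2 : ¬ q = 2 := by omega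
  have p3 : ¬ p = 3 := by omega
  have q3 : ¬ q = 3 := by omega
  rw [if_neg p2, if_neg (by omega)] at g2
  rw [if_neg p3, if_neg (by omega)] at g3
  have hAn : A = [] := by
    rcases ha1 with ⟨h1, -⟩ | ⟨h1, -⟩
    · rw [if_pos h1] at g2
      refine nil_of_kap hA.tail ?_
      split_ifs at g2 <;> linarith
    · rw [if_pos h1] at g3
      refine nil_of_kap hA.tail ?_
      split_ifs at g3 <;> linarith
  have hBn : b₁ = 5 ∨ B = [] := by
    rcases hb1 with ⟨h1, -⟩ | ⟨h1, -⟩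
    · right
      rw [if_pos h1] at g2
      refine nil_of_kap hB.tail ?_
      split_ifs at g2 <;> linarith
    · exact Or.inl h1
  have hCn : c₁ = 5 ∨ C = [] := by
    rcases hc1 with ⟨h1, -⟩ | ⟨h1, -⟩
    · right
      rw [if_pos h1] at g3
      refine nil_of_kap hC.tail ?_
      split_ifs at g3 <;> linarith
    · exact Or.inl h1
  refine ⟨hAn, hBn, hCn, fun x => ?_⟩
  have r1 := hrel x
  have r2 := hEX x
  have eB : JK B (b₁ * x) = JK B (5 * x) := by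
    rcases hBn with h | h
    · rw [h]; norm_num
    · rw [h]; simp [JK]
  have eC : JK C (c₁ * x) = JK C (5 * x) := by
    rcases hCn with h | h
    · rw [h]; norm_num
    · rw [h]; simp [JK]
  simp only [JK] at r1
  rw [eB, eC, hAn] at r1
  have e0 : J p q x = J 5 6 x := by
    rcases hpq with ⟨h1, h2⟩ | ⟨h1, h2⟩
    · rw [h1, h2]
    · rw [h1, h2, J_swap]
  have e1 : J a₁ a₂ x = J 2 3 x := by
    rcases ha1 with ⟨h1, h2⟩ | ⟨h1, h2⟩
    · rw [h1, h2]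
    · rw [h1, h2, J_swap]
  have e2 : J b₁ b₂ x = J 2 5 x := by
    rcases hb1 with ⟨h1, h2⟩ | ⟨h1, h2⟩
    · rw [h1, h2]
    · rw [h1, h2, J_swap]
  have e3 : J c₁ c₂ x = J 3 5 x := by
    rcases hc1 with ⟨h1, h2⟩ | ⟨h1, h2⟩
    · rw [h1, h2]
    · rw [h1, h2, J_swap]
  rw [e0, e1, e2, e3] at r1
  simp only [JK] at r1
  omega

end Pool.Agent.H80.IR.X6
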