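import Pool.Agent.H80.IR.Stm2
set_option autoImplicit false

/-!
# Project IR, part 2, statement ALL
-/

namespace Pool.Agent.H80.IR.ALL

open Pool.Agent.H80.Sig Finset

lemma kap_nonneg {L : List (ℕ × ℕ)} (hL : Valid L) : 0 ≤ kap L 1 := by
  by_cases h : L = []
  · subst h; simp [kap]
  · exact (kap_pos hL h).le

/-- if a nonnegative combination of the `kap` vanishes, the lists are empty -/
lemma all_nil {ι : Type} {T : Finset ι} {Y : ι → List (ℕ × ℕ)} {c : ι → ℝ}
    (hY : ∀ i ∈ T, Valid (Y i) ∧ 0 < c i) (h : ∑ i ∈ T, c i * kap (Y i) 1 = 0) :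
    ∀ i ∈ T, Y i = [] := by
  intro i hi
  by_contra hne
  have h1 := (Finset.sum_eq_zero_iff_of_nonneg
    (fun i hi => mul_nonneg (hY i hi).2.le (kap_nonneg (hY i hi).1))).1 h i hi
  have h2 := mul_pos (hY i hi).2 (kap_pos (hY i hi).1 hne)
  linarith

theorem main : S_KLP → S_ALL := by
  classical
  intro hKLP ι S K K' c hK hV hK' hsum hrel hheads
  set p := hd1 K with hp
  set q := hd2 K with hq
  have hKe : K = (p, q) :: K.tail := list_eq hK
  have hhead : Nat.Coprime p q ∧ 2 ≤ p ∧ 2 ≤ q := by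
    have h1 := hV
    rw [hKe] at h1
    exact h1.head
  obtain ⟨hc, hp2, hq2⟩ := hhead
  have hpq : p ≠ q := by
    intro h
    rw [h, Nat.coprime_self] at hc
    omega
  have hTK : Valid K.tail := by
    have h1 := hV
    rw [hKe] at h1
    exact h1.tail
  have hTK' : ∀ i ∈ S, Valid (K' i).tail := by
    intro i hi
    have h1 := (hK' i hi).2.1
    rw [list_eq (hK' i hi).1] at h1
    exact h1.tail
  -- the level
  set M : ℕ := lev K * ∏ i ∈ S, lev (K' i) with hM
  have hM0 : 0 < M := Nat.mul_pos (lev_pos hV) (Finset.prod_pos fun i hi => lev_pos (hK' i hi).2.1)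
  have hMK : lev K ∣ M := Dvd.intro _ rfl
  have hMK' : ∀ i ∈ S, lev (K' i) ∣ M := fun i hi =>
    (Finset.dvd_prod_of_mem (fun i => lev (K' i)) hi).mul_left _
  have hlt : ∀ L : List (ℕ × ℕ), L ≠ [] → lev L.tail ∣ lev L := by
    intro L hL
    conv_rhs => rw [list_eq hL]
    exact Dvd.intro_left _ rfl
  -- the relation indexed by Option
  set a : Option ι → ℝ := fun o => o.elim 1 (fun i => -c i) with ha
  set F : Option ι → List (ℕ × ℕ) := fun o => o.elim K K' with hF
  set S' : Finset (Option ι) := insertNone S with hS'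
  have hR : JRel S' a F := by
    intro x
    rw [hS', Finset.sum_insertNone]
    simp only [ha, hF, Option.elim]
    rw [hrel x]
    simp [Finset.sum_neg_distrib]
  have hmem : ∀ o ∈ S', (F o ≠ [] ∧ Valid (F o)) ∧ lev (F o) ∣ M ∧
      ((hd1 (F o) = p ∧ hd2 (F o) = q) ∨ (hd1 (F o) = q ∧ hd2 (F o) = p)) := by
    intro o ho
    rcases o with _ | i
    · exact ⟨⟨hK, hV⟩, hMK, Or.inl ⟨rfl, rfl⟩⟩
    · have hi : i ∈ S := by simpa [hS'] using ho
      exact ⟨⟨(hK' i hi).1, (hK' i hi).2.1⟩, hMK' i hi, hheads i hi⟩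
  have ha0 : ∑ o ∈ S', a o = 0 := by
    rw [hS', Finset.sum_insertNone]
    simp only [ha, Option.elim]
    rw [Finset.sum_neg_distrib, hsum]; ring
  have hqp : ¬ q ∣ p := by
    intro h
    have := Nat.Coprime.eq_one_of_dvd hc.symm h
    omega
  have hpq' : ¬ p ∣ q := by
    intro h
    have := Nat.Coprime.eq_one_of_dvd hc h
    omega
  -- the relation at `p u`
  have Ep : ∀ u : ℕ, u.Coprime M →
      kap K.tail u = ∑ i ∈ S with hd1 (K' i) = p, c i * kap (K' i).tail u := by
    intro u hu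
    have h1 := star (f := q) (d := p) hR (fun o ho => (hmem o ho).1) hM0
      (fun o ho => (hmem o ho).2.1) hp2
      (fun o ho => by
        rcases (hmem o ho).2.2 with ⟨e1, e2⟩ | ⟨e1, e2⟩
        · rw [e1, e2]
        · rw [e1, e2, mul_comm]) ha0
      (fun o ho h => by
        rcases (hmem o ho).2.2 with ⟨e1, e2⟩ | ⟨e1, e2⟩
        · exact e1
        · rw [e1] at h; exact absurd h hqp)
      (fun o ho h => by
        rcases (hmem o ho).2.2 with ⟨e1, e2⟩ | ⟨e1, e2⟩
        · rw [e2] at h; exact absurd h hqp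
        · exact e2) hu
    have h2 : S'.filter (fun o => hd1 (F o) = p ∨ hd2 (F o) = p) = S' := by
      apply Finset.filter_true_of_mem
      intro o ho
      rcases (hmem o ho).2.2 with ⟨e1, e2⟩ | ⟨e1, e2⟩
      · exact Or.inl e1
      · exact Or.inr e2
    rw [h2, ha0, zero_mul, sum_filter, hS', Finset.sum_insertNone] at h1
    simp only [ha, hF, Option.elim] at h1
    rw [if_pos hp.symm, one_mul] at h1
    have h3 : ∑ i ∈ S, (if hd1 (K' i) = p then -c i * kap (K' i).tail u else 0) =
        -∑ i ∈ S with hd1 (K' i) = p, c i * kap (K' i).tail u := by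
      rw [sum_filter, ← Finset.sum_neg_distrib]
      refine sum_congr rfl fun i _ => ?_
      split_ifs <;> ring
    rw [h3] at h1
    linarith
  -- the relation at `q u`
  have Eq' : ∑ i ∈ S with hd1 (K' i) = q, c i * kap (K' i).tail 1 = 0 := by
    have h1 := star (f := p) (d := q) hR (fun o ho => (hmem o ho).1) hM0
      (fun o ho => (hmem o ho).2.1) hq2
      (fun o ho => by
        rcases (hmem o ho).2.2 with ⟨e1, e2⟩ | ⟨e1, e2⟩
        · rw [e1, e2, mul_comm]
        · rw [e1, e2]) ha0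
      (fun o ho h => by
        rcases (hmem o ho).2.2 with ⟨e1, e2⟩ | ⟨e1, e2⟩
        · rw [e1] at h; exact absurd h hpq'
        · exact e1)
      (fun o ho h => by
        rcases (hmem o ho).2.2 with ⟨e1, e2⟩ | ⟨e1, e2⟩
        · exact e2
        · rw [e2] at h; exact absurd h hpq') (Nat.coprime_one_left M)
    have h2 : S'.filter (fun o => hd1 (F o) = q ∨ hd2 (F o) = q) = S' := by
      apply Finset.filter_true_of_mem
      intro o ho
      rcases (hmem o ho).2.2 with ⟨e1, e2⟩ | ⟨e1, e2⟩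
      · exact Or.inr e2
      · exact Or.inl e1
    rw [h2, ha0, zero_mul, sum_filter, hS', Finset.sum_insertNone] at h1
    simp only [ha, hF, Option.elim] at h1
    rw [if_neg (by rw [← hp]; exact hpq), zero_add] at h1
    have h3 : ∑ i ∈ S, (if hd1 (K' i) = q then -c i * kap (K' i).tail 1 else 0) =
        -∑ i ∈ S with hd1 (K' i) = q, c i * kap (K' i).tail 1 := by
      rw [sum_filter, ← Finset.sum_neg_distrib]
      refine sum_congr rfl fun i _ => ?_
      split_ifs <;> ring
    rw [h3] at h1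
    linarith
  have hqnil : ∀ i ∈ S, hd1 (K' i) = q → (K' i).tail = [] := by
    intro i hi h
    exact all_nil (T := S.filter fun i => hd1 (K' i) = q) (Y := fun i => (K' i).tail)
      (fun i hi => ⟨hTK' i (mem_filter.1 hi).1, (hK' i (mem_filter.1 hi).1).2.2⟩) Eq' i
      (mem_filter.2 ⟨hi, h⟩)
  by_cases hX : K.tail = []
  · left
    refine ⟨hX, fun i hi => ?_⟩
    have h1 := Ep 1 (Nat.coprime_one_left M)
    rw [hX] at h1
    have h2 : ∑ i ∈ S with hd1 (K' i) = p, c i * kap (K' i).tail 1 = 0 := by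
      rw [← h1]; simp [kap]
    rcases hheads i hi with ⟨e1, _⟩ | ⟨e1, _⟩
    · exact all_nil (T := S.filter fun i => hd1 (K' i) = p) (Y := fun i => (K' i).tail)
        (fun i hi => ⟨hTK' i (mem_filter.1 hi).1, (hK' i (mem_filter.1 hi).1).2.2⟩) h2 i
        (mem_filter.2 ⟨hi, e1⟩)
    · exact hqnil i hi e1
  · right
    set T : Finset ι := S.filter fun i => hd1 (K' i) = p ∧ (K' i).tail ≠ [] with hT
    have hTS : T ⊆ S := filter_subset _ _
    have hTrel : ∀ u : ℕ, u.Coprime M → kap K.tail u = ∑ i ∈ T, c i * kap (K' i).tail u := by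
      intro u hu
      rw [Ep u hu, sum_filter, hT, sum_filter]
      refine sum_congr rfl fun i _ => ?_
      by_cases h1 : hd1 (K' i) = p
      · by_cases h2 : (K' i).tail = []
        · rw [if_pos h1, if_neg (fun h => h.2 h2), h2]; simp [kap]
        · rw [if_pos h1, if_pos ⟨h1, h2⟩]
      · rw [if_neg h1, if_neg (fun h => h1 h.1)]
    have hk := (hKLP ι T K.tail (fun i => (K' i).tail) c M hM0 hX hTK ((hlt K hK).trans hMK)
      (fun i hi => ⟨(mem_filter.1 hi).2.2, hTK' i (hTS hi),
        (hlt _ (hK' i (hTS hi)).1).trans (hMK' i (hTS hi)), (hK' i (hTS hi)).2.2⟩)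
      (by
        rw [← hsum]
        exact Finset.sum_le_sum_of_subset_of_nonneg hTS fun i hi _ => (hK' i hi).2.2.le)
      hTrel).2
    have hST : ∀ i ∈ S, i ∈ T := by
      intro i hi
      by_contra hiT
      have h1 : ∑ i ∈ T, c i < ∑ i ∈ S, c i :=
        Finset.sum_lt_sum_of_subset hTS hi hiT (hK' i hi).2.2
          fun j hj _ => (hK' j hj).2.2.le
      linarith
    have hall : ∀ i ∈ S, hd1 (K' i) = p ∧ hd2 (K' i) = q ∧ (K' i).tail ≠ [] := by
      intro i hi
      obtain ⟨-, h1, h2⟩ := mem_filter.1 (hST i hi)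
      refine ⟨h1, ?_, h2⟩
      rcases hheads i hi with ⟨_, e2⟩ | ⟨e1, _⟩
      · exact e2
      · exact absurd (h1.symm.trans e1) hpq
    refine ⟨hX, hall, fun y => ?_⟩
    have hp0 : (p : ℝ) ≠ 0 := by
      have : p ≠ 0 := by omega
      exact_mod_cast this
    have h1 := hrel (y / p)
    have h2 : (JK K (y / p) : ℝ) = J p q (y / p) + JK K.tail y := by
      conv_lhs => rw [hKe]
      simp only [JK]
      rw [mul_div_cancel₀ _ hp0]
      push_cast; ring
    have h3 : ∑ i ∈ S, c i * (JK (K' i) (y / p) : ℝ) =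
        (∑ i ∈ S, c i) * J p q (y / p) + ∑ i ∈ S, c i * (JK (K' i).tail y : ℝ) := by
      rw [sum_mul, ← sum_add_distrib]
      refine sum_congr rfl fun i hi => ?_
      obtain ⟨e1, e2, _⟩ := hall i hi
      have e3 := list_eq (hK' i hi).1
      rw [e1, e2] at e3
      have e4 : (JK (K' i) (y / p) : ℝ) = J p q (y / p) + JK (K' i).tail y := by
        conv_lhs => rw [e3]
        simp only [JK]
        rw [mul_div_cancel₀ _ hp0]
        push_cast; ring
      rw [e4]; ring
    rw [h2, h3, hsum, one_mul] at h1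
    linarith

end Pool.Agent.H80.IR.ALL
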