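import Pool.Agent.H80.IR.Stm3
import Pool.Agent.H80.IR.T.E2
set_option autoImplicit false

/-!
# E2R (helper51): the relation with positive coefficients at the frequencies `2 u`
-/

namespace Pool.Agent.H80.IR.E2R

open Pool.Agent.H80.Sig Finset

/-- the Fourier coefficient at `l u` (divided by `I`) -/
noncomputable def fc (l : ℕ) (X : List (ℕ × ℕ)) (u : ℕ) : ℝ :=
  E2.tm l (hd1 X) (hd2 X) X.tail u

lemma fc_ft (hFL : S_FL) {X : List (ℕ × ℕ)} (hX : X ≠ []) (hV : Valid X) {l M : ℕ}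
    (hl : l.Prime) (hM : 0 < M) (hd : lev X ∣ M) {u : ℕ} (hu : u.Coprime M) :
    Ft M (JK X) (l * u) = Complex.I * (fc l X u : ℂ) := by
  have e := list_eq hX
  have h1 := hFL (hd1 X) (hd2 X) l M X.tail (e ▸ hV) hl hM (e ▸ hd) u hu
  rw [← e] at h1
  exact h1

lemma rel' (hFL : S_FL) {ι : Type} {S : Finset ι} {K : List (ℕ × ℕ)} {K' : ι → List (ℕ × ℕ)}
    {c : ι → ℝ} (hP : PosRel S K K' c) {l M : ℕ} (hl : l.Prime) (hM : 0 < M) (hd : lev K ∣ M)
    (hd' : ∀ i ∈ S, lev (K' i) ∣ M) {u : ℕ} (hu : u.Coprime M) :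
    fc l K u = ∑ i ∈ S, c i * fc l (K' i) u := by
  obtain ⟨hK, hV, hK', hx⟩ := hP
  have h0 := fc_ft hFL hK hV hl hM hd hu
  have key : Ft M (JK K) (l * u) = ∑ i ∈ S, (c i : ℂ) * Ft M (JK (K' i)) (l * u) := by
    unfold Ft
    simp_rw [Finset.mul_sum]
    rw [Finset.sum_comm]
    refine sum_congr rfl fun k _ => ?_
    have h1 : ((JK K ((k : ℝ) / M) : ℤ) : ℂ) =
        ∑ i ∈ S, (c i : ℂ) * ((JK (K' i) ((k : ℝ) / M) : ℤ) : ℂ) := by
      exact_mod_cast congrArg (fun r : ℝ => (r : ℂ)) (hx (k / M))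
    rw [h1, Finset.sum_mul]
    refine sum_congr rfl fun i _ => by ring
  have h2 : ∀ i ∈ S, (c i : ℂ) * Ft M (JK (K' i)) (l * u) =
      Complex.I * ((c i * fc l (K' i) u : ℝ) : ℂ) := by
    intro i hi
    rw [fc_ft hFL (hK' i hi).1 (hK' i hi).2.1 hl hM (hd' i hi) hu]
    push_cast
    ring
  rw [h0, Finset.sum_congr rfl h2, ← Finset.mul_sum] at key
  have h3 := mul_left_cancel₀ Complex.I_ne_zero key
  exact_mod_cast h3

/-- the part which depends on the product only -/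
noncomputable def b (N u : ℕ) : ℝ :=
  if N = 30 then ct 30 (2 * u) else if N = 6 then ct 6 (2 * u) - 2 * ct 3 (2 * u)
    else if N = 10 then ct 10 (2 * u) - 2 * ct 5 (2 * u) else ct 15 (2 * u)

lemma fc_eq {X : List (ℕ × ℕ)} (hX : X ≠ []) (hV : Valid X)
    (hN : lastProd X = 6 ∨ lastProd X = 10 ∨ lastProd X = 15 ∨ lastProd X = 30) (u : ℕ) :
    fc 2 X u = b (lastProd X) u + 2 * ((if hd1 X = 2 then kap X.tail u else 0) -
      (if lastProd X = 30 ∧ (hd1 X = 2 ∨ hd2 X = 2) then ct 15 (2 * u) else 0)) := by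
  have hL := lastProd_eq hX
  have hV' := hV
  rw [list_eq hX] at hV'
  have hne := E2.ne_of hV'
  have hh := hV'.head
  simp only at hh
  have w1 : (if hd1 X = 2 then ((2 : ℕ) : ℝ) * kap X.tail u else 0) =
      2 * (if hd1 X = 2 then kap X.tail u else 0) := by
    split_ifs <;> norm_num
  unfold fc
  rcases hN with h | h | h | h
  · rw [E2.tm_eq (N := 6) (by rw [← hL, h]) hne two_pos, w1, h]
    have k2 : hd1 X = 2 ∨ hd2 X = 2 := by
      rcases E2.pr6 (hL.symm.trans h) hh.2.1 hh.2.2 with h | h <;> omega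
    rw [if_pos k2]
    norm_num [b]
  · rw [E2.tm_eq (N := 10) (by rw [← hL, h]) hne two_pos, w1, h]
    have k2 : hd1 X = 2 ∨ hd2 X = 2 := by
      rcases E2.pr10 (hL.symm.trans h) hh.2.1 hh.2.2 with h | h <;> omega
    rw [if_pos k2]
    norm_num [b]
  · rw [E2.tm_eq (N := 15) (by rw [← hL, h]) hne two_pos, w1, h]
    have k2 : ¬ (hd1 X = 2 ∨ hd2 X = 2) := by
      rcases E2.pr15 (hL.symm.trans h) hh.2.1 hh.2.2 with h | h <;> omega
    rw [if_neg k2]
    norm_num [b]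
  · rw [E2.tm_eq (N := 30) (by rw [← hL, h]) hne two_pos, w1, h]
    have w2 : (if hd1 X = 2 ∨ hd2 X = 2 then ((2 : ℕ) : ℝ) * ct (30 / 2) (2 * u) else 0) =
        2 * (if (30 : ℕ) = 30 ∧ (hd1 X = 2 ∨ hd2 X = 2) then ct 15 (2 * u) else 0) := by
      by_cases h5 : hd1 X = 2 ∨ hd2 X = 2
      · rw [if_pos h5, if_pos ⟨rfl, h5⟩]
        norm_num
      · rw [if_neg h5, if_neg fun h6 => h5 h6.2, mul_zero]
    rw [w2]
    simp only [b, if_true]
    ring

theorem main : S_FL → S_EXJ → S_E2R := by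
  intro hFL hX ι S K K' c t M hP hW hM h900 hd hd' u hu
  have r1 := rel' hFL (l := 2) hP Nat.prime_two hM hd hd' hu
  have r2 := E2.rel hFL (l := 2) Nat.prime_two (E2.known hX) (E2.known_lev hM h900) hu
  rw [E2.tm_eq (N := 30) (by norm_num) (by norm_num) two_pos,
    E2.tm_eq (N := 6) (by norm_num) (by norm_num) two_pos,
    E2.tm_eq (N := 10) (by norm_num) (by norm_num) two_pos,
    E2.tm_eq (N := 15) (by norm_num) (by norm_num) two_pos] at r2
  norm_num [kap] at r2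
  obtain ⟨hK, hV, hK', -⟩ := hP
  obtain ⟨-, h30, hN, s30, s6, s10, s15⟩ := hW
  rw [fc_eq hK hV (Or.inr (Or.inr (Or.inr h30))), h30] at r1
  have r3 : ∀ i ∈ S, c i * fc 2 (K' i) u =
      ((if lastProd (K' i) = 30 then c i else 0) * ct 30 (2 * u) +
        (if lastProd (K' i) = 6 then c i else 0) * (ct 6 (2 * u) - 2 * ct 3 (2 * u)) +
        (if lastProd (K' i) = 10 then c i else 0) * (ct 10 (2 * u) - 2 * ct 5 (2 * u)) +
        (if lastProd (K' i) = 15 then c i else 0) * ct 15 (2 * u)) +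
      2 * (c i * ((if hd1 (K' i) = 2 then kap (K' i).tail u else 0) -
        (if lastProd (K' i) = 30 ∧ (hd1 (K' i) = 2 ∨ hd2 (K' i) = 2) then
          ct 15 (2 * u) else 0))) := by
    intro i hi
    rw [fc_eq (hK' i hi).1 (hK' i hi).2.1 (hN i hi)]
    generalize ((if hd1 (K' i) = 2 then kap (K' i).tail u else 0) -
        (if lastProd (K' i) = 30 ∧ (hd1 (K' i) = 2 ∨ hd2 (K' i) = 2) then
          ct 15 (2 * u) else 0)) = D
    rcases hN i hi with h | h | h | h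
    all_goals
      rw [h]
      norm_num [b]
      try ring
  rw [Finset.sum_congr rfl r3, Finset.sum_add_distrib, Finset.sum_add_distrib,
    Finset.sum_add_distrib, Finset.sum_add_distrib, ← Finset.sum_mul, ← Finset.sum_mul,
    ← Finset.sum_mul, ← Finset.sum_mul, ← Finset.sum_filter, ← Finset.sum_filter,
    ← Finset.sum_filter, ← Finset.sum_filter, s30, s6, s10, s15, ← Finset.mul_sum] at r1
  have w3 : (if (30 : ℕ) = 30 ∧ (hd1 K = 2 ∨ hd2 K = 2) then ct 15 (2 * u) else 0) =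
      (if hd1 K = 2 ∨ hd2 K = 2 then ct 15 (2 * u) else 0) := by
    simp
  rw [w3] at r1
  have w4 : b 30 u = ct 30 (2 * u) := by simp [b]
  rw [w4] at r1
  have r4 : t * ct 30 (2 * u) = t * (ct 6 (2 * u) - 2 * ct 3 (2 * u) +
      (ct 10 (2 * u) - 2 * ct 5 (2 * u)) + ct 15 (2 * u)) := by
    rw [r2]
  linarith

end Pool.Agent.H80.IR.E2R
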