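import Pool.Agent.H80.IR.Stm3
import Pool.Agent.H80.IR.T.E3
set_option autoImplicit false

/-!
# E3R (helper61): the weighted exceptional relation at the frequencies `3 u`
-/

namespace Pool.Agent.H80.IR.E3R

open Pool.Agent.H80.Sig Finset Pool.Agent.H80.IR.E3

/-- the coefficient of a list -/
noncomputable def tl (l : ℕ) (K : List (ℕ × ℕ)) (u : ℕ) : ℝ := tm l (hd1 K) (hd2 K) K.tail u

lemma ft (hFL : S_FL) {K : List (ℕ × ℕ)} (hK : K ≠ []) (hV : Valid K) {l M u : ℕ} (hl : l.Prime)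
    (hM : 0 < M) (hlev : lev K ∣ M) (hu : u.Coprime M) :
    Ft M (JK K) (l * u) = Complex.I * ((tl l K u : ℝ) : ℂ) := by
  rcases K with _ | ⟨⟨p, q⟩, L⟩
  · exact absurd rfl hK
  · exact hFL p q l M L hV hl hM hlev u hu

lemma relR (hFL : S_FL) {ι : Type} {S : Finset ι} {K : List (ℕ × ℕ)} {K' : ι → List (ℕ × ℕ)}
    {c : ι → ℝ} (hP : PosRel S K K' c) {l M u : ℕ} (hl : l.Prime) (hM : 0 < M) (hlev : lev K ∣ M)
    (hlev' : ∀ i ∈ S, lev (K' i) ∣ M) (hu : u.Coprime M) :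
    tl l K u = ∑ i ∈ S, c i * tl l (K' i) u := by
  obtain ⟨h1, h2, h3, h4⟩ := hP
  have f1 := ft hFL h1 h2 hl hM hlev hu
  have key : Ft M (JK K) (l * u) = ∑ i ∈ S, (c i : ℂ) * Ft M (JK (K' i)) (l * u) := by
    unfold Ft
    simp only [mul_sum]
    rw [sum_comm]
    refine sum_congr rfl fun k _ => ?_
    have h5 : ((JK K ((k : ℝ) / M) : ℤ) : ℂ) =
        ∑ i ∈ S, (c i : ℂ) * ((JK (K' i) ((k : ℝ) / M) : ℤ) : ℂ) := by
      have h6 := congrArg (fun x : ℝ => (x : ℂ)) (h4 ((k : ℝ) / M))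
      push_cast at h6
      exact h6
    rw [h5, sum_mul]
    exact sum_congr rfl fun i _ => by ring
  rw [f1, sum_congr rfl (fun i hi => by
    rw [ft hFL (h3 i hi).1 (h3 i hi).2.1 hl hM (hlev' i hi) hu])] at key
  have key2 : Complex.I * ((tl l K u : ℝ) : ℂ) =
      Complex.I * ((∑ i ∈ S, c i * tl l (K' i) u : ℝ) : ℂ) := by
    rw [key]
    push_cast
    rw [mul_sum]
    exact sum_congr rfl fun i _ => by ring
  have h7 := mul_left_cancel₀ Complex.I_ne_zero key2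
  exact_mod_cast h7

/-- the part which depends on the last product only -/
noncomputable def bet (u N : ℕ) : ℝ :=
  if N = 30 then ct 30 (3 * u) else if N = 6 then ct 6 (3 * u) - 3 * ct 2 (3 * u) else
    if N = 10 then ct 10 (3 * u) else ct 15 (3 * u) - 3 * ct 5 (3 * u)

lemma lp {K : List (ℕ × ℕ)} (hK : K ≠ []) : lastProd K = hd1 K * hd2 K := by
  rcases K with _ | ⟨⟨p, q⟩, L⟩
  · exact absurd rfl hK
  · rfl

lemma hdV {K : List (ℕ × ℕ)} (hK : K ≠ []) (hV : Valid K) :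
    2 ≤ hd1 K ∧ 2 ≤ hd2 K ∧ hd1 K ≠ hd2 K := by
  rcases K with _ | ⟨⟨p, q⟩, L⟩
  · exact absurd rfl hK
  · have h1 := hV.head
    exact ⟨h1.2.1, h1.2.2, ne_of hV⟩

lemma tl_eq {K : List (ℕ × ℕ)} (hK : K ≠ []) (hV : Valid K) (u : ℕ)
    (hN : lastProd K = 6 ∨ lastProd K = 10 ∨ lastProd K = 15 ∨ lastProd K = 30) :
    tl 3 K u = bet u (lastProd K) + 3 * ((if hd1 K = 3 then kap K.tail u else 0) -
      (if lastProd K = 30 ∧ (hd1 K = 3 ∨ hd2 K = 3) then ct 10 (3 * u) else 0)) := by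
  obtain ⟨g1, g2, g3⟩ := hdV hK hV
  have hp := lp hK
  unfold tl
  rw [tm_eq hp.symm g3 three_pos]
  have w1 : (if hd1 K = 3 then ((3 : ℕ) : ℝ) * kap K.tail u else 0) =
      3 * (if hd1 K = 3 then kap K.tail u else 0) := by
    split_ifs <;> norm_num
  rw [w1]
  rcases hN with hN | hN | hN | hN
  · have k : hd1 K = 3 ∨ hd2 K = 3 := by
      rcases pr6 (hp.symm.trans hN) g1 g2 with h | h <;> omega
    rw [hN, if_pos k]
    norm_num [bet]
  · have k : ¬ (hd1 K = 3 ∨ hd2 K = 3) := by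
      rcases pr10 (hp.symm.trans hN) g1 g2 with h | h <;> omega
    rw [hN, if_neg k]
    norm_num [bet]
  · have k : hd1 K = 3 ∨ hd2 K = 3 := by
      rcases pr15 (hp.symm.trans hN) g1 g2 with h | h <;> omega
    rw [hN, if_pos k]
    norm_num [bet]
  · rw [hN]
    have w2 : (if hd1 K = 3 ∨ hd2 K = 3 then ((3 : ℕ) : ℝ) * ct (30 / 3) (3 * u) else 0) =
        3 * (if (30 : ℕ) = 30 ∧ (hd1 K = 3 ∨ hd2 K = 3) then ct 10 (3 * u) else 0) := by
      simp only [true_and]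
      split_ifs <;> norm_num
    rw [w2]
    simp only [bet, if_true]
    ring

theorem main : S_FL → S_EXJ → S_E3R := by
  intro hFL hX ι S K K' c t M hP hW hM h900 hlev hlev' u hu
  have r1 := relR hFL hP Nat.prime_three hM hlev hlev' hu
  have r2 := rel hFL (l := 3) Nat.prime_three (known hX) (known_lev hM h900) hu
  rw [tm_eq (N := 30) (by norm_num) (by norm_num) three_pos,
    tm_eq (N := 6) (by norm_num) (by norm_num) three_pos,
    tm_eq (N := 10) (by norm_num) (by norm_num) three_pos,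
    tm_eq (N := 15) (by norm_num) (by norm_num) three_pos] at r2
  norm_num [kap] at r2
  obtain ⟨h1, h2, h3, h4⟩ := hP
  obtain ⟨ht, hK30, hS, s30, s6, s10, s15⟩ := hW
  have r3 := tl_eq h1 h2 u (Or.inr (Or.inr (Or.inr hK30)))
  have r4 : ∑ i ∈ S, c i * tl 3 (K' i) u = ∑ i ∈ S, c i * bet u (lastProd (K' i)) +
      3 * ∑ i ∈ S, c i * ((if hd1 (K' i) = 3 then kap (K' i).tail u else 0) -
      (if lastProd (K' i) = 30 ∧ (hd1 (K' i) = 3 ∨ hd2 (K' i) = 3) then ct 10 (3 * u) else 0)) := by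
    rw [mul_sum, ← sum_add_distrib]
    refine sum_congr rfl fun i hi => ?_
    rw [tl_eq (h3 i hi).1 (h3 i hi).2.1 u (hS i hi)]
    ring
  have r5 : ∑ i ∈ S, c i * bet u (lastProd (K' i)) =
      (∑ i ∈ S with lastProd (K' i) = 30, c i) * bet u 30 +
      (∑ i ∈ S with lastProd (K' i) = 6, c i) * bet u 6 +
      (∑ i ∈ S with lastProd (K' i) = 10, c i) * bet u 10 +
      (∑ i ∈ S with lastProd (K' i) = 15, c i) * bet u 15 := by
    rw [sum_filter, sum_filter, sum_filter, sum_filter, sum_mul, sum_mul, sum_mul, sum_mul,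
      ← sum_add_distrib, ← sum_add_distrib, ← sum_add_distrib]
    refine sum_congr rfl fun i hi => ?_
    rcases hS i hi with h | h | h | h <;> rw [h] <;> norm_num
  rw [s30, s6, s10, s15] at r5
  have b30 : bet u 30 = ct 30 (3 * u) := by simp [bet]
  have b6 : bet u 6 = ct 6 (3 * u) - 3 * ct 2 (3 * u) := by simp [bet]
  have b10 : bet u 10 = ct 10 (3 * u) := by simp [bet]
  have b15 : bet u 15 = ct 15 (3 * u) - 3 * ct 5 (3 * u) := by simp [bet]
  have r6 : bet u 30 = bet u 6 + bet u 10 + bet u 15 := by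
    rw [b30, b6, b10, b15]
    linarith
  have r7 : ∑ i ∈ S, c i * bet u (lastProd (K' i)) = bet u 30 := by
    rw [r5, r6]
    ring
  rw [r3, r4, r7, hK30] at r1
  simp only [true_and] at r1
  linarith

end Pool.Agent.H80.IR.E3R
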