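import Pool.Agent.H80.IR.Stm3
import Pool.Agent.H80.IR.T.E5
set_option autoImplicit false

/-!
# E5R: relations with many terms at the frequencies `5 u` (helper67)
-/

namespace Pool.Agent.H80.IR.E5R

open Pool.Agent.H80.Sig Finset
open Pool.Agent.H80.IR.E5 (tm tm_eq rel known known_lev pr6 pr10 pr15 ne_of ct_six)

lemma ft_rel {ι : Type} {S : Finset ι} {K : List (ℕ × ℕ)} {K' : ι → List (ℕ × ℕ)} {c : ι → ℝ}
    (h : ∀ x : ℝ, (JK K x : ℝ) = ∑ i ∈ S, c i * (JK (K' i) x : ℝ)) (M n : ℕ) :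
    Ft M (JK K) n = ∑ i ∈ S, (c i : ℂ) * Ft M (JK (K' i)) n := by
  unfold Ft
  simp only [mul_sum]
  rw [sum_comm]
  refine sum_congr rfl fun k _ => ?_
  have h1 : ((JK K ((k : ℝ) / M) : ℤ) : ℂ) = ∑ i ∈ S, (c i : ℂ) * (JK (K' i) ((k : ℝ) / M) : ℂ) := by
    have h2 := h ((k : ℝ) / M)
    exact_mod_cast congrArg (fun r : ℝ => (r : ℂ)) h2
  rw [h1, sum_mul]
  exact sum_congr rfl fun i _ => by ring

/-- the real relation between the Fourier coefficients -/
lemma tm_rel (hFL : S_FL) {ι : Type} {S : Finset ι} {K : List (ℕ × ℕ)} {K' : ι → List (ℕ × ℕ)}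
    {c : ι → ℝ} (hR : PosRel S K K' c) {M l u : ℕ} (hl : l.Prime) (hM : 0 < M) (hK : lev K ∣ M)
    (hK' : ∀ i ∈ S, lev (K' i) ∣ M) (hu : u.Coprime M) :
    tm l (hd1 K) (hd2 K) K.tail u =
      ∑ i ∈ S, c i * tm l (hd1 (K' i)) (hd2 (K' i)) (K' i).tail u := by
  obtain ⟨hne, hV, hS, hx⟩ := hR
  have key := ft_rel hx M (l * u)
  have hF : ∀ X : List (ℕ × ℕ), X ≠ [] → Valid X → lev X ∣ M →
      Ft M (JK X) (l * u) = Complex.I * ((tm l (hd1 X) (hd2 X) X.tail u : ℝ) : ℂ) := by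
    intro X hX hVX hlX
    rw [list_eq hX] at hVX hlX
    have h1 := hFL (hd1 X) (hd2 X) l M X.tail hVX hl hM hlX u hu
    rw [← list_eq hX] at h1
    rw [h1]
    rfl
  rw [hF K hne hV hK] at key
  have h2 : ∑ i ∈ S, (c i : ℂ) * Ft M (JK (K' i)) (l * u) =
      Complex.I * ((∑ i ∈ S, c i * tm l (hd1 (K' i)) (hd2 (K' i)) (K' i).tail u : ℝ) : ℂ) := by
    push_cast
    rw [mul_sum]
    refine sum_congr rfl fun i hi => ?_
    rw [hF (K' i) (hS i hi).1 (hS i hi).2.1 (hK' i hi)]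
    ring
  rw [h2] at key
  exact_mod_cast mul_left_cancel₀ Complex.I_ne_zero key

/-- the part of the coefficient which depends on the last product only -/
noncomputable def bb (u N : ℕ) : ℝ :=
  if N = 30 then ct 30 (5 * u) else if N = 6 then ct 6 (5 * u) else
    if N = 10 then ct 10 (5 * u) - 5 * ct 2 (5 * u) else ct 15 (5 * u) - 5 * ct 3 (5 * u)

lemma tm_bb {X : List (ℕ × ℕ)} (hX : X ≠ []) (hV : Valid X)
    (h : lastProd X = 6 ∨ lastProd X = 10 ∨ lastProd X = 15 ∨ lastProd X = 30) {u : ℕ}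
    (hu : u.Coprime 6) :
    tm 5 (hd1 X) (hd2 X) X.tail u = bb u (lastProd X) +
      5 * ((if hd1 X = 5 then kap X.tail u else 0) +
        (if lastProd X = 30 ∧ (hd1 X = 5 ∨ hd2 X = 5) then ct 6 u else 0)) := by
  have hp := head_prop hX hV
  have hne : hd1 X ≠ hd2 X := by
    have h1 := hV
    rw [list_eq hX] at h1
    exact ne_of h1
  have hlp := lastProd_eq hX
  have w1 : (if hd1 X = 5 then 5 * kap X.tail u else 0) =
      5 * (if hd1 X = 5 then kap X.tail u else 0) := by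
    split_ifs <;> ring
  rcases h with h | h | h | h
  · rw [h] at hlp
    rw [tm_eq hlp.symm hne (by norm_num), h]
    have k2 : ¬ (hd1 X = 5 ∨ hd2 X = 5) := by
      rcases pr6 hlp.symm hp.2.1 hp.2.2 with h | h <;> omega
    rw [if_neg k2]
    push_cast
    rw [w1]
    norm_num [bb]
  · rw [h] at hlp
    rw [tm_eq hlp.symm hne (by norm_num), h]
    have k2 : hd1 X = 5 ∨ hd2 X = 5 := by
      rcases pr10 hlp.symm hp.2.1 hp.2.2 with h | h <;> omega
    rw [if_pos k2]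
    push_cast
    rw [w1]
    norm_num [bb]
  · rw [h] at hlp
    rw [tm_eq hlp.symm hne (by norm_num), h]
    have k2 : hd1 X = 5 ∨ hd2 X = 5 := by
      rcases pr15 hlp.symm hp.2.1 hp.2.2 with h | h <;> omega
    rw [if_pos k2]
    push_cast
    rw [w1]
    norm_num [bb]
  · rw [h] at hlp
    rw [tm_eq hlp.symm hne (by norm_num), h]
    push_cast
    rw [w1]
    have w4 : (if hd1 X = 5 ∨ hd2 X = 5 then 5 * ct (30 / 5) (5 * u) else 0) =
        - 5 * (if (30 : ℕ) = 30 ∧ (hd1 X = 5 ∨ hd2 X = 5) then ct 6 u else 0) := by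
      have e : ct (30 / 5) (5 * u) = - ct 6 u := by
        rw [← ct_six hu]
      rw [e]
      by_cases k : hd1 X = 5 ∨ hd2 X = 5
      · rw [if_pos k, if_pos ⟨rfl, k⟩]; ring
      · rw [if_neg k, if_neg (fun h => k h.2)]; ring
    rw [w4]
    have e2 : bb u 30 = ct 30 (5 * u) := by simp [bb]
    rw [e2]
    ring

theorem main : S_FL → S_EXJ → S_E5R := by
  intro hFL hX ι S K K' c t M hR hW hM h900 hK hK' u hu
  have hu6 : u.Coprime 6 :=
    Nat.Coprime.coprime_dvd_right ((by norm_num : 6 ∣ 900).trans h900) hu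
  have r1 := tm_rel hFL hR Nat.prime_five hM hK hK' hu
  have r2 := rel hFL (l := 5) Nat.prime_five (known hX) (known_lev hM h900) hu
  rw [tm_eq (N := 30) (by norm_num) (by norm_num) (by norm_num),
    tm_eq (N := 6) (by norm_num) (by norm_num) (by norm_num),
    tm_eq (N := 10) (by norm_num) (by norm_num) (by norm_num),
    tm_eq (N := 15) (by norm_num) (by norm_num) (by norm_num)] at r2
  norm_num [kap] at r2
  rw [ct_six hu6] at r2
  obtain ⟨hne, hV, hS, -⟩ := hR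
  obtain ⟨ht, hK30, hl, s30, s6, s10, s15⟩ := hW
  rw [tm_bb hne hV (by rw [hK30]; norm_num) hu6] at r1
  have r3 : ∑ i ∈ S, c i * tm 5 (hd1 (K' i)) (hd2 (K' i)) (K' i).tail u =
      ((∑ i ∈ S with lastProd (K' i) = 30, c i) * ct 30 (5 * u) +
        (∑ i ∈ S with lastProd (K' i) = 6, c i) * ct 6 (5 * u) +
        (∑ i ∈ S with lastProd (K' i) = 10, c i) * (ct 10 (5 * u) - 5 * ct 2 (5 * u)) +
        (∑ i ∈ S with lastProd (K' i) = 15, c i) * (ct 15 (5 * u) - 5 * ct 3 (5 * u))) +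
      5 * ∑ i ∈ S, c i * ((if hd1 (K' i) = 5 then kap (K' i).tail u else 0) +
        (if lastProd (K' i) = 30 ∧ (hd1 (K' i) = 5 ∨ hd2 (K' i) = 5) then ct 6 u else 0)) := by
    rw [sum_filter, sum_filter, sum_filter, sum_filter, sum_mul, sum_mul, sum_mul, sum_mul,
      mul_sum, ← sum_add_distrib, ← sum_add_distrib, ← sum_add_distrib, ← sum_add_distrib]
    refine sum_congr rfl fun i hi => ?_
    rw [tm_bb (hS i hi).1 (hS i hi).2.1 (hl i hi) hu6, mul_add]
    have e : c i * bb u (lastProd (K' i)) =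
        (if lastProd (K' i) = 30 then c i else 0) * ct 30 (5 * u) +
        (if lastProd (K' i) = 6 then c i else 0) * ct 6 (5 * u) +
        (if lastProd (K' i) = 10 then c i else 0) * (ct 10 (5 * u) - 5 * ct 2 (5 * u)) +
        (if lastProd (K' i) = 15 then c i else 0) * (ct 15 (5 * u) - 5 * ct 3 (5 * u)) := by
      rcases hl i hi with h | h | h | h <;> rw [h] <;> norm_num [bb]
    rw [e]
    ring
  rw [r3, s30, s6, s10, s15, hK30] at r1
  have e30 : bb u 30 = ct 30 (5 * u) := by simp [bb]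
  rw [e30] at r1
  have e0 : (if (30 : ℕ) = 30 ∧ (hd1 K = 5 ∨ hd2 K = 5) then ct 6 u else 0) =
      if hd1 K = 5 ∨ hd2 K = 5 then ct 6 u else 0 := by
    simp
  rw [e0] at r1
  have e6 := ct_six hu6
  rw [e6] at r1
  have key : t * (ct 30 (5 * u)) = t * (- ct 6 u + (ct 10 (5 * u) - 5 * ct 2 (5 * u)) +
      (ct 15 (5 * u) - 5 * ct 3 (5 * u))) := by
    congr 1
    linarith
  linarith

end Pool.Agent.H80.IR.E5R
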