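import Pool.Agent.H80.IR.Stm2

set_option autoImplicit false

namespace Pool.Agent.H80.IR.EXT

open Pool.Agent.H80.Sig Finset

theorem kap_rel {ι : Type} (S : Finset ι) (K : List (ℕ × ℕ)) (K' : ι → List (ℕ × ℕ)) (c : ι → ℝ) {M : ℕ} (hM : 0 < M)
    (hK : Valid K) (hKM : lev K ∣ M) (hK' : ∀ i ∈ S, Valid (K' i) ∧ lev (K' i) ∣ M)
    (hx : ∀ x : ℝ, (JK K x : ℝ) = ∑ i ∈ S, c i * (JK (K' i) x : ℝ)) {u : ℕ} (hu : u.Coprime M) :
    kap K u = ∑ i ∈ S, c i * kap (K' i) u := by
  have hR : JRel (Finset.insertNone S) (fun o : Option ι => o.elim (1 : ℝ) fun i => -c i)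
      (fun o : Option ι => o.elim K K') := by
    intro x
    rw [Finset.sum_insertNone]
    simp only [Option.elim_none, Option.elim_some]
    rw [hx x, one_mul, ← Finset.sum_add_distrib]
    refine Finset.sum_eq_zero fun i _ => ?_
    ring
  have h1 := hR.ft M u
  rw [Finset.sum_insertNone] at h1
  simp only [Option.elim_none, Option.elim_some] at h1
  rw [Ft_JK_unit hK hM hKM hu] at h1
  have h2 : ∑ i ∈ S, ((-c i : ℝ) : ℂ) * Ft M (JK (K' i)) u =
      -(Complex.I * ((∑ i ∈ S, c i * kap (K' i) u : ℝ) : ℂ)) := by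
    push_cast
    rw [Finset.mul_sum, ← Finset.sum_neg_distrib]
    refine Finset.sum_congr rfl fun i hi => ?_
    rw [Ft_JK_unit (hK' i hi).1 hM (hK' i hi).2 hu]
    ring
  rw [h2] at h1
  have h3 : Complex.I * ((kap K u : ℂ) - ((∑ i ∈ S, c i * kap (K' i) u : ℝ) : ℂ)) = 0 := by
    rw [← h1]; push_cast; ring
  rcases mul_eq_zero.1 h3 with h4 | h4
  · exact absurd h4 Complex.I_ne_zero
  · have h5 := sub_eq_zero.1 h4
    exact_mod_cast h5

theorem main (hk : S_KLP) (hh : S_HEADS) (ha : S_ALL) : S_EXT := by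
  have key : ∀ (n : ℕ) (ι : Type) (S : Finset ι) (K : List (ℕ × ℕ)) (K' : ι → List (ℕ × ℕ))
      (c : ι → ℝ), K.length ≤ n → K ≠ [] → Valid K → (∀ i ∈ S, K' i ≠ [] ∧ Valid (K' i) ∧ 0 < c i) →
      ∑ i ∈ S, c i ≤ 1 → (∀ x : ℝ, (JK K x : ℝ) = ∑ i ∈ S, c i * (JK (K' i) x : ℝ)) →
      ∀ i ∈ S, Same K (K' i) := by
    intro n
    induction n with
    | zero =>
      intro ι S K K' c hn hne
      exact absurd (List.length_eq_zero_iff.1 (Nat.le_zero.1 hn)) hne
    | succ n ih =>
      intro ι S K K' c hn hne hK hK' hc hx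
      set M := lev K * ∏ i ∈ S, lev (K' i) with hM
      have hM0 : 0 < M := Nat.mul_pos (lev_pos hK) (Finset.prod_pos fun i hi => lev_pos (hK' i hi).2.1)
      have hd : lev K ∣ M := Dvd.intro _ rfl
      have hd' : ∀ i ∈ S, lev (K' i) ∣ M := fun i hi =>
        (Finset.dvd_prod_of_mem (fun i => lev (K' i)) hi).trans (Dvd.intro_left _ rfl)
      have h1 := hk ι S K K' c M hM0 hne hK hd (fun i hi => ⟨(hK' i hi).1, (hK' i hi).2.1, hd' i hi, (hK' i hi).2.2⟩) hc
        (fun u hu => kap_rel S K K' c hM0 hK hd (fun i hi => ⟨(hK' i hi).2.1, hd' i hi⟩) hx hu)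
      have h2 := hh ι S K K' c hne hK hK' h1.1 h1.2 hx
      rcases ha ι S K K' c hne hK hK' h1.2 hx h2 with ⟨h3, h4⟩ | ⟨h3, h4, h5⟩
      · intro i hi
        have e1 := list_eq hne
        have e2 := list_eq (hK' i hi).1
        rw [h3] at e1
        rw [h4 i hi] at e2
        rcases h2 i hi with ⟨g1, g2⟩ | ⟨g1, g2⟩
        · left
          rw [e1, e2, g1, g2]
        · right
          refine ⟨[], hd1 K, hd2 K, e1, ?_⟩
          rw [e2, g1, g2]; rfl
      · have e1 := list_eq hne
        have hV : Valid K.tail := by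
          rw [e1] at hK
          exact hK.tail
        have hlen : K.tail.length ≤ n := by
          rw [List.length_tail]; omega
        have hV' : ∀ i ∈ S, Valid (K' i).tail := by
          intro i hi
          have e2 := list_eq (hK' i hi).1
          have := (hK' i hi).2.1
          rw [e2] at this
          exact this.tail
        have h6 := ih ι S K.tail (fun i => (K' i).tail) c hlen h3 hV
          (fun i hi => ⟨(h4 i hi).2.2, hV' i hi, (hK' i hi).2.2⟩) hc h5
        intro i hi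
        have e2 := list_eq (hK' i hi).1
        rw [(h4 i hi).1, (h4 i hi).2.1] at e2
        rw [e1, e2]
        exact (h6 i hi).cons _
  intro ι S K K' c
  exact key K.length ι S K K' c le_rfl

end Pool.Agent.H80.IR.EXT
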