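import Pool.Agent.H80.IR.Stm2
set_option autoImplicit false

/-!
# IR-HEADS (helper1): all the last pairs agree
-/

namespace Pool.Agent.H80.IR.HEADS

open Pool.Agent.H80.Sig Finset Pool.Agent.H80.IR

/-- `star` for the relation `K = ∑ c K'` -/
lemma star' {ι : Type} {S : Finset ι} {K : List (ℕ × ℕ)} {K' : ι → List (ℕ × ℕ)} {c : ι → ℝ}
    (hKne : K ≠ []) (hKV : Valid K) (hK' : ∀ i ∈ S, K' i ≠ [] ∧ Valid (K' i) ∧ 0 < c i)
    (hsum : ∑ i ∈ S, c i = 1)
    (hR : ∀ x : ℝ, (JK K x : ℝ) = ∑ i ∈ S, c i * (JK (K' i) x : ℝ))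
    {d f M : ℕ} (hM : 0 < M) (hlK : lev K ∣ M) (hl : ∀ i ∈ S, lev (K' i) ∣ M) (hd : 2 ≤ d)
    (hNK : hd1 K * hd2 K = d * f) (hN : ∀ i ∈ S, hd1 (K' i) * hd2 (K' i) = d * f)
    (hPK : hd1 K ∣ d → hd1 K = d) (hQK : hd2 K ∣ d → hd2 K = d)
    (hP : ∀ i ∈ S, hd1 (K' i) ∣ d → hd1 (K' i) = d)
    (hQ : ∀ i ∈ S, hd2 (K' i) ∣ d → hd2 (K' i) = d) {u : ℕ} (hu : u.Coprime M) :
    ((if hd1 K = d ∨ hd2 K = d then (1 : ℝ) else 0) -
      ∑ i ∈ S with hd1 (K' i) = d ∨ hd2 (K' i) = d, c i) * ct f (d * u) =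
      (if hd1 K = d then kap K.tail u else 0) -
        ∑ i ∈ S with hd1 (K' i) = d, c i * kap (K' i).tail u := by
  classical
  let Kf : Option ι → List (ℕ × ℕ) := fun o => o.elim K K'
  let a : Option ι → ℝ := fun o => o.elim 1 (fun i => - c i)
  have hJ : JRel (insertNone S) a Kf := by
    intro x
    rw [Finset.sum_insertNone]
    show 1 * (JK K x : ℝ) + ∑ i ∈ S, (- c i) * (JK (K' i) x : ℝ) = 0
    rw [hR x, one_mul, ← sum_add_distrib]
    exact sum_eq_zero fun i _ => by ring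
  have hall : ∀ (p : Option ι → Prop), p none → (∀ i ∈ S, p (some i)) →
      ∀ o ∈ insertNone S, p o := by
    intro p h0 h1 o ho
    rcases o with _ | i
    · exact h0
    · exact h1 i (Finset.some_mem_insertNone.1 ho)
  have h := star (S := insertNone S) (a := a) (K := Kf) hJ
    (hall (fun o => Kf o ≠ [] ∧ Valid (Kf o)) ⟨hKne, hKV⟩
      (fun i hi => ⟨(hK' i hi).1, (hK' i hi).2.1⟩)) hM
    (hall (fun o => lev (Kf o) ∣ M) hlK hl) hd
    (hall (fun o => hd1 (Kf o) * hd2 (Kf o) = d * f) hNK hN)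
    (by
      rw [Finset.sum_insertNone]
      show 1 + ∑ i ∈ S, - c i = 0
      rw [sum_neg_distrib, hsum]; ring)
    (hall (fun o => hd1 (Kf o) ∣ d → hd1 (Kf o) = d) hPK hP)
    (hall (fun o => hd2 (Kf o) ∣ d → hd2 (Kf o) = d) hQK hQ) hu
  rw [sum_filter, sum_filter, Finset.sum_insertNone, Finset.sum_insertNone] at h
  have e1 : ∑ i ∈ S, (if hd1 (K' i) = d ∨ hd2 (K' i) = d then - c i else 0) =
      - ∑ i ∈ S with hd1 (K' i) = d ∨ hd2 (K' i) = d, c i := by
    rw [sum_filter, ← sum_neg_distrib]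
    refine sum_congr rfl fun i _ => ?_
    split_ifs <;> simp
  have e2 : ∑ i ∈ S, (if hd1 (K' i) = d then (- c i) * kap (K' i).tail u else 0) =
      - ∑ i ∈ S with hd1 (K' i) = d, c i * kap (K' i).tail u := by
    rw [sum_filter, ← sum_neg_distrib]
    refine sum_congr rfl fun i _ => ?_
    split_ifs <;> simp
  change ((if hd1 K = d ∨ hd2 K = d then (1 : ℝ) else 0) +
    ∑ i ∈ S, (if hd1 (K' i) = d ∨ hd2 (K' i) = d then - c i else 0)) * ct f (d * u) =
    (if hd1 K = d then 1 * kap K.tail u else 0) +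
      ∑ i ∈ S, (if hd1 (K' i) = d then (- c i) * kap (K' i).tail u else 0) at h
  rw [e1, e2, one_mul] at h
  rw [sub_eq_add_neg, sub_eq_add_neg]
  exact h

lemma split_pair {p q d f : ℕ} (hd : 0 < d) (h : p * q = d * f) (h2 : p = d ∨ q = d) :
    (p = d ∧ q = f) ∨ (p = f ∧ q = d) := by
  rcases h2 with rfl | rfl
  · exact Or.inl ⟨rfl, Nat.eq_of_mul_eq_mul_left hd h⟩
  · right
    rw [mul_comm] at h
    exact ⟨Nat.eq_of_mul_eq_mul_left hd h, rfl⟩

lemma of_min {p q : ℕ} (hc : p.Coprime q) (hp : 2 ≤ p) (hq : 2 ≤ q) :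
    ∃ d f, d = min p q ∧ (p = d ∨ q = d) ∧ d * f = p * q ∧ d.Coprime f ∧ 2 ≤ d ∧ d < f := by
  have hne : p ≠ q := by
    rintro rfl
    rw [Nat.coprime_self] at hc
    omega
  refine ⟨min p q, max p q, rfl, ?_, min_mul_max p q, ?_, le_min hp hq, ?_⟩
  · rcases le_total p q with h | h
    · left; rw [min_eq_left h]
    · right; rw [min_eq_right h]
  · rcases le_total p q with h | h
    · rw [min_eq_left h, max_eq_right h]; exact hc
    · rw [min_eq_right h, max_eq_left h]; exact hc.symm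
  · rcases lt_or_gt_of_ne hne with h | h
    · rw [min_eq_left h.le, max_eq_right h.le]; exact h
    · rw [min_eq_right h.le, max_eq_left h.le]; exact h

lemma kap_ct (L : List (ℕ × ℕ)) (hL : L ≠ []) (u : ℕ) : kap L u = ct (hd1 L * hd2 L) u := by
  rcases L with _ | ⟨⟨p, q⟩, L⟩
  · exact absurd rfl hL
  · rfl

theorem main (hRR : S_RR) : S_HEADS := by
  classical
  intro ι S K K' c hKne hKV hK' hlast hsum hR
  obtain ⟨N, hNdef⟩ : ∃ N, N = hd1 K * hd2 K := ⟨_, rfl⟩
  have hN : ∀ i ∈ S, hd1 (K' i) * hd2 (K' i) = N := by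
    intro i hi
    rw [← lastProd_eq (hK' i hi).1, hlast i hi, lastProd_eq hKne, hNdef]
  have hhK := head_prop hKne hKV
  have hhd : ∀ i ∈ S, Nat.Coprime (hd1 (K' i)) (hd2 (K' i)) ∧ 2 ≤ hd1 (K' i) ∧
      2 ≤ hd2 (K' i) := fun i hi => head_prop (hK' i hi).1 (hK' i hi).2.1
  obtain ⟨M, hM⟩ : ∃ M, M = lev K * ∏ i ∈ S, lev (K' i) := ⟨_, rfl⟩
  have hM0 : 0 < M := hM ▸ Nat.mul_pos (lev_pos hKV)
    (prod_pos fun i hi => lev_pos (hK' i hi).2.1)
  have hlK : lev K ∣ M := hM ▸ Dvd.intro _ rfl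
  have hl : ∀ i ∈ S, lev (K' i) ∣ M := fun i hi =>
    hM ▸ (dvd_prod_of_mem (fun i => lev (K' i)) hi).trans (Dvd.intro_left _ rfl)
  have hNM : N ∣ M := by rw [hNdef]; exact (lev_cons_dvd hKne).1.trans hlK
  have hlt : ∀ i ∈ S, lev (K' i).tail ∣ M := fun i hi =>
    (lev_cons_dvd (hK' i hi).1).2.trans (hl i hi)
  have hltK : lev K.tail ∣ M := (lev_cons_dvd hKne).2.trans hlK
  have hVt : ∀ i ∈ S, Valid (K' i).tail := fun i hi => tail_valid (hK' i hi).1 (hK' i hi).2.1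
  -- the least number of all the pairs
  obtain ⟨d, f, hdf, hcop, hd2', hdlt, hminK, hmin, hatt⟩ : ∃ d f, d * f = N ∧ d.Coprime f ∧
      2 ≤ d ∧ d < f ∧ (d ≤ hd1 K ∧ d ≤ hd2 K) ∧
      (∀ i ∈ S, d ≤ hd1 (K' i) ∧ d ≤ hd2 (K' i)) ∧
      ((hd1 K = d ∨ hd2 K = d) ∨ ∃ i ∈ S, hd1 (K' i) = d ∨ hd2 (K' i) = d) := by
    obtain ⟨o, ho, hmin⟩ := Finset.exists_min_image (insertNone S)
      (fun o : Option ι => min (hd1 (o.elim K K')) (hd2 (o.elim K K')))
      ⟨none, Finset.none_mem_insertNone⟩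
    have hmK := hmin none Finset.none_mem_insertNone
    have hmS := fun i (hi : i ∈ S) => hmin (some i) (Finset.some_mem_insertNone.2 hi)
    rcases o with _ | j
    · obtain ⟨d, f, h1, h2, h3, h4, h5, h6⟩ := of_min hhK.1 hhK.2.1 hhK.2.2
      refine ⟨d, f, h3.trans hNdef.symm, h4, h5, h6, ?_, ?_, Or.inl h2⟩
      · rw [h1]; exact ⟨min_le_left _ _, min_le_right _ _⟩
      · intro i hi
        have h7 : min (hd1 K) (hd2 K) ≤ min (hd1 (K' i)) (hd2 (K' i)) := hmS i hi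
        rw [← h1] at h7
        exact ⟨h7.trans (min_le_left _ _), h7.trans (min_le_right _ _)⟩
    · have hj : j ∈ S := Finset.some_mem_insertNone.1 ho
      obtain ⟨d, f, h1, h2, h3, h4, h5, h6⟩ := of_min (hhd j hj).1 (hhd j hj).2.1 (hhd j hj).2.2
      refine ⟨d, f, h3.trans (hN j hj), h4, h5, h6, ?_, ?_, Or.inr ⟨j, hj, h2⟩⟩
      · have h7 : min (hd1 (K' j)) (hd2 (K' j)) ≤ min (hd1 K) (hd2 K) := hmK
        rw [← h1] at h7
        exact ⟨h7.trans (min_le_left _ _), h7.trans (min_le_right _ _)⟩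
      · intro i hi
        have h7 : min (hd1 (K' j)) (hd2 (K' j)) ≤ min (hd1 (K' i)) (hd2 (K' i)) := hmS i hi
        rw [← h1] at h7
        exact ⟨h7.trans (min_le_left _ _), h7.trans (min_le_right _ _)⟩
  have hd0 : 0 < d := by omega
  have hf0 : 0 < f := by omega
  have hfM : f ∣ M := (Dvd.intro_left d hdf).trans hNM
  have hNK' : hd1 K * hd2 K = d * f := hNdef.symm.trans hdf.symm
  have hN' : ∀ i ∈ S, hd1 (K' i) * hd2 (K' i) = d * f := fun i hi => (hN i hi).trans hdf.symm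
  -- the relation at `d u`
  have star_d := fun (u : ℕ) (hu : u.Coprime M) =>
    star' hKne hKV hK' hsum hR (d := d) (f := f) hM0 hlK hl hd2' hNK' hN'
      (fun h => le_antisymm (Nat.le_of_dvd hd0 h) hminK.1)
      (fun h => le_antisymm (Nat.le_of_dvd hd0 h) hminK.2)
      (fun i hi h => le_antisymm (Nat.le_of_dvd hd0 h) (hmin i hi).1)
      (fun i hi h => le_antisymm (Nat.le_of_dvd hd0 h) (hmin i hi).2) hu
  by_cases hPK : hd1 K = d ∨ hd2 K = d
  swap
  · -- (a)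
    exfalso
    have hK1 : hd1 K ≠ d := fun h => hPK (Or.inl h)
    obtain ⟨j, hj, hjP⟩ := hatt.resolve_left hPK
    refine ss_pos (T := S.filter fun i => hd1 (K' i) = d) (b := c) (L := fun i => (K' i).tail)
      (A := ∑ i ∈ S with hd1 (K' i) = d ∨ hd2 (K' i) = d, c i) (d := d) (f := f) hM0 hfM
      (fun i hi => hVt i (mem_filter.1 hi).1) (fun i hi => hlt i (mem_filter.1 hi).1)
      (sum_pos (fun i hi => (hK' i (mem_filter.1 hi).1).2.2) ⟨j, mem_filter.2 ⟨hj, hjP⟩⟩)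
      (fun i hi => (hK' i (mem_filter.1 hi).1).2.2.le) (by omega) hdlt hcop ?_
    intro u hu
    have h := star_d u hu
    rw [if_neg hPK, if_neg hK1, zero_sub, zero_sub, neg_mul, neg_inj] at h
    exact h
  have hKsp := split_pair hd0 hNK' hPK
  by_cases hall : ∀ i ∈ S, hd1 (K' i) = d ∨ hd2 (K' i) = d
  · intro i hi
    rcases hKsp with h1 | h1 <;> rcases split_pair hd0 (hN' i hi) (hall i hi) with h2 | h2
    · left; rw [h1.1, h1.2, h2.1, h2.2]; exact ⟨rfl, rfl⟩
    · right; rw [h1.1, h1.2, h2.1, h2.2]; exact ⟨rfl, rfl⟩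
    · right; rw [h1.1, h1.2, h2.1, h2.2]; exact ⟨rfl, rfl⟩
    · left; rw [h1.1, h1.2, h2.1, h2.2]; exact ⟨rfl, rfl⟩
  exfalso
  -- (b)
  set Q := S.filter (fun i => ¬ (hd1 (K' i) = d ∨ hd2 (K' i) = d)) with hQ
  have hQne : Q.Nonempty := by
    by_contra h
    rw [Finset.not_nonempty_iff_eq_empty, hQ, filter_eq_empty_iff] at h
    exact hall fun i hi => not_not.1 (h hi)
  obtain ⟨A, hA⟩ : ∃ A : ℝ, A = 1 - ∑ i ∈ S with hd1 (K' i) = d ∨ hd2 (K' i) = d, c i :=
    ⟨_, rfl⟩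
  have hA' : A = ∑ i ∈ Q, c i := by
    have h := sum_filter_add_sum_filter_not S (fun i => hd1 (K' i) = d ∨ hd2 (K' i) = d) c
    rw [hA, ← hsum, ← h, hQ]
    ring
  have hA0 : 0 < A := by
    rw [hA']
    exact sum_pos (fun i hi => (hK' i (mem_filter.1 hi).1).2.2) hQne
  have rel : ∀ u : ℕ, u.Coprime M → A * ct f (d * u) =
      (if hd1 K = d then kap K.tail u else 0) -
        ∑ i ∈ S with hd1 (K' i) = d, c i * kap (K' i).tail u := by
    intro u hu
    have h := star_d u hu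
    rw [if_pos hPK, ← hA] at h
    exact h
  -- the second pair
  obtain ⟨k, hkQ, hmink⟩ := Finset.exists_min_image Q
    (fun i => min (hd1 (K' i)) (hd2 (K' i))) hQne
  have hk : k ∈ S := (mem_filter.1 hkQ).1
  have hknot := (mem_filter.1 hkQ).2
  obtain ⟨d₂, f₂, h1, hP₂, h3, hc₂, h5, hlt2⟩ :=
    of_min (hhd k hk).1 (hhd k hk).2.1 (hhd k hk).2.2
  have hdf₂ : d₂ * f₂ = N := h3.trans (hN k hk)
  have hminQ : ∀ i ∈ Q, d₂ ≤ hd1 (K' i) ∧ d₂ ≤ hd2 (K' i) := by
    intro i hi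
    have h7 : min (hd1 (K' k)) (hd2 (K' k)) ≤ min (hd1 (K' i)) (hd2 (K' i)) := hmink i hi
    rw [← h1] at h7
    exact ⟨h7.trans (min_le_left _ _), h7.trans (min_le_right _ _)⟩
  have hlt1 : d < d₂ := by
    have h7 := hmin k hk
    have h8 : hd1 (K' k) ≠ d := fun h => hknot (Or.inl h)
    have h9 : hd2 (K' k) ≠ d := fun h => hknot (Or.inr h)
    rw [h1, lt_min_iff]
    omega
  have hlt3 : f₂ < f := by
    by_contra hcon
    push Not at hcon
    have : d * f < d₂ * f₂ := by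
      calc d * f < d₂ * f := Nat.mul_lt_mul_of_pos_right hlt1 hf0
        _ ≤ d₂ * f₂ := Nat.mul_le_mul_left _ hcon
    omega
  by_cases hKc : hd1 K = d ∧ K.tail ≠ []
  swap
  · -- nothing on the right hand side from `K`
    refine ss_neg (T := S.filter fun i => hd1 (K' i) = d) (b := fun i => - c i)
      (L := fun i => (K' i).tail) (A := A) (d := d) (f := f) hM0 hfM
      (fun i hi => hVt i (mem_filter.1 hi).1) (fun i hi => hlt i (mem_filter.1 hi).1) hA0
      (fun i hi => by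
        have := (hK' i (mem_filter.1 hi).1).2.2
        linarith) (by omega) (by omega) hcop ?_
    intro u hu
    rw [rel u hu]
    have h7 : (if hd1 K = d then kap K.tail u else 0) = 0 := by
      by_cases h8 : hd1 K = d
      · have h9 : K.tail = [] := by
          by_contra h9
          exact hKc ⟨h8, h9⟩
        rw [if_pos h8, h9]
        rfl
      · rw [if_neg h8]
    rw [h7, zero_sub, ← sum_neg_distrib]
    exact sum_congr rfl fun i _ => by ring
  obtain ⟨hKd, hKt⟩ := hKc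
  have hKf : hd2 K = f := by
    rcases hKsp with h | h
    · exact h.2
    · have h7 : d = f := hKd.symm.trans h.1
      omega
  by_cases hdd : d ∣ d₂
  swap
  · -- the relation at `d₂ u`
    have hPd₂ : ∀ i ∈ S, hd1 (K' i) ∣ d₂ → hd1 (K' i) = d₂ := by
      intro i hi h
      by_cases hP : hd1 (K' i) = d ∨ hd2 (K' i) = d
      · rcases split_pair hd0 (hN' i hi) hP with h7 | h7
        · rw [h7.1] at h; exact absurd h hdd
        · rw [h7.1] at h
          have := Nat.le_of_dvd (by omega) h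
          omega
      · exact le_antisymm (Nat.le_of_dvd (by omega) h) (hminQ i (mem_filter.2 ⟨hi, hP⟩)).1
    have hQd₂ : ∀ i ∈ S, hd2 (K' i) ∣ d₂ → hd2 (K' i) = d₂ := by
      intro i hi h
      by_cases hP : hd1 (K' i) = d ∨ hd2 (K' i) = d
      · rcases split_pair hd0 (hN' i hi) hP with h7 | h7
        · rw [h7.2] at h
          have := Nat.le_of_dvd (by omega) h
          omega
        · rw [h7.2] at h; exact absurd h hdd
      · exact le_antisymm (Nat.le_of_dvd (by omega) h) (hminQ i (mem_filter.2 ⟨hi, hP⟩)).2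
    have star₂ := fun (u : ℕ) (hu : u.Coprime M) =>
      star' hKne hKV hK' hsum hR (d := d₂) (f := f₂) hM0 hlK hl h5 (hNdef.symm.trans hdf₂.symm)
        (fun i hi => (hN i hi).trans hdf₂.symm)
        (fun h => by rw [hKd] at h; exact absurd h hdd)
        (fun h => by
          rw [hKf] at h
          have := Nat.le_of_dvd (by omega) h
          omega) hPd₂ hQd₂ hu
    have hn1 : ¬ (hd1 K = d₂ ∨ hd2 K = d₂) := by
      rw [hKd, hKf]; omega
    have hn2 : ¬ hd1 K = d₂ := fun h => hn1 (Or.inl h)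
    refine ss_pos (T := S.filter fun i => hd1 (K' i) = d₂) (b := c) (L := fun i => (K' i).tail)
      (A := ∑ i ∈ S with hd1 (K' i) = d₂ ∨ hd2 (K' i) = d₂, c i) (d := d₂) (f := f₂) hM0
      ((Dvd.intro_left d₂ hdf₂).trans hNM)
      (fun i hi => hVt i (mem_filter.1 hi).1) (fun i hi => hlt i (mem_filter.1 hi).1)
      (sum_pos (fun i hi => (hK' i (mem_filter.1 hi).1).2.2) ⟨k, mem_filter.2 ⟨hk, hP₂⟩⟩)
      (fun i hi => (hK' i (mem_filter.1 hi).1).2.2.le) (by omega) hlt2 hc₂ ?_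
    intro u hu
    have h := star₂ u hu
    rw [if_neg hn1, if_neg hn2, zero_sub, zero_sub, neg_mul, neg_inj] at h
    exact h
  -- `4 d < f`
  have h4 : 4 * d < f := by
    obtain ⟨t, ht⟩ := hdd
    have ht2 : 2 ≤ t := by
      rcases Nat.lt_or_ge t 2 with h | h
      · exfalso
        have : t = 0 ∨ t = 1 := by omega
        rcases this with rfl | rfl
        · omega
        · omega
      · exact h
    have hft : f = t * f₂ := by
      have h1 : d * f = d * (t * f₂) := by rw [hdf, ← hdf₂, ht]; ring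
      exact Nat.eq_of_mul_eq_mul_left hd0 h1
    calc 4 * d = 2 * (d * 2) := by ring
      _ ≤ 2 * (d * t) := Nat.mul_le_mul_left 2 (Nat.mul_le_mul_left d ht2)
      _ = 2 * d₂ := by rw [ht]
      _ < 2 * f₂ := by omega
      _ ≤ t * f₂ := Nat.mul_le_mul_right _ ht2
      _ = f := hft.symm
  -- the tails
  set T := S.filter (fun i => hd1 (K' i) = d ∧ (K' i).tail ≠ []) with hT
  have hTS : ∀ i ∈ T, i ∈ S := fun i hi => (mem_filter.1 hi).1
  have hTt : ∀ i ∈ T, (K' i).tail ≠ [] := fun i hi => (mem_filter.1 hi).2.2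
  have hVtK : Valid K.tail := tail_valid hKne hKV
  have hpK := head_prop hKt hVtK
  refine hRR ι T (fun i => hd1 (K' i).tail * hd2 (K' i).tail) c (hd1 K.tail * hd2 K.tail) d f M A
    hM0 hfM ((lev_cons_dvd hKt).1.trans hltK) ?_ (not_primePow hpK.1 hpK.2.1 hpK.2.2).1 hd2' h4
    hcop hA0 ?_ ?_
  · intro i hi
    have hp := head_prop (hTt i hi) (hVt i (hTS i hi))
    exact ⟨(lev_cons_dvd (hTt i hi)).1.trans (hlt i (hTS i hi)),
      (not_primePow hp.1 hp.2.1 hp.2.2).1, (hK' i (hTS i hi)).2.2⟩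
  · have h7 : ∑ i ∈ T, c i ≤ ∑ i ∈ S with hd1 (K' i) = d ∨ hd2 (K' i) = d, c i := by
      refine sum_le_sum_of_subset_of_nonneg ?_ ?_
      · intro i hi
        have h8 := mem_filter.1 hi
        exact mem_filter.2 ⟨h8.1, Or.inl h8.2.1⟩
      · intro i hi _
        exact (hK' i (mem_filter.1 hi).1).2.2.le
    rw [hA]
    linarith
  · intro u hu
    have h7 := rel u hu
    rw [if_pos hKd] at h7
    have h8 : ∑ i ∈ S with hd1 (K' i) = d, c i * kap (K' i).tail u =
        ∑ i ∈ T, c i * ct (hd1 (K' i).tail * hd2 (K' i).tail) u := by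
      rw [hT, sum_filter, sum_filter]
      refine sum_congr rfl fun i _ => ?_
      by_cases h9 : hd1 (K' i) = d
      · by_cases h10 : (K' i).tail = []
        · rw [if_pos h9, if_neg (by tauto), h10]
          simp [kap]
        · rw [if_pos h9, if_pos ⟨h9, h10⟩, kap_ct _ h10]
      · rw [if_neg h9, if_neg (by tauto)]
    rw [h8] at h7
    rw [← kap_ct _ hKt]
    linarith

end Pool.Agent.H80.IR.HEADS
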