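import Pool.Agent.H80.IR.Stm2
set_option autoImplicit false

/-! # IR-KLP (helper62) -/

namespace Pool.Agent.H80.IR.KLP

open Pool.Agent.H80.Sig Finset

lemma kap_eq {X : List (ℕ × ℕ)} (hX : X ≠ []) (u : ℕ) : kap X u = ct (lastProd X) u := by
  cases X with
  | nil => exact absurd rfl hX
  | cons c L => obtain ⟨p, q⟩ := c; rfl

lemma last_facts {X : List (ℕ × ℕ)} (hX : X ≠ []) (hv : Valid X) {M : ℕ} (hM : lev X ∣ M) :
    lastProd X ∣ M ∧ 6 ≤ lastProd X ∧ ¬ IsPrimePow (lastProd X) := by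
  cases X with
  | nil => exact absurd rfl hX
  | cons c L =>
    obtain ⟨p, q⟩ := c
    have h1 := hv.head
    have h2 := not_primePow h1.1 h1.2.1 h1.2.2
    have h3 : p * q ∣ M := (Dvd.intro _ rfl).trans hM
    exact ⟨h3, h2.1, h2.2⟩

theorem main : S_KLP := by
  classical
  intro ι T X Y c M hM hX hXv hXM hY hc1 hrel
  obtain ⟨N₀, hN₀⟩ : ∃ N₀, N₀ = lastProd X := ⟨_, rfl⟩
  obtain ⟨g, hg⟩ : ∃ g : ι → ℕ, g = fun i => lastProd (Y i) := ⟨_, rfl⟩
  obtain ⟨S, hS⟩ : ∃ S : ℕ → ℝ, S = fun N => ∑ i ∈ T with g i = N, c i := ⟨_, rfl⟩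
  obtain ⟨B, hB⟩ : ∃ B : ℕ → ℝ, B = fun N => (if N = N₀ then 1 else 0) - S N := ⟨_, rfl⟩
  have hS0 : ∀ N, 0 ≤ S N := by
    intro N
    rw [hS]
    exact sum_nonneg fun i hi => ((hY i (mem_filter.1 hi).1).2.2.2).le
  obtain ⟨D, hD⟩ : ∃ D : Finset ℕ, D = insert N₀ (T.image g) := ⟨_, rfl⟩
  have hDf : ∀ N ∈ D, N ∣ M ∧ 6 ≤ N ∧ ¬ IsPrimePow N := by
    intro N hN
    rw [hD, mem_insert, mem_image] at hN
    rcases hN with rfl | ⟨i, hi, rfl⟩
    · rw [hN₀]; exact last_facts hX hXv hXM
    · rw [hg]; exact last_facts (hY i hi).1 (hY i hi).2.1 (hY i hi).2.2.1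
  have hB0 : ∀ N, N ∉ D → B N = 0 := by
    intro N hN
    rw [hD, mem_insert, mem_image] at hN
    push Not at hN
    rw [hB]
    simp only
    rw [if_neg hN.1, hS]
    simp only
    rw [filter_eq_empty_iff.2 (fun i hi h => hN.2 i hi h), sum_empty, sub_zero]
  have hsum : ∀ h : ℕ, h.Coprime M → ∑ N ∈ D, B N * ct N h = 0 := by
    intro h hh
    have h1 := hrel h hh
    rw [kap_eq hX, ← hN₀] at h1
    have h2 : ∑ i ∈ T, c i * kap (Y i) h = ∑ i ∈ T, c i * ct (g i) h :=
      sum_congr rfl fun i hi => by rw [kap_eq (hY i hi).1, hg]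
    rw [h2] at h1
    have h3 : ∑ N ∈ D, S N * ct N h = ∑ i ∈ T, c i * ct (g i) h := by
      rw [hS, ← sum_fiberwise_of_maps_to (s := T) (t := D) (g := g) (fun i hi => by
        rw [hD]; exact mem_insert_of_mem (mem_image_of_mem g hi)) (fun i => c i * ct (g i) h)]
      refine sum_congr rfl fun N _ => ?_
      rw [sum_mul]
      refine sum_congr rfl fun i hi => ?_
      rw [(mem_filter.1 hi).2]
    have h4 : ∑ N ∈ D, (if N = N₀ then (1 : ℝ) else 0) * ct N h = ct N₀ h := by
      rw [sum_eq_single N₀]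
      · rw [if_pos rfl, one_mul]
      · intro N _ hN
        rw [if_neg hN, zero_mul]
      · intro hN
        exact absurd (by rw [hD]; exact mem_insert_self _ _) hN
    rw [hB]
    simp only [sub_mul, sum_sub_distrib]
    rw [h3, h4, h1, sub_self]
  have key := indep_full M hM D hDf (fun N => (B N : ℂ)) (fun N hN => by
    rw [hB0 N hN, Complex.ofReal_zero]) (fun h hh => by
      have h1 : ∑ N ∈ D, (B N : ℂ) * K N h = Complex.I * ((∑ N ∈ D, B N * ct N h : ℝ) : ℂ) := by
        rw [Complex.ofReal_sum, mul_sum]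
        refine sum_congr rfl fun N _ => ?_
        rw [K_eq_ct, Complex.ofReal_mul]
        ring
      rw [h1, hsum h hh, Complex.ofReal_zero, mul_zero])
  have k0 : ∀ N, N ≠ 30 → N ≠ 6 → N ≠ 10 → N ≠ 15 → B N = 0 := by
    intro N h1 h2 h3 h4
    have h5 := key N
    unfold rho at h5
    rw [if_neg h1, if_neg (by tauto), mul_zero] at h5
    exact_mod_cast h5
  have k6 : ∀ N, (N = 6 ∨ N = 10 ∨ N = 15) → B N = - B 30 := by
    intro N h
    have h5 := key N
    unfold rho at h5
    rw [if_neg (by omega), if_pos h, mul_neg, mul_one] at h5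
    exact_mod_cast h5
  have hBv : ∀ N, B N = (if N = N₀ then 1 else 0) - S N := fun N => by rw [hB]
  have ht : B 30 = 0 := by
    by_cases h30 : N₀ = 30
    · have e30 := hBv 30
      rw [if_pos h30.symm] at e30
      have e6 := hBv 6
      rw [if_neg (by omega), k6 6 (by tauto)] at e6
      have e10 := hBv 10
      rw [if_neg (by omega), k6 10 (by tauto)] at e10
      have h1 : S 30 + (S 6 + S 10) ≤ ∑ i ∈ T, c i := by
        have h2 := sum_fiberwise_eq_sum_filter T ({30, 6, 10} : Finset ℕ) g c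
        have h3 : ∑ N ∈ ({30, 6, 10} : Finset ℕ), ∑ i ∈ T with g i = N, c i =
            S 30 + (S 6 + S 10) := by
          rw [sum_insert (by decide), sum_insert (by decide), sum_singleton, hS]
        rw [← h3, h2]
        exact sum_le_sum_of_subset_of_nonneg (filter_subset _ _)
          fun i hi _ => ((hY i hi).2.2.2).le
      have h6 := hS0 6
      linarith
    · have e30 := hBv 30
      rw [if_neg (fun h => h30 h.symm)] at e30
      have h1 := hS0 30
      by_cases h6 : N₀ = 6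
      · have e10 := hBv 10
        rw [if_neg (by omega), k6 10 (by tauto)] at e10
        have h2 := hS0 10
        linarith
      · have e6 := hBv 6
        rw [if_neg (fun h => h6 h.symm), k6 6 (by tauto)] at e6
        have h2 := hS0 6
        linarith
  have hall : ∀ N, B N = 0 := by
    intro N
    by_cases h1 : N = 30
    · rw [h1]; exact ht
    by_cases h2 : N = 6 ∨ N = 10 ∨ N = 15
    · rw [k6 N h2, ht, neg_zero]
    · push Not at h2
      exact k0 N h1 h2.1 h2.2.1 h2.2.2
  have hlast : ∀ i ∈ T, g i = N₀ := by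
    intro i hi
    by_contra hne
    have h1 := hBv (g i)
    rw [hall, if_neg hne] at h1
    have h2 : c i ≤ S (g i) := by
      rw [hS]
      exact single_le_sum (f := c) (fun j hj => ((hY j (mem_filter.1 hj).1).2.2.2).le)
        (mem_filter.2 ⟨hi, rfl⟩)
    have h3 := (hY i hi).2.2.2
    linarith
  refine ⟨fun i hi => ?_, ?_⟩
  · have := hlast i hi
    rw [hg, hN₀] at this
    exact this
  · have h1 := hBv N₀
    rw [hall, if_pos rfl] at h1
    have h2 : S N₀ = ∑ i ∈ T, c i := by
      rw [hS]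
      simp only
      rw [filter_true_of_mem hlast]
    linarith

end Pool.Agent.H80.IR.KLP
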