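import Pool.Agent.H80.IR.Stm
set_option autoImplicit false

/-! # Common lemmas for IR-X15, IR-X10, IR-X6 -/

namespace Pool.Agent.H80.IR.XC

open Pool.Agent.H80.Sig Finset

lemma exists_LEV {p q a₁ a₂ b₁ b₂ c₁ c₂ : ℕ} {L A B C : List (ℕ × ℕ)}
    (h : Exc p q a₁ a₂ b₁ b₂ c₁ c₂ L A B C) : ∃ M, LEV p q a₁ a₂ b₁ b₂ c₁ c₂ L A B C M := by
  obtain ⟨h1, h2, h3, h4, _⟩ := h
  have l1 := lev_pos h1
  have l2 := lev_pos h2
  have l3 := lev_pos h3
  have l4 := lev_pos h4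
  obtain ⟨x, hx⟩ : ∃ x, x = lev ((p, q) :: L) := ⟨_, rfl⟩
  obtain ⟨y, hy⟩ : ∃ y, y = lev ((a₁, a₂) :: A) := ⟨_, rfl⟩
  obtain ⟨z, hz⟩ : ∃ z, z = lev ((b₁, b₂) :: B) := ⟨_, rfl⟩
  obtain ⟨w, hw⟩ : ∃ w, w = lev ((c₁, c₂) :: C) := ⟨_, rfl⟩
  refine ⟨900 * (x * (y * (z * w))), ?_, Dvd.intro _ rfl, ?_, ?_, ?_, ?_⟩
  · rw [hx, hy, hz, hw]; positivity
  · rw [← hx]; exact ⟨900 * (y * (z * w)), by ring⟩
  · rw [← hy]; exact ⟨900 * (x * (z * w)), by ring⟩
  · rw [← hz]; exact ⟨900 * (x * (y * w)), by ring⟩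
  · rw [← hw]; exact ⟨900 * (x * (y * z)), by ring⟩

lemma kap_nil (u : ℕ) : kap [] u = 0 := rfl

lemma kap_nonneg {L : List (ℕ × ℕ)} (hL : Valid L) : 0 ≤ kap L 1 := by
  by_cases h : L = []
  · rw [h]; simp [kap]
  · exact (kap_pos hL h).le

lemma nil_of_kap {L : List (ℕ × ℕ)} (hL : Valid L) (h : kap L 1 ≤ 0) : L = [] := by
  by_contra hne
  have := kap_pos hL hne
  linarith

lemma six {a b : ℕ} (h : a * b = 6) (ha : 2 ≤ a) (hb : 2 ≤ b) :
    (a = 2 ∧ b = 3) ∨ (a = 3 ∧ b = 2) := by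
  have h1 : a ≤ 3 := by nlinarith
  interval_cases a <;> omega

lemma ten {a b : ℕ} (h : a * b = 10) (ha : 2 ≤ a) (hb : 2 ≤ b) :
    (a = 2 ∧ b = 5) ∨ (a = 5 ∧ b = 2) := by
  have h1 : a ≤ 5 := by nlinarith
  interval_cases a <;> omega

lemma fifteen {a b : ℕ} (h : a * b = 15) (ha : 2 ≤ a) (hb : 2 ≤ b) :
    (a = 3 ∧ b = 5) ∨ (a = 5 ∧ b = 3) := by
  have h1 : a ≤ 7 := by nlinarith
  interval_cases a <;> omega

lemma kap_eq {L : List (ℕ × ℕ)} (h : L ≠ []) (u : ℕ) : kap L u = ct (lastProd L) u := by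
  rcases L with _ | ⟨⟨p, q⟩, L⟩
  · exact absurd rfl h
  · rfl

lemma lastProd_dvd {L : List (ℕ × ℕ)} (h : L ≠ []) : lastProd L ∣ lev L := by
  rcases L with _ | ⟨⟨p, q⟩, L⟩
  · exact absurd rfl h
  · exact Dvd.intro _ rfl

lemma lastProd_npp {L : List (ℕ × ℕ)} (h : L ≠ []) (hL : Valid L) : NPP (lastProd L) := by
  rcases L with _ | ⟨⟨p, q⟩, L⟩
  · exact absurd rfl h
  · have h1 := hL.head
    exact not_primePow h1.1 h1.2.1 h1.2.2

lemma tail_lev {p q M : ℕ} {L : List (ℕ × ℕ)} (h : lev ((p, q) :: L) ∣ M) : lev L ∣ M :=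
  (Dvd.intro_left (p * q) rfl).trans h

/-- the last step of X15 and X10 -/
lemma final (hSTAR : S_STAR) {f e M : ℕ} {L A B : List (ℕ × ℕ)} (hM : 0 < M) (hfM : f ∣ M)
    (hlL : lev L ∣ M) (hlA : lev A ∣ M) (hlB : lev B ∣ M) (hL : Valid L) (hA : Valid A)
    (hB : Valid B) (hf7 : 7 ≤ f) (hf12 : f ≠ 12) (hef : e.Coprime f) (he2 : 2 ≤ e)
    (he : 2 * e < f)
    (hQ : ∀ N₁ N₂ N₃ : ℕ, N₁ ∣ M → N₂ ∣ M → N₃ ∣ M → NPP N₁ → NPP N₂ → NPP N₃ →
      ¬ ∀ u : ℕ, u.Coprime M → ct N₁ u = ct f (e * u) + ct N₂ u + ct N₃ u)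
    (hrel : ∀ u : ℕ, u.Coprime M → kap L u = ct f (e * u) + kap A u + kap B u) : False := by
  have r1 := hrel 1 (Nat.coprime_one_left M)
  rw [mul_one] at r1
  have pf : 0 < ct f e := ct_pos (by omega) he
  have pA := kap_nonneg hA
  have pB := kap_nonneg hB
  have hL0 : L ≠ [] := by
    rintro rfl
    rw [kap_nil] at r1
    linarith
  by_cases hA0 : A = []
  · by_cases hB0 : B = []
    · subst hA0 hB0
      refine ss_pos (ι := Unit) (T := {()}) (b := fun _ => 1) (L := fun _ => L) (A := 1) (d := e)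
        (f := f) (M := M) hM hfM (fun _ _ => hL) (fun _ _ => hlL) one_pos (fun _ _ => zero_le_one)
        (by omega) (by omega) hef ?_
      intro u hu
      have := hrel u hu
      rw [kap_nil, add_zero, add_zero] at this
      rw [sum_singleton, this]
    · subst hA0
      refine hSTAR f e (lastProd L) (lastProd B) M hM hfM ((lastProd_dvd hL0).trans hlL)
        ((lastProd_dvd hB0).trans hlB) hf7 hf12 hef he2 he (lastProd_npp hL0 hL)
        (lastProd_npp hB0 hB) ?_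
      intro u hu
      have := hrel u hu
      rw [kap_eq hL0, kap_eq hB0, kap_nil, add_zero] at this
      exact this
  · by_cases hB0 : B = []
    · subst hB0
      refine hSTAR f e (lastProd L) (lastProd A) M hM hfM ((lastProd_dvd hL0).trans hlL)
        ((lastProd_dvd hA0).trans hlA) hf7 hf12 hef he2 he (lastProd_npp hL0 hL)
        (lastProd_npp hA0 hA) ?_
      intro u hu
      have := hrel u hu
      rw [kap_eq hL0, kap_eq hA0, kap_nil, add_zero] at this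
      exact this
    · refine hQ (lastProd L) (lastProd A) (lastProd B) ((lastProd_dvd hL0).trans hlL)
        ((lastProd_dvd hA0).trans hlA) ((lastProd_dvd hB0).trans hlB) (lastProd_npp hL0 hL)
        (lastProd_npp hA0 hA) (lastProd_npp hB0 hB) ?_
      intro u hu
      have := hrel u hu
      rw [kap_eq hL0, kap_eq hA0, kap_eq hB0] at this
      exact this

end Pool.Agent.H80.IR.XC
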