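import Pool.Agent.H80.IR.Stm3
import Pool.Agent.H80.IR.Fin
import Pool.Agent.H80.IR.T.XC
set_option autoImplicit false

/-! # IR-PAIR -/

namespace Pool.Agent.H80.IR.PAIR

open Pool.Agent.H80.Sig Finset Pool.Agent.H80.IR.XC

/-- the relation at the frequencies `l u` -/
def ER {ι : Type} (S : Finset ι) (K : List (ℕ × ℕ)) (K' : ι → List (ℕ × ℕ)) (c : ι → ℝ)
    (M l f : ℕ) : Prop := ∀ u : ℕ, u.Coprime M →
  (if hd1 K = l then kap K.tail u else 0) - (if hd1 K = l ∨ hd2 K = l then ct f (l * u) else 0) =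
    ∑ i ∈ S, c i * ((if hd1 (K' i) = l then kap (K' i).tail u else 0) -
      (if lastProd (K' i) = 30 ∧ (hd1 (K' i) = l ∨ hd2 (K' i) = l) then ct f (l * u) else 0))

lemma split {ι : Type} (S : Finset ι) (K' : ι → List (ℕ × ℕ)) (c : ι → ℝ) (l f u : ℕ) :
    ∑ i ∈ S, c i * ((if hd1 (K' i) = l then kap (K' i).tail u else 0) -
      (if lastProd (K' i) = 30 ∧ (hd1 (K' i) = l ∨ hd2 (K' i) = l) then ct f (l * u) else 0)) =
    ∑ i ∈ S with hd1 (K' i) = l, c i * kap (K' i).tail u -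
      (∑ i ∈ S with lastProd (K' i) = 30 ∧ (hd1 (K' i) = l ∨ hd2 (K' i) = l), c i) *
        ct f (l * u) := by
  rw [sum_filter, sum_filter, sum_mul, ← sum_sub_distrib]
  refine sum_congr rfl fun i _ => ?_
  split_ifs <;> ring

/-- `l` is not in the pair of `K`, so it is not in the pairs with product `30` -/
lemma none {ι : Type} {S : Finset ι} {K : List (ℕ × ℕ)} {K' : ι → List (ℕ × ℕ)} {c : ι → ℝ}
    {M l f : ℕ} (hM : 0 < M) (hf : f ∣ M) (hV : ∀ i ∈ S, K' i ≠ [] ∧ Valid (K' i) ∧ 0 < c i)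
    (hlev : ∀ i ∈ S, lev (K' i) ∣ M) (hl : 1 < l) (hlf : l < f) (hc : l.Coprime f)
    (hE : ER S K K' c M l f) (hp : hd1 K ≠ l) (hq : hd2 K ≠ l) :
    ∀ i ∈ S, lastProd (K' i) = 30 → hd1 (K' i) ≠ l ∧ hd2 (K' i) ≠ l := by
  intro j hj hj30
  by_contra hcon
  have hjl : hd1 (K' j) = l ∨ hd2 (K' j) = l := by
    by_contra h
    push Not at h
    exact hcon h
  have hA : 0 < ∑ i ∈ S with lastProd (K' i) = 30 ∧ (hd1 (K' i) = l ∨ hd2 (K' i) = l), c i :=
    sum_pos (fun i hi => (hV i (mem_filter.1 hi).1).2.2)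
      ⟨j, mem_filter.2 ⟨hj, hj30, hjl⟩⟩
  refine ss_pos (T := S.filter fun i => hd1 (K' i) = l) (b := c) (L := fun i => (K' i).tail)
    (A := ∑ i ∈ S with lastProd (K' i) = 30 ∧ (hd1 (K' i) = l ∨ hd2 (K' i) = l), c i)
    (d := l) (f := f) (M := M) hM hf ?_ ?_ hA ?_ hl hlf hc ?_
  · intro i hi
    have h := hV i (mem_filter.1 hi).1
    exact tail_valid h.1 h.2.1
  · intro i hi
    have h := hV i (mem_filter.1 hi).1
    exact (lev_cons_dvd h.1).2.trans (hlev i (mem_filter.1 hi).1)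
  · intro i hi
    exact (hV i (mem_filter.1 hi).1).2.2.le
  · intro u hu
    have h := hE u hu
    rw [split, if_neg hp, if_neg (by tauto)] at h
    linarith

/-- the final contradiction -/
lemma fin {ι : Type} {S : Finset ι} {K : List (ℕ × ℕ)} {K' : ι → List (ℕ × ℕ)} {c : ι → ℝ}
    {M l f : ℕ} {t : ℝ} (hM : 0 < M) (hM900 : 900 ∣ M) (hf : f ∣ M) (hK : K ≠ []) (vK : Valid K)
    (hKM : lev K ∣ M)
    (hV : ∀ i ∈ S, K' i ≠ [] ∧ Valid (K' i) ∧ 0 < c i) (hlev : ∀ i ∈ S, lev (K' i) ∣ M)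
    (hl : 1 < l) (hlf : 2 * l < f) (hc : l.Coprime f)
    (hE : ER S K K' c M l f) (hp : hd1 K = l ∨ hd2 K = l) (ht : 0 < t)
    (h30 : ∀ i ∈ S, lastProd (K' i) = 30 → hd1 (K' i) = l ∨ hd2 (K' i) = l)
    (hsum : ∑ i ∈ S with lastProd (K' i) = 30, c i = 1 - t)
    (hQ : ∀ (ι : Type) (T : Finset ι) (M : ι → ℕ) (c : ι → ℝ) (M₀ L : ℕ) (A : ℝ),
      30 ∣ L → ¬ Tw T M c M₀ l f L A) : False := by
  have hfil : (S.filter fun i => lastProd (K' i) = 30 ∧ (hd1 (K' i) = l ∨ hd2 (K' i) = l)) =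
      S.filter fun i => lastProd (K' i) = 30 := by
    refine filter_congr fun i hi => ?_
    exact ⟨fun h => h.1, fun h => ⟨h, h30 i hi h⟩⟩
  have key : ∀ u : ℕ, u.Coprime M → (if hd1 K = l then kap K.tail u else 0) =
      t * ct f (l * u) + ∑ i ∈ S with hd1 (K' i) = l, c i * kap (K' i).tail u := by
    intro u hu
    have h := hE u hu
    rw [split, if_pos hp, hfil, hsum] at h
    linarith
  have hvt : ∀ i ∈ S, Valid (K' i).tail := fun i hi => tail_valid (hV i hi).1 (hV i hi).2.1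
  have k1 := key 1 (Nat.coprime_one_left M)
  rw [mul_one] at k1
  have pf : 0 < ct f l := ct_pos (by omega) hlf
  have hpos : 0 < t * ct f l := mul_pos ht pf
  have hnn : 0 ≤ ∑ i ∈ S with hd1 (K' i) = l, c i * kap (K' i).tail 1 := by
    refine sum_nonneg fun i hi => ?_
    have h := (mem_filter.1 hi).1
    exact mul_nonneg (hV i h).2.2.le (kap_nonneg (hvt i h))
  have hp1 : hd1 K = l := by
    by_contra hne
    rw [if_neg hne] at k1
    linarith
  have hKt : K.tail ≠ [] := by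
    intro h
    rw [if_pos hp1, h, kap_nil] at k1
    linarith
  refine hQ ι (S.filter fun i => hd1 (K' i) = l ∧ (K' i).tail ≠ [])
    (fun i => lastProd (K' i).tail) c (lastProd K.tail) M t
    ((by norm_num : 30 ∣ 900).trans hM900)
    ⟨hM, hf, ?_, lastProd_npp hKt (tail_valid hK vK), ?_, hc, ht, ?_⟩
  · exact (lastProd_dvd hKt).trans ((lev_cons_dvd hK).2.trans hKM)
  · intro i hi
    obtain ⟨hiS, -, hit⟩ := mem_filter.1 hi
    exact ⟨(lastProd_dvd hit).trans ((lev_cons_dvd (hV i hiS).1).2.trans (hlev i hiS)),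
      lastProd_npp hit (hvt i hiS), (hV i hiS).2.2⟩
  · intro u hu
    have h := key u hu
    rw [if_pos hp1, kap_eq hKt] at h
    rw [h]
    congr 1
    rw [← filter_filter, sum_filter (s := S.filter fun i => hd1 (K' i) = l)]
    refine sum_congr rfl fun i _ => ?_
    split_ifs with h2
    · rw [kap_eq h2]
    · rw [not_not.1 h2, kap_nil, mul_zero]

theorem main : S_E2R → S_E3R → S_E5R → S_QR15 → S_QR10 → S_PAIR := by
  intro hE2 hE3 hE5 hQ15 hQ10 ι S K K' c t hR hW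
  have hR' := hR
  have hW' := hW
  obtain ⟨hK, vK, hV, -⟩ := hR'
  obtain ⟨ht, hK30, hprod, hs30, -, -, -⟩ := hW'
  have hlevpos : 0 < lev K * ∏ i ∈ S, lev (K' i) :=
    Nat.mul_pos (lev_pos vK) (Finset.prod_pos fun i hi => lev_pos (hV i hi).2.1)
  set M : ℕ := 900 * (lev K * ∏ i ∈ S, lev (K' i)) with hMdef
  have hM : 0 < M := by omega
  have hM900 : 900 ∣ M := Dvd.intro _ rfl
  have hKM : lev K ∣ M := (Dvd.intro _ rfl).trans (Dvd.intro_left 900 rfl)
  have hlev : ∀ i ∈ S, lev (K' i) ∣ M := fun i hi =>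
    (dvd_prod_of_mem (fun i => lev (K' i)) hi).trans
      ((Dvd.intro_left (lev K) rfl).trans (Dvd.intro_left 900 rfl))
  have e2 : ER S K K' c M 2 15 := hE2 ι S K K' c t M hR hW hM hM900 hKM hlev
  have e3 : ER S K K' c M 3 10 := hE3 ι S K K' c t M hR hW hM hM900 hKM hlev
  have e5 := hE5 ι S K K' c t M hR hW hM hM900 hKM hlev 1 (Nat.coprime_one_left M)
  have h15 : 15 ∣ M := (by norm_num : 15 ∣ 900).trans hM900
  have h10 : 10 ∣ M := (by norm_num : 10 ∣ 900).trans hM900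
  have hpq : hd1 K * hd2 K = 30 := by rw [← lastProd_eq hK, hK30]
  have hh := head_prop hK vK
  -- no `5` in the pairs with product `30` unless `K` has one
  have no5 : hd1 K ≠ 5 → hd2 K ≠ 5 → ∀ i ∈ S, lastProd (K' i) = 30 →
      ¬ (hd1 (K' i) = 5 ∨ hd2 (K' i) = 5) := by
    intro hp hq j hj hj30 hj5
    rw [if_neg hp, if_neg (by tauto), add_zero] at e5
    have h6 : 0 < ct 6 1 := ct_pos one_pos (by norm_num)
    have hn : ∀ i ∈ S, 0 ≤ c i * ((if hd1 (K' i) = 5 then kap (K' i).tail 1 else 0) +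
      (if lastProd (K' i) = 30 ∧ (hd1 (K' i) = 5 ∨ hd2 (K' i) = 5) then ct 6 1 else 0)) := by
      intro i hi
      have h1 := kap_nonneg (tail_valid (hV i hi).1 (hV i hi).2.1)
      refine mul_nonneg (hV i hi).2.2.le (add_nonneg ?_ ?_)
      · split_ifs
        · exact h1
        · exact le_rfl
      · split_ifs
        · exact h6.le
        · exact le_rfl
    have h0 := (sum_eq_zero_iff_of_nonneg hn).1 e5.symm j hj
    have h1 := kap_nonneg (tail_valid (hV j hj).1 (hV j hj).2.1)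
    have h2 := (mul_eq_zero.1 h0).resolve_left (hV j hj).2.2.ne'
    rw [if_pos (⟨hj30, hj5⟩ : lastProd (K' j) = 30 ∧ (hd1 (K' j) = 5 ∨ hd2 (K' j) = 5))] at h2
    split_ifs at h2 <;> linarith
  have pair : ∀ i ∈ S, lastProd (K' i) = 30 →
      ((hd1 (K' i) = 5 ∧ hd2 (K' i) = 6) ∨ (hd1 (K' i) = 6 ∧ hd2 (K' i) = 5)) ∨
      ((hd1 (K' i) = 2 ∧ hd2 (K' i) = 15) ∨ (hd1 (K' i) = 15 ∧ hd2 (K' i) = 2)) ∨
      ((hd1 (K' i) = 3 ∧ hd2 (K' i) = 10) ∨ (hd1 (K' i) = 10 ∧ hd2 (K' i) = 3)) := by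
    intro i hi h
    rw [lastProd_eq (hV i hi).1] at h
    have h2 := head_prop (hV i hi).1 (hV i hi).2.1
    exact prod_thirty h h2.2.1 h2.2.2
  rcases prod_thirty hpq hh.2.1 hh.2.2 with h | h | h
  · exact h
  · exfalso
    have n5 := no5 (by omega) (by omega)
    have n3 := none hM h10 hV hlev (by norm_num) (by norm_num) (by norm_num) e3
      (by omega : hd1 K ≠ 3) (by omega : hd2 K ≠ 3)
    refine fin hM hM900 h15 hK vK hKM hV hlev (by norm_num) (by norm_num) (by norm_num) e2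
      (by omega) ht ?_ hs30 hQ15
    intro i hi hi30
    have h1 := n5 i hi hi30
    have h2 := n3 i hi hi30
    rcases pair i hi hi30 with h3 | h3 | h3 <;> omega
  · exfalso
    have n5 := no5 (by omega) (by omega)
    have n2 := none hM h15 hV hlev (by norm_num) (by norm_num) (by norm_num) e2
      (by omega : hd1 K ≠ 2) (by omega : hd2 K ≠ 2)
    refine fin hM hM900 h10 hK vK hKM hV hlev (by norm_num) (by norm_num) (by norm_num) e3
      (by omega) ht ?_ hs30 hQ10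
    intro i hi hi30
    have h1 := n5 i hi hi30
    have h2 := n2 i hi hi30
    rcases pair i hi hi30 with h3 | h3 | h3 <;> omega

end Pool.Agent.H80.IR.PAIR
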