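import Pool.Agent.H80.IR.Stm3
import Pool.Agent.H80.IR.T.QB15
set_option autoImplicit false

/-!
# Project IR, statement QR10 (helper73)
-/

namespace Pool.Agent.H80.IR.QR10

open Pool.Agent.H80.Sig Finset

lemma ct_thirty {u : ℕ} (hu : u.Coprime 30) : ct 30 u = ct 15 u + ct 10 u + ct 6 u := by
  have h := K_thirty hu
  rw [K_eq_ct, K_eq_ct, K_eq_ct, K_eq_ct, ← mul_add, ← mul_add] at h
  have h2 := mul_left_cancel₀ Complex.I_ne_zero h
  exact_mod_cast h2

/-- the coordinates of the divisors of `30` -/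
noncomputable def X (N : ℕ) : ℝ := if N = 15 ∨ N = 30 then 1 else 0
noncomputable def Y (N : ℕ) : ℝ := if N = 10 ∨ N = 30 then 1 else 0
noncomputable def Z (N : ℕ) : ℝ := if N = 6 ∨ N = 30 then 1 else 0

lemma ct_coord {N u : ℕ} (hN : N = 6 ∨ N = 10 ∨ N = 15 ∨ N = 30) (hu : u.Coprime 30) :
    ct N u = X N * ct 15 u + Y N * ct 10 u + Z N * ct 6 u := by
  rcases hN with rfl | rfl | rfl | rfl
  · simp [X, Y, Z]
  · simp [X, Y, Z]
  · simp [X, Y, Z]
  · rw [ct_thirty hu]
    simp [X, Y, Z]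

theorem main (h2 : S_STEP2) (h3 : S_TOPC) (h4 : S_LIN) : S_QR10 := by
  classical
  intro ι T M c M₀ L A h30 hTw
  obtain ⟨hL, hfL, hM0L, hN0, hT, hcop, hA, hrel⟩ := id hTw
  have : NeZero L := ⟨hL.ne'⟩
  have r0 := hrel 1 (Nat.coprime_one_left L)
  rw [mul_one] at r0
  have hM06 := hN0.1
  -- `5 ∣ M₀`
  have h5 : 5 ∣ M₀ := by
    by_contra hcon
    have hg : (9 : ℕ) ≡ 1 [MOD Nat.gcd 10 M₀] := by
      have h6 : Nat.gcd 10 M₀ ∣ 2 := by
        have h7 : Nat.Coprime (Nat.gcd 10 M₀) 5 := by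
          have h8 : Nat.Coprime M₀ 5 := by
            rw [Nat.coprime_comm]
            exact (Nat.Prime.coprime_iff_not_dvd (by norm_num)).2 hcon
          exact Nat.Coprime.coprime_dvd_left (Nat.gcd_dvd_right 10 M₀) h8
        have h9 : Nat.gcd 10 M₀ ∣ 5 * 2 := by
          have := Nat.gcd_dvd_left 10 M₀
          simpa using this
        exact h7.dvd_of_dvd_mul_left h9
      have h10 : (9 : ℕ) ≡ 1 [MOD 2] := by decide
      exact h10.of_dvd h6
    obtain ⟨w, hw1, hw2⟩ := lift_two hfL hM0L (u := 9) (by norm_num) hg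
    have r1 := hrel (vl w) (vl_coprime w)
    have e1 : ct 10 (3 * vl w) = ct 10 7 := by
      apply ct_congr (by norm_num)
      have h6 : 3 * vl w ≡ 3 * 9 [MOD 10] := hw1.mul_left 3
      exact h6.trans (by decide)
    have e2 : ct M₀ (vl w) = ct M₀ 1 := ct_congr (by omega) hw2
    have e3 : ∑ i ∈ T, c i * ct (M i) (vl w) ≤ ∑ i ∈ T, c i * ct (M i) 1 := by
      apply Finset.sum_le_sum
      intro i hi
      obtain ⟨a1, a2, a3⟩ := hT i hi
      apply mul_le_mul_of_nonneg_left _ a3.le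
      exact ct_le_one (by have := a2.1; omega) (Nat.Coprime.coprime_dvd_right a1 (vl_coprime w))
    have e4 : ct 10 7 < ct 10 3 := ct_lt (by norm_num) (by norm_num) (by norm_num)
    have e5 := mul_lt_mul_of_pos_left e4 hA
    rw [e1, e2] at r1
    linarith
  -- the step (2)
  have hs2 := h2 ι T M c M₀ 3 10 L A hTw (by
    intro u hu hu1
    apply ct_congr (by norm_num)
    have h6 : u ≡ 1 [MOD 5] := hu1.of_dvd h5
    have h7 : u ≡ 1 [MOD 2] := modEq_two (Dvd.dvd.trans (by norm_num) hfL) hu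
    have h8 : u ≡ 1 [MOD 2 * 5] := (Nat.modEq_and_modEq_iff_modEq_mul (by norm_num)).1 ⟨h7, h6⟩
    simpa using h8.mul_left 3)
  have h103 : 0 < ct 10 3 := ct_pos (by norm_num) (by norm_num)
  have hpos : ∀ i ∈ T, 0 < ct (M i) 1 := by
    intro i hi
    have := (hT i hi).2.1.1
    exact ct_pos (by norm_num) (by omega)
  -- `M₀ ∣ 30`
  have hM30 : M₀ = 6 ∨ M₀ = 10 ∨ M₀ = 15 ∨ M₀ = 30 := by
    by_contra hcon
    push Not at hcon
    obtain ⟨n1, n2, n3, n4⟩ := hcon
    have hc : Sig.cond M₀ = if M₀ % 4 = 2 then M₀ / 2 else M₀ := by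
      unfold Sig.cond
      rfl
    have hnd : ¬ Sig.cond M₀ ∣ 10 := by
      intro hd
      have h6 := Nat.le_of_dvd (by norm_num) hd
      rw [hc] at hd h6
      split_ifs at hd h6 with h7
      · obtain ⟨k, hk⟩ := h5
        have h8 : M₀ ≤ 21 := by omega
        have h9 : M₀ = 10 := by omega
        exact n2 h9
      · have h8 : M₀ = 10 := by omega
        exact n2 h8
    have h12 : M₀ ≠ 12 := by omega
    have hc3 : Sig.cond M₀ ≠ 3 := by
      rw [hc]
      split_ifs <;> omega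
    have hc15 : Sig.cond M₀ ≠ 15 := by
      rw [hc]
      split_ifs <;> omega
    have h6 := h3 ι T M c M₀ 3 10 L A hTw hs2 hnd h12 hc3 hc15
    have h7 : ∑ i ∈ T with M i = M₀, c i * ct (M i) 1 ≤ ∑ i ∈ T, c i * ct (M i) 1 := by
      apply Finset.sum_le_sum_of_subset_of_nonneg (filter_subset _ _)
      intro i hi _
      exact mul_nonneg (hT i hi).2.2.le (hpos i hi).le
    have h8 : ∑ i ∈ T with M i = M₀, c i * ct (M i) 1 = ct M₀ 1 := by
      calc ∑ i ∈ T with M i = M₀, c i * ct (M i) 1 = ∑ i ∈ T with M i = M₀, c i * ct M₀ 1 := by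
            apply Finset.sum_congr rfl
            intro i hi
            rw [(mem_filter.1 hi).2]
        _ = ct M₀ 1 := by rw [← Finset.sum_mul, h6, one_mul]
    have h9 := mul_pos hA h103
    linarith
  have hM0d : M₀ ∣ 30 := by
    rcases hM30 with h | h | h | h <;> rw [h] <;> norm_num
  have hMi : ∀ i ∈ T, M i = 6 ∨ M i = 10 ∨ M i = 15 ∨ M i = 30 := by
    intro i hi
    apply QB15.dvd30 (hT i hi).2.1
    rcases hs2 i hi with h | ⟨g, hg1, hg2, hg3⟩
    · exact h.trans hM0d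
    · rw [hg2]
      have h6 : g ∣ 2 * 15 := hg3.trans hM0d
      have h7 : g.Coprime 2 := by rw [Nat.coprime_two_right]; exact hg1
      exact Nat.mul_dvd_mul_left 2 (h7.dvd_of_dvd_mul_left h6)
  apply h4.2
  refine ⟨X M₀ - ∑ i ∈ T, c i * X (M i), Y M₀ - ∑ i ∈ T, c i * Y (M i),
    Z M₀ - ∑ i ∈ T, c i * Z (M i), A, hA, ?_⟩
  intro u hu
  have hu30 : u.Coprime 30 := by
    simp only [Finset.mem_insert, Finset.mem_singleton] at hu
    rcases hu with rfl | rfl | rfl | rfl <;> norm_num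
  obtain ⟨w, hw⟩ := lift_unit h30 hu30
  have r1 := hrel (vl w) (vl_coprime w)
  have e1 : ct 10 (3 * vl w) = ct 10 (3 * u) :=
    ct_congr (by norm_num) ((hw.of_dvd (by norm_num)).mul_left 3)
  have hcc : ∀ N : ℕ, (N = 6 ∨ N = 10 ∨ N = 15 ∨ N = 30) →
      ct N (vl w) = X N * ct 15 u + Y N * ct 10 u + Z N * ct 6 u := by
    intro N hN
    rw [← ct_coord hN hu30]
    rcases hN with rfl | rfl | rfl | rfl
    · exact ct_congr (by norm_num) (hw.of_dvd (by norm_num))
    · exact ct_congr (by norm_num) (hw.of_dvd (by norm_num))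
    · exact ct_congr (by norm_num) (hw.of_dvd (by norm_num))
    · exact ct_congr (by norm_num) hw
  have e2 : ∑ i ∈ T, c i * ct (M i) (vl w) = (∑ i ∈ T, c i * X (M i)) * ct 15 u +
      (∑ i ∈ T, c i * Y (M i)) * ct 10 u + (∑ i ∈ T, c i * Z (M i)) * ct 6 u := by
    rw [Finset.sum_mul, Finset.sum_mul, Finset.sum_mul, ← Finset.sum_add_distrib,
      ← Finset.sum_add_distrib]
    apply Finset.sum_congr rfl
    intro i hi
    rw [hcc _ (hMi i hi)]
    ring
  rw [e1, e2, hcc _ hM30] at r1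
  linarith

end Pool.Agent.H80.IR.QR10
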