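import Pool.Agent.H80.IR.Stm3
set_option autoImplicit false

/-!
# Project IR, part 3: QR15
-/

namespace Pool.Agent.H80.IR.QR15

open Pool.Agent.H80.Sig Finset

lemma ct_thirty {u : ℕ} (hu : u.Coprime 30) : ct 30 u = ct 15 u + ct 10 u + ct 6 u := by
  have h := K_thirty hu
  rw [K_eq_ct, K_eq_ct, K_eq_ct, K_eq_ct, ← mul_add, ← mul_add] at h
  have h2 := mul_left_cancel₀ Complex.I_ne_zero h
  exact_mod_cast h2

/-- the divisors of `30` which are at least `6` -/
lemma dvd_thirty {N : ℕ} (h : N ∣ 30) (h6 : 6 ≤ N) : N = 6 ∨ N = 10 ∨ N = 15 ∨ N = 30 := by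
  have h1 : N ∈ Nat.divisors 30 := Nat.mem_divisors.2 ⟨h, by norm_num⟩
  have h2 : Nat.divisors 30 = {1, 2, 3, 5, 6, 10, 15, 30} := by decide
  rw [h2] at h1
  simp only [Finset.mem_insert, Finset.mem_singleton] at h1
  omega

/-- the coordinates of `ct N` for `N ∣ 30` -/
lemma ct_coord {N u : ℕ} (h : N ∣ 30) (h6 : 6 ≤ N) (hu : u.Coprime 30) :
    ct N u = (if N = 15 ∨ N = 30 then 1 else 0) * ct 15 u +
      (if N = 10 ∨ N = 30 then 1 else 0) * ct 10 u + (if N = 6 ∨ N = 30 then 1 else 0) * ct 6 u := by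
  rcases dvd_thirty h h6 with rfl | rfl | rfl | rfl
  · norm_num
  · norm_num
  · norm_num
  · rw [ct_thirty hu]
    norm_num

theorem main (hstep : S_STEP2) (htopc : S_TOPC) (hlin : S_LIN) : S_QR15 := by
  intro ι T M c M₀ L A h30 hTw
  classical
  obtain ⟨hL, hf, h1, hN, hT, hc, hA0, hrel⟩ := id hTw
  have : NeZero L := ⟨hL.ne'⟩
  have hM0 : 6 ≤ M₀ := hN.1
  have r0 := hrel 1 (Nat.coprime_one_left L)
  rw [mul_one] at r0
  -- `15` divides `M₀`
  have h15 : 15 ∣ M₀ := by
    have hS2 : 15 ∣ M₀ ∨ ∃ g, Odd g ∧ 15 = 2 * g ∧ g ∣ M₀ := by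
      apply cond_dvd
      intro l k hl hk1 hk2 h4
      obtain ⟨hlf, hgcd⟩ := gcd_dvd_div hl hk1 hk2
      obtain ⟨j, hj, hx⟩ := escape (by norm_num : 0 < 15) hl hlf h4 hc
      obtain ⟨g, hg⟩ : ∃ g, g = 15 / l := ⟨_, rfl⟩
      rw [← hg] at hx hgcd
      have hlg : l * g = 15 := by rw [hg]; exact Nat.mul_div_cancel' hlf
      have hg0 : 0 < g := by
        rcases Nat.eq_zero_or_pos g with h | h
        · rw [h, mul_zero] at hlg; omega
        · exact h
      have hx12 : 2 < 2 + j * g ∧ 2 + j * g < 15 := by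
        have h2l := hl.two_le
        rcases hj with rfl | ⟨rfl, h3⟩
        · have : 2 * g ≤ l * g := Nat.mul_le_mul_right g h2l
          omega
        · have : 3 * g ≤ l * g := Nat.mul_le_mul_right g h3
          omega
      obtain ⟨x, hxd⟩ : ∃ x, x = 2 + j * g := ⟨_, rfl⟩
      rw [← hxd] at hx hx12
      obtain ⟨e, he⟩ := exists_inv (by norm_num : 0 < 15) hc
      have hecop : e.Coprime 15 := by
        have h3 : (2 * e).Coprime 15 := cop_of_modEq he (Nat.coprime_one_left 15)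
        exact Nat.Coprime.coprime_dvd_left (Dvd.intro_left 2 rfl) h3
      have hxe : x * e ≡ 1 [MOD Nat.gcd 15 M₀] := by
        have h3 : x ≡ 2 [MOD g] := by
          rw [hxd]
          have : 2 + j * g ≡ 2 + 0 [MOD g] :=
            Nat.ModEq.add_left 2 ((Nat.modEq_zero_iff_dvd).2 (Dvd.intro_left j rfl))
          simpa using this
        have h4 : x * e ≡ 2 * e [MOD g] := h3.mul_right e
        have h5 : 2 * e ≡ 1 [MOD g] := he.of_dvd (Dvd.intro_left l hlg)
        exact (h4.trans h5).of_dvd hgcd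
      obtain ⟨w, hw1, hw2⟩ := lift_two hf h1 (Nat.Coprime.mul_left hx hecop) hxe
      have r1 := hrel (vl w) (vl_coprime w)
      have e1 : ct 15 (2 * vl w) = ct 15 x := by
        apply ct_congr (by norm_num)
        calc 2 * vl w ≡ 2 * (x * e) [MOD 15] := hw1.mul_left 2
          _ = x * (2 * e) := by ring
          _ ≡ x * 1 [MOD 15] := he.mul_left x
          _ = x := mul_one x
      have e2 : ct M₀ (vl w) = ct M₀ 1 := ct_congr (by omega) hw2
      have e3 : ∑ i ∈ T, c i * ct (M i) (vl w) ≤ ∑ i ∈ T, c i * ct (M i) 1 := by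
        apply Finset.sum_le_sum
        intro i hi
        obtain ⟨a1, a2, a3⟩ := hT i hi
        have a4 : 6 ≤ M i := a2.1
        exact mul_le_mul_of_nonneg_left
          (ct_le_one (by omega) (Nat.Coprime.coprime_dvd_right a1 (vl_coprime w))) a3.le
      have e4 : ct 15 x < ct 15 2 := ct_lt (by omega) hx12.1 hx12.2
      rw [e1, e2] at r1
      have e6 : A * ct 15 x < A * ct 15 2 := mul_lt_mul_of_pos_left e4 hA0
      linarith
    rcases hS2 with h | ⟨g, _, hg, _⟩
    · exact h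
    · omega
  have hS3 : ∀ i ∈ T, M i ∣ M₀ ∨ ∃ g, Odd g ∧ M i = 2 * g ∧ g ∣ M₀ := by
    apply hstep ι T M c M₀ 2 15 L A hTw
    intro u _ hu
    apply ct_congr (by norm_num)
    simpa using (hu.of_dvd h15).mul_left 2
  by_cases hcond : Sig.cond M₀ = 15
  · -- `M₀ ∣ 30`
    have hM30 : M₀ ∣ 30 := by
      unfold Sig.cond at hcond
      split_ifs at hcond with h4
      · have : M₀ = 30 := by omega
        rw [this]
      · rw [hcond]; norm_num
    have hMi : ∀ i ∈ T, M i ∣ 30 := by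
      intro i hi
      rcases hS3 i hi with h | ⟨g, hg1, hg2, hg3⟩
      · exact h.trans hM30
      · rw [hg2]
        have h5 : g ∣ 2 * 15 := hg3.trans hM30
        have h6 : g ∣ 15 :=
          Nat.Coprime.dvd_of_dvd_mul_left (Nat.coprime_comm.1 (Nat.coprime_two_left.2 hg1)) h5
        exact Nat.mul_dvd_mul_left 2 h6
    apply hlin.1
    refine ⟨(if M₀ = 15 ∨ M₀ = 30 then 1 else 0) -
        ∑ i ∈ T, c i * (if M i = 15 ∨ M i = 30 then 1 else 0),
      (if M₀ = 10 ∨ M₀ = 30 then 1 else 0) -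
        ∑ i ∈ T, c i * (if M i = 10 ∨ M i = 30 then 1 else 0),
      (if M₀ = 6 ∨ M₀ = 30 then 1 else 0) -
        ∑ i ∈ T, c i * (if M i = 6 ∨ M i = 30 then 1 else 0), A, hA0, ?_⟩
    intro u hu
    have hu30 : u.Coprime 30 := by
      simp only [Finset.mem_insert, Finset.mem_singleton] at hu
      rcases hu with rfl | rfl | rfl | rfl <;> decide
    obtain ⟨w, hw⟩ := lift_unit h30 hu30
    have r1 := hrel (vl w) (vl_coprime w)
    have e1 : ∀ N : ℕ, N ∣ 30 → 6 ≤ N → ct N (vl w) = ct N u := fun N hN hN6 =>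
      ct_congr (by omega) (hw.of_dvd hN)
    have e2 : ct 15 (2 * vl w) = ct 15 (2 * u) :=
      ct_congr (by norm_num) ((hw.of_dvd (by norm_num)).mul_left 2)
    have e3 : ∑ i ∈ T, c i * ct (M i) (vl w) =
        ∑ i ∈ T, (c i * (if M i = 15 ∨ M i = 30 then 1 else 0) * ct 15 u +
          c i * (if M i = 10 ∨ M i = 30 then 1 else 0) * ct 10 u +
          c i * (if M i = 6 ∨ M i = 30 then 1 else 0) * ct 6 u) := by
      apply Finset.sum_congr rfl
      intro i hi
      rw [e1 (M i) (hMi i hi) (hT i hi).2.1.1, ct_coord (hMi i hi) (hT i hi).2.1.1 hu30]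
      ring
    rw [Finset.sum_add_distrib, Finset.sum_add_distrib, ← Finset.sum_mul, ← Finset.sum_mul,
      ← Finset.sum_mul] at e3
    rw [e1 M₀ hM30 hM0, e2, e3, ct_coord hM30 hM0 hu30] at r1
    linarith
  · -- `TOPC`
    have hdc : 15 ∣ Sig.cond M₀ := by
      unfold Sig.cond
      split_ifs with h4
      · obtain ⟨k, hk⟩ := h15
        have h5 : 15 ∣ 2 * (M₀ / 2) := by
          have : 2 * (M₀ / 2) = M₀ := by omega
          rw [this, hk]; exact Dvd.intro k rfl
        exact Nat.Coprime.dvd_of_dvd_mul_left (by decide) h5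
      · exact h15
    have hcpos : 0 < Sig.cond M₀ := by
      unfold Sig.cond
      split_ifs <;> omega
    have hsum := htopc ι T M c M₀ 2 15 L A hTw hS3
      (fun h => hcond (Nat.dvd_antisymm h hdc))
      (by rintro rfl; norm_num at h15)
      (by intro h; rw [h] at hdc; norm_num at hdc) hcond
    have e1 : ∑ i ∈ T with M i = M₀, c i * ct (M i) 1 = ct M₀ 1 := by
      have : ∑ i ∈ T with M i = M₀, c i * ct (M i) 1 = ∑ i ∈ T with M i = M₀, c i * ct M₀ 1 := by
        apply Finset.sum_congr rfl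
        intro i hi
        rw [(Finset.mem_filter.1 hi).2]
      rw [this, ← Finset.sum_mul, hsum, one_mul]
    have e2 : ∑ i ∈ T with M i = M₀, c i * ct (M i) 1 ≤ ∑ i ∈ T, c i * ct (M i) 1 := by
      apply Finset.sum_le_sum_of_subset_of_nonneg (Finset.filter_subset _ _)
      intro i hi _
      have a2 : 6 ≤ M i := (hT i hi).2.1.1
      exact mul_nonneg (hT i hi).2.2.le (ct_pos one_pos (by omega)).le
    have e3 : 0 < A * ct 15 2 := mul_pos hA0 (ct_pos (by norm_num) (by norm_num))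
    linarith

end Pool.Agent.H80.IR.QR15
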