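import Pool.Agent.H80.IR.Stm2
set_option autoImplicit false

/-!
# Project IR, part 2: RR
-/

namespace Pool.Agent.H80.IR.RR

open Pool.Agent.H80.Sig Finset

theorem main : S_RR := by
  intro ι T M c M₀ d f L A hL hf h1 hT hM1 hd hdf hc hA0 hA1 hrel
  classical
  have : NeZero L := ⟨hL.ne'⟩
  have hf0 : 0 < f := by omega
  have r0 := hrel 1 (Nat.coprime_one_left L)
  rw [mul_one] at r0
  -- the conductor of `f` divides `M₀`
  have hS2 : f ∣ M₀ ∨ ∃ g, Odd g ∧ f = 2 * g ∧ g ∣ M₀ := by
    apply cond_dvd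
    intro l k hl hk1 hk2 h4
    obtain ⟨hlf, hgcd⟩ := gcd_dvd_div hl hk1 hk2
    obtain ⟨j, hj, hx⟩ := escape hf0 hl hlf h4 hc
    obtain ⟨g, hg⟩ : ∃ g, g = f / l := ⟨_, rfl⟩
    rw [← hg] at hx hgcd
    have hlg : l * g = f := by rw [hg]; exact Nat.mul_div_cancel' hlf
    have hg0 : 0 < g := by
      rcases Nat.eq_zero_or_pos g with h | h
      · rw [h, mul_zero] at hlg; omega
      · exact h
    have hx12 : d < d + j * g ∧ d + j * g < f := by
      have h2l := hl.two_le
      rcases hj with rfl | ⟨rfl, h3⟩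
      · have : 2 * g ≤ l * g := Nat.mul_le_mul_right g h2l
        omega
      · have : 3 * g ≤ l * g := Nat.mul_le_mul_right g h3
        omega
    obtain ⟨x, hxd⟩ : ∃ x, x = d + j * g := ⟨_, rfl⟩
    rw [← hxd] at hx hx12
    obtain ⟨e, he⟩ := exists_inv hf0 hc
    have hecop : e.Coprime f := by
      have h3 : (d * e).Coprime f := cop_of_modEq he (Nat.coprime_one_left f)
      exact Nat.Coprime.coprime_dvd_left (Dvd.intro_left d rfl) h3
    have hxe : x * e ≡ 1 [MOD Nat.gcd f M₀] := by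
      have h3 : x ≡ d [MOD g] := by
        rw [hxd]
        have : d + j * g ≡ d + 0 [MOD g] :=
          Nat.ModEq.add_left d ((Nat.modEq_zero_iff_dvd).2 (Dvd.intro_left j rfl))
        simpa using this
      have h4 : x * e ≡ d * e [MOD g] := h3.mul_right e
      have h5 : d * e ≡ 1 [MOD g] := he.of_dvd (Dvd.intro_left l hlg)
      exact (h4.trans h5).of_dvd hgcd
    obtain ⟨w, hw1, hw2⟩ := lift_two hf h1 (Nat.Coprime.mul_left hx hecop) hxe
    have r1 := hrel (vl w) (vl_coprime w)
    have e1 : ct f (d * vl w) = ct f x := by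
      apply ct_congr hf0
      calc d * vl w ≡ d * (x * e) [MOD f] := hw1.mul_left d
        _ = x * (d * e) := by ring
        _ ≡ x * 1 [MOD f] := he.mul_left x
        _ = x := mul_one x
    have e2 : ct M₀ (vl w) = ct M₀ 1 := ct_congr (by omega) hw2
    have e3 : ∑ i ∈ T, c i * ct (M i) (vl w) ≤ ∑ i ∈ T, c i * ct (M i) 1 := by
      apply Finset.sum_le_sum
      intro i hi
      obtain ⟨a1, a2, a3⟩ := hT i hi
      exact mul_le_mul_of_nonneg_left
        (ct_le_one (by omega) (Nat.Coprime.coprime_dvd_right a1 (vl_coprime w))) a3.le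
    have e4 : ct f x < ct f d := ct_lt (by omega) hx12.1 hx12.2
    rw [e1, e2] at r1
    have e6 : A * ct f x < A * ct f d := mul_lt_mul_of_pos_left e4 hA0
    linarith
  -- the conductor of `M i` divides `M₀`
  have hS3 : ∀ i ∈ T, M i ∣ M₀ ∨ ∃ g, Odd g ∧ M i = 2 * g ∧ g ∣ M₀ := by
    intro i hi
    obtain ⟨h2, hM2, hci⟩ := hT i hi
    apply cond_dvd
    intro l k hl hk1 hk2 h4
    obtain ⟨hlf, hgcd⟩ := gcd_dvd_div hl hk1 hk2
    obtain ⟨j, hj, hx⟩ := escape (by omega) hl hlf h4 (Nat.coprime_one_left (M i))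
    obtain ⟨g, hg⟩ : ∃ g, g = M i / l := ⟨_, rfl⟩
    rw [← hg] at hx hgcd
    have hlg : l * g = M i := by rw [hg]; exact Nat.mul_div_cancel' hlf
    have hg0 : 0 < g := by
      rcases Nat.eq_zero_or_pos g with h | h
      · rw [h, mul_zero] at hlg; omega
      · exact h
    have hx12 : 1 < 1 + j * g ∧ 1 + j * g < M i := by
      have h2l := hl.two_le
      rcases hj with rfl | ⟨rfl, h3⟩
      · have : 2 * g ≤ l * g := Nat.mul_le_mul_right g h2l
        omega
      · have : 3 * g ≤ l * g := Nat.mul_le_mul_right g h3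
        omega
    have hxe : 1 + j * g ≡ 1 [MOD Nat.gcd (M i) M₀] := by
      have : 1 + j * g ≡ 1 + 0 [MOD g] :=
        Nat.ModEq.add_left 1 ((Nat.modEq_zero_iff_dvd).2 (Dvd.intro_left j rfl))
      exact this.of_dvd hgcd
    obtain ⟨w, hw1, hw2⟩ := lift_two h2 h1 hx hxe
    have r1 := hrel (vl w) (vl_coprime w)
    have hwf : vl w ≡ 1 [MOD f] := by
      rcases hS2 with h | ⟨g', hg'1, hg'2, hg'3⟩
      · exact hw2.of_dvd h
      · have h5 : vl w ≡ 1 [MOD g'] := hw2.of_dvd hg'3
        have h6 : vl w ≡ 1 [MOD 2] :=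
          modEq_two ((Dvd.intro g' hg'2.symm).trans hf) (vl_coprime w)
        rw [hg'2]
        exact (Nat.modEq_and_modEq_iff_modEq_mul (Nat.coprime_two_left.2 hg'1)).1 ⟨h6, h5⟩
    have e1 : ct f (d * vl w) = ct f d := by
      apply ct_congr hf0
      simpa using hwf.mul_left d
    have e2 : ct M₀ (vl w) = ct M₀ 1 := ct_congr (by omega) hw2
    have e3 : ct (M i) (vl w) = ct (M i) (1 + j * g) := ct_congr (by omega) hw1
    have e4 : ct (M i) (1 + j * g) < ct (M i) 1 := ct_lt one_pos hx12.1 hx12.2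
    have e5 : ∑ i ∈ T, c i * ct (M i) (vl w) < ∑ i ∈ T, c i * ct (M i) 1 := by
      apply Finset.sum_lt_sum
      · intro i' hi'
        obtain ⟨a1, a2, a3⟩ := hT i' hi'
        exact mul_le_mul_of_nonneg_left
          (ct_le_one (by omega) (Nat.Coprime.coprime_dvd_right a1 (vl_coprime w))) a3.le
      · refine ⟨i, hi, ?_⟩
        rw [e3]
        exact mul_lt_mul_of_pos_left e4 hci
    rw [e1, e2] at r1
    linarith
  have hsum0 : 0 ≤ ∑ i ∈ T, c i := Finset.sum_nonneg (fun i hi => (hT i hi).2.2.le)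
  -- some `M i` is larger than `M₀`
  have hlt : ∃ i ∈ T, M₀ < M i := by
    by_contra hcon
    push Not at hcon
    have e1 : ∀ i ∈ T, ct (M i) 1 ≤ ct M₀ 1 := by
      intro i hi
      obtain ⟨a1, a2, a3⟩ := hT i hi
      rcases (hcon i hi).lt_or_eq with h | h
      · exact (ct_lt_gen one_pos (by omega) (by omega)).le
      · rw [h]
    have e2 : ct f d < ct M₀ 1 := by
      apply ct_lt_gen one_pos _ (by omega)
      rw [one_mul]
      rcases hS2 with h | ⟨g', hg'1, hg'2, hg'3⟩
      · have h5 := Nat.le_of_dvd (by omega) h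
        calc f ≤ M₀ := h5
          _ < 2 * M₀ := by omega
          _ ≤ d * M₀ := Nat.mul_le_mul_right _ hd
      · have h5 := Nat.le_of_dvd (by omega) hg'3
        have hd3 : 3 ≤ d := by
          rcases Nat.lt_or_ge d 3 with h | h
          · exfalso
            have hd2 : d = 2 := by omega
            rw [hd2, hg'2] at hc
            have : 2 ∣ Nat.gcd 2 (2 * g') := Nat.dvd_gcd (dvd_refl 2) (Dvd.intro g' rfl)
            rw [hc] at this
            omega
          · exact h
        calc f = 2 * g' := hg'2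
          _ ≤ 2 * M₀ := by omega
          _ < 3 * M₀ := by omega
          _ ≤ d * M₀ := Nat.mul_le_mul_right _ hd3
    have e3 : A * ct f d < A * ct M₀ 1 := mul_lt_mul_of_pos_left e2 hA0
    have e4 : ∑ i ∈ T, c i * ct (M i) 1 ≤ (∑ i ∈ T, c i) * ct M₀ 1 := by
      rw [Finset.sum_mul]
      apply Finset.sum_le_sum
      intro i hi
      exact mul_le_mul_of_nonneg_left (e1 i hi) (hT i hi).2.2.le
    have e5 : 0 < ct M₀ 1 := ct_pos one_pos (by omega)
    have e6 : (A + ∑ i ∈ T, c i) * ct M₀ 1 ≤ 1 * ct M₀ 1 :=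
      mul_le_mul_of_nonneg_right hA1 e5.le
    linarith
  obtain ⟨i₀, hi₀, hlt⟩ := hlt
  -- `M i₀ = 2 M₀`
  obtain ⟨hodd, hM⟩ : Odd M₀ ∧ M i₀ = 2 * M₀ := by
    rcases hS3 i₀ hi₀ with h | ⟨g, hg1, hg2, hg3⟩
    · have := Nat.le_of_dvd (by omega) h
      omega
    · obtain ⟨m, hm⟩ := hg3
      have hm1 : m = 1 := by
        have hm0 : m ≠ 0 := by rintro rfl; omega
        by_contra hne
        have : g * 2 ≤ g * m := Nat.mul_le_mul_left g (by omega)
        omega
      rw [hm1, mul_one] at hm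
      rw [hm]
      exact ⟨hg1, hg2⟩
  have h2 : 2 * M₀ ∣ L := hM ▸ (hT i₀ hi₀).1
  -- the value at `u = M₀ - 2`
  have hk : (M₀ - 2).Coprime (2 * M₀) := by
    apply Nat.Coprime.mul_right
    · rw [Nat.coprime_two_right]
      rw [Nat.odd_iff] at hodd ⊢
      omega
    · have h3 : (M₀ - 2).Coprime 2 := by
        rw [Nat.coprime_two_right]
        rw [Nat.odd_iff] at hodd ⊢
        omega
      have h4 : M₀ = (M₀ - 2) + 2 := by omega
      rw [h4, Nat.add_sub_cancel]
      rw [Nat.coprime_self_add_right]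
      exact h3
  obtain ⟨w, hw⟩ := lift_unit h2 hk
  have r1 := hrel (vl w) (vl_coprime w)
  have e1 : ct M₀ (vl w) = - ct M₀ 2 := by
    rw [ct_congr (by omega) (hw.of_dvd (Dvd.intro_left 2 rfl)), ct_neg (by omega) (by omega)]
  have e3 : 0 < ct M₀ 2 := ct_pos (by omega) (by omega)
  -- the terms of the sum
  have e2 : ∀ i ∈ T, - ct M₀ 2 ≤ ct (M i) (vl w) := by
    intro i hi
    obtain ⟨a1, a2, a3⟩ := hT i hi
    rcases hS3 i hi with h | ⟨g, hg1, hg2, hg3⟩
    · have h5 := Nat.le_of_dvd (by omega) h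
      have e5 : ct (M i) (vl w) = - ct (M i) 2 := by
        rw [← ct_neg (by omega) (by omega : 2 ≤ M i)]
        apply ct_congr (by omega)
        apply Nat.ModEq.add_right_cancel' 2
        calc vl w + 2 ≡ (M₀ - 2) + 2 [MOD M i] :=
              (hw.of_dvd (h.trans (Dvd.intro_left 2 rfl))).add_right _
          _ = M₀ := by omega
          _ ≡ 0 [MOD M i] := (Nat.modEq_zero_iff_dvd).2 h
          _ ≡ M i [MOD M i] := ((Nat.modEq_zero_iff_dvd).2 (dvd_refl (M i))).symm
          _ = M i - 2 + 2 := by omega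
      rw [e5]
      apply neg_le_neg
      rcases h5.lt_or_eq with h6 | h6
      · exact (ct_lt_gen two_pos (by omega) (by omega)).le
      · rw [h6]
    · obtain ⟨m, hm⟩ := hg3
      have hmodd : Odd m := by
        rw [hm] at hodd
        exact (Nat.odd_mul.1 hodd).2
      obtain ⟨t, ht⟩ := hmodd
      have e5 : ct (M i) (vl w) = ct (M i) (g - 2) := by
        apply ct_congr (by omega)
        apply Nat.ModEq.add_right_cancel' 2
        have h5 : vl w ≡ M₀ - 2 [MOD M i] := by
          refine hw.of_dvd ?_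
          rw [hg2, hm]
          exact Nat.mul_dvd_mul_left 2 (Dvd.intro m rfl)
        calc vl w + 2 ≡ (M₀ - 2) + 2 [MOD M i] := h5.add_right _
          _ = M₀ := by omega
          _ = M i * t + g := by rw [hm, ht, hg2]; ring
          _ ≡ 0 + g [MOD M i] := Nat.ModEq.add_right g
              ((Nat.modEq_zero_iff_dvd).2 (Dvd.intro t rfl))
          _ = g - 2 + 2 := by omega
      have e6 : 0 < ct (M i) (g - 2) := ct_pos (by omega) (by omega)
      rw [e5]
      linarith
  have e7 : -((∑ i ∈ T, c i) * ct M₀ 2) ≤ ∑ i ∈ T, c i * ct (M i) (vl w) := by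
    rw [Finset.sum_mul, ← Finset.sum_neg_distrib]
    apply Finset.sum_le_sum
    intro i hi
    have := mul_le_mul_of_nonneg_left (e2 i hi) (hT i hi).2.2.le
    linarith
  have e8 : (A + ∑ i ∈ T, c i) * ct M₀ 2 ≤ 1 * ct M₀ 2 :=
    mul_le_mul_of_nonneg_right hA1 e3.le
  have e4 : A * ct f (d * vl w) ≤ -(A * ct M₀ 2) := by
    rw [e1] at r1
    linarith
  rcases hS2 with h | ⟨g, hg1, hg2, hg3⟩
  · have e5 : ct f (d * vl w) = - ct f (2 * d) := by
      rw [← ct_neg hf0 (by omega : 2 * d ≤ f)]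
      apply ct_congr hf0
      apply Nat.ModEq.add_right_cancel' (2 * d)
      have h5 : d * vl w ≡ d * (M₀ - 2) [MOD f] :=
        (hw.of_dvd (h.trans (Dvd.intro_left 2 rfl))).mul_left d
      calc d * vl w + 2 * d ≡ d * (M₀ - 2) + 2 * d [MOD f] := h5.add_right _
        _ = d * M₀ := by
          have : M₀ = (M₀ - 2) + 2 := by omega
          conv_rhs => rw [this]
          ring
        _ ≡ 0 [MOD f] := (Nat.modEq_zero_iff_dvd).2 (h.trans (Dvd.intro_left d rfl))
        _ ≡ f [MOD f] := ((Nat.modEq_zero_iff_dvd).2 (dvd_refl f)).symm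
        _ = f - 2 * d + 2 * d := by omega
    have e6 : ct f (2 * d) < ct M₀ 2 := by
      apply ct_lt_gen two_pos _ (by omega)
      have h5 := Nat.le_of_dvd (by omega) h
      calc 2 * f ≤ 2 * M₀ := by omega
        _ < 4 * M₀ := by omega
        _ ≤ 2 * d * M₀ := Nat.mul_le_mul_right _ (by omega)
    rw [e5] at e4
    have := mul_lt_mul_of_pos_left e6 hA0
    linarith
  · have e5 : ct f (d * vl w) = ct f (g - 2 * d) := by
      apply ct_congr hf0
      apply Nat.ModEq.add_right_cancel' (2 * d)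
      obtain ⟨m, hm⟩ := hg3
      have hdodd : Odd d := by
        rw [hg2] at hc
        have : d.Coprime 2 := Nat.Coprime.coprime_dvd_right (Dvd.intro g rfl) hc
        rwa [Nat.coprime_two_right] at this
      have hmodd : Odd m := by
        rw [hm] at hodd
        exact (Nat.odd_mul.1 hodd).2
      obtain ⟨t, ht⟩ := hdodd.mul hmodd
      have h5 : d * vl w ≡ d * (M₀ - 2) [MOD f] := by
        refine (hw.of_dvd ?_).mul_left d
        rw [hg2, hm]
        exact Nat.mul_dvd_mul_left 2 (Dvd.intro m rfl)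
      calc d * vl w + 2 * d ≡ d * (M₀ - 2) + 2 * d [MOD f] := h5.add_right _
        _ = d * M₀ := by
          have : M₀ = (M₀ - 2) + 2 := by omega
          conv_rhs => rw [this]
          ring
        _ = f * t + g := by rw [hm, hg2]; calc d * (g * m) = (d * m) * g := by ring
              _ = 2 * g * t + g := by rw [ht]; ring
        _ ≡ 0 + g [MOD f] := Nat.ModEq.add_right g
              ((Nat.modEq_zero_iff_dvd).2 (Dvd.intro t rfl))
        _ = g - 2 * d + 2 * d := by omega
    have e6 : 0 < ct f (g - 2 * d) := ct_pos (by omega) (by omega)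
    rw [e5] at e4
    have h7 := mul_pos hA0 e6
    have h8 := mul_pos hA0 e3
    linarith

end Pool.Agent.H80.IR.RR
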