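import Pool.Agent.H80.IR.Stm3
set_option autoImplicit false

/-!
# Project IR, part 3: STEP2 (helper75)
-/

namespace Pool.Agent.H80.IR.STEP2

open Pool.Agent.H80.Sig Finset

theorem main : S_STEP2 := by
  intro ι T M c M₀ d f L A ⟨hL, hf, h1, hM1, hT, hc, hA0, hrel⟩ hct i hi
  have : NeZero L := ⟨hL.ne'⟩
  have r0 := hrel 1 (Nat.coprime_one_left L)
  rw [mul_one] at r0
  obtain ⟨h2, ⟨hM2, -⟩, hci⟩ := hT i hi
  have hM10 := hM1.1
  apply cond_dvd
  intro l k hl hk1 hk2 h4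
  obtain ⟨hlf, hgcd⟩ := gcd_dvd_div hl hk1 hk2
  obtain ⟨j, hj, hx⟩ := escape (by omega) hl hlf h4 (Nat.coprime_one_left (M i))
  obtain ⟨g, hg⟩ : ∃ g, g = M i / l := ⟨_, rfl⟩
  rw [← hg] at hx hgcd
  have hlg : l * g = M i := by rw [hg]; exact Nat.mul_div_cancel' hlf
  have hg0 : 0 < g := by
    rcases Nat.eq_zero_or_pos g with h | h
    · rw [h, mul_zero] at hlg; omega
    · exact h
  have hx12 : 1 < 1 + j * g ∧ 1 + j * g < M i := by
    have h2l := hl.two_le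
    rcases hj with rfl | ⟨rfl, h3⟩
    · have : 2 * g ≤ l * g := Nat.mul_le_mul_right g h2l
      omega
    · have : 3 * g ≤ l * g := Nat.mul_le_mul_right g h3
      omega
  have hxe : 1 + j * g ≡ 1 [MOD Nat.gcd (M i) M₀] := by
    have : 1 + j * g ≡ 1 + 0 [MOD g] :=
      Nat.ModEq.add_left 1 ((Nat.modEq_zero_iff_dvd).2 (Dvd.intro_left j rfl))
    exact this.of_dvd hgcd
  obtain ⟨w, hw1, hw2⟩ := lift_two h2 h1 hx hxe
  have r1 := hrel (vl w) (vl_coprime w)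
  have e1 : ct f (d * vl w) = ct f d := hct _ (vl_coprime w) hw2
  have e2 : ct M₀ (vl w) = ct M₀ 1 := ct_congr (by omega) hw2
  have e3 : ct (M i) (vl w) = ct (M i) (1 + j * g) := ct_congr (by omega) hw1
  have e4 : ct (M i) (1 + j * g) < ct (M i) 1 := ct_lt one_pos hx12.1 hx12.2
  have e5 : ∑ i ∈ T, c i * ct (M i) (vl w) < ∑ i ∈ T, c i * ct (M i) 1 := by
    apply Finset.sum_lt_sum
    · intro i' hi'
      obtain ⟨a1, ⟨a2, -⟩, a3⟩ := hT i' hi'
      exact mul_le_mul_of_nonneg_left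
        (ct_le_one (by omega) (Nat.Coprime.coprime_dvd_right a1 (vl_coprime w))) a3.le
    · refine ⟨i, hi, ?_⟩
      rw [e3]
      exact mul_lt_mul_of_pos_left e4 hci
  rw [e1, e2] at r1
  linarith

end Pool.Agent.H80.IR.STEP2
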