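import Pool.Agent.H80.IR.Stm3
set_option autoImplicit false

/-!
# Project IR, statement TOPC
-/

namespace Pool.Agent.H80.IR.TOPC

open Pool.Agent.H80.Sig Finset

/-- the term with the multiplier `d` vanishes -/
lemma shift_zero {g L f d : ℕ} [NeZero L] (χ : DC g) (hχ : Prim χ) (hg : g ∣ L) (hf : f ∣ L)
    (hgf : ¬ g ∣ f) (hd : d.Coprime f) :
    ∑ v : (ZMod L)ˣ, χ ((vl v : ℕ) : ZMod g) * K f (d * vl v) = 0 := by
  have hL : 0 < L := NeZero.pos L
  have hf0 : 0 < f := Nat.pos_of_dvd_of_pos hf hL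
  obtain ⟨w, hw⟩ := lift_unit hf hd
  have hu : χ ((vl w : ℕ) : ZMod g) ≠ 0 := by
    have h1 : (vl w).Coprime g := Nat.Coprime.coprime_dvd_right hg (vl_coprime w)
    have h2 : IsUnit ((vl w : ℕ) : ZMod g) := by
      rw [ZMod.isUnit_iff_coprime]; exact h1
    exact (h2.map χ).ne_zero
  have h1 := T_shift χ hg hf w
  rw [T_kill χ hχ hg hf hgf] at h1
  have h2 : ∑ v : (ZMod L)ˣ, χ ((vl v : ℕ) : ZMod g) * K f (d * vl v) =
      ∑ v : (ZMod L)ˣ, χ ((vl v : ℕ) : ZMod g) * K f (vl w * vl v) := by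
    refine sum_congr rfl fun v _ => ?_
    rw [K_congr hf0 (h' := d * vl v) (hw.mul_right (vl v))]
  rw [h2]
  exact (mul_eq_zero.1 h1.symm).resolve_left hu

/-- the twisted relation -/
lemma twist {ι : Type} {T : Finset ι} {M : ι → ℕ} {c : ι → ℝ} {M₀ d f L : ℕ} {A : ℝ}
    [NeZero L] (h : Tw T M c M₀ d f L A) {g : ℕ} (χ : DC g) (hχ : Prim χ) (hg : g ∣ L)
    (hgf : ¬ g ∣ f) : Sig.T L χ M₀ = ∑ i ∈ T, (c i : ℂ) * Sig.T L χ (M i) := by
  obtain ⟨-, hf, -, -, -, hd, -, hrel⟩ := h
  have h0 := shift_zero χ hχ hg hf hgf hd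
  have h1 : ∀ v : (ZMod L)ˣ, K M₀ (vl v) =
      (A : ℂ) * K f (d * vl v) + ∑ i ∈ T, (c i : ℂ) * K (M i) (vl v) := by
    intro v
    have h2 := hrel (vl v) (vl_coprime v)
    simp only [K_eq_ct]
    rw [h2]
    push_cast
    rw [mul_add, mul_sum]
    congr 1
    · ring
    · exact sum_congr rfl fun i _ => by ring
  calc Sig.T L χ M₀ = ∑ v : (ZMod L)ˣ, χ ((vl v : ℕ) : ZMod g) *
        ((A : ℂ) * K f (d * vl v) + ∑ i ∈ T, (c i : ℂ) * K (M i) (vl v)) := by
        unfold Sig.T
        exact sum_congr rfl fun v _ => by rw [← h1 v]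
    _ = (A : ℂ) * (∑ v : (ZMod L)ˣ, χ ((vl v : ℕ) : ZMod g) * K f (d * vl v)) +
        ∑ v : (ZMod L)ˣ, ∑ i ∈ T, (c i : ℂ) * (χ ((vl v : ℕ) : ZMod g) * K (M i) (vl v)) := by
        rw [mul_sum, ← sum_add_distrib]
        refine sum_congr rfl fun v _ => ?_
        rw [mul_add, mul_sum]
        congr 1
        · ring
        · exact sum_congr rfl fun i _ => by ring
    _ = ∑ i ∈ T, (c i : ℂ) * Sig.T L χ (M i) := by
        rw [h0, mul_zero, zero_add, sum_comm]
        refine sum_congr rfl fun i _ => ?_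
        unfold Sig.T
        rw [mul_sum]

/-- only the indices with `M i = g` or `M i = 2 g` survive -/
lemma split {ι : Type} {T : Finset ι} {M : ι → ℕ} {c : ι → ℝ} {L : ℕ} [NeZero L]
    (hML : ∀ i ∈ T, M i ∣ L) {g : ℕ} (χ : DC g) (hχ : Prim χ) (hg : g ∣ L)
    (hM : ∀ i ∈ T, M i = g ∨ M i = 2 * g ∨ ¬ g ∣ M i) :
    ∑ i ∈ T, (c i : ℂ) * Sig.T L χ (M i) =
      ((∑ i ∈ T with M i = g, c i : ℝ) : ℂ) * Sig.T L χ g +
      ((∑ i ∈ T with M i = 2 * g, c i : ℝ) : ℂ) * Sig.T L χ (2 * g) := by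
  have hL : 0 < L := NeZero.pos L
  have hg0 : 0 < g := Nat.pos_of_dvd_of_pos hg hL
  rw [Complex.ofReal_sum, Complex.ofReal_sum, sum_mul, sum_mul, sum_filter, sum_filter,
    ← sum_add_distrib]
  refine sum_congr rfl fun i hi => ?_
  by_cases h1 : M i = g
  · rw [if_pos h1, if_neg (by omega), add_zero, h1]
  · by_cases h2 : M i = 2 * g
    · rw [if_neg h1, if_pos h2, zero_add, h2]
    · have h3 : ¬ g ∣ M i := by
        rcases hM i hi with h | h | h
        · exact absurd h h1
        · exact absurd h h2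
        · exact h
      rw [if_neg h1, if_neg h2, T_kill χ hχ hg (hML i hi) h3, mul_zero, add_zero]

theorem main : S_TOPC := by
  intro ι T M c M₀ d f L A h hdiv hgf h12 h3 h15
  have hL : 0 < L := h.1
  have : NeZero L := ⟨hL.ne'⟩
  have hM₀L : M₀ ∣ L := h.2.2.1
  have hM₀6 : 6 ≤ M₀ := h.2.2.2.1.1
  have hML : ∀ i ∈ T, M i ∣ L := fun i hi => (h.2.2.2.2.1 i hi).1
  have hT2 : ∀ i ∈ T, 6 ≤ M i := fun i hi => (h.2.2.2.2.1 i hi).2.1.1
  set g := Sig.cond M₀ with hgdef
  have hgM : g ∣ M₀ := by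
    rw [hgdef]; unfold Sig.cond
    split_ifs with h
    · exact Nat.div_dvd_of_dvd (by omega)
    · exact dvd_refl _
  have hgL : g ∣ L := hgM.trans hM₀L
  have hg4 : ¬ g % 4 = 2 := by
    rw [hgdef]; unfold Sig.cond
    split_ifs with h
    · omega
    · exact h
  have hg3 : 3 ≤ g := by
    rw [hgdef]; unfold Sig.cond
    split_ifs with h <;> omega
  have hg12 : g ≠ 12 := by
    rw [hgdef]; unfold Sig.cond
    split_ifs with h
    · omega
    · exact h12
  have hM₀ : M₀ = g ∨ (M₀ = 2 * g ∧ Odd g) := by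
    rw [hgdef]; unfold Sig.cond
    split_ifs with h
    · right
      rw [Nat.odd_iff]
      omega
    · left; rfl
  by_cases hodd : Odd g
  · -- odd conductor
    have hg1 : g ≠ 1 := by omega
    have hcase : ∀ i ∈ T, M i = g ∨ M i = 2 * g ∨ ¬ g ∣ M i := by
      intro i hi
      by_cases hgi : g ∣ M i
      · rcases hdiv i hi with h1 | ⟨g', hg', h1, h2⟩
        · obtain ⟨k, hk⟩ := hgi
          have hk1 : g * k ∣ g * 2 := by
            rw [← hk]
            refine h1.trans ?_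
            rcases hM₀ with h3 | ⟨h3, -⟩
            · rw [h3]; exact Dvd.intro 2 rfl
            · rw [h3, mul_comm]
          have hk2 : k ∣ 2 := Nat.dvd_of_mul_dvd_mul_left (by omega) hk1
          have hk3 : k = 1 ∨ k = 2 := (Nat.dvd_prime Nat.prime_two).1 hk2
          rcases hk3 with rfl | rfl
          · left; rw [hk, mul_one]
          · right; left; rw [hk, mul_comm]
        · right; left
          have h4 : g ∣ g' := by
            have : Nat.Coprime g 2 := by rwa [Nat.coprime_two_right]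
            exact this.dvd_of_dvd_mul_left (h1 ▸ hgi)
          have h5 : g' ∣ g := by
            have h6 : g' ∣ 2 * g := by
              refine h2.trans ?_
              rcases hM₀ with h3 | ⟨h3, -⟩
              · rw [h3]; exact Dvd.intro_left 2 rfl
              · rw [h3]
            have : Nat.Coprime g' 2 := by rwa [Nat.coprime_two_right]
            exact this.dvd_of_dvd_mul_left h6
          rw [h1, Nat.dvd_antisymm h5 h4]
      · right; right; exact hgi
    set s₁ : ℝ := ∑ i ∈ T with M i = g, c i with hs₁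
    set s₂ : ℝ := ∑ i ∈ T with M i = 2 * g, c i with hs₂
    set m₁ : ℝ := if M₀ = g then 1 else 0 with hm₁
    set m₂ : ℝ := if M₀ = 2 * g then 1 else 0 with hm₂
    -- the relation for one character
    have hval : ∀ χ : DC g, Prim χ → χ (-1) = -1 →
        ((m₁ - s₁ : ℝ) : ℂ) + ((m₂ - s₂ : ℝ) : ℂ) * (2 - χ ((2 : ℕ) : ZMod g)) = 0 := by
      intro χ hχ hχo
      have hTg := T_self_ne (L := L) χ hgL hχo
      have h1 := twist h χ hχ hgL hgf
      rw [split hML χ hχ hgL hcase] at h1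
      have h2 : Sig.T L χ M₀ = (m₁ : ℂ) * Sig.T L χ g + (m₂ : ℂ) * Sig.T L χ (2 * g) := by
        rcases hM₀ with h3 | ⟨h3, -⟩
        · rw [hm₁, hm₂, if_pos h3, if_neg (by omega), h3]; push_cast; ring
        · rw [hm₁, hm₂, if_neg (by omega), if_pos h3, h3]; push_cast; ring
      have h3 : ((m₁ - s₁ : ℝ) : ℂ) * Sig.T L χ g + ((m₂ - s₂ : ℝ) : ℂ) * Sig.T L χ (2 * g) = 0 := by
        push_cast
        linear_combination h1 - h2
      by_cases h2L : 2 * g ∣ L
      · rw [T_two χ h2L hodd hg1] at h3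
        have h4 : (((m₁ - s₁ : ℝ) : ℂ) + ((m₂ - s₂ : ℝ) : ℂ) * (2 - χ ((2 : ℕ) : ZMod g))) *
            Sig.T L χ g = 0 := by
          linear_combination h3
        exact (mul_eq_zero.1 h4).resolve_right hTg
      · have hm : m₂ = 0 := by
          rw [hm₂, if_neg]
          intro h4; exact h2L (h4 ▸ hM₀L)
        have hs : s₂ = 0 := by
          rw [hs₂]
          apply sum_eq_zero
          intro i hi
          rw [mem_filter] at hi
          exact absurd (hi.2 ▸ hML i hi.1) h2L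
        rw [hm, hs] at h3 ⊢
        have h4 : ((m₁ - s₁ : ℝ) : ℂ) * Sig.T L χ g = 0 := by
          rw [← h3]; push_cast; ring
        have h5 := (mul_eq_zero.1 h4).resolve_right hTg
        rw [h5]; push_cast; ring
    obtain ⟨χ, χ', ho, ho', hp, hp', hne⟩ := exists_two_prim g hodd hg1 h3 h15
    have h1 := hval χ hp ho
    have h2 := hval χ' hp' ho'
    have hb : ((m₂ - s₂ : ℝ) : ℂ) * (χ' ((2 : ℕ) : ZMod g) - χ ((2 : ℕ) : ZMod g)) = 0 := by
      linear_combination h1 - h2
    have hb0 := (mul_eq_zero.1 hb).resolve_right (sub_ne_zero.2 hne.symm)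
    rw [hb0, zero_mul, add_zero] at h1
    have ha0 : m₁ - s₁ = 0 := by exact_mod_cast h1
    have hb1 : m₂ - s₂ = 0 := by exact_mod_cast hb0
    rcases hM₀ with h4 | ⟨h4, -⟩
    · rw [hm₁, if_pos h4] at ha0
      rw [h4]
      linarith
    · rw [hm₂, if_pos h4] at hb1
      rw [h4]
      linarith
  · -- even conductor
    have hg40 : g % 4 = 0 := by
      rw [Nat.not_odd_iff_even] at hodd
      obtain ⟨j, hj⟩ := hodd
      omega
    have hM₀g : M₀ = g := by
      rcases hM₀ with h4 | ⟨-, h4⟩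
      · exact h4
      · exact absurd h4 hodd
    have hcase : ∀ i ∈ T, M i = g ∨ M i = 2 * g ∨ ¬ g ∣ M i := by
      intro i hi
      by_cases hgi : g ∣ M i
      · rcases hdiv i hi with h1 | ⟨g', hg', h1, h2⟩
        · left
          rw [hM₀g] at h1
          exact Nat.dvd_antisymm h1 hgi
        · exfalso
          have h5 : 4 ∣ 2 * g' := (Nat.dvd_of_mod_eq_zero hg40).trans (h1 ▸ hgi)
          obtain ⟨j, hj⟩ := hg'
          omega
      · right; right; exact hgi
    have hno : ∀ i ∈ T, M i ≠ 2 * g := by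
      intro i hi h1
      rcases hdiv i hi with h2 | ⟨g', hg', h2, h4⟩
      · rw [h1, hM₀g] at h2
        have := Nat.le_of_dvd (by omega) h2
        omega
      · obtain ⟨j, hj⟩ := hg'
        omega
    obtain ⟨χ, hχo, hχ⟩ := exists_odd_prim g hg3 hg4 hg12
    have hTg := T_self_ne (L := L) χ hgL hχo
    have h1 := twist h χ hχ hgL hgf
    rw [split hML χ hχ hgL hcase] at h1
    have h2 : ∑ i ∈ T with M i = 2 * g, c i = 0 := by
      apply sum_eq_zero
      intro i hi
      rw [mem_filter] at hi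
      exact absurd hi.2 (hno i hi.1)
    rw [h2, hM₀g] at h1
    rw [hM₀g]
    have h4 : (((∑ i ∈ T with M i = g, c i) - 1 : ℝ) : ℂ) * Sig.T L χ g = 0 := by
      push_cast at h1 ⊢
      linear_combination -h1
    have h5 := (mul_eq_zero.1 h4).resolve_right hTg
    have h6 : (∑ i ∈ T with M i = g, c i) - 1 = 0 := by exact_mod_cast h5
    linarith

end Pool.Agent.H80.IR.TOPC
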