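import Pool.Agent.H80.IR.Stm3
set_option autoImplicit false

/-!
# Project IR, statement WT
-/

namespace Pool.Agent.H80.IR.WT

open Pool.Agent.H80.Sig Finset

theorem main : S_WT := by
  classical
  intro ι S K K' c hPR
  obtain ⟨hK, hV, hK', hrel⟩ := hPR
  set a : Option ι → ℝ := fun o => o.elim 1 (fun i => - c i) with ha
  set F : Option ι → List (ℕ × ℕ) := fun o => o.elim K K' with hF
  have hVF : ∀ k ∈ insertNone S, Valid (F k) := by
    intro k hk
    rcases k with _ | i
    · exact hV
    · exact (hK' i (by simpa using hk)).2.1
  have hJ : JRel (insertNone S) a F := by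
    intro x
    rw [Finset.sum_insertNone]
    simp only [ha, hF, Option.elim]
    rw [hrel x, one_mul, ← Finset.sum_add_distrib]
    apply Finset.sum_eq_zero
    intro i _
    ring
  obtain ⟨t, ht⟩ := last_products_J (insertNone S) a F hVF hJ
  set P := lastProd K with hP
  set g : ℕ → ℝ := fun N => ∑ i ∈ S, if lastProd (K' i) = N then c i else 0 with hg
  have key : ∀ N : ℕ, N ≠ 0 → (if P = N then (1 : ℝ) else 0) - g N =
      if N = 30 then t else if N = 6 ∨ N = 10 ∨ N = 15 then -t else 0 := by
    intro N hN
    rw [← ht N hN, sum_filter, Finset.sum_insertNone]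
    simp only [ha, hF, Option.elim, hg]
    rw [sub_eq_add_neg, ← sum_neg_distrib]
    congr 1
    refine sum_congr rfl fun i _ => ?_
    split_ifs <;> simp
  have hg0 : ∀ N, 0 ≤ g N := by
    intro N
    apply Finset.sum_nonneg
    intro i hi
    split_ifs
    · exact (hK' i hi).2.2.le
    · exact le_rfl
  have hgi : ∀ i ∈ S, 0 < g (lastProd (K' i)) := by
    intro i hi
    have h4 := Finset.single_le_sum (f := fun j => if lastProd (K' j) = lastProd (K' i) then c j else 0)
      (s := S) (fun j hj => by
        split_ifs
        · exact (hK' j hj).2.2.le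
        · exact le_rfl) hi
    have h5 := (hK' i hi).2.2
    have h3 : c i ≤ g (lastProd (K' i)) := by simpa [hg] using h4
    linarith
  have e30 := key 30 (by norm_num)
  have e6 := key 6 (by norm_num)
  have e10 := key 10 (by norm_num)
  have e15 := key 15 (by norm_num)
  norm_num at e30 e6 e10 e15
  by_cases ht0 : t = 0
  · left
    have hall : ∀ i ∈ S, lastProd (K' i) = P := by
      intro i hi
      by_contra hne
      have h2 := key _ (lastProd_ne (hK' i hi).1 (hK' i hi).2.1)
      rw [if_neg (Ne.symm hne), ht0] at h2
      simp only [neg_zero, ite_self, zero_sub, neg_eq_zero] at h2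
      have h5 := hgi i hi
      linarith
    have h2 := key P (lastProd_ne hK hV)
    rw [if_pos rfl, ht0] at h2
    simp only [neg_zero, ite_self] at h2
    have h3 : g P = ∑ i ∈ S, c i := by
      simp only [hg]
      refine sum_congr rfl fun i hi => ?_
      rw [if_pos (hall i hi)]
    linarith
  · right
    have a30 := hg0 30
    have a6 := hg0 6
    have a10 := hg0 10
    have hP30 : P = 30 := by
      by_contra hne
      apply ht0
      rw [if_neg hne] at e30
      by_cases h6 : P = 6
      · rw [if_neg (by omega)] at e10
        linarith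
      · rw [if_neg h6] at e6
        linarith
    rw [hP30] at e30 e6 e10 e15
    norm_num at e30 e6 e10 e15
    refine ⟨t, ?_, hP30, ?_, ?_, ?_, ?_, ?_⟩
    · rcases lt_or_eq_of_le (show 0 ≤ t by linarith) with h | h
      · exact h
      · exact absurd h.symm ht0
    · intro i hi
      by_contra hcon
      push Not at hcon
      obtain ⟨h6, h10, h15, h30⟩ := hcon
      have h2 := key _ (lastProd_ne (hK' i hi).1 (hK' i hi).2.1)
      rw [hP30, if_neg (Ne.symm h30), if_neg h30, if_neg (by tauto)] at h2
      have := hgi i hi
      linarith
    · rw [sum_filter]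
      show g 30 = 1 - t
      linarith
    · rw [sum_filter]
      show g 6 = t
      linarith
    · rw [sum_filter]
      show g 10 = t
      linarith
    · rw [sum_filter]
      show g 15 = t
      linarith

end Pool.Agent.H80.IR.WT
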