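import Pool.Agent.H80.IR.T.PAIR
import Pool.Agent.H80.IR.T.ALL
set_option autoImplicit false

/-! # The knots with last pair `(6,5)`: the exceptional case occurs for `T(6,5)` only -/

namespace Pool.Agent.H80.IR.SIX

open Pool.Agent.H80.Sig Finset Pool.Agent.H80.IR.XC

/-- `JK` of a nonempty list -/
lemma JK_eq {X : List (ℕ × ℕ)} (h : X ≠ []) (x : ℝ) :
    (JK X x : ℝ) = J (hd1 X) (hd2 X) x + JK X.tail ((hd1 X : ℕ) * x) := by
  conv_lhs => rw [list_eq h]
  simp only [JK]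
  push_cast; ring

/-- the part which depends on the product only -/
noncomputable def B (N : ℕ) (x : ℝ) : ℤ :=
  if N = 30 then J 5 6 x else if N = 6 then J 2 3 x else if N = 10 then J 2 5 x else J 3 5 x

/-- the part of the tail -/
noncomputable def g (X : List (ℕ × ℕ)) (x : ℝ) : ℤ :=
  if hd1 X = 5 then JK X.tail ((5 : ℕ) * x) else if hd1 X = 6 then JK X.tail ((6 : ℕ) * x) else 0

lemma JK_nil (x : ℝ) : JK [] x = 0 := rfl

lemma JK_cases {X : List (ℕ × ℕ)} (h : X ≠ []) (hV : Valid X)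
    (hN : lastProd X = 6 ∨ lastProd X = 10 ∨ lastProd X = 15 ∨ lastProd X = 30)
    (h2 : hd1 X = 2 → X.tail = []) (h3 : hd1 X = 3 → X.tail = [])
    (h30 : lastProd X = 30 → (hd1 X = 5 ∧ hd2 X = 6) ∨ (hd1 X = 6 ∧ hd2 X = 5)) (x : ℝ) :
    (JK X x : ℝ) = B (lastProd X) x + g X x := by
  have hh := head_prop h hV
  have hL := lastProd_eq h
  rw [JK_eq h]
  rcases hN with h6 | h10 | h15 | h30'
  · rcases six (hL.symm.trans h6) hh.2.1 hh.2.2 with ⟨e1, e2⟩ | ⟨e1, e2⟩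
    · rw [h6, e1, e2, h2 e1]; simp [B, g, e1, JK_nil]
    · rw [h6, e1, e2, h3 e1, J_swap 3 2]; simp [B, g, e1, JK_nil]
  · rcases ten (hL.symm.trans h10) hh.2.1 hh.2.2 with ⟨e1, e2⟩ | ⟨e1, e2⟩
    · rw [h10, e1, e2, h2 e1]; simp [B, g, e1, JK_nil]
    · rw [h10, e1, e2, J_swap 5 2]; simp [B, g, e1]
  · rcases fifteen (hL.symm.trans h15) hh.2.1 hh.2.2 with ⟨e1, e2⟩ | ⟨e1, e2⟩
    · rw [h15, e1, e2, h3 e1]; simp [B, g, e1, JK_nil]
    · rw [h15, e1, e2, J_swap 5 3]; simp [B, g, e1]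
  · rcases h30 h30' with ⟨e1, e2⟩ | ⟨e1, e2⟩
    · rw [h30', e1, e2]; simp [B, g, e1]
    · rw [h30', e1, e2, J_swap 6 5]; simp [B, g, e1]

/-- the Fourier coefficients of a relation -/
lemma ft_rel {ι : Type} {S : Finset ι} {c : ι → ℝ} {t : ℝ} {a b : ℝ → ℤ} {f : ι → ℝ → ℤ}
    (h : ∀ x : ℝ, (a x : ℝ) + t * (b x : ℝ) = ∑ i ∈ S, c i * (f i x : ℝ)) (M n : ℕ) :
    Ft M a n + (t : ℂ) * Ft M b n = ∑ i ∈ S, (c i : ℂ) * Ft M (f i) n := by
  unfold Ft
  simp_rw [Finset.mul_sum]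
  rw [Finset.sum_comm, ← sum_add_distrib]
  refine sum_congr rfl fun k _ => ?_
  have h1 : ((a ((k : ℝ) / M) : ℤ) : ℂ) + (t : ℂ) * ((b ((k : ℝ) / M) : ℤ) : ℂ) =
      ∑ i ∈ S, (c i : ℂ) * ((f i ((k : ℝ) / M) : ℤ) : ℂ) := by
    exact_mod_cast congrArg (fun r : ℝ => (r : ℂ)) (h (k / M))
  have h2 : ∑ i ∈ S, (c i : ℂ) * (((f i ((k : ℝ) / M) : ℤ) : ℂ) * ee ((n : ℝ) * (k / M))) =
      (∑ i ∈ S, (c i : ℂ) * ((f i ((k : ℝ) / M) : ℤ) : ℂ)) * ee ((n : ℝ) * (k / M)) := by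
    rw [Finset.sum_mul]
    refine sum_congr rfl fun i _ => by ring
  rw [h2, ← h1]
  ring

theorem six_nil (hKLP : S_KLP) (hX : S_EXJ) (hE2 : S_E2R) (hE3 : S_E3R) {ι : Type} {S : Finset ι}
    {K : List (ℕ × ℕ)} {K' : ι → List (ℕ × ℕ)} {c : ι → ℝ} {t : ℝ} (hR : PosRel S K K' c)
    (hW : Wt S K K' c t) (h6 : hd1 K = 6) (h5 : hd2 K = 5) : K.tail = [] := by
  classical
  by_contra hne
  have hR' := hR
  have hW' := hW
  obtain ⟨hK, vK, hV, hrel⟩ := hR'
  obtain ⟨ht, hK30, hprod, hs30, hs6, hs10, hs15⟩ := hW'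
  set P : ℕ := lev K * ∏ i ∈ S, lev (K' i) with hPdef
  have hP0 : 0 < P := Nat.mul_pos (lev_pos vK) (Finset.prod_pos fun i hi => lev_pos (hV i hi).2.1)
  set M : ℕ := 900 * P with hMdef
  have hM : 0 < M := by omega
  have hM900 : 900 ∣ M := Dvd.intro _ rfl
  have hKP : lev K ∣ P := Dvd.intro _ rfl
  have hlevP : ∀ i ∈ S, lev (K' i) ∣ P := fun i hi =>
    (dvd_prod_of_mem (fun i => lev (K' i)) hi).trans (Dvd.intro_left (lev K) rfl)
  have hPM : P ∣ M := Dvd.intro_left 900 rfl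
  have hKM : lev K ∣ M := hKP.trans hPM
  have hlev : ∀ i ∈ S, lev (K' i) ∣ M := fun i hi => (hlevP i hi).trans hPM
  have e2 : PAIR.ER S K K' c M 2 15 := hE2 ι S K K' c t M hR hW hM hM900 hKM hlev
  have e3 : PAIR.ER S K K' c M 3 10 := hE3 ι S K K' c t M hR hW hM hM900 hKM hlev
  have h15 : 15 ∣ M := (by norm_num : 15 ∣ 900).trans hM900
  have h10 : 10 ∣ M := (by norm_num : 10 ∣ 900).trans hM900
  have hvt : ∀ i ∈ S, Valid (K' i).tail := fun i hi => tail_valid (hV i hi).1 (hV i hi).2.1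
  have n2 := PAIR.none hM h15 hV hlev (by norm_num) (by norm_num) (by norm_num) e2
    (by omega : hd1 K ≠ 2) (by omega : hd2 K ≠ 2)
  have n3 := PAIR.none hM h10 hV hlev (by norm_num) (by norm_num) (by norm_num) e3
    (by omega : hd1 K ≠ 3) (by omega : hd2 K ≠ 3)
  -- no tails after `2` and `3`
  have nil : ∀ l f : ℕ, PAIR.ER S K K' c M l f → hd1 K ≠ l → hd2 K ≠ l →
      (∀ i ∈ S, lastProd (K' i) = 30 → hd1 (K' i) ≠ l ∧ hd2 (K' i) ≠ l) →
      ∀ i ∈ S, hd1 (K' i) = l → (K' i).tail = [] := by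
    intro l f he hl1 hl2 hn i hi hil
    have h := he 1 (Nat.coprime_one_left M)
    rw [PAIR.split, if_neg hl1, if_neg (by tauto)] at h
    have hemp : (S.filter fun i => lastProd (K' i) = 30 ∧ (hd1 (K' i) = l ∨ hd2 (K' i) = l)) = ∅ := by
      rw [filter_eq_empty_iff]
      intro j hj hc
      have := hn j hj hc.1
      rcases hc.2 with h1 | h1
      · exact this.1 h1
      · exact this.2 h1
    rw [hemp, sum_empty, zero_mul, sub_zero, sub_zero] at h
    exact ALL.all_nil (T := S.filter fun i => hd1 (K' i) = l) (Y := fun i => (K' i).tail)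
      (fun i hi => ⟨hvt i (mem_filter.1 hi).1, (hV i (mem_filter.1 hi).1).2.2⟩) h.symm i
      (mem_filter.2 ⟨hi, hil⟩)
  have t2 := nil 2 15 e2 (by omega) (by omega) n2
  have t3 := nil 3 10 e3 (by omega) (by omega) n3
  have pair : ∀ i ∈ S, lastProd (K' i) = 30 →
      ((hd1 (K' i) = 5 ∧ hd2 (K' i) = 6) ∨ (hd1 (K' i) = 6 ∧ hd2 (K' i) = 5)) := by
    intro i hi h
    have h1 := n2 i hi h
    have h2 := n3 i hi h
    rw [lastProd_eq (hV i hi).1] at h
    have h3 := head_prop (hV i hi).1 (hV i hi).2.1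
    rcases prod_thirty h h3.2.1 h3.2.2 with h4 | h4 | h4 <;> omega
  -- the relation for the tails
  have key : ∀ x : ℝ, ((fun x => JK K.tail ((6 : ℕ) * x)) x : ℝ) +
      t * (((fun x => J 2 3 ((5 : ℕ) * x)) x : ℤ) : ℝ) = ∑ i ∈ S, c i * (g (K' i) x : ℝ) := by
    intro x
    have h1 := hrel x
    have h2 : ∀ i ∈ S, c i * (JK (K' i) x : ℝ) =
        ((if lastProd (K' i) = 30 then c i else 0) * (J 5 6 x : ℝ) +
        (if lastProd (K' i) = 6 then c i else 0) * (J 2 3 x : ℝ) +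
        (if lastProd (K' i) = 10 then c i else 0) * (J 2 5 x : ℝ) +
        (if lastProd (K' i) = 15 then c i else 0) * (J 3 5 x : ℝ)) + c i * (g (K' i) x : ℝ) := by
      intro i hi
      rw [JK_cases (hV i hi).1 (hV i hi).2.1 (hprod i hi) (t2 i hi) (t3 i hi) (pair i hi) x]
      rcases hprod i hi with h | h | h | h
      all_goals
        rw [h]
        norm_num [B]
        try ring
    rw [Finset.sum_congr rfl h2, Finset.sum_add_distrib, Finset.sum_add_distrib,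
      Finset.sum_add_distrib, Finset.sum_add_distrib, ← Finset.sum_mul, ← Finset.sum_mul,
      ← Finset.sum_mul, ← Finset.sum_mul, ← Finset.sum_filter, ← Finset.sum_filter,
      ← Finset.sum_filter, ← Finset.sum_filter, hs30, hs6, hs10, hs15, JK_eq hK, h6, h5,
      J_swap 6 5] at h1
    have h3 : (J 5 6 x : ℝ) = J 2 3 x + J 2 5 x + J 3 5 x + J 2 3 (5 * x) := by
      exact_mod_cast congrArg (fun z : ℤ => (z : ℝ)) (hX x)
    have h4 : t * (J 5 6 x : ℝ) = t * (J 2 3 x + J 2 5 x + J 3 5 x + J 2 3 (5 * x)) := by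
      rw [h3]
    push_cast
    push_cast at h1
    linarith
  -- Fourier coefficients
  obtain ⟨N6, hN6⟩ : ∃ N6, N6 = 150 * P := ⟨_, rfl⟩
  obtain ⟨N5, hN5⟩ : ∃ N5, N5 = 180 * P := ⟨_, rfl⟩
  have hN60 : 0 < N6 := by omega
  have hN50 : 0 < N5 := by omega
  have m6 : M = N6 * 6 := by rw [hMdef, hN6]; ring
  have m5 : M = N5 * 5 := by rw [hMdef, hN5]; ring
  have hPN6 : P ∣ N6 := by rw [hN6]; exact Dvd.intro_left _ rfl
  have E : ∀ u : ℕ, u.Coprime M → kap K.tail u = ∑ i ∈ S with hd1 (K' i) = 6, c i * kap (K' i).tail u := by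
    intro u hu
    have h5u : ¬ 5 ∣ 6 * u := by
      intro h
      have h1 : 5 ∣ u := (Nat.Coprime.dvd_of_dvd_mul_left (by norm_num) h)
      have h2 : 5 ∣ Nat.gcd u M := Nat.dvd_gcd h1 ((by norm_num : 5 ∣ 900).trans hM900)
      rw [hu] at h2
      norm_num at h2
    have hu6 : u.Coprime N6 := Nat.Coprime.coprime_dvd_right (by rw [m6]; exact Dvd.intro _ rfl) hu
    have f6 : ∀ X : List (ℕ × ℕ), X ≠ [] → Valid X → lev X ∣ P →
        Ft M (fun x => JK X.tail ((6 : ℕ) * x)) (6 * u) = 6 * (Complex.I * (kap X.tail u : ℂ)) := by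
      intro X hXn hXv hXP
      rw [m6, Ft_comp (fun x k => JK_add_int X.tail x k) (by norm_num : 0 < 6) hN60,
        if_pos (Dvd.intro _ rfl), Nat.mul_div_cancel_left _ (by norm_num : 0 < 6),
        Ft_JK_unit (tail_valid hXn hXv) hN60 ((lev_cons_dvd hXn).2.trans (hXP.trans hPN6)) hu6]
      push_cast; ring
    have f5 : ∀ X : List (ℕ × ℕ),
        Ft M (fun x => JK X ((5 : ℕ) * x)) (6 * u) = 0 := by
      intro X
      rw [m5, Ft_comp (fun x k => JK_add_int X x k) (by norm_num : 0 < 5) hN50, if_neg h5u]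
    have f5' : Ft M (fun x => J 2 3 ((5 : ℕ) * x)) (6 * u) = 0 := by
      rw [m5, Ft_comp (fun x k => J_add_int 2 3 x k) (by norm_num : 0 < 5) hN50, if_neg h5u]
    have h1 := ft_rel key M (6 * u)
    rw [f6 K hK vK hKP, f5', mul_zero, add_zero] at h1
    have h2 : ∀ i ∈ S, (c i : ℂ) * Ft M (g (K' i)) (6 * u) =
        6 * (Complex.I * ((if hd1 (K' i) = 6 then c i * kap (K' i).tail u else 0 : ℝ) : ℂ)) := by
      intro i hi
      by_cases a5 : hd1 (K' i) = 5
      · have hg : g (K' i) = fun x => JK (K' i).tail ((5 : ℕ) * x) := by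
          funext x; simp [g, a5]
        rw [hg, f5, if_neg (by omega)]
        simp
      · by_cases a6 : hd1 (K' i) = 6
        · have hg : g (K' i) = fun x => JK (K' i).tail ((6 : ℕ) * x) := by
            funext x; simp [g, a6]
          rw [hg, f6 (K' i) (hV i hi).1 (hV i hi).2.1 (hlevP i hi), if_pos a6]
          push_cast; ring
        · have hg : g (K' i) = fun _ => 0 := by
            funext x; simp [g, a5, a6]
          rw [hg, if_neg a6]
          simp [Ft]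
    rw [Finset.sum_congr rfl h2, ← Finset.mul_sum, ← Finset.mul_sum] at h1
    have h3 := mul_left_cancel₀ (by norm_num : (6 : ℂ) ≠ 0) h1
    have h4 := mul_left_cancel₀ Complex.I_ne_zero h3
    rw [sum_filter]
    exact_mod_cast h4
  set T : Finset ι := S.filter fun i => hd1 (K' i) = 6 ∧ (K' i).tail ≠ [] with hT
  have hTS : T ⊆ S := filter_subset _ _
  have hTrel : ∀ u : ℕ, u.Coprime M → kap K.tail u = ∑ i ∈ T, c i * kap (K' i).tail u := by
    intro u hu
    rw [E u hu, sum_filter, hT, sum_filter]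
    refine sum_congr rfl fun i _ => ?_
    by_cases h1 : hd1 (K' i) = 6
    · by_cases h2 : (K' i).tail = []
      · rw [if_pos h1, if_neg (fun h => h.2 h2), h2]; simp [kap]
      · rw [if_pos h1, if_pos ⟨h1, h2⟩]
    · rw [if_neg h1, if_neg (fun h => h1 h.1)]
  have hTle : ∑ i ∈ T, c i ≤ 1 - t := by
    rw [← hs30]
    refine Finset.sum_le_sum_of_subset_of_nonneg ?_ fun i hi _ => (hV i (mem_filter.1 hi).1).2.2.le
    intro i hi
    obtain ⟨hiS, h1, -⟩ := mem_filter.1 hi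
    refine mem_filter.2 ⟨hiS, ?_⟩
    have h2 := lastProd_eq (hV i hiS).1
    rw [h1] at h2
    have h3 := (head_prop (hV i hiS).1 (hV i hiS).2.1).2.2
    rcases hprod i hiS with h | h | h | h <;> omega
  have hk := (hKLP ι T K.tail (fun i => (K' i).tail) c M hM hne (tail_valid hK vK)
    ((lev_cons_dvd hK).2.trans hKM)
    (fun i hi => ⟨(mem_filter.1 hi).2.2, hvt i (hTS hi),
      (lev_cons_dvd (hV i (hTS hi)).1).2.trans (hlev i (hTS hi)), (hV i (hTS hi)).2.2⟩)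
    (by linarith) hTrel).2
  linarith

end Pool.Agent.H80.IR.SIX
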