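import Pool.Agent.H80.IR.Stm
set_option autoImplicit false

/-!
# Bounds for cotangents (helper73)
-/

namespace Pool.Agent.H80.IR.CotB

open Pool.Agent.H80.Sig

lemma cot_bd (hc : S_COT) {y a b : ℝ} (ha : 0 < a) (h1 : a ≤ y) (h2 : y ≤ b) (hb : b ≤ 3 / 5) :
    1 / b - b / 3 - b ^ 3 / 40 ≤ Real.cos y / Real.sin y ∧
      Real.cos y / Real.sin y ≤ 1 / a - a / 3 := by
  have hy : 0 < y := lt_of_lt_of_le ha h1
  obtain ⟨h3, h4⟩ := hc y hy (h2.trans hb)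
  have h5 : 1 / b ≤ 1 / y := one_div_le_one_div_of_le hy h2
  have h6 : 1 / y ≤ 1 / a := one_div_le_one_div_of_le ha h1
  have h7 : y ^ 3 ≤ b ^ 3 := pow_le_pow_left₀ hy.le h2 3
  constructor <;> linarith

/-- `ct N h` between numbers given by `a ≤ π h / N ≤ b`. -/
lemma ct_bd (hc : S_COT) (N h : ℕ) (hN : 0 < N) {a b : ℝ} (ha : 0 < a)
    (h1 : a * N ≤ 3.14159 * h) (h2 : (3.1416 : ℝ) * h ≤ b * N) (hb : b ≤ 3 / 5) :
    1 / b - b / 3 - b ^ 3 / 40 ≤ ct N h ∧ ct N h ≤ 1 / a - a / 3 := by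
  have hN' : (0 : ℝ) < N := by exact_mod_cast hN
  have hh : (0 : ℝ) ≤ h := Nat.cast_nonneg _
  have hp1 : (3.14159 : ℝ) < Real.pi := by
    have := Real.pi_gt_d6
    linarith
  have hp2 : Real.pi < (3.1416 : ℝ) := by
    have := Real.pi_lt_d6
    linarith
  apply cot_bd hc ha _ _ hb
  · rw [mul_div_assoc', le_div_iff₀ hN']
    nlinarith
  · rw [mul_div_assoc', div_le_iff₀ hN']
    nlinarith

/-- `cot y < 1 / y` -/
lemma cot_lt_inv {y : ℝ} (hy : 0 < y) (h : y < Real.pi / 2) :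
    Real.cos y / Real.sin y < 1 / y := by
  have h1 := Real.lt_tan hy h
  have h2 : 0 < Real.cos y := Real.cos_pos_of_mem_Ioo ⟨by linarith [Real.pi_pos], h⟩
  have h3 : 0 < Real.sin y := Real.sin_pos_of_pos_of_lt_pi hy (by linarith [Real.pi_pos])
  rw [Real.tan_eq_sin_div_cos, lt_div_iff₀ h2] at h1
  rw [div_lt_div_iff₀ h3 hy]
  linarith

lemma ct_mono {N N' : ℕ} (h' : N ≤ N') (h2 : 2 ≤ N) : ct N 1 ≤ ct N' 1 := by
  rcases eq_or_lt_of_le h' with h3 | h3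
  · rw [h3]
  · exact (ct_lt_gen one_pos (by omega) (by omega)).le

/-- `cot (π / 2m) - cot (π / m) = 1 / sin (π / m)` -/
lemma ct_sub {m : ℕ} (hm : 2 ≤ m) :
    ct (2 * m) 1 - ct m 1 = 1 / Real.sin (Real.pi / m) := by
  have hm0 : (0 : ℝ) < m := by exact_mod_cast (by omega : 0 < m)
  have hm2 : (2 : ℝ) ≤ m := by exact_mod_cast hm
  set y : ℝ := Real.pi / (2 * m) with hy
  have e1 : Real.pi * (((1 : ℕ) : ℝ) / ((2 * m : ℕ) : ℝ)) = y := by
    rw [hy]; push_cast; ring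
  have e2 : Real.pi * (((1 : ℕ) : ℝ) / m) = 2 * y := by
    rw [hy]; push_cast; field_simp
  have e3 : Real.pi / m = 2 * y := by
    rw [hy]; field_simp
  have hy0 : 0 < y := by rw [hy]; positivity
  have hy1 : 4 * y ≤ Real.pi := by
    rw [hy, mul_div_assoc', div_le_iff₀ (by positivity)]
    nlinarith [Real.pi_pos]
  have hs1 : 0 < Real.sin y := Real.sin_pos_of_pos_of_lt_pi hy0 (by linarith)
  have hc1 : 0 < Real.cos y := Real.cos_pos_of_mem_Ioo ⟨by linarith, by linarith⟩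
  unfold ct
  rw [e1, e2, e3, Real.sin_two_mul, Real.cos_two_mul]
  field_simp
  ring

/-- `m / π ≤ cot (π / 2m) - cot (π / m)` -/
lemma ct_sub_ge {m : ℕ} (hm : 2 ≤ m) : (m : ℝ) / Real.pi ≤ ct (2 * m) 1 - ct m 1 := by
  have hm0 : (0 : ℝ) < m := by exact_mod_cast (by omega : 0 < m)
  have hm2 : (2 : ℝ) ≤ m := by exact_mod_cast hm
  rw [ct_sub hm]
  have hx0 : 0 < Real.pi / m := by positivity
  have hx1 : Real.pi / m < Real.pi := by
    rw [div_lt_iff₀ hm0]; nlinarith [Real.pi_pos]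
  have h1 : Real.sin (Real.pi / m) ≤ Real.pi / m := (Real.sin_lt hx0).le
  have h2 : 0 < Real.sin (Real.pi / m) := Real.sin_pos_of_pos_of_lt_pi hx0 hx1
  have h3 := one_div_le_one_div_of_le h2 h1
  rwa [one_div_div] at h3

/-- an upper bound for `cot (π / 2m) - cot (π / m)` -/
lemma ct_sub_le {m : ℕ} (hm : 4 ≤ m) {a : ℝ} (ha : 0 < a) (h1 : a * m ≤ 3.14159) (h2 : a ≤ 1) :
    ct (2 * m) 1 - ct m 1 ≤ 1 / (a - a ^ 3 / 6) := by
  have hm0 : (0 : ℝ) < m := by exact_mod_cast (by omega : 0 < m)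
  have hm2 : (4 : ℝ) ≤ m := by exact_mod_cast hm
  have hp1 : (3.14159 : ℝ) < Real.pi := by
    have := Real.pi_gt_d6
    linarith
  rw [ct_sub (by omega)]
  have hx0 : a ≤ Real.pi / m := by
    rw [le_div_iff₀ hm0]; linarith
  have hx1 : Real.pi / m ≤ Real.pi / 2 := by
    rw [div_le_div_iff₀ hm0 (by norm_num)]; nlinarith [Real.pi_pos]
  have h3 := Real.sin_gt_sub_cube ha
  have h4 : Real.sin a ≤ Real.sin (Real.pi / m) := by
    apply Real.sin_le_sin_of_le_of_le_pi_div_two _ hx1 hx0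
    linarith [Real.pi_pos]
  have h5 : 0 < a - a ^ 3 / 6 := by nlinarith [pow_pos ha 3, mul_pos ha ha]
  exact one_div_le_one_div_of_le h5 (h3.le.trans h4)

/-- `cot (π / N) ≤ N / π` -/
lemma ct_le_div {N : ℕ} (hN : 3 ≤ N) : ct N 1 ≤ (N : ℝ) / Real.pi := by
  have hm0 : (0 : ℝ) < N := by exact_mod_cast (by omega : 0 < N)
  have hm2 : (3 : ℝ) ≤ N := by exact_mod_cast hN
  have e1 : Real.pi * (((1 : ℕ) : ℝ) / N) = Real.pi / N := by push_cast; ring
  have hx0 : 0 < Real.pi / N := by positivity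
  have hx1 : Real.pi / N < Real.pi / 2 := by
    rw [div_lt_div_iff₀ hm0 (by norm_num)]; nlinarith [Real.pi_pos]
  have h := cot_lt_inv hx0 hx1
  rw [one_div_div] at h
  unfold ct
  rw [e1]
  exact h.le

end Pool.Agent.H80.IR.CotB
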