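import Pool.Agent.H80.IR.Stm3
set_option autoImplicit false

/-!
# Project IR, statement LIN
-/

namespace Pool.Agent.H80.IR.LIN

open Pool.Agent.H80.Sig Finset

lemma half {N h : ℕ} (h0 : 0 < h) (h1 : 2 * h < N) : ct N (2 * h) < ct N h / 2 := by
  have a : (0 : ℝ) < N := by exact_mod_cast (by omega : 0 < N)
  have b : (0 : ℝ) < h := by exact_mod_cast h0
  have c : (2 : ℝ) * h < N := by exact_mod_cast h1
  obtain ⟨y, hy⟩ : ∃ y : ℝ, y = Real.pi * ((h : ℝ) / N) := ⟨_, rfl⟩
  have hx : 0 < y := by rw [hy]; exact mul_pos Real.pi_pos (div_pos b a)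
  have hx2 : y < Real.pi / 2 := by
    have h2 : (h : ℝ) / N < 1 / 2 := by rw [div_lt_div_iff₀ a two_pos]; linarith
    rw [hy]
    calc Real.pi * ((h : ℝ) / N) < Real.pi * (1 / 2) := mul_lt_mul_of_pos_left h2 Real.pi_pos
      _ = Real.pi / 2 := by ring
  have hs : 0 < Real.sin y := Real.sin_pos_of_pos_of_lt_pi hx (by linarith [Real.pi_pos])
  have hc : 0 < Real.cos y := Real.cos_pos_of_mem_Ioo ⟨by linarith [Real.pi_pos], hx2⟩
  unfold ct
  have e : Real.pi * (((2 * h : ℕ) : ℝ) / N) = 2 * y := by rw [hy]; push_cast; ring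
  rw [e, ← hy, Real.cos_two_mul, Real.sin_two_mul, div_div, div_lt_div_iff₀ (by positivity) (by positivity)]
  have h3 := Real.sin_sq_add_cos_sq y
  have h4 : Real.cos y ^ 2 < 1 := by nlinarith
  have h5 : 0 < Real.sin y * 2 := by positivity
  calc (2 * Real.cos y ^ 2 - 1) * (Real.sin y * 2) < Real.cos y ^ 2 * (Real.sin y * 2) := by
        apply mul_lt_mul_of_pos_right _ h5
        linarith
    _ = Real.cos y * (2 * Real.sin y * Real.cos y) := by ring

lemma vals : ct 15 11 = - ct 15 4 ∧ ct 15 13 = - ct 15 2 ∧ ct 15 14 = - ct 15 1 ∧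
    ct 15 22 = ct 15 7 ∧ ct 15 26 = - ct 15 4 ∧ ct 10 7 = - ct 10 3 ∧ ct 10 11 = ct 10 1 ∧
    ct 10 13 = ct 10 3 ∧ ct 6 7 = ct 6 1 ∧ ct 6 11 = - ct 6 1 ∧ ct 6 13 = ct 6 1 ∧
    ct 10 21 = ct 10 1 ∧ ct 10 33 = ct 10 3 ∧ ct 10 39 = - ct 10 1 := by
  refine ⟨ct_neg (N := 15) (h := 4) (by norm_num) (by norm_num),
    ct_neg (N := 15) (h := 2) (by norm_num) (by norm_num),
    ct_neg (N := 15) (h := 1) (by norm_num) (by norm_num),
    ct_congr (by norm_num) (by decide), ?_,
    ct_neg (N := 10) (h := 3) (by norm_num) (by norm_num),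
    ct_congr (by norm_num) (by decide), ct_congr (by norm_num) (by decide),
    ct_congr (by norm_num) (by decide), ?_, ct_congr (by norm_num) (by decide),
    ct_congr (by norm_num) (by decide), ct_congr (by norm_num) (by decide), ?_⟩
  · rw [ct_congr (N := 15) (by norm_num) (show 26 ≡ 11 [MOD 15] by decide)]
    exact ct_neg (N := 15) (h := 4) (by norm_num) (by norm_num)
  · rw [ct_congr (N := 6) (by norm_num) (show 11 ≡ 5 [MOD 6] by decide)]
    exact ct_neg (N := 6) (h := 1) (by norm_num) (by norm_num)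
  · rw [ct_congr (N := 10) (by norm_num) (show 39 ≡ 9 [MOD 10] by decide)]
    exact ct_neg (N := 10) (h := 1) (by norm_num) (by norm_num)

lemma ineqs : 0 < ct 15 7 ∧ ct 15 2 + ct 15 4 + ct 15 7 < ct 15 1 ∧ 0 < ct 15 2 ∧ 0 < ct 15 4 ∧
    0 < ct 10 1 ∧ 0 < ct 10 3 := by
  have h1 := half (N := 15) (h := 1) (by norm_num) (by norm_num)
  have h2 := half (N := 15) (h := 2) (by norm_num) (by norm_num)
  have h3 := ct_lt (N := 15) (h := 4) (h' := 7) (by norm_num) (by norm_num) (by norm_num)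
  norm_num at h1 h2
  refine ⟨ct_pos (by norm_num) (by norm_num), by linarith, ct_pos (by norm_num) (by norm_num),
    ct_pos (by norm_num) (by norm_num), ct_pos (by norm_num) (by norm_num),
    ct_pos (by norm_num) (by norm_num)⟩

theorem main : S_LIN := by
  obtain ⟨v1, v2, v3, v4, v5, v6, v7, v8, v9, v10, v11, v12, v13, v14⟩ := vals
  obtain ⟨i1, i2, i3, i4, i5, i6⟩ := ineqs
  have hS : 0 < ct 15 1 - ct 15 7 + ct 15 4 + ct 15 2 := by linarith
  constructor
  · rintro ⟨X, Y, Z, t, ht, h⟩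
    have h1 := h 1 (by simp)
    have h7 := h 7 (by simp)
    have h11 := h 11 (by simp)
    have h13 := h 13 (by simp)
    norm_num at h1 h7 h11 h13
    rw [v3, v6, v9] at h7
    rw [v1, v4, v7, v10] at h11
    rw [v2, v5, v8, v11] at h13
    have hX : X = t := by
      have h5 : (X - t) * (ct 15 1 - ct 15 7 + ct 15 4 + ct 15 2) = 0 := by
        linear_combination h1 - h7 - h11 - h13
      rcases mul_eq_zero.1 h5 with h6 | h6
      · linarith
      · exact absurd h6 hS.ne'
    subst hX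
    have e1 : 2 * ct 10 1 * Y = X * ((ct 15 7 + ct 15 2) - (ct 15 1 - ct 15 4)) := by
      linear_combination h1 + h11
    have e2 : 2 * ct 10 3 * Y = X * ((ct 15 1 - ct 15 4) + (ct 15 7 + ct 15 2)) := by
      linear_combination h13 - h7
    have e3 : 0 < Y := by
      have h5 : 0 < 2 * ct 10 3 * Y := by
        rw [e2]; exact mul_pos ht (by linarith)
      exact pos_of_mul_pos_right h5 (by linarith)
    have e4 : 2 * ct 10 1 * Y < 0 := by
      rw [e1]; exact mul_neg_of_pos_of_neg ht (by linarith)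
    have e5 : 0 < 2 * ct 10 1 * Y := by positivity
    linarith
  · rintro ⟨X, Y, Z, t, ht, h⟩
    have h1 := h 1 (by simp)
    have h7 := h 7 (by simp)
    have h11 := h 11 (by simp)
    have h13 := h 13 (by simp)
    norm_num at h1 h7 h11 h13
    rw [v6, v9, v12] at h7
    rw [v1, v7, v10, v13] at h11
    rw [v2, v8, v11, v14] at h13
    have hX : X = 0 := by
      have h5 : X * (ct 15 1 - ct 15 7 + ct 15 4 + ct 15 2) = 0 := by
        linear_combination h1 - h7 - h11 - h13
      rcases mul_eq_zero.1 h5 with h6 | h6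
      · exact h6
      · exact absurd h6 hS.ne'
    subst hX
    have e1 : 2 * ct 10 1 * Y = 2 * t * ct 10 3 := by
      linear_combination h1 + h11
    have e2 : 2 * ct 10 3 * Y = - (2 * t * ct 10 1) := by
      linear_combination h13 - h7
    have e3 : 0 < Y := by
      have h5 : 0 < 2 * ct 10 1 * Y := by
        rw [e1]; positivity
      exact pos_of_mul_pos_right h5 (by linarith)
    have e4 : 0 < 2 * ct 10 3 * Y := by positivity
    have e5 : 0 < 2 * t * ct 10 1 := by positivity
    linarith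

end Pool.Agent.H80.IR.LIN
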