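import Pool.Agent.H80.IR.Stm
set_option autoImplicit false

/-!
# Project IR, stub POS
-/

namespace Pool.Agent.H80.IR.POS

open Pool.Agent.H80.Sig Finset

lemma one (hF : S_FMIN) {Z : List (ℕ × ℕ)} {c : ℕ} (hc : 0 < c) (hZ : Valid Z)
    (h : ∀ x : ℝ, JK Z (c * x) = 0) : Z = [] := by
  by_contra hne
  have hl := lev_pos hZ
  have h1 := hF 1 (fun _ => Z) (fun _ => c) (fun _ => 1) c (c * lev Z) hc (Nat.mul_pos hc hl)
    (fun _ => hZ) (fun _ => le_rfl) (fun _ => dvd_rfl) (fun x => by simp [h x]) 1
    (Nat.coprime_one_left _)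
  simp at h1
  exact (kap_pos hZ hne).ne' h1

theorem main (hF : S_FMIN) : S_POS := by
  intro Y Z b c hb hc hY hZ h
  by_cases hYe : Y = []
  · subst hYe
    refine ⟨rfl, one hF hc hZ fun x => ?_⟩
    have := h x
    simpa [JK] using this
  by_cases hZe : Z = []
  · subst hZe
    refine ⟨one hF hb hY fun x => ?_, rfl⟩
    have := h x
    simpa [JK] using this
  exfalso
  have hl1 := lev_pos hY
  have hl2 := lev_pos hZ
  have h1 := hF 2 ![Y, Z] ![b, c] ![1, 1] (min b c) ((b * lev Y) * (c * lev Z))
    (lt_min hb hc) (by positivity)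
    (by intro i; fin_cases i <;> simp [hY, hZ])
    (by intro i; fin_cases i <;> simp)
    (by
      intro i
      fin_cases i
      · exact Dvd.intro _ rfl
      · exact Dvd.intro_left _ rfl)
    (fun x => by
      have := h x
      have h2 : ((JK Y (b * x) : ℝ)) + (JK Z (c * x) : ℝ) = 0 := by exact_mod_cast this
      simpa [Fin.sum_univ_two] using h2) 1 (Nat.coprime_one_left _)
  have k1 := kap_pos hY hYe
  have k2 := kap_pos hZ hZe
  rw [Fin.sum_univ_two] at h1
  simp only [Matrix.cons_val_zero, Matrix.cons_val_one, one_mul] at h1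
  rcases le_total b c with hbc | hbc
  · rw [min_eq_left hbc, if_pos rfl] at h1
    split_ifs at h1 <;> linarith
  · rw [min_eq_right hbc, if_pos (rfl : c = c)] at h1
    split_ifs at h1 <;> linarith

end Pool.Agent.H80.IR.POS
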