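import Pool.Agent.H80.IR.All
import Pool.Agent.H80.IR.Rays2
set_option autoImplicit false

/-! # The exceptional sums of three knots -/

namespace Pool.Agent.H80.IR.SEV

open Pool.Agent.H80.Sig Finset Pool.Agent.H80.IR.XC

theorem tails (hE2 : S_E2R) (hE3 : S_E3R) {ι : Type} {S : Finset ι}
    {K : List (ℕ × ℕ)} {K' : ι → List (ℕ × ℕ)} {c : ι → ℝ} {t : ℝ} (hR : PosRel S K K' c)
    (hW : Wt S K K' c t) (a1 : hd1 K ≠ 2) (a2 : hd2 K ≠ 2) (a3 : hd1 K ≠ 3) (a4 : hd2 K ≠ 3) :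
    ∀ i ∈ S, (hd1 (K' i) = 2 ∨ hd1 (K' i) = 3) → (K' i).tail = [] := by
  classical
  have hR' := hR
  have hW' := hW
  obtain ⟨hK, vK, hV, hrel⟩ := hR'
  obtain ⟨ht, hK30, hprod, hs30, hs6, hs10, hs15⟩ := hW'
  set P : ℕ := lev K * ∏ i ∈ S, lev (K' i) with hPdef
  have hP0 : 0 < P := Nat.mul_pos (lev_pos vK) (Finset.prod_pos fun i hi => lev_pos (hV i hi).2.1)
  set M : ℕ := 900 * P with hMdef
  have hM : 0 < M := by omega
  have hM900 : 900 ∣ M := Dvd.intro _ rfl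
  have hKP : lev K ∣ P := Dvd.intro _ rfl
  have hlevP : ∀ i ∈ S, lev (K' i) ∣ P := fun i hi =>
    (dvd_prod_of_mem (fun i => lev (K' i)) hi).trans (Dvd.intro_left (lev K) rfl)
  have hPM : P ∣ M := Dvd.intro_left 900 rfl
  have hKM : lev K ∣ M := hKP.trans hPM
  have hlev : ∀ i ∈ S, lev (K' i) ∣ M := fun i hi => (hlevP i hi).trans hPM
  have e2 : PAIR.ER S K K' c M 2 15 := hE2 ι S K K' c t M hR hW hM hM900 hKM hlev
  have e3 : PAIR.ER S K K' c M 3 10 := hE3 ι S K K' c t M hR hW hM hM900 hKM hlev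
  have h15 : 15 ∣ M := (by norm_num : 15 ∣ 900).trans hM900
  have h10 : 10 ∣ M := (by norm_num : 10 ∣ 900).trans hM900
  have hvt : ∀ i ∈ S, Valid (K' i).tail := fun i hi => tail_valid (hV i hi).1 (hV i hi).2.1
  have n2 := PAIR.none hM h15 hV hlev (by norm_num) (by norm_num) (by norm_num) e2 a1 a2
  have n3 := PAIR.none hM h10 hV hlev (by norm_num) (by norm_num) (by norm_num) e3 a3 a4
  have nil : ∀ l f : ℕ, PAIR.ER S K K' c M l f → hd1 K ≠ l → hd2 K ≠ l →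
      (∀ i ∈ S, lastProd (K' i) = 30 → hd1 (K' i) ≠ l ∧ hd2 (K' i) ≠ l) →
      ∀ i ∈ S, hd1 (K' i) = l → (K' i).tail = [] := by
    intro l f he hl1 hl2 hn i hi hil
    have h := he 1 (Nat.coprime_one_left M)
    rw [PAIR.split, if_neg hl1, if_neg (by tauto)] at h
    have hemp : (S.filter fun i => lastProd (K' i) = 30 ∧ (hd1 (K' i) = l ∨ hd2 (K' i) = l)) = ∅ := by
      rw [filter_eq_empty_iff]
      intro j hj hc
      have := hn j hj hc.1
      rcases hc.2 with h1 | h1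
      · exact this.1 h1
      · exact this.2 h1
    rw [hemp, sum_empty, zero_mul, sub_zero, sub_zero] at h
    exact ALL.all_nil (T := S.filter fun i => hd1 (K' i) = l) (Y := fun i => (K' i).tail)
      (fun i hi => ⟨hvt i (mem_filter.1 hi).1, (hV i (mem_filter.1 hi).1).2.2⟩) h.symm i
      (mem_filter.2 ⟨hi, hil⟩)
  rintro i hi (h | h)
  · exact nil 2 15 e2 a1 a2 n2 i hi h
  · exact nil 3 10 e3 a3 a4 n3 i hi h

/-- the description of the exceptional sums -/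
theorem sum_thm2 (K : List (ℕ × ℕ)) (n : ℕ) (K' : Fin n → List (ℕ × ℕ)) (hK : K ≠ [])
    (vK : Valid K) (hK' : ∀ i, K' i ≠ [] ∧ Valid (K' i))
    (hfin : {x : ℝ | x ∈ Set.Ioo (0 : ℝ) 1 ∧ sigK K x ≠ ∑ i, sigK (K' i) x}.Finite) :
    (n = 1 ∧ ∀ i, Same K (K' i)) ∨ (n = 3 ∧ ∃ i j k : Fin n, i ≠ j ∧ i ≠ k ∧ j ≠ k ∧
      (K' i = [(2, 3)] ∨ K' i = [(3, 2)]) ∧ ∃ L A B : List (ℕ × ℕ),
      (K = (5, 6) :: L ∨ K = [(6, 5)] ∧ L = []) ∧ (K' j = (5, 2) :: A ∨ K' j = [(2, 5)] ∧ A = []) ∧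
      (K' k = (5, 3) :: B ∨ K' k = [(3, 5)] ∧ B = []) ∧
      {x : ℝ | x ∈ Set.Ioo (0 : ℝ) 1 ∧ sigK [(2, 3)] x + sigK L x ≠ sigK A x + sigK B x}.Finite ∧
      ∑ i, gen2 (K' i) = gen2 K + 4) := by
  classical
  rcases sum_thm K n K' hK vK hK' hfin with h | ⟨hn, i, j, k, hij, hik, hjk, hi, hj, hk, hL, hg⟩
  · exact Or.inl h
  right
  refine ⟨hn, i, j, k, hij, hik, hjk, hi, ?_⟩
  subst hn
  have cop : ∀ {L : List (ℕ × ℕ)}, Valid L → Cop L := fun h c hc =>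
    ⟨(h c hc).1, by have := (h c hc).2.1; omega⟩
  have hrel : ∀ x : ℝ, (JK K x : ℝ) = ∑ i ∈ (univ : Finset (Fin 3)), (1 : ℝ) * (JK (K' i) x : ℝ) := by
    intro x
    have h := jump_relation (Finset.univ : Finset (Option (Fin 3)))
      (fun o => o.elim (1 : ℝ) (fun _ => -1)) (fun o => o.elim K K') ?_ ?_ x
    · rw [Fintype.sum_option] at h
      simp only [Option.elim] at h
      rw [one_mul] at h
      simp only [neg_mul, one_mul, sum_neg_distrib] at h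
      simp only [one_mul]
      linarith
    · rintro (_ | i) _
      · exact cop vK
      · exact cop (hK' i).2
    · refine hfin.subset ?_
      rintro y ⟨hy, hne⟩
      refine ⟨hy, fun heq => hne ?_⟩
      rw [Fintype.sum_option]
      simp only [Option.elim]
      rw [heq]
      push_cast
      simp only [neg_mul, one_mul, sum_neg_distrib]
      ring
  have hR : PosRel (univ : Finset (Fin 3)) K K' (fun _ => (1 : ℝ)) :=
    ⟨hK, vK, fun i _ => ⟨(hK' i).1, (hK' i).2, one_pos⟩, hrel⟩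
  rcases WT.main _ _ _ _ _ hR with h1 | ⟨t, ht⟩
  · exfalso
    norm_num at h1
  have hE2 : S_E2R := E2R.main FL.main EXJ.main
  have hE3 : S_E3R := E3R.main FL.main EXJ.main
  have hKs : (hd1 K = 5 ∧ hd2 K = 6) ∨ (hd1 K = 6 ∧ hd2 K = 5) := by
    obtain ⟨L, rfl | rfl⟩ := hL
    · exact Or.inl ⟨rfl, rfl⟩
    · exact Or.inr ⟨rfl, rfl⟩
  have ht2 := tails hE2 hE3 hR ht (by omega) (by omega) (by omega) (by omega)
  obtain ⟨L, hKL⟩ : ∃ L, K = (5, 6) :: L ∨ K = [(6, 5)] ∧ L = [] := by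
    have e := list_eq hK
    rcases hKs with ⟨h1, h2⟩ | ⟨h1, h2⟩
    · refine ⟨K.tail, Or.inl ?_⟩
      rw [h1, h2] at e
      exact e
    · refine ⟨[], Or.inr ⟨?_, rfl⟩⟩
      have h3 := SIX.six_nil KLP.main EXJ.main hE2 hE3 hR ht h1 h2
      rw [h1, h2, h3] at e
      exact e
  obtain ⟨A, hA⟩ : ∃ A, K' j = (5, 2) :: A ∨ K' j = [(2, 5)] ∧ A = [] := by
    have e := list_eq (hK' j).1
    have hh := head_prop (hK' j).1 (hK' j).2
    rcases ten ((lastProd_eq (hK' j).1).symm.trans hj) hh.2.1 hh.2.2 with ⟨h1, h2⟩ | ⟨h1, h2⟩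
    · refine ⟨[], Or.inr ⟨?_, rfl⟩⟩
      rw [h1, h2, ht2 j (mem_univ _) (Or.inl h1)] at e
      exact e
    · refine ⟨(K' j).tail, Or.inl ?_⟩
      rw [h1, h2] at e
      exact e
  obtain ⟨B, hB⟩ : ∃ B, K' k = (5, 3) :: B ∨ K' k = [(3, 5)] ∧ B = [] := by
    have e := list_eq (hK' k).1
    have hh := head_prop (hK' k).1 (hK' k).2
    rcases fifteen ((lastProd_eq (hK' k).1).symm.trans hk) hh.2.1 hh.2.2 with ⟨h1, h2⟩ | ⟨h1, h2⟩
    · refine ⟨[], Or.inr ⟨?_, rfl⟩⟩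
      rw [h1, h2, ht2 k (mem_univ _) (Or.inr h1)] at e
      exact e
    · refine ⟨(K' k).tail, Or.inl ?_⟩
      rw [h1, h2] at e
      exact e
  refine ⟨L, A, B, hKL, hA, hB, ?_, hg⟩
  refine ((hfin.union exceptional).image fun x => 5 * x).subset ?_
  rintro y ⟨hy, hne⟩
  refine ⟨y / 5, ?_, by ring⟩
  have hx : y / 5 ∈ Set.Ioo (0 : ℝ) 1 := by
    obtain ⟨h1, h2⟩ := hy
    constructor <;> linarith
  by_contra hcon
  have c1 : sigK K (y / 5) = ∑ i, sigK (K' i) (y / 5) := by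
    by_contra h
    exact hcon (Or.inl ⟨hx, h⟩)
  have c2 : sigK [(5, 6)] (y / 5) =
      sigK [(2, 3)] (y / 5) + sigK [(2, 5)] (y / 5) + sigK [(5, 3), (2, 3)] (y / 5) := by
    by_contra h
    exact hcon (Or.inr ⟨hx, h⟩)
  have hu : (Finset.univ : Finset (Fin 3)) = {i, j, k} :=
    (Finset.eq_univ_of_card _ (by
      rw [Finset.card_eq_three.2 ⟨i, j, k, hij, hik, hjk, rfl⟩]; simp)).symm
  have hsum : ∑ i, sigK (K' i) (y / 5) =
      sigK (K' i) (y / 5) + sigK (K' j) (y / 5) + sigK (K' k) (y / 5) := by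
    rw [hu, Finset.sum_insert (by simp [hij, hik]), Finset.sum_insert (by simp [hjk]),
      Finset.sum_singleton]
    ring
  have h5 : ((5 : ℕ) : ℝ) * (y / 5) = y := by push_cast; ring
  have v1 : sigK K (y / 5) = sig 5 6 (y / 5) + sigK L y := by
    rcases hKL with h | ⟨h, h'⟩
    · rw [h]; simp only [sigK]; rw [h5]
    · rw [h, h']; simp only [sigK]; rw [sig_swap 6 5]
  have v2 : sigK (K' i) (y / 5) = sig 2 3 (y / 5) := by
    rcases hi with h | h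
    · rw [h]; simp only [sigK]; ring
    · rw [h]; simp only [sigK]; rw [sig_swap 3 2]; ring
  have v3 : sigK (K' j) (y / 5) = sig 2 5 (y / 5) + sigK A y := by
    rcases hA with h | ⟨h, h'⟩
    · rw [h]; simp only [sigK]; rw [h5, sig_swap 5 2]
    · rw [h, h']; simp only [sigK]
  have v4 : sigK (K' k) (y / 5) = sig 5 3 (y / 5) + sigK B y := by
    rcases hB with h | ⟨h, h'⟩
    · rw [h]; simp only [sigK]; rw [h5]
    · rw [h, h']; simp only [sigK]; rw [sig_swap 3 5]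
  rw [hsum, v1, v2, v3, v4] at c1
  simp only [sigK] at c2
  rw [h5] at c2
  apply hne
  simp only [sigK]
  linarith

end Pool.Agent.H80.IR.SEV
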