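import Pool.Agent.H80.IR.T.XC
set_option autoImplicit false

/-! # IR-X10 -/

namespace Pool.Agent.H80.IR.X10

open Pool.Agent.H80.Sig Finset Pool.Agent.H80.IR.XC

theorem main : S_E2 → S_E3 → S_E5 → S_STAR → S_QA10 → S_QB10 → S_X10 := by
  intro hE2 hE3 hE5 hSTAR hQA hQB p q a₁ a₂ b₁ b₂ c₁ c₂ L A B C hX hpq
  obtain ⟨M, hM⟩ := exists_LEV hX
  have e2 := hE2 p q a₁ a₂ b₁ b₂ c₁ c₂ L A B C M hX hM 1 (Nat.coprime_one_left M)
  have e3 := hE3 p q a₁ a₂ b₁ b₂ c₁ c₂ L A B C M hX hM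
  have e5 := hE5 p q a₁ a₂ b₁ b₂ c₁ c₂ L A B C M hX hM 1 (Nat.coprime_one_left M)
  obtain ⟨vL, vA, vB, vC, hN, hNa, hNb, hNc, hrel⟩ := hX
  obtain ⟨hM0, hM900, lL, lA, lB, lC⟩ := hM
  have ha := six hNa vA.head.2.1 vA.head.2.2
  have hb := ten hNb vB.head.2.1 vB.head.2.2
  have hc := fifteen hNc vC.head.2.1 vC.head.2.2
  have kA := kap_nonneg vA.tail
  have kB := kap_nonneg vB.tail
  have kC := kap_nonneg vC.tail
  rw [if_neg (by omega : ¬ p = 2), if_neg (by omega : ¬ (p = 2 ∨ q = 2)), zero_add] at e2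
  rw [if_neg (by omega : ¬ (p = 5 ∨ q = 5)), if_neg (by omega : ¬ p = 5), add_zero] at e5
  have hA2 : a₁ = 2 → A = [] := by
    intro h
    rw [if_pos h] at e2
    apply nil_of_kap vA.tail
    split_ifs at e2 <;> linarith
  have hC5 : c₁ = 5 → C = [] := by
    intro h
    rw [if_pos h] at e5
    apply nil_of_kap vC.tail
    split_ifs at e5 <;> linarith
  -- E3
  have e3' : ∀ u : ℕ, u.Coprime M → (if p = 3 then kap L u else 0) =
      ct 10 (3 * u) + kap A u + kap C u := by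
    intro u hu
    rw [e3 u hu, if_pos (by omega : p = 3 ∨ q = 3)]
    congr 1
    · congr 1
      rcases ha with h | h
      · rw [if_neg (by omega), hA2 h.1, kap_nil]
      · rw [if_pos h.1]
    · rcases hc with h | h
      · rw [if_pos h.1]
      · rw [if_neg (by omega), hC5 h.1, kap_nil]
  have hp : p = 3 := by
    by_contra hne
    have h1 := e3' 1 (Nat.coprime_one_left M)
    rw [if_neg hne, mul_one] at h1
    have h2 : 0 < ct 10 3 := ct_pos (by norm_num) (by norm_num)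
    linarith
  simp only [if_pos hp] at e3'
  have h10M : 10 ∣ M := (by norm_num : 10 ∣ 900).trans hM900
  refine final hSTAR (f := 10) (e := 3) (M := M) hM0 h10M (tail_lev lL) (tail_lev lA)
    (tail_lev lC) vL.tail vA.tail vC.tail (by norm_num) (by norm_num) (by norm_num) (by norm_num)
    (by norm_num) ?_ e3'
  intro N₁ N₂ N₃ h1 h2 h3 n1 n2 n3 hr
  have r1 := hr 1 (Nat.coprime_one_left M)
  rw [mul_one] at r1
  rcases hQA N₁ N₂ N₃ M hM0 h10M h1 h2 h3 n1 n2 n3 hr with ⟨x1, x2, x3⟩ |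
    ⟨m, N, x1, x3, x4, x5⟩
  · rw [x1, x2, x3] at r1
    exact hQB.1 r1
  · rcases x4 with ⟨y1, y2⟩ | ⟨y1, y2⟩
    · rw [y1] at n2
      rw [y2] at n3
      apply hQB.2 m N x1 n2 n3 x5
      rw [x3, y1, y2] at r1
      exact r1
    · rw [y1] at n2
      rw [y2] at n3
      apply hQB.2 m N x1 n3 n2 x5
      rw [x3, y1, y2] at r1
      linarith

end Pool.Agent.H80.IR.X10
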